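import Pool.Agent.H126.Orb.Stm

/-!
# Assembly (MP_6361d2_co)
-/

set_option autoImplicit false

open Set Metric MeasureTheory
open scoped RealInnerProductSpace ContDiff

namespace Pool.Agent.H126.Orb

/-- The normalised point on the sphere of radius `r`. -/
noncomputable def sp (r t : ℝ) : E 5 := (r / ‖nrm t‖) • nrm t

theorem norm_nrm_pos (t : ℝ) : 0 < ‖nrm t‖ := by
  rw [norm_pos_iff]
  intro h
  have h1 : (nrm t) 0 = (0 : E 5) 0 := by rw [h]
  simp [nrm] at h1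

theorem sp_mem {r : ℝ} (hr : 0 < r) (t : ℝ) : sp r t ∈ sphere (0 : E 5) r := by
  have h := norm_nrm_pos t
  rw [mem_sphere_zero_iff_norm, sp, norm_smul, norm_div, norm_norm, Real.norm_eq_abs,
    abs_of_pos hr, div_mul_cancel₀ _ h.ne']

theorem core_sp {r t : ℝ} (hr : 0 < r) (h0 : 0 < t) (h1 : t < 1) : core (sp r t) := by
  have hc : 0 < r / ‖nrm t‖ := div_pos hr (norm_nrm_pos t)
  refine ⟨?_, ?_, ?_, ?_⟩
  · show 0 < r / ‖nrm t‖ * t
    positivity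
  · show r / ‖nrm t‖ * t < r / ‖nrm t‖ * 1
    exact mul_lt_mul_of_pos_left h1 hc
  · left
    show r / ‖nrm t‖ * 1 ≠ 0
    rw [mul_one]
    exact hc.ne'
  · show 0 < r / ‖nrm t‖ * 1
    rw [mul_one]
    exact hc

theorem tt_sp {r t : ℝ} (hr : 0 < r) : tt (sp r t) = t := by
  have hc : 0 < r / ‖nrm t‖ := div_pos hr (norm_nrm_pos t)
  show (r / ‖nrm t‖ * t) / (r / ‖nrm t‖ * 1) = t
  rw [mul_one, mul_div_cancel_left₀ _ hc.ne']

theorem main (hMAN : S_MAN) (hSTR : S_STR) (hFULL : S_FULL) (hLAM : S_LAM) (hLOW : S_LOW)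
    (hUP : S_UP) : Main := by
  refine ⟨5, G, by norm_num, finite_G, fun r hr => ⟨hMAN r hr, ?_⟩⟩
  have hc : core (sp r (1 / 2)) := core_sp hr (by norm_num) (by norm_num)
  have hS := hSTR r hr _ (sp_mem hr (1 / 2)) hc
  refine ⟨sp r (1 / 2), sp_mem hr _, ?_, ?_, ?_⟩
  · intro w hw
    rw [hS] at hw
    rw [orbPoly_G]
    exact hFULL w hw.2
  · refine ⟨1 / 5, ?_⟩
    rintro _ ⟨w, hw, rfl⟩
    rw [hS] at hw
    show 1 / 5 ≤ lam1 (orbPoly G w)
    rw [orbPoly_G, hLAM w hw.2]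
    exact (hLOW _ (tt_pos hw.2) (tt_lt hw.2)).1.le
  · intro w hw
    rw [hS] at hw
    have h1 : 1 / 5 < lam1 (orbPoly G w) := by
      rw [orbPoly_G, hLAM w hw.2]
      exact (hLOW _ (tt_pos hw.2) (tt_lt hw.2)).1
    obtain ⟨t₀, h2, h3, h4⟩ := hUP (lam1 (orbPoly G w) - 1 / 5) (by linarith)
    have h5 : core (sp r ((t₀ + 1) / 2)) := core_sp hr (by linarith) (by linarith)
    refine ⟨sp r ((t₀ + 1) / 2), ?_, ?_⟩
    · rw [hS]
      exact ⟨sp_mem hr _, h5⟩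
    · have h6 := h4 ((t₀ + 1) / 2) (by linarith) (by linarith)
      rw [orbPoly_G (sp r ((t₀ + 1) / 2)), hLAM _ h5, tt_sp hr]
      linarith

end Pool.Agent.H126.Orb
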