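import Pool.Agent.H126.Orb.Stm

/-!
# The combinatorial type depends only on three discrete data (MP_6361d2_co, CODE)
-/

set_option autoImplicit false

open Set Metric MeasureTheory
open scoped RealInnerProductSpace ContDiff

namespace Pool.Agent.H126.Orb

open Pool.Agent.R29.OP (FaceSet)

namespace CODE

/-- The same index sets are faces: the same type. -/
theorem sameType_of_faceSet {p p' : I → E 5} (h : FaceSet p = FaceSet p') :
    SameType (convexHull ℝ (range p)) (convexHull ℝ (range p')) := by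
  obtain ⟨e1⟩ := Pool.Agent.R29.OP.faceIso 5 I p
  obtain ⟨e2⟩ := Pool.Agent.R29.OP.faceIso 5 I p'
  exact ⟨e1.trans ((OrderIso.setCongr _ _ h).trans e2.symm)⟩

/-- The linear maps that commute with the group. -/
noncomputable def mm (x c1 c2 a : ℝ) : E 5 →ₗ[ℝ] E 5 where
  toFun v := !₂[x * v 0, x * v 1, c1 * v 2 - c2 * v 3, c2 * v 2 + c1 * v 3, a * v 4]
  map_add' v w := by
    ext c; fin_cases c <;> simp <;> ring
  map_smul' r v := by
    ext c; fin_cases c <;> simp <;> ring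

theorem mm_apply (x c1 c2 a : ℝ) (v : E 5) :
    mm x c1 c2 a v = !₂[x * v 0, x * v 1, c1 * v 2 - c2 * v 3, c2 * v 2 + c1 * v 3, a * v 4] := rfl

theorem mm_pts (x c1 c2 a : ℝ) (w : E 5) (i : I) :
    mm x c1 c2 a (pts w i) = pts (mm x c1 c2 a w) i := by
  obtain ⟨b1, b2, s, j⟩ := i
  cases j <;> (ext c; fin_cases c <;> simp [mm_apply, pts] <;> ring)

theorem faceSet_mm (x c1 c2 a : ℝ) (w : E 5) :
    FaceSet (pts (mm x c1 c2 a w)) ⊆ FaceSet (pts w) := by
  rintro S ⟨c, h, h1, h2⟩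
  refine ⟨c.comp (LinearMap.toContinuousLinearMap (mm x c1 c2 a)), h, ?_, ?_⟩
  · intro i hi
    show c (mm x c1 c2 a (pts w i)) = h
    rw [mm_pts]
    exact h1 i hi
  · intro i hi
    show c (mm x c1 c2 a (pts w i)) < h
    rw [mm_pts]
    exact h2 i hi

/-- A normal form. -/
noncomputable def bse (z0 z1 : ℝ) (u v : Bool) : E 5 :=
  !₂[z0, z1, if u then 1 else 0, 0, if v then 1 else 0]

theorem normal_form (w : E 5) (u v : Bool) (hu : u = false ↔ (w 2 = 0 ∧ w 3 = 0))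
    (hv : v = false ↔ w 4 = 0) (x z0 z1 : ℝ) (hx : x ≠ 0) (h0 : w 0 = x * z0) (h1 : w 1 = x * z1) :
    FaceSet (pts w) = FaceSet (pts (bse z0 z1 u v)) := by
  obtain ⟨c1, c2, hc, hc1, hc2⟩ : ∃ c1 c2 : ℝ, c1 ^ 2 + c2 ^ 2 ≠ 0 ∧
      w 2 = c1 * (if u then 1 else 0) ∧ w 3 = c2 * (if u then 1 else 0) := by
    cases u with
    | false =>
      obtain ⟨h2, h3⟩ := hu.1 rfl
      exact ⟨1, 0, by norm_num, by simp [h2], by simp [h3]⟩
    | true =>
      refine ⟨w 2, w 3, ?_, by simp, by simp⟩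
      intro h
      have h2 : w 2 = 0 := by nlinarith [sq_nonneg (w 2), sq_nonneg (w 3)]
      have h3 : w 3 = 0 := by nlinarith [sq_nonneg (w 2), sq_nonneg (w 3)]
      have := hu.2 ⟨h2, h3⟩
      exact absurd this (by simp)
  obtain ⟨a, ha, ha4⟩ : ∃ a : ℝ, a ≠ 0 ∧ w 4 = a * (if v then 1 else 0) := by
    cases v with
    | false => exact ⟨1, one_ne_zero, by simp [hv.1 rfl]⟩
    | true =>
      refine ⟨w 4, ?_, by simp⟩
      intro h
      exact absurd (hv.2 h) (by simp)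
  apply Subset.antisymm
  · have e : w = mm x c1 c2 a (bse z0 z1 u v) := by
      ext c
      fin_cases c
      · simpa [mm_apply, bse] using h0
      · simpa [mm_apply, bse] using h1
      · simpa [mm_apply, bse] using hc1
      · simpa [mm_apply, bse] using hc2
      · simpa [mm_apply, bse] using ha4
    conv_lhs => rw [e]
    exact faceSet_mm _ _ _ _ _
  · have e : bse z0 z1 u v =
        mm x⁻¹ (c1 / (c1 ^ 2 + c2 ^ 2)) (-c2 / (c1 ^ 2 + c2 ^ 2)) a⁻¹ w := by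
      ext c
      fin_cases c
      · show z0 = x⁻¹ * w 0
        rw [h0]; field_simp
      · show z1 = x⁻¹ * w 1
        rw [h1]; field_simp
      · show (if u then (1:ℝ) else 0) = c1 / (c1 ^ 2 + c2 ^ 2) * w 2 - -c2 / (c1 ^ 2 + c2 ^ 2) * w 3
        rw [hc1, hc2]
        field_simp
        ring
      · show (0:ℝ) = -c2 / (c1 ^ 2 + c2 ^ 2) * w 2 + c1 / (c1 ^ 2 + c2 ^ 2) * w 3
        rw [hc1, hc2]
        field_simp
        ring
      · show (if v then (1:ℝ) else 0) = a⁻¹ * w 4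
        rw [ha4]; field_simp
    rw [e]
    exact faceSet_mm _ _ _ _ _

theorem mulI_inj (j : I) : Function.Surjective fun i => mulI i j := by
  intro l
  refine ⟨mulI l (invI j), ?_⟩
  show mulI (mulI l (invI j)) j = l
  rw [mulI_assoc, (mulI_invI j).2.1, (mulI_invI l).2.2.2]

theorem Q_pts (w : E 5) (j : I) : Q (pts w j) = Q w := by
  unfold Q
  congr 1
  ext x
  constructor
  · rintro ⟨i, rfl⟩
    exact ⟨mulI i j, (pts_mul w i j).symm⟩
  · rintro ⟨l, rfl⟩
    obtain ⟨i, hi⟩ := mulI_inj j l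
    refine ⟨i, ?_⟩
    rw [pts_mul]
    exact congrArg (pts w) hi

/-- The sign of a real number, as a Boolean. -/
noncomputable def sb (x : ℝ) : Bool := open Classical in decide (0 ≤ x)

theorem sg_sb (x : ℝ) : sg (sb x) * x = |x| := by
  unfold sb
  by_cases h : 0 ≤ x
  · simp [h, abs_of_nonneg h]
  · simp [h, abs_of_neg (not_le.1 h)]

/-- Normalisation by the group. -/
theorem exists_ordered (w : E 5) : ∃ j : I, 0 ≤ pts w j 1 ∧ pts w j 1 ≤ pts w j 0 ∧
    ((pts w j 2 = 0 ∧ pts w j 3 = 0) ↔ (w 2 = 0 ∧ w 3 = 0)) ∧ (pts w j 4 = 0 ↔ w 4 = 0) ∧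
    ((pts w j 0 = |w 0| ∧ pts w j 1 = |w 1|) ∨ (pts w j 0 = |w 1| ∧ pts w j 1 = |w 0|)) := by
  have hs : ∀ x : Bool, sg x ≠ 0 := by intro x; cases x <;> simp
  by_cases h : |w 1| ≤ |w 0|
  · refine ⟨(sb (w 0), sb (w 1), true, false), ?_⟩
    have e0 : pts w (sb (w 0), sb (w 1), true, false) 0 = |w 0| := by
      rw [← sg_sb]; simp [pts]
    have e1 : pts w (sb (w 0), sb (w 1), true, false) 1 = |w 1| := by
      rw [← sg_sb]; simp [pts]
    have e2 : pts w (sb (w 0), sb (w 1), true, false) 2 = w 2 := by simp [pts]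
    have e3 : pts w (sb (w 0), sb (w 1), true, false) 3 = w 3 := by simp [pts]
    have e4 : pts w (sb (w 0), sb (w 1), true, false) 4 = sg (sb (w 0)) * sg (sb (w 1)) * w 4 := by
      simp [pts]
    rw [e0, e1, e2, e3, e4]
    refine ⟨abs_nonneg _, h, Iff.rfl, ?_, Or.inl ⟨rfl, rfl⟩⟩
    simp [hs]
  · refine ⟨(sb (w 1), sb (w 0), true, true), ?_⟩
    have e0 : pts w (sb (w 1), sb (w 0), true, true) 0 = |w 1| := by
      rw [← sg_sb]; simp [pts]
    have e1 : pts w (sb (w 1), sb (w 0), true, true) 1 = |w 0| := by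
      rw [← sg_sb]; simp [pts]
    have e2 : pts w (sb (w 1), sb (w 0), true, true) 2 = - w 3 := by simp [pts]
    have e3 : pts w (sb (w 1), sb (w 0), true, true) 3 = w 2 := by simp [pts]
    have e4 : pts w (sb (w 1), sb (w 0), true, true) 4 =
        -(sg (sb (w 1)) * sg (sb (w 0)) * w 4) := by
      simp [pts]
    rw [e0, e1, e2, e3, e4]
    refine ⟨abs_nonneg _, (not_le.1 h).le, ?_, ?_, Or.inr ⟨rfl, rfl⟩⟩
    · rw [neg_eq_zero]; exact and_comm
    · simp [hs]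

/-- The normal form of a point. -/
theorem exists_normal (w : E 5) (u v : Bool) (hu : u = false ↔ (w 2 = 0 ∧ w 3 = 0))
    (hv : v = false ↔ w 4 = 0) : ∃ w1 : E 5, Q w1 = Q w ∧
      ((zt w = 0 ∧ FaceSet (pts w1) = FaceSet (pts (bse 0 0 u v))) ∨
       (zt w = 1 ∧ FaceSet (pts w1) = FaceSet (pts (bse 1 0 u v))) ∨
       (zt w = 2 ∧ FaceSet (pts w1) = FaceSet (pts (bse 1 1 u v))) ∨
       (zt w = 3 ∧ ∃ t : ℝ, 0 < t ∧ t < 1 ∧ FaceSet (pts w1) = FaceSet (pts (bse 1 t u v)))) := by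
  obtain ⟨j, h1, h2, h3, h4, h5⟩ := exists_ordered w
  refine ⟨pts w j, Q_pts w j, ?_⟩
  have key := normal_form (pts w j) u v (hu.trans h3.symm) (hv.trans h4.symm)
  unfold zt
  split_ifs with c0 c1 c2
  · left
    refine ⟨rfl, ?_⟩
    have e : pts w j 0 = 0 ∧ pts w j 1 = 0 := by
      rcases h5 with h5 | h5 <;> simp [h5.1, h5.2, c0.1, c0.2]
    exact key 1 0 0 one_ne_zero (by rw [e.1]; ring) (by rw [e.2]; ring)
  · right; left
    refine ⟨rfl, ?_⟩
    have e : pts w j 0 ≠ 0 ∧ pts w j 1 = 0 := by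
      have h0 : (|w 0| = 0 ∧ |w 1| ≠ 0) ∨ (|w 0| ≠ 0 ∧ |w 1| = 0) := by
        rcases c1 with c1 | c1
        · left
          refine ⟨by rw [c1, abs_zero], ?_⟩
          intro hh
          exact c0 ⟨c1, abs_eq_zero.1 hh⟩
        · right
          refine ⟨?_, by rw [c1, abs_zero]⟩
          intro hh
          exact c0 ⟨abs_eq_zero.1 hh, c1⟩
      have p0 := abs_nonneg (w 0)
      have p1 := abs_nonneg (w 1)
      rcases h5 with ⟨h5, h6⟩ | ⟨h5, h6⟩ <;> rw [h5, h6] at h2 ⊢ <;>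
        rcases h0 with ⟨h7, h8⟩ | ⟨h7, h8⟩
      · exact absurd (le_antisymm (h7 ▸ h2) p1) h8
      · exact ⟨h7, h8⟩
      · exact ⟨h8, h7⟩
      · exact absurd (le_antisymm (h8 ▸ h2) p0) h7
    exact key (pts w j 0) 1 0 e.1 (by ring) (by rw [e.2]; ring)
  · right; right; left
    refine ⟨rfl, ?_⟩
    rw [not_or] at c1
    have e : pts w j 0 ≠ 0 ∧ pts w j 1 = pts w j 0 := by
      rcases h5 with h5 | h5 <;> simp [h5.1, h5.2, c2, c1.2]
    exact key (pts w j 0) 1 1 e.1 (by ring) (by rw [e.2]; ring)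
  · right; right; right
    refine ⟨rfl, ?_⟩
    rw [not_or] at c1
    have p0 : 0 < |w 0| := abs_pos.2 c1.1
    have p1 : 0 < |w 1| := abs_pos.2 c1.2
    have e : 0 < pts w j 1 ∧ pts w j 1 < pts w j 0 := by
      rcases h5 with ⟨h5, h6⟩ | ⟨h5, h6⟩ <;> rw [h5, h6] at h2 ⊢
      · exact ⟨p1, lt_of_le_of_ne h2 (Ne.symm c2)⟩
      · exact ⟨p0, lt_of_le_of_ne h2 c2⟩
    have e0 : 0 < pts w j 0 := e.1.trans e.2
    refine ⟨pts w j 1 / pts w j 0, div_pos e.1 e0, (div_lt_one e0).2 e.2, ?_⟩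
    exact key (pts w j 0) 1 _ e0.ne' (by ring) (by field_simp)

theorem pat_eq (u v : Bool) (t : ℝ) : pat u v t = bse 1 t u v := rfl

end CODE

open CODE in
/-- **CODE.** -/
theorem code : S_CONST → S_CODE := by
  classical
  intro hC w w' hz h23 h4
  set u : Bool := !decide (w 2 = 0 ∧ w 3 = 0) with hu
  set v : Bool := !decide (w 4 = 0) with hv
  have hu1 : u = false ↔ (w 2 = 0 ∧ w 3 = 0) := by simp [hu]
  have hv1 : v = false ↔ w 4 = 0 := by simp [hv]
  obtain ⟨w1, hQ, hw⟩ := exists_normal w u v hu1 hv1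
  obtain ⟨w2, hQ', hw'⟩ := exists_normal w' u v (hu1.trans h23) (hv1.trans h4)
  rw [← hQ, ← hQ']
  apply sameType_of_faceSet
  rw [← hz] at hw'
  rcases hw with ⟨a, b⟩ | ⟨a, b⟩ | ⟨a, b⟩ | ⟨a, t, ht, ht1, b⟩ <;>
    rcases hw' with ⟨a', b'⟩ | ⟨a', b'⟩ | ⟨a', b'⟩ | ⟨a', t', ht', ht1', b'⟩ <;>
    first
    | omega
    | (rw [b, b']; done)
    | skip
  rw [b, b']
  exact Subset.antisymm (hC u v t t' ht ht1 ht' ht1') (hC u v t' t ht' ht1' ht ht1)

end Pool.Agent.H126.Orb
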