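import Pool.Agent.H126.Orb.Stm

/-!
# CONST: the index sets of faces do not depend on `t` (MP_6361d2_co)
-/

set_option autoImplicit false

open Set Metric MeasureTheory
open scoped RealInnerProductSpace ContDiff

namespace Pool.Agent.H126.Orb

open Pool.Agent.R29.OP (FaceSet)

namespace CONST

/-- `(a, b)` is a maximiser of `g`. -/
def Mx (g : Bool → Bool → ℝ) (a b : Bool) : Prop := ∀ c d, g c d ≤ g a b

theorem exists_mx (g : Bool → Bool → ℝ) : ∃ a b, Mx g a b := by
  obtain ⟨⟨a, b⟩, h⟩ := Finite.exists_max (fun x : Bool × Bool => g x.1 x.2)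
  exact ⟨a, b, fun c d => h (c, d)⟩

/-- The values of the functional. -/
def V (g h : Bool → Bool → ℝ) (b1 b2 : ℝ) : I → ℝ
  | (a, b, s, false) => g a b + sg s * b1
  | (a, b, s, true) => h a b + sg s * b2

theorem sg_mul_le (s : Bool) (x : ℝ) : sg s * x ≤ |x| := by
  cases s
  · simpa using neg_le_abs x
  · simpa using le_abs_self x

theorem exists_sg (x : ℝ) : ∃ s : Bool, sg s * x = |x| := by
  rcases le_total 0 x with h | h
  · exact ⟨true, by simp [abs_of_nonneg h]⟩
  · exact ⟨false, by simp [abs_of_nonpos h]⟩

theorem V_false {g h : Bool → Bool → ℝ} {a0 b0 c0 d0 : Bool} (hg : Mx g a0 b0) (hh : Mx h c0 d0)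
    (b1 b2 : ℝ) (a b s : Bool) :
    (∀ j, V g h b1 b2 j ≤ V g h b1 b2 (a, b, s, false)) ↔
      Mx g a b ∧ sg s * b1 = |b1| ∧ h c0 d0 + |b2| ≤ g a0 b0 + |b1| := by
  constructor
  · intro H
    obtain ⟨s1, hs1⟩ := exists_sg b1
    obtain ⟨s2, hs2⟩ := exists_sg b2
    have h1 := H (a0, b0, s1, false)
    have h2 := H (c0, d0, s2, true)
    simp only [V] at h1 h2
    rw [hs1] at h1
    rw [hs2] at h2
    have h3 := hg a b
    have h4 := sg_mul_le s b1
    refine ⟨fun c d => (hg c d).trans (by linarith), by linarith, by linarith⟩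
  · rintro ⟨h1, h2, h3⟩ ⟨c, d, r, j⟩
    have h4 : g a0 b0 ≤ g a b := h1 a0 b0
    cases j
    · have := h1 c d
      have h5 := sg_mul_le r b1
      simp only [V]
      linarith
    · have := hh c d
      have h5 := sg_mul_le r b2
      simp only [V]
      linarith

theorem V_true {g h : Bool → Bool → ℝ} {a0 b0 c0 d0 : Bool} (hg : Mx g a0 b0) (hh : Mx h c0 d0)
    (b1 b2 : ℝ) (a b s : Bool) :
    (∀ j, V g h b1 b2 j ≤ V g h b1 b2 (a, b, s, true)) ↔
      Mx h a b ∧ sg s * b2 = |b2| ∧ g a0 b0 + |b1| ≤ h c0 d0 + |b2| := by
  constructor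
  · intro H
    obtain ⟨s1, hs1⟩ := exists_sg b1
    obtain ⟨s2, hs2⟩ := exists_sg b2
    have h1 := H (a0, b0, s1, false)
    have h2 := H (c0, d0, s2, true)
    simp only [V] at h1 h2
    rw [hs1] at h1
    rw [hs2] at h2
    have h3 := hh a b
    have h4 := sg_mul_le s b2
    refine ⟨fun c d => (hh c d).trans (by linarith), by linarith, by linarith⟩
  · rintro ⟨h1, h2, h3⟩ ⟨c, d, r, j⟩
    have h4 : h c0 d0 ≤ h a b := h1 c0 d0
    cases j
    · have := hg c d
      have h5 := sg_mul_le r b1
      simp only [V]
      linarith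
    · have := h1 c d
      have h5 := sg_mul_le r b2
      simp only [V]
      linarith

/-- `x` and `y` have the same sign. -/
def SG (x y : ℝ) : Prop := (0 < x ↔ 0 < y) ∧ (x < 0 ↔ y < 0)

theorem SG.neg {x y : ℝ} (h : SG x y) : SG (-x) (-y) := by
  refine ⟨?_, ?_⟩
  · rw [neg_pos, neg_pos]; exact h.2
  · rw [neg_lt_zero, neg_lt_zero]; exact h.1

theorem SG.le {x y : ℝ} (h : SG x y) : x ≤ 0 ↔ y ≤ 0 := by
  rw [← not_lt, ← not_lt, h.1]

theorem SG.ge {x y : ℝ} (h : SG x y) : 0 ≤ x ↔ 0 ≤ y := by
  rw [← not_lt, ← not_lt, h.2]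

theorem SG.eq {x y : ℝ} (h : SG x y) : x = 0 ↔ y = 0 := by
  rw [le_antisymm_iff, le_antisymm_iff, h.le, h.ge]

theorem sg_pos {x y : ℝ} (hx : 0 < x) (hy : 0 < y) : SG x y :=
  ⟨⟨fun _ => hy, fun _ => hx⟩, ⟨fun h => by linarith, fun h => by linarith⟩⟩

theorem sg_neg {x y : ℝ} (hx : x < 0) (hy : y < 0) : SG x y :=
  ⟨⟨fun h => by linarith, fun h => by linarith⟩, ⟨fun _ => hy, fun _ => hx⟩⟩

theorem sg_zero {x y : ℝ} (hx : x = 0) (hy : y = 0) : SG x y := by
  subst hx hy; exact ⟨Iff.rfl, Iff.rfl⟩

/-- Choice of the absolute values of `β`. -/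
theorem choose_abs {d d' x y : ℝ} (h : SG d d') (hx : 0 ≤ x) (hy : 0 ≤ y) :
    ∃ x' y' : ℝ, 0 ≤ x' ∧ 0 ≤ y' ∧ (x = 0 ↔ x' = 0) ∧ (y = 0 ↔ y' = 0) ∧
      SG (d + x - y) (d' + x' - y') := by
  have ha := neg_abs_le d'
  have hb := le_abs_self d'
  have hc := abs_nonneg d'
  rcases hx.eq_or_lt with hx0 | hx0
  · rcases hy.eq_or_lt with hy0 | hy0
    · refine ⟨0, 0, le_rfl, le_rfl, by simp [hx0.symm], by simp [hy0.symm], ?_⟩
      rw [← hx0, ← hy0]; simpa using h
    · rcases lt_trichotomy (d + x - y) 0 with h1 | h1 | h1
      · exact ⟨0, |d'| + 1, le_rfl, by positivity, by simp [hx0.symm],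
          ⟨fun h => by linarith, fun h => by linarith⟩, sg_neg h1 (by linarith)⟩
      · have h2 : 0 < d' := h.1.1 (by linarith)
        exact ⟨0, d', le_rfl, h2.le, by simp [hx0.symm],
          ⟨fun h => by linarith, fun h => by linarith⟩, sg_zero h1 (by ring)⟩
      · have h2 : 0 < d' := h.1.1 (by linarith)
        exact ⟨0, d' / 2, le_rfl, by linarith, by simp [hx0.symm],
          ⟨fun h => by linarith, fun h => by linarith⟩, sg_pos h1 (by linarith)⟩
  · rcases hy.eq_or_lt with hy0 | hy0
    · rcases lt_trichotomy (d + x - y) 0 with h1 | h1 | h1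
      · have h2 : d' < 0 := h.2.1 (by linarith)
        exact ⟨-d' / 2, 0, by linarith, le_rfl, ⟨fun h => by linarith, fun h => by linarith⟩,
          by simp [hy0.symm], sg_neg h1 (by linarith)⟩
      · have h2 : d' < 0 := h.2.1 (by linarith)
        exact ⟨-d', 0, by linarith, le_rfl, ⟨fun h => by linarith, fun h => by linarith⟩,
          by simp [hy0.symm], sg_zero h1 (by ring)⟩
      · exact ⟨|d'| + 1, 0, by positivity, le_rfl, ⟨fun h => by linarith, fun h => by linarith⟩,
          by simp [hy0.symm], sg_pos h1 (by linarith)⟩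
    · rcases lt_trichotomy (d + x - y) 0 with h1 | h1 | h1
      · exact ⟨1, |d'| + 2, by norm_num, by positivity, ⟨fun h => by linarith, fun h => by linarith⟩,
          ⟨fun h => by linarith, fun h => by linarith⟩, sg_neg h1 (by linarith)⟩
      · exact ⟨|d'| + 1, d' + |d'| + 1, by positivity, by linarith,
          ⟨fun h => by linarith, fun h => by linarith⟩,
          ⟨fun h => by linarith, fun h => by linarith⟩, sg_zero h1 (by ring)⟩
      · exact ⟨|d'| + 2, 1, by positivity, by norm_num, ⟨fun h => by linarith, fun h => by linarith⟩,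
          ⟨fun h => by linarith, fun h => by linarith⟩, sg_pos h1 (by linarith)⟩

/-- The choice of `β'` with the same sign as `β` and absolute value `x'`. -/
theorem choose_sign {β x' : ℝ} (hx' : 0 ≤ x') (h : |β| = 0 ↔ x' = 0) :
    ∃ β' : ℝ, |β'| = x' ∧ (β = 0 → β' = 0) ∧ ∀ s, sg s * β = |β| ↔ sg s * β' = |β'| := by
  rcases lt_trichotomy β 0 with hb | hb | hb
  · have hx0 : 0 < x' := lt_of_le_of_ne hx' (fun h' => by
      have := h.2 h'.symm
      rw [abs_eq_zero] at this; linarith)
    refine ⟨-x', by rw [abs_neg, abs_of_pos hx0], fun h => by linarith, fun s => ?_⟩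
    rw [abs_neg, abs_of_pos hx0, abs_of_neg hb]
    cases s
    · simp
    · simp only [sg_true, one_mul]
      exact ⟨fun h => by linarith, fun h => by linarith⟩
  · subst hb
    have : x' = 0 := h.1 (by simp)
    subst this
    exact ⟨0, by simp, fun _ => rfl, fun s => Iff.rfl⟩
  · have hx0 : 0 < x' := lt_of_le_of_ne hx' (fun h' => by
      have := h.2 h'.symm
      rw [abs_eq_zero] at this; linarith)
    refine ⟨x', abs_of_pos hx0, fun h => by linarith, fun s => ?_⟩
    rw [abs_of_pos hx0, abs_of_pos hb]
    cases s
    · simp only [sg_false]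
      exact ⟨fun h => by linarith, fun h => by linarith⟩
    · simp

/-- The values for `j = 0`, `j = 1` (without `β`). -/
def g0 (t p q e : ℝ) (a b : Bool) : ℝ := sg a * p + sg b * (t * q) + sg a * sg b * e
def g1 (t p q e : ℝ) (a b : Bool) : ℝ := sg a * (t * p) + sg b * q - sg a * sg b * e

/-- The same data. -/
def Same (t p q e t' p' q' e' : ℝ) : Prop :=
  (∀ a b, Mx (g0 t p q e) a b ↔ Mx (g0 t' p' q' e') a b) ∧
  (∀ a b, Mx (g1 t p q e) a b ↔ Mx (g1 t' p' q' e') a b) ∧
  (∀ a b c d, Mx (g0 t p q e) a b → Mx (g1 t p q e) c d →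
    SG (g0 t p q e a b - g1 t p q e c d) (g0 t' p' q' e' a b - g1 t' p' q' e' c d)) ∧
  (e = 0 → e' = 0)

/-- There is a functional for `t'` with the same data. -/
def P (t t' p q e : ℝ) : Prop := ∃ p' q' e', Same t p q e t' p' q' e'

theorem g0_na (t p q e : ℝ) (a b : Bool) : g0 t (-p) q (-e) a b = g0 t p q e (!a) b := by
  cases a <;> simp [g0]

theorem g1_na (t p q e : ℝ) (a b : Bool) : g1 t (-p) q (-e) a b = g1 t p q e (!a) b := by
  cases a <;> simp [g1]

theorem g0_nb (t p q e : ℝ) (a b : Bool) : g0 t p (-q) (-e) a b = g0 t p q e a (!b) := by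
  cases b <;> simp [g0]

theorem g1_nb (t p q e : ℝ) (a b : Bool) : g1 t p (-q) (-e) a b = g1 t p q e a (!b) := by
  cases b <;> simp [g1]

theorem g0_sw (t p q e : ℝ) (a b : Bool) : g0 t q p (-e) a b = g1 t p q e b a := by
  simp only [g0, g1]; ring

theorem g1_sw (t p q e : ℝ) (a b : Bool) : g1 t q p (-e) a b = g0 t p q e b a := by
  simp only [g0, g1]; ring

theorem mx_na {g h : Bool → Bool → ℝ} (H : ∀ a b, h a b = g (!a) b) (a b : Bool) :
    Mx h a b ↔ Mx g (!a) b := by
  constructor
  · intro h1 c d
    have := h1 (!c) d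
    rw [H, H, Bool.not_not] at this
    exact this
  · intro h1 c d
    rw [H, H]
    exact h1 _ _

theorem mx_nb {g h : Bool → Bool → ℝ} (H : ∀ a b, h a b = g a (!b)) (a b : Bool) :
    Mx h a b ↔ Mx g a (!b) := by
  constructor
  · intro h1 c d
    have := h1 c (!d)
    rw [H, H, Bool.not_not] at this
    exact this
  · intro h1 c d
    rw [H, H]
    exact h1 _ _

theorem mx_sw {g h : Bool → Bool → ℝ} (H : ∀ a b, h a b = g b a) (a b : Bool) :
    Mx h a b ↔ Mx g b a := by
  constructor
  · intro h1 c d
    have := h1 d c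
    rw [H, H] at this
    exact this
  · intro h1 c d
    rw [H, H]
    exact h1 _ _

theorem P.na {t t' p q e : ℝ} (h : P t t' p q e) : P t t' (-p) q (-e) := by
  obtain ⟨p', q', e', h1, h2, h3, h4⟩ := h
  refine ⟨-p', q', -e', ?_, ?_, ?_, ?_⟩
  · intro a b
    rw [mx_na (g0_na t p q e), mx_na (g0_na t' p' q' e'), h1]
  · intro a b
    rw [mx_na (g1_na t p q e), mx_na (g1_na t' p' q' e'), h2]
  · intro a b c d
    rw [mx_na (g0_na t p q e), mx_na (g1_na t p q e), g0_na, g0_na, g1_na, g1_na]
    exact h3 _ _ _ _
  · intro h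
    rw [h4 (neg_eq_zero.1 h), neg_zero]

theorem P.nb {t t' p q e : ℝ} (h : P t t' p q e) : P t t' p (-q) (-e) := by
  obtain ⟨p', q', e', h1, h2, h3, h4⟩ := h
  refine ⟨p', -q', -e', ?_, ?_, ?_, ?_⟩
  · intro a b
    rw [mx_nb (g0_nb t p q e), mx_nb (g0_nb t' p' q' e'), h1]
  · intro a b
    rw [mx_nb (g1_nb t p q e), mx_nb (g1_nb t' p' q' e'), h2]
  · intro a b c d
    rw [mx_nb (g0_nb t p q e), mx_nb (g1_nb t p q e), g0_nb, g0_nb, g1_nb, g1_nb]
    exact h3 _ _ _ _
  · intro h
    rw [h4 (neg_eq_zero.1 h), neg_zero]

theorem P.sw {t t' p q e : ℝ} (h : P t t' p q e) : P t t' q p (-e) := by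
  obtain ⟨p', q', e', h1, h2, h3, h4⟩ := h
  refine ⟨q', p', -e', ?_, ?_, ?_, ?_⟩
  · intro a b
    rw [mx_sw (g0_sw t p q e), mx_sw (g0_sw t' p' q' e'), h2]
  · intro a b
    rw [mx_sw (g1_sw t p q e), mx_sw (g1_sw t' p' q' e'), h1]
  · intro a b c d ha hc
    rw [mx_sw (g0_sw t p q e)] at ha
    rw [mx_sw (g1_sw t p q e)] at hc
    have := (h3 _ _ _ _ hc ha).neg
    rw [g0_sw, g0_sw, g1_sw, g1_sw]
    rwa [neg_sub, neg_sub] at this
  · intro h
    rw [h4 (neg_eq_zero.1 h), neg_zero]

/-- The positions of the maxima, for `0 ≤ q ≤ p`, `0 < p`. -/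
structure Dat (t p q e : ℝ) : Prop where
  a1 : Mx (g0 t p q e) true true ↔ 0 ≤ t * q + e
  a2 : Mx (g0 t p q e) true false ↔ t * q + e ≤ 0
  a3 : ∀ b, ¬ Mx (g0 t p q e) false b
  b1 : Mx (g1 t p q e) true true ↔ e ≤ q ∧ e ≤ t * p
  b2 : Mx (g1 t p q e) true false ↔ q ≤ e ∧ q ≤ t * p
  b3 : Mx (g1 t p q e) false true ↔ t * p ≤ q ∧ t * p ≤ e
  b4 : ¬ Mx (g1 t p q e) false false

theorem dat {t p q e : ℝ} (ht : 0 < t) (ht1 : t < 1) (hp : 0 < p) (hq : 0 ≤ q) (hqp : q ≤ p) :
    Dat t p q e := by
  have h1 : 0 ≤ t * q := mul_nonneg ht.le hq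
  have h2 : t * q < p := by nlinarith
  have h3 : 0 < t * p := mul_pos ht hp
  have h4 : t * p < p := by nlinarith
  refine ⟨?_, ?_, ?_, ?_, ?_, ?_, ?_⟩
  all_goals simp only [Mx, g0, g1, Bool.forall_bool, sg_true, sg_false]
  · constructor
    · intro h; linarith [h.1.1, h.1.2, h.2.1, h.2.2]
    · intro h; refine ⟨⟨?_, ?_⟩, ?_, ?_⟩ <;> linarith
  · constructor
    · intro h; linarith [h.1.1, h.1.2, h.2.1, h.2.2]
    · intro h; refine ⟨⟨?_, ?_⟩, ?_, ?_⟩ <;> linarith
  · refine ⟨?_, ?_⟩ <;> · intro h; linarith [h.1.1, h.1.2, h.2.1, h.2.2]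
  · constructor
    · intro h; constructor <;> linarith [h.1.1, h.1.2, h.2.1, h.2.2]
    · rintro ⟨h, h'⟩; refine ⟨⟨?_, ?_⟩, ?_, ?_⟩ <;> linarith
  · constructor
    · intro h; constructor <;> linarith [h.1.1, h.1.2, h.2.1, h.2.2]
    · rintro ⟨h, h'⟩; refine ⟨⟨?_, ?_⟩, ?_, ?_⟩ <;> linarith
  · constructor
    · intro h; constructor <;> linarith [h.1.1, h.1.2, h.2.1, h.2.2]
    · rintro ⟨h, h'⟩; refine ⟨⟨?_, ?_⟩, ?_, ?_⟩ <;> linarith
  · intro h; linarith [h.1.1, h.1.2, h.2.1, h.2.2]

/-- Same data from the same inequalities. -/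
theorem same_of {t p q e t' p' q' e' : ℝ} (D : Dat t p q e) (D' : Dat t' p' q' e')
    (c1 : 0 ≤ t * q + e ↔ 0 ≤ t' * q' + e') (c2 : t * q + e ≤ 0 ↔ t' * q' + e' ≤ 0)
    (c3 : (e ≤ q ∧ e ≤ t * p) ↔ (e' ≤ q' ∧ e' ≤ t' * p'))
    (c4 : (q ≤ e ∧ q ≤ t * p) ↔ (q' ≤ e' ∧ q' ≤ t' * p'))
    (c5 : (t * p ≤ q ∧ t * p ≤ e) ↔ (t' * p' ≤ q' ∧ t' * p' ≤ e'))
    (s1 : 0 ≤ t * q + e → (e ≤ q ∧ e ≤ t * p) →
      SG (p + t * q + e - (t * p + q - e)) (p' + t' * q' + e' - (t' * p' + q' - e')))
    (s2 : 0 ≤ t * q + e → (q ≤ e ∧ q ≤ t * p) →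
      SG (p + t * q + e - (t * p - q + e)) (p' + t' * q' + e' - (t' * p' - q' + e')))
    (s3 : 0 ≤ t * q + e → (t * p ≤ q ∧ t * p ≤ e) →
      SG (p + t * q + e - (-(t * p) + q + e)) (p' + t' * q' + e' - (-(t' * p') + q' + e')))
    (s4 : t * q + e ≤ 0 → (e ≤ q ∧ e ≤ t * p) →
      SG (p - t * q - e - (t * p + q - e)) (p' - t' * q' - e' - (t' * p' + q' - e')))
    (s5 : t * q + e ≤ 0 → (q ≤ e ∧ q ≤ t * p) →
      SG (p - t * q - e - (t * p - q + e)) (p' - t' * q' - e' - (t' * p' - q' + e')))
    (s6 : t * q + e ≤ 0 → (t * p ≤ q ∧ t * p ≤ e) →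
      SG (p - t * q - e - (-(t * p) + q + e)) (p' - t' * q' - e' - (-(t' * p') + q' + e')))
    (z : e = 0 → e' = 0) : Same t p q e t' p' q' e' := by
  refine ⟨?_, ?_, ?_, z⟩
  · intro a b
    cases a
    · exact ⟨fun h => absurd h (D.a3 b), fun h => absurd h (D'.a3 b)⟩
    · cases b
      · rw [D.a2, D'.a2, c2]
      · rw [D.a1, D'.a1, c1]
  · intro a b
    cases a
    · cases b
      · exact ⟨fun h => absurd h D.b4, fun h => absurd h D'.b4⟩
      · rw [D.b3, D'.b3, c5]
    · cases b
      · rw [D.b2, D'.b2, c4]
      · rw [D.b1, D'.b1, c3]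
  · intro a b c d h1 h2
    cases a
    · exact absurd h1 (D.a3 b)
    · cases b
      · rw [D.a2] at h1
        cases c
        · cases d
          · exact absurd h2 D.b4
          · have := s6 h1 (D.b3.1 h2)
            simp only [g0, g1, sg_true, sg_false]
            convert this using 1 <;> ring
        · cases d
          · have := s5 h1 (D.b2.1 h2)
            simp only [g0, g1, sg_true, sg_false]
            convert this using 1 <;> ring
          · have := s4 h1 (D.b1.1 h2)
            simp only [g0, g1, sg_true, sg_false]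
            convert this using 1 <;> ring
      · rw [D.a1] at h1
        cases c
        · cases d
          · exact absurd h2 D.b4
          · have := s3 h1 (D.b3.1 h2)
            simp only [g0, g1, sg_true, sg_false]
            convert this using 1 <;> ring
        · cases d
          · have := s2 h1 (D.b2.1 h2)
            simp only [g0, g1, sg_true, sg_false]
            convert this using 1 <;> ring
          · have := s1 h1 (D.b1.1 h2)
            simp only [g0, g1, sg_true, sg_false]
            convert this using 1 <;> ring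


theorem core_P {t t' p q e : ℝ} (ht : 0 < t) (ht1 : t < 1) (ht' : 0 < t') (ht1' : t' < 1)
    (hp : 0 < p) (hq : 0 ≤ q) (hqp : q ≤ p) : P t t' p q e := by
  have D := dat (e := e) ht ht1 hp hq hqp
  have h1 : 0 ≤ t * q := mul_nonneg ht.le hq
  have h2 : t * q < p := by nlinarith
  have h3 : 0 < t * p := mul_pos ht hp
  have h4 : t * p < p := by nlinarith
  have h5 : t * q ≤ q := by nlinarith
  have k1 : 0 < t' * t' := mul_pos ht' ht'
  have k2 : t' * t' < t' := by nlinarith
  by_cases hU : q ≤ e ∨ t * p ≤ e
  · rcases lt_trichotomy q (t * p) with hqt | hqt | hqt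
    · have hqe : q ≤ e := by rcases hU with h | h <;> linarith
      rcases hqe.eq_or_lt with hqe | hqe
      · rcases hq.eq_or_lt with hq0 | hq0
        · have D' : Dat t' 1 0 0 := dat ht' ht1' (by norm_num) (by norm_num) (by norm_num)
          have k3 : t * q = 0 := by rw [← hq0, mul_zero]
          refine ⟨1, 0, 0, same_of D D' ?_ ?_ ?_ ?_ ?_ ?_ ?_ ?_ ?_ ?_ ?_ ?_⟩
          all_goals first
              | exact iff_of_true (by linarith) (by linarith)
              | exact iff_of_false (fun h => by linarith) (fun h => by linarith)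
              | exact iff_of_true ⟨by linarith, by linarith⟩ ⟨by linarith, by linarith⟩
              | exact iff_of_false (fun h => by linarith [h.1, h.2]) (fun h => by linarith [h.1, h.2])
              | exact fun h h' => by exfalso; linarith [h'.1, h'.2]
              | exact fun h h' => sg_pos (by linarith) (by linarith)
              | exact fun h h' => sg_neg (by linarith) (by linarith)
              | exact fun h h' => sg_zero (by linarith) (by linarith)
              | exact fun h => by linarith
        · have D' : Dat t' 1 (t' / 2) (t' / 2) :=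
            dat ht' ht1' (by norm_num) (by linarith) (by linarith)
          have k3 : 0 < t * q := mul_pos ht hq0
          refine ⟨1, t' / 2, t' / 2, same_of D D' ?_ ?_ ?_ ?_ ?_ ?_ ?_ ?_ ?_ ?_ ?_ ?_⟩
          all_goals first
              | exact iff_of_true (by linarith) (by linarith)
              | exact iff_of_false (fun h => by linarith) (fun h => by linarith)
              | exact iff_of_true ⟨by linarith, by linarith⟩ ⟨by linarith, by linarith⟩
              | exact iff_of_false (fun h => by linarith [h.1, h.2]) (fun h => by linarith [h.1, h.2])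
              | exact fun h h' => by exfalso; linarith [h'.1, h'.2]
              | exact fun h h' => sg_pos (by linarith) (by linarith)
              | exact fun h h' => sg_neg (by linarith) (by linarith)
              | exact fun h h' => sg_zero (by linarith) (by linarith)
              | exact fun h => by linarith
      · have D' : Dat t' 1 (t' / 2) 1 :=
          dat ht' ht1' (by norm_num) (by linarith) (by linarith)
        refine ⟨1, t' / 2, 1, same_of D D' ?_ ?_ ?_ ?_ ?_ ?_ ?_ ?_ ?_ ?_ ?_ ?_⟩
        all_goals first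
            | exact iff_of_true (by linarith) (by linarith)
            | exact iff_of_false (fun h => by linarith) (fun h => by linarith)
            | exact iff_of_true ⟨by linarith, by linarith⟩ ⟨by linarith, by linarith⟩
            | exact iff_of_false (fun h => by linarith [h.1, h.2]) (fun h => by linarith [h.1, h.2])
            | exact fun h h' => by exfalso; linarith [h'.1, h'.2]
            | exact fun h h' => sg_pos (by linarith) (by linarith)
            | exact fun h h' => sg_neg (by linarith) (by linarith)
            | exact fun h h' => sg_zero (by linarith) (by linarith)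
            | exact fun h => by linarith
    · have hqe : q ≤ e := by rcases hU with h | h <;> linarith
      rcases hqe.eq_or_lt with hqe | hqe
      · have D' : Dat t' 1 t' t' :=
          dat ht' ht1' (by norm_num) (by linarith) (by linarith)
        refine ⟨1, t', t', same_of D D' ?_ ?_ ?_ ?_ ?_ ?_ ?_ ?_ ?_ ?_ ?_ ?_⟩
        all_goals first
            | exact iff_of_true (by linarith) (by linarith)
            | exact iff_of_false (fun h => by linarith) (fun h => by linarith)
            | exact iff_of_true ⟨by linarith, by linarith⟩ ⟨by linarith, by linarith⟩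
            | exact iff_of_false (fun h => by linarith [h.1, h.2]) (fun h => by linarith [h.1, h.2])
            | exact fun h h' => by exfalso; linarith [h'.1, h'.2]
            | exact fun h h' => sg_pos (by linarith) (by linarith)
            | exact fun h h' => sg_neg (by linarith) (by linarith)
            | exact fun h h' => sg_zero (by linarith) (by linarith)
            | exact fun h => by linarith
      · have D' : Dat t' 1 t' 1 :=
          dat ht' ht1' (by norm_num) (by linarith) (by linarith)
        refine ⟨1, t', 1, same_of D D' ?_ ?_ ?_ ?_ ?_ ?_ ?_ ?_ ?_ ?_ ?_ ?_⟩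
        all_goals first
            | exact iff_of_true (by linarith) (by linarith)
            | exact iff_of_false (fun h => by linarith) (fun h => by linarith)
            | exact iff_of_true ⟨by linarith, by linarith⟩ ⟨by linarith, by linarith⟩
            | exact iff_of_false (fun h => by linarith [h.1, h.2]) (fun h => by linarith [h.1, h.2])
            | exact fun h h' => by exfalso; linarith [h'.1, h'.2]
            | exact fun h h' => sg_pos (by linarith) (by linarith)
            | exact fun h h' => sg_neg (by linarith) (by linarith)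
            | exact fun h h' => sg_zero (by linarith) (by linarith)
            | exact fun h => by linarith
    · have hqe : t * p ≤ e := by rcases hU with h | h <;> linarith
      rcases hqe.eq_or_lt with hqe | hqe
      · have D' : Dat t' 1 ((1 + t') / 2) t' :=
          dat ht' ht1' (by norm_num) (by linarith) (by linarith)
        refine ⟨1, (1 + t') / 2, t', same_of D D' ?_ ?_ ?_ ?_ ?_ ?_ ?_ ?_ ?_ ?_ ?_ ?_⟩
        all_goals first
            | exact iff_of_true (by linarith) (by linarith)
            | exact iff_of_false (fun h => by linarith) (fun h => by linarith)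
            | exact iff_of_true ⟨by linarith, by linarith⟩ ⟨by linarith, by linarith⟩
            | exact iff_of_false (fun h => by linarith [h.1, h.2]) (fun h => by linarith [h.1, h.2])
            | exact fun h h' => by exfalso; linarith [h'.1, h'.2]
            | exact fun h h' => sg_pos (by linarith) (by linarith)
            | exact fun h h' => sg_neg (by linarith) (by linarith)
            | exact fun h h' => sg_zero (by linarith) (by linarith)
            | exact fun h => by linarith
      · have D' : Dat t' 1 ((1 + t') / 2) 1 :=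
          dat ht' ht1' (by norm_num) (by linarith) (by linarith)
        refine ⟨1, (1 + t') / 2, 1, same_of D D' ?_ ?_ ?_ ?_ ?_ ?_ ?_ ?_ ?_ ?_ ?_ ?_⟩
        all_goals first
            | exact iff_of_true (by linarith) (by linarith)
            | exact iff_of_false (fun h => by linarith) (fun h => by linarith)
            | exact iff_of_true ⟨by linarith, by linarith⟩ ⟨by linarith, by linarith⟩
            | exact iff_of_false (fun h => by linarith [h.1, h.2]) (fun h => by linarith [h.1, h.2])
            | exact fun h h' => by exfalso; linarith [h'.1, h'.2]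
            | exact fun h h' => sg_pos (by linarith) (by linarith)
            | exact fun h h' => sg_neg (by linarith) (by linarith)
            | exact fun h h' => sg_zero (by linarith) (by linarith)
            | exact fun h => by linarith
  · rw [not_or, not_le, not_le] at hU
    obtain ⟨e1, e2⟩ := hU
    rcases lt_or_ge (-(t * q)) e with e3 | e3
    · rcases lt_trichotomy (p + t * q + e - (t * p + q - e)) 0 with g | g | g
      · have e4 : e < 0 := by nlinarith [mul_nonneg (sub_nonneg.2 ht1.le) (sub_nonneg.2 hqp)]
        have D' : Dat t' 1 1 (-(t' / 2)) :=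
          dat ht' ht1' (by norm_num) (by linarith) (by linarith)
        refine ⟨1, 1, -(t' / 2), same_of D D' ?_ ?_ ?_ ?_ ?_ ?_ ?_ ?_ ?_ ?_ ?_ ?_⟩
        all_goals first
            | exact iff_of_true (by linarith) (by linarith)
            | exact iff_of_false (fun h => by linarith) (fun h => by linarith)
            | exact iff_of_true ⟨by linarith, by linarith⟩ ⟨by linarith, by linarith⟩
            | exact iff_of_false (fun h => by linarith [h.1, h.2]) (fun h => by linarith [h.1, h.2])
            | exact fun h h' => by exfalso; linarith [h'.1, h'.2]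
            | exact fun h h' => sg_pos (by linarith) (by linarith)
            | exact fun h h' => sg_neg (by linarith) (by linarith)
            | exact fun h h' => sg_zero (by linarith) (by linarith)
            | exact fun h => by linarith
      · have D' : Dat t' 1 1 0 :=
          dat ht' ht1' (by norm_num) (by linarith) (by linarith)
        refine ⟨1, 1, 0, same_of D D' ?_ ?_ ?_ ?_ ?_ ?_ ?_ ?_ ?_ ?_ ?_ ?_⟩
        all_goals first
            | exact iff_of_true (by linarith) (by linarith)
            | exact iff_of_false (fun h => by linarith) (fun h => by linarith)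
            | exact iff_of_true ⟨by linarith, by linarith⟩ ⟨by linarith, by linarith⟩
            | exact iff_of_false (fun h => by linarith [h.1, h.2]) (fun h => by linarith [h.1, h.2])
            | exact fun h h' => by exfalso; linarith [h'.1, h'.2]
            | exact fun h h' => sg_pos (by linarith) (by linarith)
            | exact fun h h' => sg_neg (by linarith) (by linarith)
            | exact fun h h' => sg_zero (by linarith) (by linarith)
            | exact fun h => by linarith
      · have D' : Dat t' 1 (1 / 2) 0 :=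
          dat ht' ht1' (by norm_num) (by linarith) (by linarith)
        refine ⟨1, 1 / 2, 0, same_of D D' ?_ ?_ ?_ ?_ ?_ ?_ ?_ ?_ ?_ ?_ ?_ ?_⟩
        all_goals first
            | exact iff_of_true (by linarith) (by linarith)
            | exact iff_of_false (fun h => by linarith) (fun h => by linarith)
            | exact iff_of_true ⟨by linarith, by linarith⟩ ⟨by linarith, by linarith⟩
            | exact iff_of_false (fun h => by linarith [h.1, h.2]) (fun h => by linarith [h.1, h.2])
            | exact fun h h' => by exfalso; linarith [h'.1, h'.2]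
            | exact fun h h' => sg_pos (by linarith) (by linarith)
            | exact fun h h' => sg_neg (by linarith) (by linarith)
            | exact fun h h' => sg_zero (by linarith) (by linarith)
            | exact fun h => by linarith
    · have e4 : e < 0 := by
        rcases hq.eq_or_lt with h | h
        · rw [← h] at e1; exact e1
        · have := mul_pos ht h
          linarith
      obtain ⟨r, hr⟩ : ∃ r, r = (1 - t') / (1 + t') := ⟨_, rfl⟩
      have r0 : 0 < r := by rw [hr]; exact div_pos (by linarith) (by linarith)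
      have r1 : r * (1 + t') = 1 - t' := by
        rw [hr]; exact div_mul_cancel₀ _ (by linarith)
      have r2 : 0 < t' * r := mul_pos ht' r0
      have r3 : r < 1 := by linarith
      have r4 : t' * r < t' := by nlinarith
      rcases e3.eq_or_lt with e5 | e5
      · rcases lt_trichotomy (p - t * q - e - (t * p + q - e)) 0 with g | g | g
        · have D' : Dat t' 1 1 (-t') :=
            dat ht' ht1' (by norm_num) (by linarith) (by linarith)
          refine ⟨1, 1, -t', same_of D D' ?_ ?_ ?_ ?_ ?_ ?_ ?_ ?_ ?_ ?_ ?_ ?_⟩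
          all_goals first
              | exact iff_of_true (by linarith) (by linarith)
              | exact iff_of_false (fun h => by linarith) (fun h => by linarith)
              | exact iff_of_true ⟨by linarith, by linarith⟩ ⟨by linarith, by linarith⟩
              | exact iff_of_false (fun h => by linarith [h.1, h.2]) (fun h => by linarith [h.1, h.2])
              | exact fun h h' => by exfalso; linarith [h'.1, h'.2]
              | exact fun h h' => sg_pos (by linarith) (by linarith)
              | exact fun h h' => sg_neg (by linarith) (by linarith)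
              | exact fun h h' => sg_zero (by linarith) (by linarith)
              | exact fun h => by linarith
        · have D' : Dat t' 1 r (-(t' * r)) :=
            dat ht' ht1' (by norm_num) (by linarith) (by linarith)
          refine ⟨1, r, -(t' * r), same_of D D' ?_ ?_ ?_ ?_ ?_ ?_ ?_ ?_ ?_ ?_ ?_ ?_⟩
          all_goals first
              | exact iff_of_true (by linarith) (by linarith)
              | exact iff_of_false (fun h => by linarith) (fun h => by linarith)
              | exact iff_of_true ⟨by linarith, by linarith⟩ ⟨by linarith, by linarith⟩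
              | exact iff_of_false (fun h => by linarith [h.1, h.2]) (fun h => by linarith [h.1, h.2])
              | exact fun h h' => by exfalso; linarith [h'.1, h'.2]
              | exact fun h h' => sg_pos (by linarith) (by linarith)
              | exact fun h h' => sg_neg (by linarith) (by linarith)
              | exact fun h h' => sg_zero (by linarith) (by linarith)
              | exact fun h => by linarith
        · have D' : Dat t' 1 (r / 2) (-(t' * r / 2)) :=
            dat ht' ht1' (by norm_num) (by linarith) (by linarith)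
          refine ⟨1, r / 2, -(t' * r / 2), same_of D D' ?_ ?_ ?_ ?_ ?_ ?_ ?_ ?_ ?_ ?_ ?_ ?_⟩
          all_goals first
              | exact iff_of_true (by linarith) (by linarith)
              | exact iff_of_false (fun h => by linarith) (fun h => by linarith)
              | exact iff_of_true ⟨by linarith, by linarith⟩ ⟨by linarith, by linarith⟩
              | exact iff_of_false (fun h => by linarith [h.1, h.2]) (fun h => by linarith [h.1, h.2])
              | exact fun h h' => by exfalso; linarith [h'.1, h'.2]
              | exact fun h h' => sg_pos (by linarith) (by linarith)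
              | exact fun h h' => sg_neg (by linarith) (by linarith)
              | exact fun h h' => sg_zero (by linarith) (by linarith)
              | exact fun h => by linarith
      · rcases lt_trichotomy (p - t * q - e - (t * p + q - e)) 0 with g | g | g
        · have D' : Dat t' 1 1 (-1) :=
            dat ht' ht1' (by norm_num) (by linarith) (by linarith)
          refine ⟨1, 1, -1, same_of D D' ?_ ?_ ?_ ?_ ?_ ?_ ?_ ?_ ?_ ?_ ?_ ?_⟩
          all_goals first
              | exact iff_of_true (by linarith) (by linarith)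
              | exact iff_of_false (fun h => by linarith) (fun h => by linarith)
              | exact iff_of_true ⟨by linarith, by linarith⟩ ⟨by linarith, by linarith⟩
              | exact iff_of_false (fun h => by linarith [h.1, h.2]) (fun h => by linarith [h.1, h.2])
              | exact fun h h' => by exfalso; linarith [h'.1, h'.2]
              | exact fun h h' => sg_pos (by linarith) (by linarith)
              | exact fun h h' => sg_neg (by linarith) (by linarith)
              | exact fun h h' => sg_zero (by linarith) (by linarith)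
              | exact fun h => by linarith
        · have D' : Dat t' 1 r (-1) :=
            dat ht' ht1' (by norm_num) (by linarith) (by linarith)
          refine ⟨1, r, -1, same_of D D' ?_ ?_ ?_ ?_ ?_ ?_ ?_ ?_ ?_ ?_ ?_ ?_⟩
          all_goals first
              | exact iff_of_true (by linarith) (by linarith)
              | exact iff_of_false (fun h => by linarith) (fun h => by linarith)
              | exact iff_of_true ⟨by linarith, by linarith⟩ ⟨by linarith, by linarith⟩
              | exact iff_of_false (fun h => by linarith [h.1, h.2]) (fun h => by linarith [h.1, h.2])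
              | exact fun h h' => by exfalso; linarith [h'.1, h'.2]
              | exact fun h h' => sg_pos (by linarith) (by linarith)
              | exact fun h h' => sg_neg (by linarith) (by linarith)
              | exact fun h h' => sg_zero (by linarith) (by linarith)
              | exact fun h => by linarith
        · have D' : Dat t' 1 (r / 2) (-1) :=
            dat ht' ht1' (by norm_num) (by linarith) (by linarith)
          refine ⟨1, r / 2, -1, same_of D D' ?_ ?_ ?_ ?_ ?_ ?_ ?_ ?_ ?_ ?_ ?_ ?_⟩
          all_goals first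
              | exact iff_of_true (by linarith) (by linarith)
              | exact iff_of_false (fun h => by linarith) (fun h => by linarith)
              | exact iff_of_true ⟨by linarith, by linarith⟩ ⟨by linarith, by linarith⟩
              | exact iff_of_false (fun h => by linarith [h.1, h.2]) (fun h => by linarith [h.1, h.2])
              | exact fun h h' => by exfalso; linarith [h'.1, h'.2]
              | exact fun h h' => sg_pos (by linarith) (by linarith)
              | exact fun h h' => sg_neg (by linarith) (by linarith)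
              | exact fun h h' => sg_zero (by linarith) (by linarith)
              | exact fun h => by linarith

theorem P_zero (t t' e : ℝ) : P t t' 0 0 e := by
  have h0 : g0 t 0 0 e = g0 t' 0 0 e := by funext a b; simp [g0]
  have h1 : g1 t 0 0 e = g1 t' 0 0 e := by funext a b; simp [g1]
  refine ⟨0, 0, e, ?_, ?_, ?_, id⟩
  · intro a b; rw [h0]
  · intro a b; rw [h1]
  · intro a b c d _ _
    rw [h0, h1]
    exact ⟨Iff.rfl, Iff.rfl⟩

theorem P_nonneg {t t' p q e : ℝ} (ht : 0 < t) (ht1 : t < 1) (ht' : 0 < t') (ht1' : t' < 1)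
    (hp : 0 ≤ p) (hq : 0 ≤ q) : P t t' p q e := by
  rcases le_total q p with h | h
  · rcases hp.eq_or_lt with h' | h'
    · have : q = 0 := by linarith
      rw [this, ← h']; exact P_zero t t' e
    · exact core_P ht ht1 ht' ht1' h' hq h
  · rcases hq.eq_or_lt with h' | h'
    · have : p = 0 := by linarith
      rw [this, ← h']; exact P_zero t t' e
    · have := (core_P (e := -e) ht ht1 ht' ht1' h' hp h).sw
      rwa [neg_neg] at this

theorem P_all {t t' : ℝ} (ht : 0 < t) (ht1 : t < 1) (ht' : 0 < t') (ht1' : t' < 1)
    (p q e : ℝ) : P t t' p q e := by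
  rcases le_total 0 p with h | h
  · rcases le_total 0 q with h' | h'
    · exact P_nonneg ht ht1 ht' ht1' h h'
    · have := (P_nonneg (e := -e) ht ht1 ht' ht1' h (neg_nonneg.2 h')).nb
      rwa [neg_neg, neg_neg] at this
  · rcases le_total 0 q with h' | h'
    · have := (P_nonneg (e := -e) ht ht1 ht' ht1' (neg_nonneg.2 h) h').na
      rwa [neg_neg, neg_neg] at this
    · have := (P_nonneg (e := e) ht ht1 ht' ht1' (neg_nonneg.2 h) (neg_nonneg.2 h')).na.nb
      rwa [neg_neg, neg_neg, neg_neg] at this

/-- The transfer of all five coordinates. -/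
theorem transfer {t t' : ℝ} (ht : 0 < t) (ht1 : t < 1) (ht' : 0 < t') (ht1' : t' < 1)
    (p q b1 b2 e : ℝ) : ∃ p' q' b1' b2' e' : ℝ, (b1 = 0 → b1' = 0) ∧ (b2 = 0 → b2' = 0) ∧
      (e = 0 → e' = 0) ∧ ∀ i, (∀ j, V (g0 t p q e) (g1 t p q e) b1 b2 j ≤
        V (g0 t p q e) (g1 t p q e) b1 b2 i) ↔
        ∀ j, V (g0 t' p' q' e') (g1 t' p' q' e') b1' b2' j ≤
          V (g0 t' p' q' e') (g1 t' p' q' e') b1' b2' i := by
  obtain ⟨p', q', e', h1, h2, h3, h4⟩ := P_all ht ht1 ht' ht1' p q e
  obtain ⟨a0, b0, hg⟩ := exists_mx (g0 t p q e)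
  obtain ⟨c0, d0, hh⟩ := exists_mx (g1 t p q e)
  have hg' := (h1 _ _).1 hg
  have hh' := (h2 _ _).1 hh
  obtain ⟨x', y', hx', hy', ex, ey, hs⟩ := choose_abs (h3 _ _ _ _ hg hh) (abs_nonneg b1) (abs_nonneg b2)
  obtain ⟨b1', u1, u2, u3⟩ := choose_sign hx' ex
  obtain ⟨b2', v1, v2, v3⟩ := choose_sign hy' ey
  rw [← u1, ← v1] at hs
  refine ⟨p', q', b1', b2', e', u2, v2, h4, ?_⟩
  rintro ⟨a, b, s, j⟩
  cases j
  · rw [V_false hg hh, V_false hg' hh', h1 a b, u3 s]
    refine and_congr_right fun _ => and_congr_right fun _ => ?_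
    have := hs.ge
    constructor
    · intro h
      have := this.1 (by linarith)
      linarith
    · intro h
      have := this.2 (by linarith)
      linarith
  · rw [V_true hg hh, V_true hg' hh', h2 a b, v3 s]
    refine and_congr_right fun _ => and_congr_right fun _ => ?_
    have := hs.le
    constructor
    · intro h
      have := this.1 (by linarith)
      linarith
    · intro h
      have := this.2 (by linarith)
      linarith


/-- `1` for `true`, `0` for `false`. -/
def bit (u : Bool) : ℝ := if u then 1 else 0

theorem clm_apply (c : E 5 →L[ℝ] ℝ) (x : E 5) :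
    c x = x 0 * c (EuclideanSpace.single 0 1) + x 1 * c (EuclideanSpace.single 1 1) +
      x 2 * c (EuclideanSpace.single 2 1) + x 3 * c (EuclideanSpace.single 3 1) +
      x 4 * c (EuclideanSpace.single 4 1) := by
  have h := (EuclideanSpace.basisFun (Fin 5) ℝ).sum_repr x
  conv_lhs => rw [← h]
  simp [Fin.sum_univ_five]

theorem val_eq (u v : Bool) (t : ℝ) (c : E 5 →L[ℝ] ℝ) (c0 c1 c2 c3 c4 : ℝ)
    (hc : ∀ x : E 5, c x = x 0 * c0 + x 1 * c1 + x 2 * c2 + x 3 * c3 + x 4 * c4) (i : I) :
    c (pts (pat u v t) i) = V (g0 t c0 c1 (bit v * c4)) (g1 t c0 c1 (bit v * c4)) (bit u * c2)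
      (bit u * c3) i := by
  obtain ⟨a, b, s, j⟩ := i
  rw [hc]
  cases j
  · simp only [V, g0, pts, pat, bit]
    simp
    ring
  · simp only [V, g1, pts, pat, bit]
    simp
    ring

theorem mem_faceSet {J : Type} [Finite J] {k : ℕ} (p : J → E k) (S : Set J) :
    S ∈ FaceSet p ↔ S = ∅ ∨ (S.Nonempty ∧ ∃ c : E k →L[ℝ] ℝ, ∀ i, i ∈ S ↔ ∀ j, c (p j) ≤ c (p i)) := by
  constructor
  · rintro ⟨c, h, h1, h2⟩
    rcases S.eq_empty_or_nonempty with hS | hS
    · exact Or.inl hS
    · right
      refine ⟨hS, c, fun i => ⟨fun hi j => ?_, fun hi => ?_⟩⟩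
      · rw [h1 i hi]
        by_cases hj : j ∈ S
        · exact (h1 j hj).le
        · exact (h2 j hj).le
      · by_contra hn
        obtain ⟨j, hj⟩ := hS
        have := hi j
        rw [h1 j hj] at this
        exact absurd (h2 i hn) (not_lt.2 this)
  · rintro (hS | ⟨⟨i0, h0⟩, c, hc⟩)
    · subst hS
      exact ⟨0, 1, fun i hi => absurd hi (Set.notMem_empty i), fun i _ => by simp⟩
    · refine ⟨c, c (p i0), fun i hi => ?_, fun i hi => ?_⟩
      · exact le_antisymm ((hc i0).1 h0 i) ((hc i).1 hi i0)
      · refine lt_of_le_of_ne ((hc i0).1 h0 i) fun he => hi ((hc i).2 fun j => ?_)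
        rw [he]
        exact (hc i0).1 h0 j

theorem bit_mul {u : Bool} {x x' : ℝ} (h : bit u * x = 0 → x' = 0) : bit u * x' = x' := by
  cases u
  · rw [h (by simp [bit])]; simp
  · simp [bit]

end CONST

open CONST in
/-- CONST. -/
theorem const : S_CONST := by
  intro u v t t' ht ht1 ht' ht1' S hS
  rw [mem_faceSet] at hS ⊢
  refine hS.imp id ?_
  rintro ⟨hne, c, hc⟩
  refine ⟨hne, ?_⟩
  obtain ⟨p', q', b1', b2', e', z1, z2, z3, h⟩ := transfer ht ht1 ht' ht1'
    (c (EuclideanSpace.single 0 1)) (c (EuclideanSpace.single 1 1))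
    (bit u * c (EuclideanSpace.single 2 1)) (bit u * c (EuclideanSpace.single 3 1))
    (bit v * c (EuclideanSpace.single 4 1))
  refine ⟨innerSL ℝ (!₂[p', q', b1', b2', e'] : E 5), fun i => ?_⟩
  rw [hc i]
  have k1 := val_eq u v t c _ _ _ _ _ (clm_apply c)
  have k2 := val_eq u v t' (innerSL ℝ (!₂[p', q', b1', b2', e'] : E 5)) p' q' b1' b2' e' (by
    intro x
    rw [innerSL_apply_apply, PiLp.inner_apply, Fin.sum_univ_five]
    simp)
  rw [bit_mul z1, bit_mul z2, bit_mul z3] at k2
  simp only [k1, k2]
  exact h i


end Pool.Agent.H126.Orb
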