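import Pool.Agent.H126.Orb.Grp

/-!
# Coordinates on the dual side, and a formula for the weights (MP_6361d2_co)
-/

set_option autoImplicit false

open Set Metric MeasureTheory
open scoped RealInnerProductSpace ContDiff

namespace Pool.Agent.H126.Orb

/-- The open cone (over) the stratum. -/
def core (w : E 5) : Prop := 0 < w 1 ∧ w 1 < w 0 ∧ (w 2 ≠ 0 ∨ w 3 ≠ 0) ∧ 0 < w 4

/-- `w 2 ^ 2 + w 3 ^ 2`. -/
def rho (w : E 5) : ℝ := w 2 ^ 2 + w 3 ^ 2

theorem rho_pos {w : E 5} (h : core w) : 0 < rho w := by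
  unfold rho
  rcases h.2.2.1 with h1 | h1 <;> positivity

/-- The parameter `t = w 1 / w 0`. -/
noncomputable def tt (w : E 5) : ℝ := w 1 / w 0

theorem tt_pos {w : E 5} (h : core w) : 0 < tt w := div_pos h.1 (h.1.trans h.2.1)

theorem tt_lt {w : E 5} (h : core w) : tt w < 1 := (div_lt_one (h.1.trans h.2.1)).2 h.2.1

theorem tt_mul {w : E 5} (h : core w) : w 1 = tt w * w 0 := by
  unfold tt
  rw [div_mul_cancel₀ _ (h.1.trans h.2.1).ne']

/-- The point of the dual space with the normalised coordinates `(p, q, β₁, β₂, η)`. -/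
noncomputable def ti (w : E 5) (p q b1 b2 e : ℝ) : E 5 :=
  !₂[p / w 0, q / w 0, (w 2 * b1 - w 3 * b2) / rho w, (w 3 * b1 + w 2 * b2) / rho w, e / w 4]

/-- The value of the functional with normalised coordinates `(p, q, β₁, β₂, η)` at a vertex. -/
theorem inner_ti_false {w : E 5} (h : core w) (p q b1 b2 e : ℝ) (a b s : Bool) :
    ⟪ti w p q b1 b2 e, pts w (a, b, s, false)⟫ =
      sg a * p + sg b * (tt w * q) + sg s * b1 + sg a * sg b * e := by
  have h0 : w 0 ≠ 0 := (h.1.trans h.2.1).ne'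
  have h4 : w 4 ≠ 0 := h.2.2.2.ne'
  have hr := (rho_pos h).ne'
  have hr2 : rho w = w 2 ^ 2 + w 3 ^ 2 := rfl
  have ht := tt_mul h
  simp only [ti, pts, PiLp.inner_apply, Fin.sum_univ_five, RCLike.inner_apply, conj_trivial,
    PiLp.toLp_apply]
  simp only [Matrix.cons_val_zero, Matrix.cons_val_one, Matrix.cons_val]
  rw [ht]
  field_simp
  rw [hr2]
  ring

theorem inner_ti_true {w : E 5} (h : core w) (p q b1 b2 e : ℝ) (a b s : Bool) :
    ⟪ti w p q b1 b2 e, pts w (a, b, s, true)⟫ =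
      sg a * (tt w * p) + sg b * q + sg s * b2 - sg a * sg b * e := by
  have h0 : w 0 ≠ 0 := (h.1.trans h.2.1).ne'
  have h4 : w 4 ≠ 0 := h.2.2.2.ne'
  have hr := (rho_pos h).ne'
  have hr2 : rho w = w 2 ^ 2 + w 3 ^ 2 := rfl
  have ht := tt_mul h
  simp only [ti, pts, PiLp.inner_apply, Fin.sum_univ_five, RCLike.inner_apply, conj_trivial,
    PiLp.toLp_apply]
  simp only [Matrix.cons_val_zero, Matrix.cons_val_one, Matrix.cons_val]
  rw [ht]
  field_simp
  rw [hr2]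
  ring

/-- Every point of the dual space has normalised coordinates. -/
theorem exists_ti {w : E 5} (h : core w) (x : E 5) :
    x = ti w (w 0 * x 0) (w 0 * x 1) (w 2 * x 2 + w 3 * x 3) (w 2 * x 3 - w 3 * x 2) (w 4 * x 4) := by
  have h0 : w 0 ≠ 0 := (h.1.trans h.2.1).ne'
  have h4 : w 4 ≠ 0 := h.2.2.2.ne'
  have hr := (rho_pos h).ne'
  have hr2 : rho w = w 2 ^ 2 + w 3 ^ 2 := rfl
  ext c
  fin_cases c
  · show x 0 = w 0 * x 0 / w 0
    field_simp
  · show x 1 = w 0 * x 1 / w 0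
    field_simp
  · show x 2 = (w 2 * (w 2 * x 2 + w 3 * x 3) - w 3 * (w 2 * x 3 - w 3 * x 2)) / rho w
    field_simp
    rw [hr2]
    ring
  · show x 3 = (w 3 * (w 2 * x 2 + w 3 * x 3) + w 2 * (w 2 * x 3 - w 3 * x 2)) / rho w
    field_simp
    rw [hr2]
    ring
  · show x 4 = w 4 * x 4 / w 4
    field_simp

/-- Membership in the polar body is decided at the vertices. -/
theorem mem_polar (w x : E 5) : x ∈ polar (Q w) ↔ ∀ i, ⟪x, pts w i⟫ ≤ 1 := by
  constructor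
  · intro h i
    exact h _ (subset_convexHull ℝ _ ⟨i, rfl⟩)
  · intro h y hy
    have h1 : Q w ⊆ {y | ⟪x, y⟫ ≤ 1} := by
      apply convexHull_min
      · rintro _ ⟨i, rfl⟩
        exact h i
      · exact convex_halfSpace_le (innerₛₗ ℝ x).isLinear 1
    exact h1 hy

/-- The standard basis vectors of `ℝ³`. -/
noncomputable def bs (c : Fin 3) : E 3 := EuclideanSpace.single c 1

/-- A formula for the weights. -/
theorem cw_of_image {P : Set (E 5)} {s t : E 5} (hE : IsEdge P s t) (F : E 3 →ₗ[ℝ] E 5)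
    (x₀ : E 5) (R : Set (E 3)) (hF : dualFace P s t = (fun v => x₀ + F v) '' R) (m : ℝ)
    (hm : 0 ≤ m) (hpos : 0 < ‖s‖ ^ 2 * ‖t‖ ^ 2 - ⟪s, t⟫ ^ 2)
    (hgram : (Matrix.of fun i j => ⟪F (bs i), F (bs j)⟫ : Matrix (Fin 3) (Fin 3) ℝ).det =
      m ^ 2 * (‖s‖ ^ 2 * ‖t‖ ^ 2 - ⟪s, t⟫ ^ 2)) :
    cw P s t = m * (volume R).toReal := by
  have h1 : (μHE[5 - 2] (dualFace P s t)) = ENNReal.ofReal F.normDet * volume R := by
    rw [hF]
    have h2 : (fun v => x₀ + F v) '' R = (IsometryEquiv.addLeft x₀) '' (F '' R) := by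
      rw [Set.image_image]
      rfl
    rw [h2, (IsometryEquiv.addLeft x₀).isometry.euclideanHausdorffMeasure_image]
    have h3 := F.euclideanHausdorffMeasure_image_eq_normDet_mul_volume R
    rw [finrank_euclideanSpace_fin] at h3
    exact h3
  have h4 : F.normDet = m * Real.sqrt (‖s‖ ^ 2 * ‖t‖ ^ 2 - ⟪s, t⟫ ^ 2) := by
    have h5 := F.normDet_sq_eq_det_gram (EuclideanSpace.basisFun (Fin 3) ℝ)
    have h6 : F.normDet ^ 2 = m ^ 2 * (‖s‖ ^ 2 * ‖t‖ ^ 2 - ⟪s, t⟫ ^ 2) := by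
      rw [← hgram]
      have h7 := h5
      simp only [EuclideanSpace.basisFun_apply] at h7
      exact_mod_cast h7
    have h8 := F.normDet_nonneg
    have h9 : 0 ≤ m * Real.sqrt (‖s‖ ^ 2 * ‖t‖ ^ 2 - ⟪s, t⟫ ^ 2) := by positivity
    have h10 : F.normDet ^ 2 = (m * Real.sqrt (‖s‖ ^ 2 * ‖t‖ ^ 2 - ⟪s, t⟫ ^ 2)) ^ 2 := by
      rw [h6, mul_pow, Real.sq_sqrt hpos.le]
    exact (sq_eq_sq₀ h8 h9).1 h10
  have h11 : ‖s‖ * ‖t‖ * Real.sin (InnerProductGeometry.angle s t) =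
      Real.sqrt (‖s‖ ^ 2 * ‖t‖ ^ 2 - ⟪s, t⟫ ^ 2) := by
    have h12 := InnerProductGeometry.sin_angle_mul_norm_mul_norm s t
    rw [real_inner_self_eq_norm_sq, real_inner_self_eq_norm_sq] at h12
    rw [mul_comm, h12]
    congr 1
    ring
  unfold cw
  rw [if_pos hE, h1, h11, h4, ENNReal.toReal_mul, ENNReal.toReal_ofReal (by positivity)]
  have h13 : Real.sqrt (‖s‖ ^ 2 * ‖t‖ ^ 2 - ⟪s, t⟫ ^ 2) ≠ 0 := (Real.sqrt_pos.2 hpos).ne'
  field_simp

end Pool.Agent.H126.Orb
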