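import Pool.Agent.H126.Orb.Stm
import Pool.Graph.R_seed8.R29.OP.A1

/-!
# DIM: the face lattice of a polytope determines its dimension (by helper286)
-/

set_option autoImplicit false

open Set Metric

namespace Pool.Agent.H126.Orb

namespace DIM

open Pool.Agent.R29.OP (FaceSet)

variable {k : ℕ} {I : Type}

theorem empty_mem (p : I → E k) : (∅ : Set I) ∈ FaceSet p :=
  ⟨0, 1, fun i hi => absurd hi (notMem_empty i), fun i _ => by simp⟩

theorem univ_mem (p : I → E k) : (univ : Set I) ∈ FaceSet p :=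
  ⟨0, 0, fun i _ => by simp, fun i hi => absurd (mem_univ i) hi⟩

/-- faces of faces -/
theorem face_face [Finite I] (p : I → E k) {S : Set I} (hS : S ∈ FaceSet p)
    (c' : E k →L[ℝ] ℝ) (h' : ℝ) (hc : ∀ i ∈ S, c' (p i) ≤ h') :
    {i | i ∈ S ∧ c' (p i) = h'} ∈ FaceSet p := by
  obtain ⟨c, h, h1, h2⟩ := hS
  obtain ⟨N, hN⟩ : ∃ N : ℝ, ∀ i, i ∉ S → c' (p i) - h' < N * (h - c (p i)) := by
    obtain ⟨N, hN⟩ := (Set.finite_range fun i => (|c' (p i) - h'| + 1) / (h - c (p i))).bddAbove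
    refine ⟨N, fun i hi => ?_⟩
    have h3 : 0 < h - c (p i) := by linarith [h2 i hi]
    have h4 : (|c' (p i) - h'| + 1) / (h - c (p i)) ≤ N := hN ⟨i, rfl⟩
    rw [div_le_iff₀ h3] at h4
    have h5 := le_abs_self (c' (p i) - h')
    linarith
  refine ⟨N • c + c', N * h + h', ?_, ?_⟩
  · rintro i ⟨hi, hi'⟩
    simp [h1 i hi, hi']
  · intro i hi
    simp only [add_apply, smul_apply, smul_eq_mul]
    by_cases hiS : i ∈ S
    · rw [h1 i hiS]
      have : c' (p i) ≠ h' := fun h => hi ⟨hiS, h⟩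
      have := lt_of_le_of_ne (hc i hiS) this
      linarith
    · have := hN i hiS
      linarith [this, mul_sub N h (c (p i))]

/-- the direction space of a face -/
noncomputable abbrev vs (p : I → E k) (S : Set I) : Submodule ℝ (E k) := vectorSpan ℝ (p '' S)

theorem vs_le_ker (p : I → E k) (S : Set I) (c : E k →ₗ[ℝ] ℝ) (h : ℝ)
    (hc : ∀ i ∈ S, c (p i) = h) : vs p S ≤ LinearMap.ker c := by
  rw [vs, vectorSpan_def, Submodule.span_le]
  rintro _ ⟨_, ⟨i, hi, rfl⟩, _, ⟨j, hj, rfl⟩, rfl⟩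
  simp [hc i hi, hc j hj]

theorem sub_mem_vs (p : I → E k) {S : Set I} {i j : I} (hi : i ∈ S) (hj : j ∈ S) :
    p i - p j ∈ vs p S :=
  vsub_mem_vectorSpan ℝ (mem_image_of_mem p hi) (mem_image_of_mem p hj)

/-- strict monotonicity of the dimension -/
theorem lt (p : I → E k) {S S' : Set I} (hS : S ∈ FaceSet p) (hne : S.Nonempty) (hss : S ⊂ S') :
    Module.finrank ℝ (vs p S) < Module.finrank ℝ (vs p S') := by
  obtain ⟨c, h, h1, h2⟩ := hS
  obtain ⟨i, hi⟩ := hne
  obtain ⟨hsub, hnot⟩ := hss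
  obtain ⟨j, hj, hj'⟩ := not_subset.mp hnot
  apply Submodule.finrank_lt_finrank_of_lt
  refine lt_of_le_of_ne (vectorSpan_mono ℝ (image_mono hsub)) ?_
  intro heq
  have h3 : p j - p i ∈ vs p S := by
    rw [heq]; exact sub_mem_vs p hj (hsub hi)
  have h4 := vs_le_ker p S (c : E k →ₗ[ℝ] ℝ) h h1 h3
  have h5 := h2 j hj'
  have h6 := h1 i hi
  simp at h4
  linarith

/-- a face of positive dimension has a face of one dimension less -/
theorem step [Finite I] (p : I → E k) {S : Set I} (hS : S ∈ FaceSet p)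
    (hd : 0 < Module.finrank ℝ (vs p S)) :
    ∃ T ∈ FaceSet p, T ⊂ S ∧ T.Nonempty ∧
      Module.finrank ℝ (vs p T) + 1 = Module.finrank ℝ (vs p S) := by
  classical
  have : Fintype I := Fintype.ofFinite I
  -- a nonempty proper face
  have hex : ∃ T, T ∈ FaceSet p ∧ T ⊂ S ∧ T.Nonempty := by
    have hne : vs p S ≠ ⊥ := by
      intro h
      rw [h, finrank_bot] at hd
      exact lt_irrefl _ hd
    obtain ⟨v, hv, hv0⟩ := (Submodule.ne_bot_iff _).mp hne
    obtain ⟨f, hf, -⟩ := Submodule.exists_le_ker_of_notMem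
      (p := (⊥ : Submodule ℝ (E k))) (v := v) (by simpa using hv0)
    have hSne : S.Nonempty := by
      rw [Set.nonempty_iff_ne_empty]
      rintro rfl
      apply hv0
      simpa [vs] using hv
    obtain ⟨i₀, hi₀, hmax⟩ := Set.exists_max_image S (fun i => f (p i)) (Set.toFinite S) hSne
    have h1 := face_face p hS (LinearMap.toContinuousLinearMap f) (f (p i₀))
      (fun i hi => hmax i hi)
    refine ⟨_, h1, ⟨fun i hi => hi.1, fun hsub => ?_⟩, ⟨i₀, hi₀, rfl⟩⟩
    exact hf (vs_le_ker p S f (f (p i₀)) (fun i hi => (hsub hi).2) hv)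
  -- the largest one
  obtain ⟨T, hT, hTm⟩ := Set.exists_max_image {T : Set I | T ∈ FaceSet p ∧ T ⊂ S ∧ T.Nonempty}
    (fun T => Module.finrank ℝ (vs p T)) (Set.toFinite _) hex
  obtain ⟨hTF, hTS, hTne⟩ := hT
  refine ⟨T, hTF, hTS, hTne, ?_⟩
  have hlt := lt p hTF hTne hTS
  by_contra hne
  have hle : Module.finrank ℝ (vs p T) + 2 ≤ Module.finrank ℝ (vs p S) := by omega
  obtain ⟨c, h, h1, h2⟩ := hTF
  obtain ⟨i₀, hi₀⟩ := hTne
  obtain ⟨hsub, hnot⟩ := id hTS
  obtain ⟨i₁, hi₁, hi₁'⟩ := not_subset.mp hnot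
  -- the functional
  obtain ⟨W, hW⟩ : ∃ W : Submodule ℝ (E k), W = vs p T ⊔ Submodule.span ℝ {p i₁ - p i₀} :=
    ⟨_, rfl⟩
  have hWr : Module.finrank ℝ W ≤ Module.finrank ℝ (vs p T) + 1 := by
    rw [hW]
    refine (Submodule.finrank_add_le_finrank_add_finrank _ _).trans ?_
    gcongr
    exact (finrank_span_le_card _).trans (by simp)
  have hWn : ¬ vs p S ≤ W := by
    intro hle'
    have := Submodule.finrank_mono hle'
    omega
  obtain ⟨v, hv, hvW⟩ := SetLike.not_le_iff_exists.mp hWn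
  obtain ⟨f₀, hf₀, hker⟩ := Submodule.exists_le_ker_of_notMem hvW
  -- sign
  obtain ⟨f, hf, i₂, hi₂, hpos⟩ : ∃ f : E k →ₗ[ℝ] ℝ, W ≤ LinearMap.ker f ∧ ∃ i₂ ∈ S,
      0 < f (p i₂ - p i₀) := by
    by_contra hcon
    push Not at hcon
    have e1 := hcon f₀ hker
    have e2 := hcon (-f₀) (fun x hx => by
      have := hker hx
      simpa using this)
    apply hf₀
    refine vs_le_ker p S f₀ (f₀ (p i₀)) (fun i hi => ?_) hv
    have a1 := e1 i hi
    have a2 := e2 i hi
    simp only [map_sub, LinearMap.neg_apply] at a1 a2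
    linarith
  have hfT : ∀ i ∈ T, f (p i - p i₀) = 0 := fun i hi => by
    have : p i - p i₀ ∈ W := by
      rw [hW]; exact Submodule.mem_sup_left (sub_mem_vs p hi hi₀)
    exact hf this
  have hf1 : f (p i₁ - p i₀) = 0 := by
    have : p i₁ - p i₀ ∈ W := by
      rw [hW]; exact Submodule.mem_sup_right (Submodule.mem_span_singleton_self _)
    exact hf this
  have hi₂T : i₂ ∉ T := fun h => by
    rw [hfT i₂ h] at hpos; exact lt_irrefl _ hpos
  obtain ⟨i₃, ⟨hi₃, hi₃T⟩, hmax⟩ := Set.exists_max_image (S \ T)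
    (fun i => f (p i - p i₀) / (h - c (p i))) (Set.toFinite _) ⟨i₂, hi₂, hi₂T⟩
  obtain ⟨M, hM⟩ : ∃ M : ℝ, M = f (p i₃ - p i₀) / (h - c (p i₃)) := ⟨_, rfl⟩
  have hMpos : 0 < M := by
    rw [hM]
    refine lt_of_lt_of_le ?_ (hmax i₂ ⟨hi₂, hi₂T⟩)
    have := h2 i₂ hi₂T
    exact div_pos hpos (by linarith)
  have hineq : ∀ i ∈ S, f (p i - p i₀) ≤ M * (h - c (p i)) := by
    intro i hi
    by_cases hiT : i ∈ T
    · rw [hfT i hiT, h1 i hiT]; simp
    · have h3 : 0 < h - c (p i) := by linarith [h2 i hiT]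
      have h4 := hmax i ⟨hi, hiT⟩
      rw [← hM, div_le_iff₀ h3] at h4
      exact h4
  have hface := face_face p hS (M • c + LinearMap.toContinuousLinearMap f)
    (M * h + f (p i₀)) (fun i hi => by
      have := hineq i hi
      simp only [map_sub] at this
      simp only [add_apply, smul_apply, smul_eq_mul, LinearMap.coe_toContinuousLinearMap']
      linarith)
  obtain ⟨T', hT'⟩ : ∃ T' : Set I, T' = {i | i ∈ S ∧
    (M • c + LinearMap.toContinuousLinearMap f) (p i) = M * h + f (p i₀)} := ⟨_, rfl⟩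
  rw [← hT'] at hface
  have hmem : ∀ i, i ∈ T' ↔ i ∈ S ∧ f (p i - p i₀) = M * (h - c (p i)) := by
    intro i
    rw [hT']
    simp only [mem_ofPred_eq, add_apply, smul_apply, smul_eq_mul,
      LinearMap.coe_toContinuousLinearMap', map_sub]
    constructor
    · rintro ⟨a, b⟩; exact ⟨a, by linarith⟩
    · rintro ⟨a, b⟩; exact ⟨a, by linarith⟩
  have hTT' : T ⊂ T' := by
    refine ⟨fun i hi => ?_, fun hcon => ?_⟩
    · rw [hmem]
      exact ⟨hsub hi, by rw [hfT i hi, h1 i hi]; simp⟩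
    · apply hi₃T
      apply hcon
      rw [hmem]
      refine ⟨hi₃, ?_⟩
      have h3 : 0 < h - c (p i₃) := by linarith [h2 i₃ hi₃T]
      rw [hM, div_mul_cancel₀ _ h3.ne']
  have hT'S : T' ⊂ S := by
    refine ⟨fun i hi => ((hmem i).1 hi).1, fun hcon => ?_⟩
    have h3 := ((hmem i₁).1 (hcon hi₁)).2
    rw [hf1] at h3
    have h4 := h2 i₁ hi₁'
    have h5 : 0 < M * (h - c (p i₁)) := mul_pos hMpos (by linarith)
    linarith
  have h6 := hTm T' ⟨hface, hT'S, ⟨i₀, hTT'.1 hi₀⟩⟩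
  have h7 := lt p ⟨c, h, h1, h2⟩ ⟨i₀, hi₀⟩ hTT'
  omega

open Classical in
/-- the rank -/
noncomputable def rk (p : I → E k) (S : Set I) : ℕ :=
  if S.Nonempty then Module.finrank ℝ (vs p S) + 1 else 0

theorem rk_lt (p : I → E k) {S S' : Set I} (hS : S ∈ FaceSet p) (hss : S ⊂ S') :
    rk p S < rk p S' := by
  have h' : S'.Nonempty := by
    obtain ⟨hsub, hnot⟩ := hss
    obtain ⟨j, hj, -⟩ := not_subset.mp hnot
    exact ⟨j, hj⟩
  unfold rk
  rw [if_pos h']
  split_ifs with h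
  · have := lt p hS h hss
    omega
  · omega

theorem rk_step [Finite I] (p : I → E k) {S : Set I} (hS : S ∈ FaceSet p) (hr : 0 < rk p S) :
    ∃ T ∈ FaceSet p, T ⊂ S ∧ rk p T + 1 = rk p S := by
  have hne : S.Nonempty := by
    by_contra h
    unfold rk at hr
    rw [if_neg h] at hr
    exact lt_irrefl _ hr
  rcases Nat.eq_zero_or_pos (Module.finrank ℝ (vs p S)) with h0 | h0
  · refine ⟨∅, empty_mem p, ?_, ?_⟩
    · obtain ⟨i, hi⟩ := hne
      exact ⟨empty_subset _, fun h => (h hi)⟩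
    · unfold rk
      rw [if_neg (by simp), if_pos hne, h0]
  · obtain ⟨T, hT, hTS, hTne, hd⟩ := step p hS h0
    refine ⟨T, hT, hTS, ?_⟩
    unfold rk
    rw [if_pos hne, if_pos hTne, ← hd]

theorem height_eq [Finite I] (p : I → E k) : ∀ (n : ℕ) (S : {S : Set I // S ∈ FaceSet p}),
    rk p S.1 = n → Order.height S = n := by
  intro n
  induction n using Nat.strong_induction_on with
  | _ n ih =>
    intro S hS
    apply le_antisymm
    · rw [Order.height_le_coe_iff]
      intro T hT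
      have h1 : rk p T.1 < n := by
        rw [← hS]; exact rk_lt p T.2 hT
      rw [ih _ h1 T rfl]
      exact_mod_cast h1
    · rcases Nat.eq_zero_or_pos n with h0 | h0
      · rw [h0]; simp
      · obtain ⟨T, hT, hTS, hr⟩ := rk_step p S.2 (by omega)
        have h1 := ih (rk p T) (by omega) ⟨T, hT⟩ rfl
        have h2 : (⟨T, hT⟩ : {S : Set I // S ∈ FaceSet p}) < S := hTS
        have h3 := Order.height_add_one_le h2
        rw [h1] at h3
        have : (n : ℕ∞) = (rk p T : ℕ∞) + 1 := by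
          rw [← hS, ← hr]; push_cast; rfl
        rw [this]
        exact h3

end DIM

/-- **DIM.** -/
theorem dim : S_DIM := by
  intro k J J' _ _ _ _ p p' hST
  obtain ⟨φ⟩ := hST
  have f1 := Pool.Agent.R29.OP.A1.iso p
  have f2 := Pool.Agent.R29.OP.A1.iso p'
  let ψ : {S : Set J // S ∈ Pool.Agent.R29.OP.FaceSet p} ≃o
      {S : Set J' // S ∈ Pool.Agent.R29.OP.FaceSet p'} := (f1.symm.trans φ).trans f2
  have htop : ψ ⟨univ, DIM.univ_mem p⟩ = ⟨univ, DIM.univ_mem p'⟩ := by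
    apply le_antisymm
    · exact fun i _ => mem_univ i
    · rw [← ψ.symm_apply_le]
      exact fun i _ => mem_univ i
  have h1 := DIM.height_eq p _ ⟨univ, DIM.univ_mem p⟩ rfl
  have h2 := DIM.height_eq p' _ ⟨univ, DIM.univ_mem p'⟩ rfl
  have h3 := Order.height_orderIso ψ ⟨univ, DIM.univ_mem p⟩
  rw [htop, h1, h2] at h3
  have h4 : DIM.rk p' univ = DIM.rk p univ := by exact_mod_cast h3
  unfold DIM.rk at h4
  rw [if_pos univ_nonempty, if_pos univ_nonempty, DIM.vs, DIM.vs, image_univ, image_univ] at h4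
  omega

end Pool.Agent.H126.Orb
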