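import Mathlib

/-!
# Orbit polytopes, their combinatorial types and strata, and the second eigenvalue of the random
walk (MP_6361d2_co): definitions

`E k` is Euclidean space `ℝ^k`; a subgroup `Γ` of `E k ≃ₗᵢ[ℝ] E k` is a subgroup of `O(k)`.
-/

set_option autoImplicit false

open Set Metric MeasureTheory
open scoped RealInnerProductSpace ContDiff

namespace Pool.Agent.H126.Orb

/-- Euclidean space `ℝ^k`. -/
abbrev E (k : ℕ) := EuclideanSpace ℝ (Fin k)

variable {k : ℕ}

/-- The orbit polytope `Q_w = conv (Γ w)`. -/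
def orbPoly (Γ : Subgroup (E k ≃ₗᵢ[ℝ] E k)) (w : E k) : Set (E k) :=
  convexHull ℝ {x | ∃ g ∈ Γ, g w = x}

/-- The face lattice of a polytope `P`: the set of its faces (the empty set, and the sets of
points of `P` where some linear functional attains its maximum over `P`; the zero functional
gives `P` itself), ordered by inclusion. -/
abbrev FaceLattice (P : Set (E k)) := {F : Set (E k) // IsExposed ℝ P F}

/-- Two polytopes have the same combinatorial type: their face lattices are isomorphic. -/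
def SameType (P P' : Set (E k)) : Prop := Nonempty (FaceLattice P ≃o FaceLattice P')

/-- The combinatorial-type class of `w` in the sphere of radius `r` about the origin. -/
def typeClass (Γ : Subgroup (E k ≃ₗᵢ[ℝ] E k)) (r : ℝ) (w : E k) : Set (E k) :=
  {w' | w' ∈ sphere (0 : E k) r ∧ SameType (orbPoly Γ w') (orbPoly Γ w)}

/-- The stratum of `w`: the connected component of `w` in its class. -/
def stratum (Γ : Subgroup (E k ≃ₗᵢ[ℝ] E k)) (r : ℝ) (w : E k) : Set (E k) :=
  connectedComponentIn (typeClass Γ r w) w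

/-- `M` is a smooth embedded submanifold of `ℝ^k`: about each of its points some local smooth
diffeomorphism of `ℝ^k` carries `M` onto an open part of an affine subspace. -/
def IsSubmanifold (M : Set (E k)) : Prop :=
  ∀ x ∈ M, ∃ (φ : OpenPartialHomeomorph (E k) (E k)) (W : AffineSubspace ℝ (E k)),
    x ∈ φ.source ∧ ContDiffOn ℝ ∞ φ φ.source ∧ ContDiffOn ℝ ∞ φ.symm φ.target ∧
      φ '' (M ∩ φ.source) = (W : Set (E k)) ∩ φ.target

/-- The polytope is `k`-dimensional: it has interior points in `ℝ^k`. -/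
def FullDim (Q : Set (E k)) : Prop := (interior Q).Nonempty

/-- The vertices of a polytope. -/
def verts (Q : Set (E k)) : Set (E k) := Q.extremePoints ℝ

/-- `{s, t}` is an edge of `Q`: `s ≠ t` are vertices and the segment `[s, t]` is a face of `Q`. -/
def IsEdge (Q : Set (E k)) (s t : E k) : Prop :=
  s ∈ verts Q ∧ t ∈ verts Q ∧ s ≠ t ∧ IsExposed ℝ Q (segment ℝ s t)

/-- The polar body `P = {x : ⟨x, y⟩ ≤ 1 for all y ∈ Q}`. -/
def polar (Q : Set (E k)) : Set (E k) := {x | ∀ y ∈ Q, ⟪x, y⟫ ≤ 1}

/-- `F_{st}`: the intersection of the facets `P ∩ {⟨x, s⟩ = 1}` and `P ∩ {⟨x, t⟩ = 1}` of the polar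
body `P` of `Q`. -/
def dualFace (Q : Set (E k)) (s t : E k) : Set (E k) :=
  {x | x ∈ polar Q ∧ ⟪x, s⟫ = 1 ∧ ⟪x, t⟫ = 1}

open Classical in
/-- The weights `c_{st} = vol_{k-2}(F_{st}) / (‖s‖ ‖t‖ sin θ_{st})` of the edges, and `0` for the
pairs that are not edges. -/
noncomputable def cw (Q : Set (E k)) (s t : E k) : ℝ :=
  if IsEdge Q s t then
    (μHE[k - 2] (dualFace Q s t)).toReal /
      (‖s‖ * ‖t‖ * Real.sin (InnerProductGeometry.angle s t))
  else 0

/-- The random walk matrix `T(Q) = (c_{st} / d)`, `d` the row sum. -/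
noncomputable def walk (Q : Set (E k)) [Fintype (verts Q)] : Matrix (verts Q) (verts Q) ℝ :=
  fun s t => cw Q s t / ∑ u : verts Q, cw Q s u

open Classical in
/-- The second largest eigenvalue of the random walk matrix, as the supremum of the Rayleigh
quotients over the nonzero vectors orthogonal to the constants. -/
noncomputable def lam1 (Q : Set (E k)) : ℝ :=
  if h : (verts Q).Finite then
    letI : Fintype (verts Q) := h.fintype
    sSup {ρ : ℝ | ∃ v : verts Q → ℝ, v ≠ 0 ∧ ∑ s, v s = 0 ∧
      ρ = (∑ s, ∑ t, v s * walk Q s t * v t) / ∑ s, v s ^ 2}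
  else 0

/-- The full statement to be proved: for some `k` and some finite group `Γ ⊂ O(k)`, for every
radius, all strata (of all classes) are submanifolds, and on some stratum, on which `Q_w` is
`k`-dimensional, `λ_1` does not attain its infimum (although it is bounded below). -/
def Main : Prop :=
  ∃ (k : ℕ) (Γ : Subgroup (E k ≃ₗᵢ[ℝ] E k)), 2 ≤ k ∧ Finite Γ ∧ ∀ r : ℝ, 0 < r →
    (∀ w ∈ sphere (0 : E k) r, IsSubmanifold (stratum Γ r w)) ∧
    ∃ w₀ ∈ sphere (0 : E k) r, (∀ w ∈ stratum Γ r w₀, FullDim (orbPoly Γ w)) ∧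
      BddBelow ((fun w => lam1 (orbPoly Γ w)) '' stratum Γ r w₀) ∧
      ∀ w ∈ stratum Γ r w₀, ∃ w' ∈ stratum Γ r w₀, lam1 (orbPoly Γ w') < lam1 (orbPoly Γ w)

end Pool.Agent.H126.Orb
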