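import Pool.Agent.H126.Orb.Stm

/-!
# VERT and EDG: the vertices, and the edges at the base vertex
-/

set_option autoImplicit false

open Set Metric MeasureTheory
open scoped RealInnerProductSpace ContDiff

namespace Pool.Agent.H126.Orb

namespace EDG

theorem c0 (w : E 5) (a b s : Bool) : pts w (a, b, s, false) 0 = sg a * w 0 := rfl
theorem c1 (w : E 5) (a b s : Bool) : pts w (a, b, s, false) 1 = sg b * w 1 := rfl
theorem c2 (w : E 5) (a b s : Bool) : pts w (a, b, s, false) 2 = sg s * w 2 := rfl
theorem c3 (w : E 5) (a b s : Bool) : pts w (a, b, s, false) 3 = sg s * w 3 := rfl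
theorem d0 (w : E 5) (a b s : Bool) : pts w (a, b, s, true) 0 = sg a * w 1 := rfl

theorem fix_eq {w : E 5} (h : core w) (l : I) (hl : pts w l = w) : l = o := by
  obtain ⟨h1, h2, h3, h4⟩ := h
  obtain ⟨a, b, s, j⟩ := l
  cases j
  · have e0 := congrArg (fun x : E 5 => x 0) hl
    have e1 := congrArg (fun x : E 5 => x 1) hl
    have e2 := congrArg (fun x : E 5 => x 2) hl
    have e3 := congrArg (fun x : E 5 => x 3) hl
    simp only [c0, c1, c2, c3] at e0 e1 e2 e3
    have ha : a = true := by
      cases a
      · rw [sg_false] at e0; linarith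
      · rfl
    have hb : b = true := by
      cases b
      · rw [sg_false] at e1; linarith
      · rfl
    have hs : s = true := by
      cases s
      · rw [sg_false] at e2 e3
        rcases h3 with h3 | h3
        · exact absurd (by linarith : w 2 = 0) h3
        · exact absurd (by linarith : w 3 = 0) h3
      · rfl
    rw [ha, hb, hs]
    rfl
  · have e0 := congrArg (fun x : E 5 => x 0) hl
    simp only [d0] at e0
    cases a
    · rw [sg_false] at e0; linarith
    · rw [sg_true] at e0; linarith

theorem rel_eq_o : ∀ i j : I, rel i j = o → j = i := by decide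

theorem inj {w : E 5} (h : core w) : Function.Injective (pts w) := by
  intro i j hij
  have h1 : pts w (rel i j) = w := by
    unfold rel
    rw [← pts_mul, ← hij, pts_mul, (mulI_invI i).2.1, pts_o]
  exact (rel_eq_o i j (fix_eq h _ h1)).symm

theorem norm_pos {w : E 5} (h : core w) : ‖w‖ ≠ 0 := by
  intro h0
  rw [norm_eq_zero] at h0
  have := h.1
  rw [h0] at this
  exact lt_irrefl _ this

theorem sub_ball (w : E 5) : Q w ⊆ closedBall 0 ‖w‖ := by
  apply convexHull_min
  · rintro _ ⟨i, rfl⟩
    rw [mem_closedBall_zero_iff, norm_pts]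
  · exact convex_closedBall _ _

theorem mem_Q (w : E 5) (i : I) : pts w i ∈ Q w := subset_convexHull ℝ _ ⟨i, rfl⟩

/-- The values of the functional. -/
noncomputable def val (t p q b1 b2 e : ℝ) : I → ℝ
  | (a, b, s, false) => sg a * p + sg b * (t * q) + sg s * b1 + sg a * sg b * e
  | (a, b, s, true) => sg a * (t * p) + sg b * q + sg s * b2 - sg a * sg b * e

theorem inner_ti {w : E 5} (h : core w) (p q b1 b2 e : ℝ) (i : I) :
    ⟪ti w p q b1 b2 e, pts w i⟫ = val (tt w) p q b1 b2 e i := by
  obtain ⟨a, b, s, j⟩ := i
  cases j
  · exact inner_ti_false h p q b1 b2 e a b s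
  · exact inner_ti_true h p q b1 b2 e a b s

theorem edge_of {w : E 5} (hv : S_VERT) (h : core w) (i : I) (hi : i ≠ o) (p q b1 b2 e : ℝ)
    (h1 : val (tt w) p q b1 b2 e o = 1) (h2 : val (tt w) p q b1 b2 e i = 1)
    (h3 : ∀ j, j ≠ o → j ≠ i → val (tt w) p q b1 b2 e j < 1) : IsEdge (Q w) w (pts w i) := by
  obtain ⟨hv1, hv2⟩ := hv w h
  refine ⟨?_, ?_, ?_, ?_⟩
  · rw [hv1]
    exact ⟨o, pts_o w⟩
  · rw [hv1]
    exact ⟨i, rfl⟩
  · intro he
    apply hi
    apply hv2
    rw [pts_o, ← he]
  · have hF : ({o, i} : Set I) ∈ Pool.Agent.R29.OP.FaceSet (pts w) := by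
      refine ⟨innerSL ℝ (ti w p q b1 b2 e), 1, ?_, ?_⟩
      · intro j hj
        rw [innerSL_apply_apply, inner_ti h]
        rcases hj with rfl | hj
        · exact h1
        · rw [mem_singleton_iff] at hj
          rw [hj]
          exact h2
      · intro j hj
        rw [innerSL_apply_apply, inner_ti h]
        rw [mem_insert_iff, mem_singleton_iff, not_or] at hj
        exact h3 j hj.1 hj.2
    have := Pool.Agent.R29.OP.A1.exposed_set (pts w) {o, i} hF
    rw [image_pair, pts_o, convexHull_pair] at this
    exact this

/-- An extreme point in the segment between two points is one of them. -/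
theorem end_of {w : E 5} (hv : S_VERT) (h : core w) (i j : I)
    (hj : pts w j ∈ segment ℝ w (pts w i)) : j = o ∨ j = i := by
  obtain ⟨hv1, hv2⟩ := hv w h
  have hext : pts w j ∈ verts (Q w) := by
    rw [hv1]
    exact ⟨j, rfl⟩
  have hwQ : w ∈ Q w := by
    have := mem_Q w o
    rwa [pts_o] at this
  have h1 := (mem_extremePoints_iff_forall_segment.1 hext).2 w hwQ (pts w i) (mem_Q w i) hj
  rcases h1 with h1 | h1
  · left
    apply hv2
    rw [pts_o]
    exact h1.symm
  · right
    exact (hv2 h1).symm

theorem half_mem {x y : E 5} : (1 / 2 : ℝ) • x + (1 / 2 : ℝ) • y ∈ openSegment ℝ x y :=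
  ⟨1 / 2, 1 / 2, by norm_num, by norm_num, by norm_num, rfl⟩

theorem half_seg {x y : E 5} : (1 / 2 : ℝ) • x + (1 / 2 : ℝ) • y ∈ segment ℝ x y :=
  openSegment_subset_segment _ _ _ half_mem

theorem not_edge_A {w : E 5} (hv : S_VERT) (h : core w) (a b : Bool) (hab : (a && b) = false) :
    ¬ IsEdge (Q w) w (pts w (a, b, false, false)) := by
  rintro ⟨_, _, _, hF⟩
  have hE := hF.isExtreme
  have e : (1 / 2 : ℝ) • w + (1 / 2 : ℝ) • pts w (a, b, false, false) =
      (1 / 2 : ℝ) • pts w (true, true, false, false) + (1 / 2 : ℝ) • pts w (a, b, true, false) := by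
    ext c
    cases a <;> cases b <;> fin_cases c <;> simp [pts]
  have h1 : (1 / 2 : ℝ) • pts w (true, true, false, false) + (1 / 2 : ℝ) • pts w (a, b, true, false) ∈
      segment ℝ w (pts w (a, b, false, false)) := by
    rw [← e]
    exact half_seg
  have h2 := hE.left_mem_of_mem_openSegment (mem_Q w _) (mem_Q w _) h1 half_mem
  rcases end_of hv h _ _ h2 with h3 | h3
  · exact absurd h3 (by decide)
  · cases a <;> cases b
    · exact absurd h3 (by decide)
    · exact absurd h3 (by decide)
    · exact absurd h3 (by decide)
    · exact absurd hab (by decide)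

theorem not_edge_B {w : E 5} (hv : S_VERT) (h : core w) (s : Bool) :
    ¬ IsEdge (Q w) w (pts w (false, false, s, true)) := by
  rintro ⟨_, _, _, hF⟩
  have hE := hF.isExtreme
  have ht := tt_pos h
  have ht1 := tt_lt h
  set t := tt w with htdef
  have hw1 : w 1 = t * w 0 := tt_mul h
  set x : E 5 := (1 / 2 : ℝ) • pts w (true, false, true, false) +
    (1 / 2 : ℝ) • pts w (true, false, s, true) with hx
  set y : E 5 := (1 / 2 : ℝ) • pts w (false, true, true, false) +
    (1 / 2 : ℝ) • pts w (false, true, s, true) with hy
  have hxQ : x ∈ Q w := (convex_convexHull ℝ _).segment_subset (mem_Q w _) (mem_Q w _) half_seg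
  have hyQ : y ∈ Q w := (convex_convexHull ℝ _).segment_subset (mem_Q w _) (mem_Q w _) half_seg
  have h1t : (0 : ℝ) < 1 + t := by linarith
  have e : (1 / 2 : ℝ) • w + (1 / 2 : ℝ) • pts w (false, false, s, true) =
      (1 / (1 + t)) • x + (t / (1 + t)) • y := by
    rw [hx, hy]
    ext c
    cases s <;> fin_cases c <;> simp [pts] <;> field_simp <;> (try rw [hw1]) <;> ring
  have h1 : (1 / (1 + t)) • x + (t / (1 + t)) • y ∈
      segment ℝ w (pts w (false, false, s, true)) := by
    rw [← e]
    exact half_seg
  have h2 : (1 / (1 + t)) • x + (t / (1 + t)) • y ∈ openSegment ℝ x y :=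
    ⟨1 / (1 + t), t / (1 + t), by positivity, by positivity, by field_simp, rfl⟩
  have h3 := hE.left_mem_of_mem_openSegment hxQ hyQ h1 h2
  rw [hx] at h3
  have h4 := hE.left_mem_of_mem_openSegment (mem_Q w _) (mem_Q w _) h3 half_mem
  rcases end_of hv h _ _ h4 with h5 | h5
  · exact absurd h5 (by decide)
  · cases s <;> exact absurd h5 (by decide)

end EDG

open EDG in
/-- **VERT.** -/
theorem vert : S_VERT := by
  intro w h
  refine ⟨Subset.antisymm extremePoints_convexHull_subset ?_, inj h⟩
  rintro _ ⟨i, rfl⟩
  have h1 : pts w i ∈ (closedBall (0 : E 5) ‖w‖).extremePoints ℝ := by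
    apply StrictConvexSpace.sphere_subset_extremePoints_closedBall 0 (norm_pos h)
    rw [mem_sphere_zero_iff_norm, norm_pts]
  exact inter_extremePoints_subset_extremePoints_of_subset (sub_ball w) ⟨mem_Q w i, h1⟩

open EDG in
/-- **EDG.** -/
theorem edg (hv : S_VERT) : S_EDG := by
  intro w h i
  have ht := tt_pos h
  have ht1 := tt_lt h
  obtain ⟨a, b, s, j⟩ := i
  cases j
  · cases s
    · -- `(a, b, -, 0)`
      cases a <;> cases b
      · simp only [nb, Bool.and_self, Bool.false_eq_true, iff_false]
        exact not_edge_A hv h _ _ rfl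
      · simp only [nb, Bool.and_true, Bool.false_eq_true, iff_false]
        exact not_edge_A hv h _ _ rfl
      · simp only [nb, Bool.and_false, Bool.false_eq_true, iff_false]
        exact not_edge_A hv h _ _ rfl
      · simp only [nb, Bool.and_self, iff_true]
        refine edge_of hv h _ (by decide) (1 / 2) 0 0 0 (1 / 2) ?_ ?_ ?_
        · simp [val, o]; try norm_num
        · simp [val]; try norm_num
        · rintro ⟨a, b, s, j⟩ h1 h2
          cases a <;> cases b <;> cases s <;> cases j <;>
            first
            | exact absurd rfl h1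
            | exact absurd rfl h2
            | (simp only [val, sg_true, sg_false]; linarith)
    · -- `(a, b, +, 0)`
      cases a <;> cases b
      · simp only [nb, Bool.and_self, Bool.not_false, iff_true]
        refine edge_of hv h _ (by decide) 0 0 (1 / 2) 0 (1 / 2) ?_ ?_ ?_
        · simp [val, o]; try norm_num
        · simp [val]; try norm_num
        · rintro ⟨a, b, s, j⟩ h1 h2
          cases a <;> cases b <;> cases s <;> cases j <;>
            first
            | exact absurd rfl h1
            | exact absurd rfl h2
            | (simp only [val, sg_true, sg_false]; linarith)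
      · simp only [nb, Bool.and_true, Bool.not_false, iff_true]
        refine edge_of hv h _ (by decide) 0 (1 / 2) (1 - tt w / 2) 0 0 ?_ ?_ ?_
        · simp only [val, o, sg_true]; ring
        · simp only [val, sg_true, sg_false]; ring
        · rintro ⟨a, b, s, j⟩ h1 h2
          cases a <;> cases b <;> cases s <;> cases j <;>
            first
            | exact absurd rfl h1
            | exact absurd rfl h2
            | (simp only [val, sg_true, sg_false]; linarith)
      · simp only [nb, Bool.and_false, Bool.not_false, iff_true]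
        refine edge_of hv h _ (by decide) (1 / 2) 0 (1 / 2) 0 0 ?_ ?_ ?_
        · simp only [val, o, sg_true]; ring
        · simp only [val, sg_true, sg_false]; ring
        · rintro ⟨a, b, s, j⟩ h1 h2
          cases a <;> cases b <;> cases s <;> cases j <;>
            first
            | exact absurd rfl h1
            | exact absurd rfl h2
            | (simp only [val, sg_true, sg_false]; linarith)
      · simp only [nb, Bool.and_self, Bool.not_true, Bool.false_eq_true, iff_false]
        rintro ⟨_, _, hne, _⟩
        exact hne (pts_o w).symm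
  · cases a <;> cases b
    · simp only [nb, Bool.or_self, Bool.false_eq_true, iff_false]
      exact not_edge_B hv h s
    · simp only [nb, Bool.or_true, iff_true]
      refine edge_of hv h _ (by simp [o]) 0 (1 / 4) (1 - (1 + tt w) / 4) (sg s * (1 - 2 / 4)) (1 / 4)
        ?_ ?_ ?_
      · simp only [val, o, sg_true]; ring
      · cases s <;> (simp only [val, sg_true, sg_false]; ring)
      · rintro ⟨a, b, s', j⟩ h1 h2
        cases s <;> cases a <;> cases b <;> cases s' <;> cases j <;>
          first
          | exact absurd rfl h1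
          | exact absurd rfl h2
          | (simp only [val, sg_true, sg_false]; linarith)
    · simp only [nb, Bool.or_false, iff_true]
      refine edge_of hv h _ (by simp [o]) (1 / 4) 0 (1 - 2 / 4) (sg s * (1 - (1 + tt w) / 4)) (1 / 4)
        ?_ ?_ ?_
      · simp only [val, o, sg_true]; ring
      · cases s <;> (simp only [val, sg_true, sg_false]; ring)
      · rintro ⟨a, b, s', j⟩ h1 h2
        cases s <;> cases a <;> cases b <;> cases s' <;> cases j <;>
          first
          | exact absurd rfl h1
          | exact absurd rfl h2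
          | (simp only [val, sg_true, sg_false]; linarith)
    · simp only [nb, Bool.or_self, iff_true]
      refine edge_of hv h _ (by simp [o]) (1 / 4) (1 / 4) (1 - (1 + tt w) / 4)
        (sg s * (1 - (1 + tt w) / 4)) 0 ?_ ?_ ?_
      · simp only [val, o, sg_true]; ring
      · cases s <;> (simp only [val, sg_true, sg_false]; ring)
      · rintro ⟨a, b, s', j⟩ h1 h2
        cases s <;> cases a <;> cases b <;> cases s' <;> cases j <;>
          first
          | exact absurd rfl h1
          | exact absurd rfl h2
          | (simp only [val, sg_true, sg_false]; linarith)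

end Pool.Agent.H126.Orb
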