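import Pool.Agent.H126.Orb.Stm

/-! # The leaves LOW and UP (MP_6361d2_co), helper154 -/

set_option autoImplicit false

open Set Filter Topology

namespace Pool.Agent.H126.Orb

namespace LOW

/-- autocorrelation -/
noncomputable def qq (v : I → ℝ) (l : I) : ℝ := ∑ i, v i * v (mulI i l)

theorem rel_mulI : ∀ i l : I, rel i (mulI i l) = l := by decide

theorem mulI_rel : ∀ i j : I, mulI i (rel i j) = j := by decide

theorem mulI_invI_right : ∀ i l : I, mulI (mulI i l) (invI l) = i := by decide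

theorem mulI_invI_right' : ∀ i l : I, mulI (mulI i (invI l)) l = i := by decide

/-- left multiplication as a bijection -/
def eL (i : I) : I ≃ I where
  toFun := mulI i
  invFun := rel i
  left_inv := rel_mulI i
  right_inv := mulI_rel i

/-- right multiplication as a bijection -/
def eR (l : I) : I ≃ I where
  toFun i := mulI i l
  invFun i := mulI i (invI l)
  left_inv i := mulI_invI_right i l
  right_inv i := mulI_invI_right' i l

theorem form_eq (c : I → ℝ) (v : I → ℝ) :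
    ∑ i, ∑ j, v i * c (rel i j) * v j = ∑ l, c l * qq v l := by
  have h : ∀ i : I, ∑ j, v i * c (rel i j) * v j = ∑ l, c l * (v i * v (mulI i l)) := by
    intro i
    rw [← Equiv.sum_comp (eL i)]
    refine Finset.sum_congr rfl fun l _ => ?_
    show v i * c (rel i (mulI i l)) * v (mulI i l) = _
    rw [rel_mulI]
    ring
  rw [Finset.sum_congr rfl fun i _ => h i, Finset.sum_comm]
  refine Finset.sum_congr rfl fun l _ => ?_
  unfold qq
  rw [Finset.mul_sum]

theorem abs_qq (v : I → ℝ) (l : I) : |qq v l| ≤ ∑ i, v i ^ 2 := by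
  have h1 : ∑ i, v (mulI i l) ^ 2 = ∑ i, v i ^ 2 := Equiv.sum_comp (eR l) fun i => v i ^ 2
  calc |qq v l| ≤ ∑ i, |v i * v (mulI i l)| := Finset.abs_sum_le_sum_abs _ _
    _ ≤ ∑ i, (v i ^ 2 + v (mulI i l) ^ 2) / 2 := by
        refine Finset.sum_le_sum fun i _ => ?_
        rw [abs_mul]
        nlinarith [sq_nonneg (|v i| - |v (mulI i l)|), sq_abs (v i), sq_abs (v (mulI i l))]
    _ = ∑ i, v i ^ 2 := by
        rw [← Finset.sum_div, Finset.sum_add_distrib, h1]
        ring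

/-- the numerator of the sum of the weights -/
noncomputable def PP (t : ℝ) : ℝ := 9 + 20 * t + 11 * t ^ 2 + 4 * t ^ 3 - 6 * t ^ 4 + 2 * t ^ 5

theorem sum_I (f : I → ℝ) : ∑ i, f i =
    f (true, true, true, false) + f (true, true, false, false) +
    f (true, false, true, false) + f (true, false, false, false) +
    f (false, true, true, false) + f (false, true, false, false) +
    f (false, false, true, false) + f (false, false, false, false) +
    (f (true, true, true, true) + f (true, true, false, true) +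
    f (true, false, true, true) + f (true, false, false, true) +
    f (false, true, true, true) + f (false, true, false, true) +
    f (false, false, true, true) + f (false, false, false, true)) := by
  simp only [Fintype.sum_prod_type, Fintype.sum_bool]
  ring

theorem sum_wt (t : ℝ) : ∑ l, wt t l =
    wA1 t + wA2 t + wA3 t + wB t + 2 * wC2 t + 4 * wC1 t := by
  rw [sum_I]
  simp only [wt]
  ring

theorem N_pos {t : ℝ} (h0 : 0 < t) : 0 < N t := by
  unfold N
  positivity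

theorem sum_wt' {t : ℝ} (h0 : 0 < t) : ∑ l, wt t l = PP t / (3 * (1 + t) ^ 2 * N t) := by
  have hN := N_pos h0
  rw [sum_wt]
  unfold wA1 wA2 wA3 wB wC1 wC2 PP
  field_simp
  ring

theorem PP_pos {t : ℝ} (h0 : 0 < t) (h1 : t < 1) : 0 < PP t := by
  unfold PP
  have h4 : t ^ 4 ≤ t := by
    have : t ^ 3 ≤ 1 := pow_le_one₀ h0.le h1.le
    nlinarith
  have h5 : 0 < t ^ 5 := by positivity
  have h3 : 0 < t ^ 3 := by positivity
  have h2 : 0 < t ^ 2 := by positivity
  nlinarith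

theorem D_pos {t : ℝ} (h0 : 0 < t) (h1 : t < 1) : 0 < ∑ l, wt t l := by
  rw [sum_wt' h0]
  have hN := N_pos h0
  have hP := PP_pos h0 h1
  positivity

theorem wt_nonneg {t : ℝ} (h0 : 0 < t) (h1 : t < 1) (l : I) : 0 ≤ wt t l := by
  have hN := N_pos h0
  have ht2 : t ^ 2 ≤ t := by nlinarith
  have ht3 : t ^ 3 ≤ t ^ 2 := by nlinarith [sq_nonneg t]
  have ht4 : t ^ 4 ≤ t ^ 3 := by nlinarith [pow_pos h0 3]
  have hp4 : 0 < t ^ 4 := by positivity
  have hp5 : 0 < t ^ 5 := by positivity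
  have hp3 : 0 < t ^ 3 := by positivity
  have hp2 : 0 < t ^ 2 := by positivity
  have a1 : 0 ≤ wA1 t := by unfold wA1; positivity
  have a2 : 0 ≤ wA2 t := by
    unfold wA2
    have : 0 ≤ 3 - t + t ^ 2 - 2 * t ^ 3 + t ^ 4 := by nlinarith
    positivity
  have a3 : 0 ≤ wA3 t := by unfold wA3; positivity
  have b : 0 ≤ wB t := by
    unfold wB
    have : 0 ≤ 1 + 3 * t - t ^ 4 + t ^ 5 := by nlinarith
    positivity
  have c1 : 0 ≤ wC1 t := by
    unfold wC1
    have : 0 ≤ 2 + t + 2 * t ^ 2 - t ^ 3 := by nlinarith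
    positivity
  have c2 : 0 ≤ wC2 t := by
    unfold wC2
    have : 0 ≤ 3 + t + t ^ 2 - t ^ 3 := by nlinarith
    positivity
  obtain ⟨x, y, s, j⟩ := l
  cases x <;> cases y <;> cases s <;> cases j <;> simp only [wt] <;>
    first | exact le_rfl | assumption

/-- the quotients in terms of the autocorrelation -/
theorem quot_eq (t : ℝ) (v : I → ℝ) :
    ∑ i, ∑ j, v i * (wt t (rel i j) / ∑ l, wt t l) * v j =
      ∑ l, (wt t l / ∑ l, wt t l) * qq v l :=
  form_eq (fun l => wt t l / ∑ l, wt t l) v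

theorem sq_pos_of_ne {v : I → ℝ} (hv : v ≠ 0) : 0 < ∑ i, v i ^ 2 := by
  obtain ⟨i, hi⟩ : ∃ i, v i ≠ 0 := by
    by_contra h
    push Not at h
    exact hv (funext h)
  exact Finset.sum_pos' (fun i _ => sq_nonneg _) ⟨i, Finset.mem_univ _, by positivity⟩

/-- the test vector -/
noncomputable def v0 : I → ℝ
  | (_, _, s, false) => sg s
  | (_, _, _, true) => 0

theorem v0_ne : v0 ≠ 0 := by
  intro h
  have := congrFun h (true, true, true, false)
  simp [v0] at this

theorem v0_sum : ∑ i, v0 i = 0 := by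
  rw [sum_I]
  simp [v0]

theorem v0_sq : ∑ i, v0 i ^ 2 = 8 := by
  rw [sum_I]
  simp [v0]
  norm_num

theorem qq_v0 (l : I) : qq v0 l = 8 * v0 l := by
  obtain ⟨x, y, s, j⟩ := l
  unfold qq
  rw [sum_I]
  cases x <;> cases y <;> cases s <;> cases j <;> simp [mulI, v0] <;> norm_num

theorem quot_v0 {t : ℝ} (h0 : 0 < t) (h1 : t < 1) :
    (∑ i, ∑ j, v0 i * (wt t (rel i j) / ∑ l, wt t l) * v0 j) / ∑ i, v0 i ^ 2 =
      (3 + 2 * t + 3 * t ^ 2) / PP t := by
  have hN := N_pos h0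
  have hP := PP_pos h0 h1
  have hD := D_pos h0 h1
  rw [quot_eq, v0_sq]
  have e1 : ∑ l, (wt t l / ∑ l, wt t l) * qq v0 l = 8 * (wA1 t + wA2 t + wA3 t - wB t) /
      ∑ l, wt t l := by
    have e2 : ∀ l, (wt t l / ∑ l, wt t l) * qq v0 l = (wt t l * (8 * v0 l)) / ∑ l, wt t l := by
      intro l
      rw [qq_v0]
      ring
    rw [Finset.sum_congr rfl fun l _ => e2 l, ← Finset.sum_div]
    congr 1
    rw [sum_I]
    simp only [wt, v0, sg_true, sg_false]
    ring
  rw [e1, sum_wt' h0]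
  unfold wA1 wA2 wA3 wB
  have hP' : PP t ≠ 0 := hP.ne'
  field_simp
  ring

theorem ray_nonempty (t : ℝ) : (ray t).Nonempty := ⟨_, v0, v0_ne, v0_sum, rfl⟩

/-- bound for the quotients -/
theorem quot_le_one {t : ℝ} (h0 : 0 < t) (h1 : t < 1) {v : I → ℝ} (hv : v ≠ 0) :
    (∑ i, ∑ j, v i * (wt t (rel i j) / ∑ l, wt t l) * v j) / ∑ i, v i ^ 2 ≤ 1 := by
  have hD := D_pos h0 h1
  rw [div_le_one (sq_pos_of_ne hv), quot_eq]
  calc ∑ l, (wt t l / ∑ l, wt t l) * qq v l ≤ ∑ l, (wt t l / ∑ l, wt t l) * ∑ i, v i ^ 2 := by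
        refine Finset.sum_le_sum fun l _ => ?_
        exact mul_le_mul_of_nonneg_left ((le_abs_self _).trans (abs_qq v l))
          (div_nonneg (wt_nonneg h0 h1 l) hD.le)
    _ = ∑ i, v i ^ 2 := by
        rw [← Finset.sum_mul, ← Finset.sum_div, div_self hD.ne', one_mul]

end LOW

theorem low : S_LOW := by
  intro t h0 h1
  have hb : BddAbove (ray t) := by
    refine ⟨1, ?_⟩
    rintro _ ⟨v, hv, -, rfl⟩
    exact LOW.quot_le_one h0 h1 hv
  refine ⟨?_, hb⟩
  have h2 : (3 + 2 * t + 3 * t ^ 2) / LOW.PP t ≤ sSup (ray t) := by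
    apply le_csSup hb
    exact ⟨LOW.v0, LOW.v0_ne, LOW.v0_sum, (LOW.quot_v0 h0 h1).symm⟩
  refine lt_of_lt_of_le ?_ h2
  rw [div_lt_div_iff₀ (by norm_num) (LOW.PP_pos h0 h1)]
  have h3 : 0 < 2 * (1 - t) ^ 2 * (3 + t + t ^ 2 - t ^ 3) := by
    have h4 : 0 < 1 - t := by linarith
    have h5 : t ^ 3 ≤ 1 := pow_le_one₀ h0.le h1.le
    have h6 : 0 < 3 + t + t ^ 2 - t ^ 3 := by nlinarith [sq_nonneg t]
    positivity
  unfold LOW.PP
  nlinarith

namespace LOW

/-- the limit form -/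
noncomputable def aa (l : I) : ℝ := if nb l then 1 else 0

theorem quad {v : I → ℝ} (hv : ∑ i, v i = 0) : ∑ l, aa l * qq v l ≤ 2 * ∑ i, v i ^ 2 := by
  obtain ⟨a1, h1⟩ : ∃ x, x = v (true, true, true, false) := ⟨_, rfl⟩
  obtain ⟨a2, h2⟩ : ∃ x, x = v (true, true, false, false) := ⟨_, rfl⟩
  obtain ⟨a3, h3⟩ : ∃ x, x = v (true, false, true, false) := ⟨_, rfl⟩
  obtain ⟨a4, h4⟩ : ∃ x, x = v (true, false, false, false) := ⟨_, rfl⟩
  obtain ⟨a5, h5⟩ : ∃ x, x = v (false, true, true, false) := ⟨_, rfl⟩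
  obtain ⟨a6, h6⟩ : ∃ x, x = v (false, true, false, false) := ⟨_, rfl⟩
  obtain ⟨a7, h7⟩ : ∃ x, x = v (false, false, true, false) := ⟨_, rfl⟩
  obtain ⟨a8, h8⟩ : ∃ x, x = v (false, false, false, false) := ⟨_, rfl⟩
  obtain ⟨b1, k1⟩ : ∃ x, x = v (true, true, true, true) := ⟨_, rfl⟩
  obtain ⟨b2, k2⟩ : ∃ x, x = v (true, true, false, true) := ⟨_, rfl⟩
  obtain ⟨b3, k3⟩ : ∃ x, x = v (true, false, true, true) := ⟨_, rfl⟩
  obtain ⟨b4, k4⟩ : ∃ x, x = v (true, false, false, true) := ⟨_, rfl⟩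
  obtain ⟨b5, k5⟩ : ∃ x, x = v (false, true, true, true) := ⟨_, rfl⟩
  obtain ⟨b6, k6⟩ : ∃ x, x = v (false, true, false, true) := ⟨_, rfl⟩
  obtain ⟨b7, k7⟩ : ∃ x, x = v (false, false, true, true) := ⟨_, rfl⟩
  obtain ⟨b8, k8⟩ : ∃ x, x = v (false, false, false, true) := ⟨_, rfl⟩
  rw [sum_I] at hv
  rw [sum_I, sum_I]
  simp only [qq, sum_I, mulI, aa, nb, Bool.and_true, Bool.and_false,
    Bool.or_true, Bool.or_false, Bool.not_true, Bool.not_false, beq_self_eq_true,
    if_true, one_mul, zero_mul, add_zero, zero_add, Bool.false_eq_true, if_false,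
    Bool.and_self, Bool.or_self, Bool.true_beq, Bool.false_beq]
  rw [← h1, ← h2, ← h3, ← h4, ← h5, ← h6, ← h7, ← h8, ← k1, ← k2, ← k3, ← k4, ← k5, ← k6, ← k7,
    ← k8] at hv ⊢
  clear h1 h2 h3 h4 h5 h6 h7 h8 k1 k2 k3 k4 k5 k6 k7 k8
  have hS : a1 + a2 + a3 + a4 + a5 + a6 + a7 + a8 + (b1 + b2 + b3 + b4 + b5 + b6 + b7 + b8) = 0 := hv
  have hS1 : (a1 + a2 + a3 + a4 + a5 + a6 + a7 + a8 + (b1 + b2 + b3 + b4 + b5 + b6 + b7 + b8)) *
      (a1 + a2 + a3 + a4 + a5 + a6 + a7 + a8) = 0 := by rw [hS, zero_mul]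
  have hS2 : (a1 + a2 + a3 + a4 + a5 + a6 + a7 + a8 + (b1 + b2 + b3 + b4 + b5 + b6 + b7 + b8)) ^ 2 = 0 := by
    rw [hS]; norm_num
  linarith [sq_nonneg (a1 + a2 + b7 + b8),
    sq_nonneg (a3 + a4 + b5 + b6),
    sq_nonneg (a5 + a6 + b3 + b4),
    sq_nonneg (a7 + a8 + b1 + b2),
    sq_nonneg (a1 + a2 + a3 + a4 + a5 + a6 + a7 + a8),
    sq_nonneg ((a1 - a2) - (a3 - a4)),
    sq_nonneg ((a1 - a2) - (a5 - a6)),
    sq_nonneg ((a1 - a2) - (a7 - a8)),
    sq_nonneg ((a3 - a4) - (a5 - a6)),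
    sq_nonneg ((a3 - a4) - (a7 - a8)),
    sq_nonneg ((a5 - a6) - (a7 - a8)),
    sq_nonneg ((b1 - b2) - (b3 - b4)),
    sq_nonneg ((b1 - b2) - (b5 - b6)),
    sq_nonneg ((b1 - b2) - (b7 - b8)),
    sq_nonneg ((b3 - b4) - (b5 - b6)),
    sq_nonneg ((b3 - b4) - (b7 - b8)),
    sq_nonneg ((b5 - b6) - (b7 - b8)),
    hS1,
    hS2]

/-- the error -/
noncomputable def er (t : ℝ) : ℝ := ∑ l, |wt t l / ∑ l, wt t l - aa l / 10|

theorem quot_le {t : ℝ} {v : I → ℝ} (hv : v ≠ 0)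
    (hs : ∑ i, v i = 0) :
    (∑ i, ∑ j, v i * (wt t (rel i j) / ∑ l, wt t l) * v j) / ∑ i, v i ^ 2 ≤ 1 / 5 + er t := by
  have hp := sq_pos_of_ne hv
  rw [div_le_iff₀ hp, quot_eq]
  have e : ∑ l, (wt t l / ∑ l, wt t l) * qq v l =
      ∑ l, (wt t l / ∑ l, wt t l - aa l / 10) * qq v l + (∑ l, aa l * qq v l) / 10 := by
    rw [Finset.sum_div, ← Finset.sum_add_distrib]
    refine Finset.sum_congr rfl fun l _ => ?_
    ring
  have h1 : ∑ l, (wt t l / ∑ l, wt t l - aa l / 10) * qq v l ≤ er t * ∑ i, v i ^ 2 := by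
    unfold er
    rw [Finset.sum_mul]
    refine Finset.sum_le_sum fun l _ => ?_
    calc _ ≤ |(wt t l / ∑ l, wt t l - aa l / 10) * qq v l| := le_abs_self _
      _ = |wt t l / ∑ l, wt t l - aa l / 10| * |qq v l| := abs_mul _ _
      _ ≤ _ := mul_le_mul_of_nonneg_left (abs_qq v l) (abs_nonneg _)
  have h2 := quad hs
  rw [e]
  linarith

theorem cont_wt (l : I) : ContinuousAt (fun t => wt t l) 1 := by
  have hN : ContinuousAt N 1 := by unfold N; fun_prop
  have n1 : N 1 = 3 := by unfold N; norm_num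
  have a1 : ContinuousAt wA1 1 := by
    unfold wA1
    apply ContinuousAt.div (by fun_prop) (by fun_prop)
    rw [n1]; norm_num
  have a2 : ContinuousAt wA2 1 := by
    unfold wA2
    apply ContinuousAt.div (by fun_prop) (by fun_prop)
    rw [n1]; norm_num
  have a3 : ContinuousAt wA3 1 := by
    unfold wA3
    apply ContinuousAt.div (by fun_prop) (by fun_prop)
    rw [n1]; norm_num
  have b : ContinuousAt wB 1 := by
    unfold wB
    apply ContinuousAt.div (by fun_prop) (by fun_prop)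
    rw [n1]; norm_num
  have c1 : ContinuousAt wC1 1 := by
    unfold wC1
    apply ContinuousAt.div (by fun_prop) (by fun_prop)
    rw [n1]; norm_num
  have c2 : ContinuousAt wC2 1 := by
    unfold wC2
    apply ContinuousAt.div (by fun_prop) (by fun_prop)
    rw [n1]; norm_num
  obtain ⟨x, y, s, j⟩ := l
  cases x <;> cases y <;> cases s <;> cases j <;> simp only [wt] <;>
    first | exact continuousAt_const | assumption

theorem sum_one : ∑ l, wt 1 l = 10 / 9 := by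
  rw [sum_wt]
  unfold wA1 wA2 wA3 wB wC1 wC2 N
  norm_num

theorem wt_one (l : I) : wt 1 l / ∑ l, wt 1 l = aa l / 10 := by
  rw [sum_one]
  obtain ⟨x, y, s, j⟩ := l
  cases x <;> cases y <;> cases s <;> cases j <;>
    simp [wt, aa, nb, wA1, wA2, wA3, wB, wC1, wC2, N] <;> norm_num

theorem er_one : er 1 = 0 := by
  unfold er
  refine Finset.sum_eq_zero fun l _ => ?_
  rw [wt_one, sub_self, abs_zero]

theorem cont_er : ContinuousAt er 1 := by
  unfold er
  have hs : ContinuousAt (fun t => ∑ l, wt t l) 1 :=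
    tendsto_finsetSum _ fun l _ => cont_wt l
  apply tendsto_finsetSum
  intro l _
  have h1 : ContinuousAt (fun t => wt t l / ∑ l, wt t l) 1 := by
    apply ContinuousAt.div (cont_wt l) hs
    rw [sum_one]
    norm_num
  exact (h1.sub continuousAt_const).abs

end LOW

theorem up : S_UP := by
  intro ε hε
  have h := LOW.cont_er
  rw [ContinuousAt, LOW.er_one, Metric.tendsto_nhds_nhds] at h
  obtain ⟨δ, hδ, hd⟩ := h ε hε
  refine ⟨max (1 - δ) (1 / 2), by positivity, by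
    apply max_lt <;> linarith, ?_⟩
  intro t ht0 ht1
  have h1 : 1 - δ < t := lt_of_le_of_lt (le_max_left _ _) ht0
  have h2 : dist t 1 < δ := by
    rw [Real.dist_eq, abs_of_nonpos (by linarith)]
    linarith
  have h3 := hd h2
  rw [Real.dist_eq, sub_zero] at h3
  have h4 : LOW.er t < ε := (le_abs_self _).trans_lt h3
  have h5 : sSup (ray t) ≤ 1 / 5 + LOW.er t := by
    apply csSup_le (LOW.ray_nonempty t)
    rintro _ ⟨v, hv, hs, rfl⟩
    exact LOW.quot_le hv hs
  linarith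

end Pool.Agent.H126.Orb
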