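import Pool.Agent.H126.Orb.Stm

/-!
# All strata are submanifolds (MP_6361d2_co, MAN)
-/

set_option autoImplicit false

open Set Metric MeasureTheory
open scoped RealInnerProductSpace ContDiff

namespace Pool.Agent.H126.Orb

namespace MAN

theorem sameType_refl {k : ℕ} (P : Set (E k)) : SameType P P := ⟨OrderIso.refl _⟩

theorem sameType_symm {k : ℕ} {P P' : Set (E k)} (h : SameType P P') : SameType P' P := by
  obtain ⟨e⟩ := h
  exact ⟨e.symm⟩

theorem sameType_trans {k : ℕ} {P P' P'' : Set (E k)} (h : SameType P P') (h' : SameType P' P'') :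
    SameType P P'' := by
  obtain ⟨e⟩ := h
  obtain ⟨e'⟩ := h'
  exact ⟨e.trans e'⟩

theorem isOpen_imp {X : Type} [TopologicalSpace X] {A : Prop} {S : Set X} (h : A → IsOpen S) :
    IsOpen {x | A → x ∈ S} := by
  by_cases hA : A
  · simpa [hA] using h hA
  · simp [hA]

/-- The same coordinate subspaces. -/
def Same (x p : E 5) : Prop := ((x 0 = 0 ∧ x 1 = 0) ↔ (p 0 = 0 ∧ p 1 = 0)) ∧
  ((x 2 = 0 ∧ x 3 = 0) ↔ (p 2 = 0 ∧ p 3 = 0)) ∧ (x 4 = 0 ↔ p 4 = 0)

/-- The neighbourhood. -/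
def V (p : E 5) : Set (E 5) :=
  {x | (p 0 ≠ 0 → x 0 ≠ 0)} ∩ {x | (p 1 ≠ 0 → x 1 ≠ 0)} ∩ {x | (p 2 ≠ 0 → x 2 ≠ 0)} ∩
    {x | (p 3 ≠ 0 → x 3 ≠ 0)} ∩ {x | (p 4 ≠ 0 → x 4 ≠ 0)} ∩ {x | (|p 0| ≠ |p 1| → |x 0| ≠ |x 1|)} ∩
    {x | (p 0 * p 1 ≠ 0 → 0 < (p 0 * p 1) * (x 0 * x 1))}

theorem isOpen_V (p : E 5) : IsOpen (V p) := by
  have hc : ∀ i : Fin 5, Continuous fun x : E 5 => x i := fun i => by fun_prop
  have hne : ∀ i : Fin 5, IsOpen {x : E 5 | x i ≠ 0} := fun i =>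
    isOpen_ne_fun (hc i) continuous_const
  unfold V
  refine (((((IsOpen.inter (IsOpen.inter ?_ ?_) ?_).inter ?_).inter ?_).inter ?_).inter ?_)
  · exact isOpen_imp (S := {x : E 5 | x 0 ≠ 0}) fun _ => hne 0
  · exact isOpen_imp (S := {x : E 5 | x 1 ≠ 0}) fun _ => hne 1
  · exact isOpen_imp (S := {x : E 5 | x 2 ≠ 0}) fun _ => hne 2
  · exact isOpen_imp (S := {x : E 5 | x 3 ≠ 0}) fun _ => hne 3
  · exact isOpen_imp (S := {x : E 5 | x 4 ≠ 0}) fun _ => hne 4
  · exact isOpen_imp (S := {x : E 5 | |x 0| ≠ |x 1|}) fun _ =>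
      isOpen_ne_fun (hc 0).abs (hc 1).abs
  · exact isOpen_imp (S := {x : E 5 | 0 < (p 0 * p 1) * (x 0 * x 1)}) fun _ =>
      isOpen_lt continuous_const (continuous_const.mul ((hc 0).mul (hc 1)))

theorem mem_V {p x : E 5} (h : x ∈ V p) : (p 0 ≠ 0 → x 0 ≠ 0) ∧ (p 1 ≠ 0 → x 1 ≠ 0) ∧
    (p 2 ≠ 0 → x 2 ≠ 0) ∧ (p 3 ≠ 0 → x 3 ≠ 0) ∧ (p 4 ≠ 0 → x 4 ≠ 0) ∧
    (|p 0| ≠ |p 1| → |x 0| ≠ |x 1|) ∧ (p 0 * p 1 ≠ 0 → 0 < (p 0 * p 1) * (x 0 * x 1)) := by
  obtain ⟨⟨⟨⟨⟨⟨h0, h1⟩, h2⟩, h3⟩, h4⟩, h5⟩, h6⟩ := h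
  exact ⟨h0, h1, h2, h3, h4, h5, h6⟩

theorem self_mem_V (p : E 5) : p ∈ V p := by
  refine ⟨⟨⟨⟨⟨⟨id, id⟩, id⟩, id⟩, id⟩, id⟩, ?_⟩
  intro h
  exact mul_self_pos.2 h

theorem same_of_nd {p x : E 5} (hx : x ∈ V p) (hn : nd x = nd p) : Same x p := by
  classical
  obtain ⟨h0, h1, h2, h3, h4, -, -⟩ := mem_V hx
  have a1 : (x 0 = 0 ∧ x 1 = 0) → (p 0 = 0 ∧ p 1 = 0) := fun ⟨u, v⟩ =>
    ⟨by by_contra h; exact h0 h u, by by_contra h; exact h1 h v⟩
  have a2 : (x 2 = 0 ∧ x 3 = 0) → (p 2 = 0 ∧ p 3 = 0) := fun ⟨u, v⟩ =>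
    ⟨by by_contra h; exact h2 h u, by by_contra h; exact h3 h v⟩
  have a3 : x 4 = 0 → p 4 = 0 := fun u => by by_contra h; exact h4 h u
  unfold nd at hn
  refine ⟨⟨a1, fun b => ?_⟩, ⟨a2, fun b => ?_⟩, ⟨a3, fun b => ?_⟩⟩
  · by_contra c
    rw [if_neg c, if_pos b] at hn
    by_cases c2 : x 2 = 0 ∧ x 3 = 0
    · rw [if_pos c2, if_pos (a2 c2)] at hn
      by_cases c3 : x 4 = 0
      · rw [if_pos c3, if_pos (a3 c3)] at hn; omega
      · rw [if_neg c3] at hn
        split_ifs at hn <;> omega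
    · rw [if_neg c2] at hn
      by_cases c3 : x 4 = 0
      · rw [if_pos c3, if_pos (a3 c3)] at hn
        split_ifs at hn <;> omega
      · rw [if_neg c3] at hn
        split_ifs at hn <;> omega
  · by_contra c
    rw [if_neg c, if_pos b] at hn
    by_cases c2 : x 0 = 0 ∧ x 1 = 0
    · rw [if_pos c2, if_pos (a1 c2)] at hn
      by_cases c3 : x 4 = 0
      · rw [if_pos c3, if_pos (a3 c3)] at hn; omega
      · rw [if_neg c3] at hn
        split_ifs at hn <;> omega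
    · rw [if_neg c2] at hn
      by_cases c3 : x 4 = 0
      · rw [if_pos c3, if_pos (a3 c3)] at hn
        split_ifs at hn <;> omega
      · rw [if_neg c3] at hn
        split_ifs at hn <;> omega
  · by_contra c
    rw [if_neg c, if_pos b] at hn
    by_cases c2 : x 0 = 0 ∧ x 1 = 0
    · rw [if_pos c2, if_pos (a1 c2)] at hn
      by_cases c3 : x 2 = 0 ∧ x 3 = 0
      · rw [if_pos c3, if_pos (a2 c3)] at hn; omega
      · rw [if_neg c3] at hn
        split_ifs at hn <;> omega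
    · rw [if_neg c2] at hn
      by_cases c3 : x 2 = 0 ∧ x 3 = 0
      · rw [if_pos c3, if_pos (a2 c3)] at hn
        split_ifs at hn <;> omega
      · rw [if_neg c3] at hn
        split_ifs at hn <;> omega

/-- The linear subspaces. -/
def Ms (p : E 5) (b : Prop) : Submodule ℝ (E 5) where
  carrier := {x | ((p 0 = 0 ∧ p 1 = 0) → (x 0 = 0 ∧ x 1 = 0)) ∧
    ((p 2 = 0 ∧ p 3 = 0) → (x 2 = 0 ∧ x 3 = 0)) ∧ (p 4 = 0 → x 4 = 0) ∧
    (b → p 1 * x 0 = p 0 * x 1)}
  add_mem' := by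
    rintro x y ⟨a1, a2, a3, a4⟩ ⟨b1, b2, b3, b4⟩
    refine ⟨fun h => ?_, fun h => ?_, fun h => ?_, fun h => ?_⟩
    · have := a1 h; have := b1 h; simp [*]
    · have := a2 h; have := b2 h; simp [*]
    · have := a3 h; have := b3 h; simp [*]
    · have h1 := a4 h; have h2 := b4 h
      simp only [PiLp.add_apply]
      linear_combination h1 + h2
  zero_mem' := by
    refine ⟨fun h => ?_, fun h => ?_, fun h => ?_, fun h => ?_⟩ <;> simp
  smul_mem' := by
    rintro r x ⟨a1, a2, a3, a4⟩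
    refine ⟨fun h => ?_, fun h => ?_, fun h => ?_, fun h => ?_⟩
    · have := a1 h; simp [*]
    · have := a2 h; simp [*]
    · have := a3 h; simp [*]
    · have h1 := a4 h
      simp only [PiLp.smul_apply, smul_eq_mul]
      linear_combination r * h1

theorem mem_Ms {p x : E 5} {b : Prop} : x ∈ Ms p b ↔ ((p 0 = 0 ∧ p 1 = 0) → (x 0 = 0 ∧ x 1 = 0)) ∧
    ((p 2 = 0 ∧ p 3 = 0) → (x 2 = 0 ∧ x 3 = 0)) ∧ (p 4 = 0 → x 4 = 0) ∧
    (b → p 1 * x 0 = p 0 * x 1) := Iff.rfl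

theorem self_mem_Ms (p : E 5) (b : Prop) : p ∈ Ms p b := by
  rw [mem_Ms]
  exact ⟨id, id, id, fun _ => mul_comm _ _⟩

theorem same_of_mem {p x : E 5} {b : Prop} (hx : x ∈ V p) (hm : x ∈ Ms p b) : Same x p := by
  obtain ⟨h0, h1, h2, h3, h4, -, -⟩ := mem_V hx
  obtain ⟨m1, m2, m3, -⟩ := mem_Ms.1 hm
  refine ⟨⟨fun ⟨u, v⟩ => ⟨?_, ?_⟩, m1⟩, ⟨fun ⟨u, v⟩ => ⟨?_, ?_⟩, m2⟩, ⟨fun u => ?_, m3⟩⟩
  · by_contra h; exact h0 h u
  · by_contra h; exact h1 h v
  · by_contra h; exact h2 h u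
  · by_contra h; exact h3 h v
  · by_contra h; exact h4 h u

theorem zt_cases (x : E 5) :
    (zt x = 0 ∧ (x 0 = 0 ∧ x 1 = 0)) ∨
    (zt x = 1 ∧ ¬ (x 0 = 0 ∧ x 1 = 0) ∧ (x 0 = 0 ∨ x 1 = 0)) ∨
    (zt x = 2 ∧ x 0 ≠ 0 ∧ x 1 ≠ 0 ∧ |x 0| = |x 1|) ∨
    (zt x = 3 ∧ x 0 ≠ 0 ∧ x 1 ≠ 0 ∧ |x 0| ≠ |x 1|) := by
  unfold zt
  split_ifs with h1 h2 h3
  · exact Or.inl ⟨rfl, h1⟩
  · exact Or.inr (Or.inl ⟨rfl, h1, h2⟩)
  · rw [not_or] at h2
    exact Or.inr (Or.inr (Or.inl ⟨rfl, h2.1, h2.2, h3⟩))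
  · rw [not_or] at h2
    exact Or.inr (Or.inr (Or.inr ⟨rfl, h2.1, h2.2, h3⟩))

/-- The type of `(x 0, x 1)` near `p`. -/
theorem zt_near {p x : E 5} (hx : x ∈ V p) (hs : Same x p) :
    (zt x = zt p ∧ ((zt p = 1 ∨ zt p = 2) → p 1 * x 0 = p 0 * x 1)) ∨
      (zt x = 3 ∧ (zt p = 1 ∨ zt p = 2) ∧ p 1 * x 0 ≠ p 0 * x 1) := by
  obtain ⟨h0, h1, -, -, -, h5, h6⟩ := mem_V hx
  obtain ⟨s0, -, -⟩ := hs
  rcases zt_cases p with ⟨a, b⟩ | ⟨a, b, c⟩ | ⟨a, b, c, d⟩ | ⟨a, b, c, d⟩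
  · left
    rcases zt_cases x with ⟨a', b'⟩ | ⟨a', b', c'⟩ | ⟨a', b', c', d'⟩ | ⟨a', b', c', d'⟩
    · exact ⟨by rw [a, a'], fun h => by omega⟩
    · exact absurd (s0.2 b) b'
    · exact absurd (s0.2 b).1 b'
    · exact absurd (s0.2 b).1 b'
  · -- `zt p = 1`
    have hab : |p 0| ≠ |p 1| := by
      intro h
      rcases c with c | c
      · rw [c, abs_zero] at h
        exact b ⟨c, abs_eq_zero.1 h.symm⟩
      · rw [c, abs_zero] at h
        exact b ⟨abs_eq_zero.1 h, c⟩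
    have hx' := h5 hab
    rcases c with c | c
    · have c1 : p 1 ≠ 0 := fun h => b ⟨c, h⟩
      have x1 := h1 c1
      by_cases hx0 : x 0 = 0
      · left
        have : zt x = 1 := by
          rcases zt_cases x with ⟨a', b'⟩ | ⟨a', b', c'⟩ | ⟨a', b', c', d'⟩ | ⟨a', b', c', d'⟩
          · exact absurd b'.2 x1
          · exact a'
          · exact absurd hx0 b'
          · exact absurd hx0 b'
        exact ⟨by rw [this, a], fun _ => by rw [hx0, c]; ring⟩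
      · right
        have : zt x = 3 := by
          rcases zt_cases x with ⟨a', b'⟩ | ⟨a', b', c'⟩ | ⟨a', b', c', d'⟩ | ⟨a', b', c', d'⟩
          · exact absurd b'.2 x1
          · rcases c' with c' | c'
            · exact absurd c' hx0
            · exact absurd c' x1
          · exact absurd d' hx'
          · exact a'
        refine ⟨this, Or.inl a, ?_⟩
        rw [c, zero_mul]
        exact mul_ne_zero c1 hx0
    · have c1 : p 0 ≠ 0 := fun h => b ⟨h, c⟩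
      have x1 := h0 c1
      by_cases hx0 : x 1 = 0
      · left
        have : zt x = 1 := by
          rcases zt_cases x with ⟨a', b'⟩ | ⟨a', b', c'⟩ | ⟨a', b', c', d'⟩ | ⟨a', b', c', d'⟩
          · exact absurd b'.1 x1
          · exact a'
          · exact absurd hx0 c'
          · exact absurd hx0 c'
        exact ⟨by rw [this, a], fun _ => by rw [hx0, c]; ring⟩
      · right
        have : zt x = 3 := by
          rcases zt_cases x with ⟨a', b'⟩ | ⟨a', b', c'⟩ | ⟨a', b', c', d'⟩ | ⟨a', b', c', d'⟩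
          · exact absurd b'.1 x1
          · rcases c' with c' | c'
            · exact absurd c' x1
            · exact absurd c' hx0
          · exact absurd d' hx'
          · exact a'
        refine ⟨this, Or.inl a, ?_⟩
        rw [c, zero_mul]
        exact (mul_ne_zero c1 hx0).symm
  · -- `zt p = 2`
    have x0 := h0 b
    have x1 := h1 c
    have hpos := h6 (mul_ne_zero b c)
    have key : |x 0| = |x 1| ↔ p 1 * x 0 = p 0 * x 1 := by
      have hp : p 0 = p 1 ∨ p 0 = -p 1 := abs_eq_abs.1 d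
      rw [abs_eq_abs]
      have hpp : 0 < p 1 ^ 2 := by positivity
      rcases hp with hp | hp
      · rw [hp] at hpos ⊢
        have hxx : 0 < x 0 * x 1 := by
          by_contra hcon
          rw [not_lt] at hcon
          nlinarith
        constructor
        · rintro (h | h)
          · rw [h]
          · exfalso; rw [h] at hxx; nlinarith [sq_nonneg (x 1)]
        · intro h
          left
          exact mul_left_cancel₀ c h
      · rw [hp] at hpos ⊢
        have hxx : x 0 * x 1 < 0 := by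
          by_contra hcon
          rw [not_lt] at hcon
          nlinarith
        constructor
        · rintro (h | h)
          · exfalso; rw [h] at hxx; nlinarith [sq_nonneg (x 1)]
          · rw [h]; ring
        · intro h
          right
          have h2 : p 1 * x 0 = p 1 * (- x 1) := by linarith
          exact mul_left_cancel₀ c h2
    by_cases hk : |x 0| = |x 1|
    · left
      have : zt x = 2 := by
        rcases zt_cases x with ⟨a', b'⟩ | ⟨a', b', c'⟩ | ⟨a', b', c', d'⟩ | ⟨a', b', c', d'⟩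
        · exact absurd b'.1 x0
        · rcases c' with c' | c'
          · exact absurd c' x0
          · exact absurd c' x1
        · exact a'
        · exact absurd hk d'
      exact ⟨by rw [this, a], fun _ => key.1 hk⟩
    · right
      have : zt x = 3 := by
        rcases zt_cases x with ⟨a', b'⟩ | ⟨a', b', c'⟩ | ⟨a', b', c', d'⟩ | ⟨a', b', c', d'⟩
        · exact absurd b'.1 x0
        · rcases c' with c' | c'
          · exact absurd c' x0
          · exact absurd c' x1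
        · exact absurd d' hk
        · exact a'
      exact ⟨this, Or.inr a, fun h => hk (key.2 h)⟩
  · -- `zt p = 3`
    left
    have x0 := h0 b
    have x1 := h1 c
    have hx' := h5 d
    have : zt x = 3 := by
      rcases zt_cases x with ⟨a', b'⟩ | ⟨a', b', c'⟩ | ⟨a', b', c', d'⟩ | ⟨a', b', c', d'⟩
      · exact absurd b'.1 x0
      · rcases c' with c' | c'
        · exact absurd c' x0
        · exact absurd c' x1
      · exact absurd d' hx'
      · exact a'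
    exact ⟨by rw [this, a], fun h => by omega⟩

/-- The class is locally the intersection of the sphere with a linear subspace. -/
theorem loc (hC : S_CODE) (hD : S_DIM) (hN : S_ND) (r : ℝ) (w p : E 5)
    (hp : p ∈ typeClass G r w) : ∃ M : Submodule ℝ (E 5), p ∈ M ∧
      typeClass G r w ∩ V p = (sphere (0 : E 5) r ∩ M) ∩ V p := by
  obtain ⟨hps, hpt⟩ := hp
  rw [orbPoly_G, orbPoly_G] at hpt
  have hmem : ∀ x, x ∈ typeClass G r w ↔ x ∈ sphere (0 : E 5) r ∧ SameType (Q x) (Q p) := by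
    intro x
    unfold typeClass
    simp only [Set.mem_ofPred_eq]
    rw [orbPoly_G, orbPoly_G]
    exact and_congr_right fun _ =>
      ⟨fun h => sameType_trans h (sameType_symm hpt), fun h => sameType_trans h hpt⟩
  have hnd : ∀ x, SameType (Q x) (Q p) → nd x = nd p := by
    intro x h
    rw [← hN x, ← hN p]
    exact hD 5 I I (pts x) (pts p) h
  by_cases hP : ∃ y : E 5, zt y = 3 ∧ Same y p ∧ SameType (Q y) (Q p)
  · -- all points of the larger subspace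
    obtain ⟨y, hy3, hys, hyt⟩ := hP
    refine ⟨Ms p False, self_mem_Ms _ _, ?_⟩
    ext x
    constructor
    · rintro ⟨hx, hxV⟩
      obtain ⟨hxs, hxt⟩ := (hmem x).1 hx
      have hs := same_of_nd hxV (hnd x hxt)
      refine ⟨⟨hxs, mem_Ms.2 ⟨hs.1.2, hs.2.1.2, hs.2.2.2, fun h => h.elim⟩⟩, hxV⟩
    · rintro ⟨⟨hxs, hxM⟩, hxV⟩
      refine ⟨(hmem x).2 ⟨hxs, ?_⟩, hxV⟩
      have hs := same_of_mem hxV hxM
      rcases zt_near hxV hs with ⟨hz, -⟩ | ⟨hz, -, -⟩
      · exact hC x p hz hs.2.1 hs.2.2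
      · refine sameType_trans (hC x y (by rw [hz, hy3]) ?_ ?_) hyt
        · exact hs.2.1.trans hys.2.1.symm
        · exact hs.2.2.trans hys.2.2.symm
  · refine ⟨Ms p (zt p = 1 ∨ zt p = 2), self_mem_Ms _ _, ?_⟩
    ext x
    constructor
    · rintro ⟨hx, hxV⟩
      obtain ⟨hxs, hxt⟩ := (hmem x).1 hx
      have hs := same_of_nd hxV (hnd x hxt)
      rcases zt_near hxV hs with ⟨hz, hl⟩ | ⟨hz, -, -⟩
      · exact ⟨⟨hxs, mem_Ms.2 ⟨hs.1.2, hs.2.1.2, hs.2.2.2, hl⟩⟩, hxV⟩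
      · exact absurd ⟨x, hz, hs, hxt⟩ hP
    · rintro ⟨⟨hxs, hxM⟩, hxV⟩
      refine ⟨(hmem x).2 ⟨hxs, ?_⟩, hxV⟩
      have hs := same_of_mem hxV hxM
      rcases zt_near hxV hs with ⟨hz, -⟩ | ⟨hz, hb, hne⟩
      · exact hC x p hz hs.2.1 hs.2.2
      · exact absurd ((mem_Ms.1 hxM).2.2.2 hb) hne

end MAN

open MAN in
/-- **MAN.** -/
theorem man : S_CODE → S_DIM → S_ND → S_SUB → S_MAN := by
  intro hC hD hN hS r hr w hw p hpK
  have hpC : p ∈ typeClass G r w := connectedComponentIn_subset _ _ hpK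
  obtain ⟨M, hpM, hloc⟩ := loc hC hD hN r w p hpC
  have hps : p ∈ sphere (0 : E 5) r := hpC.1
  have hpn : ‖p‖ = r := by simpa using hps
  obtain ⟨φ, W, hpφ, hφV, h1, h2, h3, h4⟩ := hS 5 r M p (V p) hr hpM hpn (isOpen_V p) (self_mem_V p)
  refine ⟨φ, W, hpφ, h1, h2, ?_⟩
  rw [← h3]
  have hCs : typeClass G r w ∩ φ.source = (sphere (0 : E 5) r ∩ M) ∩ φ.source := by
    ext x
    constructor
    · rintro ⟨hx, hxs⟩
      have := hloc.subset ⟨hx, hφV hxs⟩
      exact ⟨this.1, hxs⟩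
    · rintro ⟨hx, hxs⟩
      have := hloc.symm.subset ⟨hx, hφV hxs⟩
      exact ⟨this.1, hxs⟩
  congr 1
  unfold stratum
  ext x
  constructor
  · rintro ⟨hx, hxs⟩
    exact hCs.subset ⟨connectedComponentIn_subset _ _ hx, hxs⟩
  · intro hx
    refine ⟨?_, hx.2⟩
    have h5 : connectedComponentIn (typeClass G r w) w = connectedComponentIn (typeClass G r w) p :=
      connectedComponentIn_eq hpK
    rw [h5]
    have h6 : (sphere (0 : E 5) r ∩ M) ∩ φ.source ⊆ typeClass G r w := by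
      intro y hy
      exact (hCs.symm.subset hy).1
    exact h4.subset_connectedComponentIn ⟨⟨hps, hpM⟩, hpφ⟩ h6 hx

end Pool.Agent.H126.Orb
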