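import Pool.Agent.H126.Orb.Stm

set_option autoImplicit false

open Set Metric MeasureTheory
open scoped RealInnerProductSpace ContDiff

namespace Pool.Agent.H126.Orb

open Pool.Agent.R29.OP (FaceSet)

namespace NI

/-! ### isomorphisms preserve the numbers of elements -/

theorem exists_single {J J' : Type} {A : Set (Set J)} {A' : Set (Set J')}
    (h0 : (∅ : Set J) ∈ A) (h0' : (∅ : Set J') ∈ A')
    (h1' : ∀ j, ({j} : Set J') ∈ A')
    (e : {S : Set J // S ∈ A} ≃o {S : Set J' // S ∈ A'}) (i : J) (hi : ({i} : Set J) ∈ A) :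
    ∃ j, (e ⟨{i}, hi⟩ : Set J') = {j} := by
  have hne : ((e ⟨{i}, hi⟩ : Set J')).Nonempty := by
    rw [nonempty_iff_ne_empty]
    intro h
    have h2 : e ⟨{i}, hi⟩ ≤ e ⟨∅, h0⟩ := by
      rw [← Subtype.coe_le_coe, h]
      exact empty_subset _
    have h3 := e.le_iff_le.1 h2
    exact h3 (mem_singleton i)
  obtain ⟨j, hj⟩ := hne
  refine ⟨j, ?_⟩
  have h2 : (⟨{j}, h1' j⟩ : {S : Set J' // S ∈ A'}) ≤ e ⟨{i}, hi⟩ := by
    rw [← Subtype.coe_le_coe]
    intro x hx
    rw [mem_singleton_iff] at hx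
    subst hx
    exact hj
  have h3 : e.symm ⟨{j}, h1' j⟩ ≤ ⟨{i}, hi⟩ := by
    rw [← e.le_iff_le, e.apply_symm_apply]
    exact h2
  have h4 : ((e.symm ⟨{j}, h1' j⟩ : {S : Set J // S ∈ A}) : Set J) = {i} := by
    have h5 : ((e.symm ⟨{j}, h1' j⟩ : {S : Set J // S ∈ A}) : Set J) ⊆ {i} := h3
    rcases subset_singleton_iff_eq.1 h5 with h6 | h6
    · exfalso
      have h7 : e.symm ⟨{j}, h1' j⟩ ≤ e.symm ⟨∅, h0'⟩ := by
        rw [← Subtype.coe_le_coe, h6]
        exact empty_subset _
      have h8 := e.symm.le_iff_le.1 h7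
      exact h8 (mem_singleton j)
    · exact h6
  have h5 : e.symm ⟨{j}, h1' j⟩ = ⟨{i}, hi⟩ := Subtype.ext h4
  rw [← h5, e.apply_symm_apply]

theorem ncard_iso {J J' : Type} {A : Set (Set J)} {A' : Set (Set J')}
    (h0 : (∅ : Set J) ∈ A) (h0' : (∅ : Set J') ∈ A')
    (h1 : ∀ j, ({j} : Set J) ∈ A) (h1' : ∀ j, ({j} : Set J') ∈ A')
    (e : {S : Set J // S ∈ A} ≃o {S : Set J' // S ∈ A'}) (S : {S : Set J // S ∈ A}) :
    (e S : Set J').ncard = (S : Set J).ncard := by
  choose φ hφ using fun i => exists_single h0 h0' h1' e i (h1 i)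
  choose ψ hψ using fun j => exists_single h0' h0 h1 e.symm j (h1' j)
  have hφ' : ∀ i, e ⟨{i}, h1 i⟩ = ⟨{φ i}, h1' _⟩ := fun i => Subtype.ext (hφ i)
  have hψ' : ∀ j, e.symm ⟨{j}, h1' j⟩ = ⟨{ψ j}, h1 _⟩ := fun j => Subtype.ext (hψ j)
  have hφψ : ∀ j, φ (ψ j) = j := by
    intro j
    have := hφ' (ψ j)
    rw [← hψ', e.apply_symm_apply] at this
    have h2 := congrArg Subtype.val this
    simp only at h2
    exact (singleton_injective h2).symm
  have hψφ : ∀ i, ψ (φ i) = i := by
    intro i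
    have := hψ' (φ i)
    rw [← hφ', e.symm_apply_apply] at this
    have h2 := congrArg Subtype.val this
    simp only at h2
    exact (singleton_injective h2).symm
  have himg : (e S : Set J') = φ '' (S : Set J) := by
    ext j
    constructor
    · intro hj
      refine ⟨ψ j, ?_, hφψ j⟩
      have h2 : (⟨{j}, h1' j⟩ : {S : Set J' // S ∈ A'}) ≤ e S := by
        rw [← Subtype.coe_le_coe]
        intro x hx
        rw [mem_singleton_iff] at hx
        subst hx
        exact hj
      have h3 : e.symm ⟨{j}, h1' j⟩ ≤ S := by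
        rw [← e.le_iff_le, e.apply_symm_apply]
        exact h2
      rw [hψ'] at h3
      exact h3 (mem_singleton _)
    · rintro ⟨i, hi, rfl⟩
      have h2 : (⟨{i}, h1 i⟩ : {S : Set J // S ∈ A}) ≤ S := by
        rw [← Subtype.coe_le_coe]
        intro x hx
        rw [mem_singleton_iff] at hx
        subst hx
        exact hi
      have h3 := e.le_iff_le.2 h2
      rw [hφ'] at h3
      exact h3 (mem_singleton _)
  rw [himg]
  exact ncard_image_of_injective _ (Function.LeftInverse.injective hψφ)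

theorem empty_mem {k : ℕ} {J : Type} (p : J → E k) : (∅ : Set J) ∈ FaceSet p :=
  ⟨0, 1, fun i hi => absurd hi (notMem_empty i), fun i _ => by simp⟩

theorem single_mem {k : ℕ} {J : Type} (p : J → E k) (hinj : Function.Injective p)
    (hn : ∀ i j, ‖p i‖ = ‖p j‖) (i : J) : ({i} : Set J) ∈ FaceSet p := by
  refine ⟨innerSL ℝ (p i), ‖p i‖ ^ 2, fun j hj => ?_, fun j hj => ?_⟩
  · rw [mem_singleton_iff] at hj
    subst hj
    rw [innerSL_apply_apply, real_inner_self_eq_norm_sq]
  · rw [mem_singleton_iff] at hj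
    rw [innerSL_apply_apply]
    have h1 : p i - p j ≠ 0 := fun h => hj (hinj (sub_eq_zero.1 h)).symm
    have h2 : 0 < ‖p i - p j‖ ^ 2 := by positivity
    rw [norm_sub_sq_real, hn j i] at h2
    linarith

/-- types of real numbers -/
noncomputable def ty (p : ℝ) : Fin 3 := open Classical in if p = 0 then 0 else if 0 < p then 1 else 2

def ok : Fin 3 → Bool → Bool
  | 0, _ => true
  | 1, x => x
  | 2, x => !x

theorem ok_iff (p : ℝ) (x : Bool) : ok (ty p) x = true ↔ sg x * p = |p| := by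
  unfold ty
  split_ifs with h1 h2
  · subst h1; cases x <;> simp [ok]
  · cases x <;> simp [ok, abs_of_pos h2]
    intro h; linarith
  · have h3 : p < 0 := lt_of_le_of_ne (not_lt.1 h2) h1
    cases x <;> simp [ok, abs_of_neg h3]
    intro h; linarith

theorem ty_zero_iff (p : ℝ) : ty p = 0 ↔ p = 0 := by
  unfold ty
  split_ifs with h1 h2 <;> simp [h1]

theorem sg_le (p : ℝ) (x : Bool) : sg x * p ≤ |p| := by
  cases x
  · simp; exact neg_le_abs p
  · simp; exact le_abs_self p

theorem exists_sg (p : ℝ) : ∃ x, sg x * p = |p| := by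
  rcases le_total 0 p with h | h
  · exact ⟨true, by simp [abs_of_nonneg h]⟩
  · exact ⟨false, by simp [abs_of_nonpos h]⟩

theorem inj_nrm (t : ℝ) : Function.Injective (pts (nrm t)) := by
  rintro ⟨a, b, s, x⟩ ⟨a', b', s', x'⟩ h
  have h0 : ∀ c, pts (nrm t) (a, b, s, x) c = pts (nrm t) (a', b', s', x') c := fun c => by rw [h]
  have h0' := h0 0
  have h1 := h0 1
  have h2 := h0 2
  have h3 := h0 3
  have h4 := h0 4
  clear h0 h
  cases x <;> cases x' <;> simp [pts, nrm] at h0' h1 h2 h3 h4 <;>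
    cases a <;> cases b <;> cases s <;> cases a' <;> cases b' <;> cases s' <;>
    simp at * <;> norm_num at *

theorem val_false (f : E 5) (t : ℝ) (a b s : Bool) :
    ⟪f, pts (nrm t) (a, b, s, false)⟫ =
      sg a * f 0 + sg b * (t * f 1) + sg s * f 2 + sg a * sg b * f 4 := by
  simp only [nrm, pts, PiLp.inner_apply, Fin.sum_univ_five, RCLike.inner_apply, conj_trivial,
    PiLp.toLp_apply]
  simp only [Matrix.cons_val_zero, Matrix.cons_val_one, Matrix.cons_val]
  ring

theorem val_true (f : E 5) (t : ℝ) (a b s : Bool) :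
    ⟪f, pts (nrm t) (a, b, s, true)⟫ =
      sg a * (t * f 0) + sg b * f 1 + sg s * f 3 - sg a * sg b * f 4 := by
  simp only [nrm, pts, PiLp.inner_apply, Fin.sum_univ_five, RCLike.inner_apply, conj_trivial,
    PiLp.toLp_apply]
  simp only [Matrix.cons_val_zero, Matrix.cons_val_one, Matrix.cons_val]
  ring

/-- an isomorphism of the polytopes preserves the numbers -/
theorem transfer (t t' : ℝ) (h : SameType (Q (nrm t)) (Q (nrm t'))) (n : ℕ)
    (hS : ∃ S ∈ FaceSet (pts (nrm t)), S.ncard = n) :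
    ∃ S ∈ FaceSet (pts (nrm t')), S.ncard = n := by
  obtain ⟨e⟩ := h
  obtain ⟨e1⟩ := Pool.Agent.R29.OP.faceIso 5 I (pts (nrm t))
  obtain ⟨e2⟩ := Pool.Agent.R29.OP.faceIso 5 I (pts (nrm t'))
  let e3 : {S : Set I // S ∈ FaceSet (pts (nrm t))} ≃o {S : Set I // S ∈ FaceSet (pts (nrm t'))} :=
    (e1.symm.trans e).trans e2
  obtain ⟨S, hS, hn⟩ := hS
  refine ⟨e3 ⟨S, hS⟩, (e3 ⟨S, hS⟩).2, ?_⟩
  rw [ncard_iso (empty_mem _) (empty_mem _)
    (single_mem _ (inj_nrm t) (fun i j => by rw [norm_pts, norm_pts]))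
    (single_mem _ (inj_nrm t') (fun i j => by rw [norm_pts, norm_pts])) e3 ⟨S, hS⟩]
  exact hn

theorem exists_vec (c : E 5 →L[ℝ] ℝ) : ∃ f : E 5, ∀ x, c x = ⟪f, x⟫ :=
  ⟨(InnerProductSpace.toDual ℝ (E 5)).symm c, fun x => by
    rw [InnerProductSpace.toDual_symm_apply]⟩

theorem finset_mem {t : ℝ} (f : E 5) (T : Finset I)
    (h1 : ∀ i ∈ T, ⟪f, pts (nrm t) i⟫ = 1) (h2 : ∀ i, i ∉ T → ⟪f, pts (nrm t) i⟫ < 1) :
    ∃ S ∈ FaceSet (pts (nrm t)), S.ncard = T.card := by
  refine ⟨(T : Set I), ⟨innerSL ℝ f, 1, fun i hi => ?_, fun i hi => ?_⟩, ncard_coe_finset T⟩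
  · rw [innerSL_apply_apply]; exact h1 i (by simpa using hi)
  · rw [innerSL_apply_apply]; exact h2 i (by simpa using hi)

theorem five : ∃ S ∈ FaceSet (pts (nrm (1 / 2))), S.ncard = 5 := by
  refine finset_mem (t := 1 / 2) !₂[4 / 7, 2 / 7, 0, 5 / 7, 2 / 7]
    {(true, true, true, false), (true, true, false, false), (true, true, true, true),
      (true, false, true, true), (false, true, true, true)} ?_ ?_
  · rintro ⟨a, b, s, x⟩ hi
    cases x
    · rw [val_false]
      cases a <;> cases b <;> cases s <;> simp at hi ⊢ <;> norm_num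
    · rw [val_true]
      cases a <;> cases b <;> cases s <;> simp at hi ⊢ <;> norm_num
  · rintro ⟨a, b, s, x⟩ hi
    cases x
    · rw [val_false]
      cases a <;> cases b <;> cases s <;> simp at hi ⊢ <;> norm_num
    · rw [val_true]
      cases a <;> cases b <;> cases s <;> simp at hi ⊢ <;> norm_num

theorem six : ∃ S ∈ FaceSet (pts (nrm (1 / 2))), S.ncard = 6 := by
  refine finset_mem (t := 1 / 2) !₂[1, 0, 0, 1 / 2, 0]
    {(true, true, true, false), (true, true, false, false), (true, false, true, false),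
      (true, false, false, false), (true, true, true, true), (true, false, true, true)} ?_ ?_
  · rintro ⟨a, b, s, x⟩ hi
    cases x
    · rw [val_false]
      cases a <;> cases b <;> cases s <;> simp at hi ⊢ <;> norm_num
    · rw [val_true]
      cases a <;> cases b <;> cases s <;> simp at hi ⊢ <;> norm_num
  · rintro ⟨a, b, s, x⟩ hi
    cases x
    · rw [val_false]
      cases a <;> cases b <;> cases s <;> simp at hi ⊢ <;> norm_num
    · rw [val_true]
      cases a <;> cases b <;> cases s <;> simp at hi ⊢ <;> norm_num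

/-- pattern for `t = 0` -/
def pat0 (P0 P1 : Bool) (p q b1 b2 e : Fin 3) : I → Bool
  | (a, b, s, false) => P0 && ok p a && ok b1 s && ok e (a == b)
  | (a, b, s, true) => P1 && ok q b && ok b2 s && ok e (!(a == b))

def z (p : Fin 3) : Bool := decide (p = 0)

theorem check0 : ∀ (P0 P1 : Bool) (p q b1 b2 e : Fin 3),
    (P0 && P1 && ((z p && z b1) != (z q && z b2))) = false →
    (Finset.univ.filter (fun i => pat0 P0 P1 p q b1 b2 e i = true)).card ≠ 5 := by
  decide +kernel

/-- pattern for `t = 1`, `p q e = 0` -/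
def pat1 (P0 P1 : Bool) (p q b1 b2 e : Fin 3) : I → Bool
  | (a, b, s, false) => P0 && ok p a && ok q b && ok b1 s && ok e (a == b)
  | (a, b, s, true) => P1 && ok p a && ok q b && ok b2 s && ok e (!(a == b))

theorem check1 : ∀ (P0 P1 : Bool) (p q b1 b2 e : Fin 3),
    (P0 && P1 && (z b1 != z b2)) = false → (z p || z q || z e) = true →
    (Finset.univ.filter (fun i => pat1 P0 P1 p q b1 b2 e i = true)).card ≠ 6 := by
  decide +kernel

theorem z_ty (p : ℝ) : z (ty p) = true ↔ p = 0 := by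
  unfold z
  rw [decide_eq_true_iff, ty_zero_iff]

theorem ncard_pat (S : Set I) (g : I → Bool) (h : ∀ i, i ∈ S ↔ g i = true) :
    S.ncard = (Finset.univ.filter (fun i => g i = true)).card := by
  have : S = ((Finset.univ.filter (fun i => g i = true) : Finset I) : Set I) := by
    ext i; simp [h]
  rw [this, ncard_coe_finset]

theorem mem_iff {t : ℝ} {S : Set I} {f : E 5} {h : ℝ}
    (h1 : ∀ i ∈ S, ⟪f, pts (nrm t) i⟫ = h) (h2 : ∀ i, i ∉ S → ⟪f, pts (nrm t) i⟫ < h) (i : I) :
    (i ∈ S ↔ ⟪f, pts (nrm t) i⟫ = h) ∧ ⟪f, pts (nrm t) i⟫ ≤ h := by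
  by_cases hi : i ∈ S
  · exact ⟨⟨fun _ => h1 i hi, fun _ => hi⟩, (h1 i hi).le⟩
  · exact ⟨⟨fun h => absurd h hi, fun h => absurd h (h2 i hi).ne⟩, (h2 i hi).le⟩

theorem no5 (S : Set I) (hS : S ∈ FaceSet (pts (nrm 0))) : S.ncard ≠ 5 := by
  obtain ⟨c, h, h1, h2⟩ := hS
  obtain ⟨f, hf⟩ := exists_vec c
  simp only [hf] at h1 h2
  have hm := mem_iff h1 h2
  set p := f 0 with hp
  set q := f 1 with hq
  set b1 := f 2 with hb1
  set b2 := f 3 with hb2
  set e := f 4 with he
  have hM0 : |p| + |b1| + |e| ≤ h := by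
    obtain ⟨a, ha⟩ := exists_sg p
    obtain ⟨s, hs⟩ := exists_sg b1
    obtain ⟨x, hx⟩ := exists_sg e
    have h3 := (hm (a, a == x, s, false)).2
    rw [val_false, sg_beq] at h3
    have h4 := sg_mul_self a
    have h5 : sg a * (sg a * sg x) * e = (sg a * sg a) * (sg x * e) := by ring
    rw [h5, h4, hx, ← hp, ha, ← hb1, hs] at h3
    linarith
  have hM1 : |q| + |b2| + |e| ≤ h := by
    obtain ⟨b, hb⟩ := exists_sg q
    obtain ⟨s, hs⟩ := exists_sg b2
    obtain ⟨x, hx⟩ := exists_sg e
    have h3 := (hm (b == !x, b, s, true)).2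
    rw [val_true, sg_beq, sg_not] at h3
    have h4 := sg_mul_self b
    have h5 : sg b * -sg x * sg b * e = -((sg b * sg b) * (sg x * e)) := by ring
    rw [h5, h4, hx, ← hq, hb, ← hb2, hs] at h3
    linarith
  rw [ncard_pat S (pat0 (decide (|p| + |b1| + |e| = h)) (decide (|q| + |b2| + |e| = h))
    (ty p) (ty q) (ty b1) (ty b2) (ty e))]
  · apply check0
    by_contra hcon
    rw [Bool.not_eq_false, Bool.and_eq_true, Bool.and_eq_true, decide_eq_true_iff,
      decide_eq_true_iff] at hcon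
    obtain ⟨⟨h3, h4⟩, h5⟩ := hcon
    have h6 : (z (ty p) && z (ty b1)) = (z (ty q) && z (ty b2)) := by
      rw [Bool.eq_iff_iff, Bool.and_eq_true, Bool.and_eq_true, z_ty, z_ty, z_ty, z_ty]
      constructor
      · rintro ⟨h7, h8⟩
        rw [h7, h8, abs_zero] at h3
        have h9 : |q| + |b2| = 0 := by linarith
        have h10 := abs_nonneg q
        have h11 := abs_nonneg b2
        exact ⟨abs_eq_zero.1 (by linarith), abs_eq_zero.1 (by linarith)⟩
      · rintro ⟨h7, h8⟩
        rw [h7, h8, abs_zero] at h4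
        have h9 : |p| + |b1| = 0 := by linarith
        have h10 := abs_nonneg p
        have h11 := abs_nonneg b1
        exact ⟨abs_eq_zero.1 (by linarith), abs_eq_zero.1 (by linarith)⟩
    rw [h6] at h5
    simp at h5
  · rintro ⟨a, b, s, x⟩
    rw [(hm _).1]
    cases x
    · rw [val_false, pat0, Bool.and_eq_true, Bool.and_eq_true, Bool.and_eq_true,
        decide_eq_true_iff, ok_iff, ok_iff, ok_iff, sg_beq]
      have h3 := sg_le p a
      have h4 := sg_le b1 s
      have h5 := sg_le e (a == b)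
      rw [sg_beq] at h5
      constructor
      · intro h6
        refine ⟨⟨⟨?_, ?_⟩, ?_⟩, ?_⟩ <;> linarith
      · rintro ⟨⟨⟨h6, h7⟩, h8⟩, h9⟩
        linarith
    · rw [val_true, pat0, Bool.and_eq_true, Bool.and_eq_true, Bool.and_eq_true,
        decide_eq_true_iff, ok_iff, ok_iff, ok_iff, sg_not, sg_beq]
      have h3 := sg_le q b
      have h4 := sg_le b2 s
      have h5 := sg_le e (!(a == b))
      rw [sg_not, sg_beq] at h5
      constructor
      · intro h6
        refine ⟨⟨⟨?_, ?_⟩, ?_⟩, ?_⟩ <;> linarith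
      · rintro ⟨⟨⟨h6, h7⟩, h8⟩, h9⟩
        linarith

/-- the case `p q e = 0` -/
theorem no6_zero (S : Set I) (p q b1 b2 e h : ℝ)
    (hm0 : ∀ a b s, ((a, b, s, false) ∈ S ↔ sg a * p + sg b * q + sg s * b1 + sg a * sg b * e = h) ∧
      sg a * p + sg b * q + sg s * b1 + sg a * sg b * e ≤ h)
    (hm1 : ∀ a b s, ((a, b, s, true) ∈ S ↔ sg a * p + sg b * q + sg s * b2 - sg a * sg b * e = h) ∧
      sg a * p + sg b * q + sg s * b2 - sg a * sg b * e ≤ h)
    (hz : p = 0 ∨ q = 0 ∨ e = 0) : S.ncard ≠ 6 := by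
  -- the signs can be chosen
  have hex : ∀ (y : Bool), ∃ a b, sg a * p = |p| ∧ sg b * q = |q| ∧
      sg y * (sg a * sg b * e) = |e| := by
    intro y
    obtain ⟨a, ha⟩ := exists_sg p
    obtain ⟨b, hb⟩ := exists_sg q
    obtain ⟨x, hx⟩ := exists_sg e
    rcases hz with rfl | rfl | rfl
    · refine ⟨x == (y == b), b, by simp, hb, ?_⟩
      rw [sg_beq, sg_beq, ← hx]
      have h4 := sg_mul_self b
      have h5 := sg_mul_self y
      calc sg y * (sg x * (sg y * sg b) * sg b * e) = (sg y * sg y) * (sg b * sg b) * (sg x * e) := by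
            ring
        _ = _ := by rw [h4, h5]; ring
    · refine ⟨a, x == (y == a), ha, by simp, ?_⟩
      rw [sg_beq, sg_beq, ← hx]
      have h4 := sg_mul_self a
      have h5 := sg_mul_self y
      calc sg y * (sg a * (sg x * (sg y * sg a)) * e) = (sg y * sg y) * (sg a * sg a) * (sg x * e) := by
            ring
        _ = _ := by rw [h4, h5]; ring
    · exact ⟨a, b, ha, hb, by simp⟩
  have hM0 : |p| + |q| + |b1| + |e| ≤ h := by
    obtain ⟨a, b, ha, hb, he⟩ := hex true
    obtain ⟨s, hs⟩ := exists_sg b1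
    have h3 := (hm0 a b s).2
    rw [sg_true, one_mul] at he
    rw [ha, hb, hs, he] at h3
    linarith
  have hM1 : |p| + |q| + |b2| + |e| ≤ h := by
    obtain ⟨a, b, ha, hb, he⟩ := hex false
    obtain ⟨s, hs⟩ := exists_sg b2
    have h3 := (hm1 a b s).2
    rw [sg_false] at he
    rw [ha, hb, hs] at h3
    linarith
  rw [ncard_pat S (pat1 (decide (|p| + |q| + |b1| + |e| = h)) (decide (|p| + |q| + |b2| + |e| = h))
    (ty p) (ty q) (ty b1) (ty b2) (ty e))]
  · apply check1
    · by_contra hcon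
      rw [Bool.not_eq_false, Bool.and_eq_true, Bool.and_eq_true, decide_eq_true_iff,
        decide_eq_true_iff] at hcon
      obtain ⟨⟨h3, h4⟩, h5⟩ := hcon
      have h6 : z (ty b1) = z (ty b2) := by
        rw [Bool.eq_iff_iff, z_ty, z_ty]
        constructor
        · intro h7
          rw [h7, abs_zero] at h3
          exact abs_eq_zero.1 (by linarith)
        · intro h7
          rw [h7, abs_zero] at h4
          exact abs_eq_zero.1 (by linarith)
      rw [h6] at h5
      simp at h5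
    · rw [Bool.or_eq_true, Bool.or_eq_true, z_ty, z_ty, z_ty, or_assoc]
      exact hz
  · rintro ⟨a, b, s, x⟩
    cases x
    · rw [(hm0 a b s).1, pat1, Bool.and_eq_true, Bool.and_eq_true, Bool.and_eq_true,
        Bool.and_eq_true, decide_eq_true_iff, ok_iff, ok_iff, ok_iff, ok_iff, sg_beq]
      have h3 := sg_le p a
      have h3' := sg_le q b
      have h4 := sg_le b1 s
      have h5 := sg_le e (a == b)
      rw [sg_beq] at h5
      constructor
      · intro h6
        refine ⟨⟨⟨⟨?_, ?_⟩, ?_⟩, ?_⟩, ?_⟩ <;> linarith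
      · rintro ⟨⟨⟨⟨h6, h7⟩, h8⟩, h9⟩, h10⟩
        linarith
    · rw [(hm1 a b s).1, pat1, Bool.and_eq_true, Bool.and_eq_true, Bool.and_eq_true,
        Bool.and_eq_true, decide_eq_true_iff, ok_iff, ok_iff, ok_iff, ok_iff, sg_not, sg_beq]
      have h3 := sg_le p a
      have h3' := sg_le q b
      have h4 := sg_le b2 s
      have h5 := sg_le e (!(a == b))
      rw [sg_not, sg_beq] at h5
      constructor
      · intro h6
        refine ⟨⟨⟨⟨?_, ?_⟩, ?_⟩, ?_⟩, ?_⟩ <;> linarith
      · rintro ⟨⟨⟨⟨h6, h7⟩, h8⟩, h9⟩, h10⟩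
        linarith

/-- pattern containing the maximisers for `p q e > 0`; `j` is the block with one pair -/
def pat2 (j a0 b0 a1 b1 s2 : Bool) : I → Bool
  | (a, b, s, x) => (x == j && a == a0 && b == b0) || (x != j && s == s2 && !(a == a1 && b == b1))

theorem check2 : ∀ (j a0 b0 a1 b1 s2 : Bool),
    (Finset.univ.filter (fun i => pat2 j a0 b0 a1 b1 s2 i = true)).card = 5 := by
  decide +kernel

theorem sg_eq_of (p : ℝ) (hp : p ≠ 0) (a a0 : Bool) (h : sg a * p = |p|) (h0 : sg a0 * p = |p|) :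
    a = a0 := by
  rw [← h0] at h
  have := mul_right_cancel₀ hp h
  cases a <;> cases a0 <;> simp at this ⊢ <;> norm_num at this

/-- the case `p q e > 0` -/
theorem no6_pos (S : Set I) (j : Bool) (p q b1 b2 e h : ℝ)
    (hm0 : ∀ a b s, ((a, b, s, j) ∈ S ↔ sg a * p + sg b * q + sg s * b1 + sg a * sg b * e = h) ∧
      sg a * p + sg b * q + sg s * b1 + sg a * sg b * e ≤ h)
    (hm1 : ∀ a b s, ((a, b, s, !j) ∈ S ↔ sg a * p + sg b * q + sg s * b2 - sg a * sg b * e = h) ∧
      sg a * p + sg b * q + sg s * b2 - sg a * sg b * e ≤ h)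
    (hz : 0 < p * q * e) : S.ncard ≠ 6 := by
  have hp : p ≠ 0 := by rintro rfl; simp at hz
  have hq : q ≠ 0 := by rintro rfl; simp at hz
  have he : e ≠ 0 := by rintro rfl; simp at hz
  obtain ⟨a0, ha0⟩ := exists_sg p
  obtain ⟨b0, hb0⟩ := exists_sg q
  have hab : sg a0 * sg b0 * e = |e| := by
    have h1 : 0 < (sg a0 * p) * (sg b0 * q) := by
      rw [ha0, hb0]; positivity
    have h2 : 0 < sg a0 * sg b0 * e := by
      have h3 : 0 < ((sg a0 * p) * (sg b0 * q)) * (sg a0 * sg b0 * e) := by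
        have h4 : ((sg a0 * p) * (sg b0 * q)) * (sg a0 * sg b0 * e) =
            (sg a0 * sg a0) * (sg b0 * sg b0) * (p * q * e) := by ring
        rw [h4, sg_mul_self, sg_mul_self]
        linarith
      exact (pos_iff_pos_of_mul_pos h3).1 h1
    have h5 : |sg a0 * sg b0 * e| = |e| := by
      rw [abs_mul, abs_mul]
      have h6 : ∀ x, |sg x| = 1 := fun x => by cases x <;> simp
      rw [h6, h6]; ring
    rw [← h5, abs_of_pos h2]
  obtain ⟨s1, hs1⟩ := exists_sg b1
  obtain ⟨s2, hs2⟩ := exists_sg b2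
  have hM0 : |p| + |q| + |b1| + |e| ≤ h := by
    have h3 := (hm0 a0 b0 s1).2
    rw [ha0, hb0, hs1, hab] at h3
    linarith
  -- first block
  have hA : ∀ a b s, (a, b, s, j) ∈ S → a = a0 ∧ b = b0 := by
    intro a b s hi
    have h1 := ((hm0 a b s).1).1 hi
    have h3 := sg_le p a
    have h3' := sg_le q b
    have h4 := sg_le b1 s
    have h5 := sg_le e (a == b)
    rw [sg_beq] at h5
    exact ⟨sg_eq_of p hp a a0 (by linarith) ha0, sg_eq_of q hq b b0 (by linarith) hb0⟩
  -- second block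
  have hlt : ∀ a b, sg a * p + sg b * q - sg a * sg b * e < |p| + |q| + |e| := by
    intro a b
    have h3 := sg_le p a
    have h3' := sg_le q b
    have h5 := sg_le e (!(a == b))
    rw [sg_not, sg_beq] at h5
    by_contra hc
    push Not at hc
    have h6 := sg_eq_of p hp a a0 (by linarith) ha0
    have h7 := sg_eq_of q hq b b0 (by linarith) hb0
    subst h6 h7
    have h8 : 0 < |e| := by positivity
    linarith
  have hB : ∀ a b s, (a, b, s, !j) ∈ S → s = s2 := by
    intro a b s hi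
    have h1 := ((hm1 a b s).1).1 hi
    have h2 := hlt a b
    have h3 := abs_nonneg b1
    have h4 : 0 < sg s * b2 := by linarith
    have h5 : b2 ≠ 0 := by rintro rfl; simp at h4
    have h6 : sg s * b2 = |b2| := by
      have h7 : |sg s * b2| = |b2| := by
        rw [abs_mul]
        have h6 : ∀ x, |sg x| = 1 := fun x => by cases x <;> simp
        rw [h6, one_mul]
      rw [← h7, abs_of_pos h4]
    exact sg_eq_of b2 h5 s s2 h6 hs2
  have hC : ∃ a1 b1, (a1, b1, s2, !j) ∉ S := by
    by_contra hc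
    push Not at hc
    have h1 := ((hm1 true true s2).1).1 (hc true true)
    have h2 := ((hm1 true false s2).1).1 (hc true false)
    have h3 := ((hm1 false true s2).1).1 (hc false true)
    have h4 := ((hm1 false false s2).1).1 (hc false false)
    simp only [sg_true, sg_false] at h1 h2 h3 h4
    apply hp
    linarith
  obtain ⟨a1, c1, hC⟩ := hC
  have hsub : S ⊆ ((Finset.univ.filter (fun i => pat2 j a0 b0 a1 c1 s2 i = true) : Finset I) : Set I) := by
    rintro ⟨a, b, s, x⟩ hi
    rw [Finset.mem_coe, Finset.mem_filter]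
    refine ⟨Finset.mem_univ _, ?_⟩
    unfold pat2
    by_cases hx : x = j
    · subst hx
      obtain ⟨rfl, rfl⟩ := hA a b s hi
      simp
    · have hx' : x = !j := by cases x <;> cases j <;> simp at hx ⊢
      subst hx'
      have h1 := hB a b s hi
      subst h1
      have h2 : ¬ (a = a1 ∧ b = c1) := by
        rintro ⟨rfl, rfl⟩
        exact hC hi
      have h3 : (!(a == a1 && b == c1)) = true := by
        rw [Bool.not_eq_true', Bool.and_eq_false_iff]
        by_cases h4 : a = a1
        · right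
          have h5 : b ≠ c1 := fun h => h2 ⟨h4, h⟩
          simpa using h5
        · left
          simpa using h4
      show ((!j) == j && a == a0 && b == b0 || (!j) != j && s == s &&
        !(a == a1 && b == c1)) = true
      rw [h3]
      cases j <;> simp
  have hcard := ncard_le_ncard hsub (Finset.finite_toSet _)
  rw [ncard_coe_finset, check2] at hcard
  omega

theorem no6 (S : Set I) (hS : S ∈ FaceSet (pts (nrm 1))) : S.ncard ≠ 6 := by
  obtain ⟨c, h, h1, h2⟩ := hS
  obtain ⟨f, hf⟩ := exists_vec c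
  simp only [hf] at h1 h2
  have hm := mem_iff h1 h2
  have hm0 : ∀ a b s, ((a, b, s, false) ∈ S ↔
      sg a * f 0 + sg b * f 1 + sg s * f 2 + sg a * sg b * f 4 = h) ∧
      sg a * f 0 + sg b * f 1 + sg s * f 2 + sg a * sg b * f 4 ≤ h := by
    intro a b s
    have := hm (a, b, s, false)
    rw [val_false, one_mul] at this
    exact this
  have hm1 : ∀ a b s, ((a, b, s, true) ∈ S ↔
      sg a * f 0 + sg b * f 1 + sg s * f 3 - sg a * sg b * f 4 = h) ∧
      sg a * f 0 + sg b * f 1 + sg s * f 3 - sg a * sg b * f 4 ≤ h := by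
    intro a b s
    have := hm (a, b, s, true)
    rw [val_true, one_mul] at this
    exact this
  rcases lt_trichotomy (f 0 * f 1 * f 4) 0 with h3 | h3 | h3
  · refine no6_pos S true (f 0) (f 1) (f 3) (f 2) (-f 4) h ?_ ?_ (by linarith)
    · intro a b s
      have := hm1 a b s
      rw [sub_eq_add_neg, ← mul_neg] at this
      exact this
    · intro a b s
      have := hm0 a b s
      rw [mul_neg, sub_neg_eq_add]
      exact this
  · refine no6_zero S (f 0) (f 1) (f 2) (f 3) (f 4) h hm0 hm1 ?_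
    rcases mul_eq_zero.1 h3 with h4 | h4
    · rcases mul_eq_zero.1 h4 with h5 | h5
      · exact Or.inl h5
      · exact Or.inr (Or.inl h5)
    · exact Or.inr (Or.inr h4)
  · exact no6_pos S false (f 0) (f 1) (f 2) (f 3) (f 4) h hm0 hm1 h3

end NI

theorem ni : S_NI := by
  constructor
  · intro h
    obtain ⟨S, hS, h5⟩ := NI.transfer _ _ h 5 NI.five
    exact NI.no5 S hS h5
  · intro h
    obtain ⟨S, hS, h6⟩ := NI.transfer _ _ h 6 NI.six
    exact NI.no6 S hS h6

end Pool.Agent.H126.Orb
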