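import Pool.Agent.H126.Orb.Stm

/-!
# Determination of the stratum (leaf STR, helper484 for helper126; MP_6361d2_co)
-/

set_option autoImplicit false

open Set Metric MeasureTheory
open scoped RealInnerProductSpace ContDiff

namespace Pool.Agent.H126.Orb

namespace STR

theorem sameType_symm {k : ℕ} {P P' : Set (E k)} (h : SameType P P') : SameType P' P := by
  obtain ⟨e⟩ := h
  exact ⟨e.symm⟩

theorem sameType_trans {k : ℕ} {P P' P'' : Set (E k)} (h : SameType P P') (h' : SameType P' P'') :
    SameType P P'' := by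
  obtain ⟨e⟩ := h
  obtain ⟨e'⟩ := h'
  exact ⟨e.trans e'⟩

theorem pos_of_ne {X : Type} [TopologicalSpace X] {P : Set X} (hP : IsPreconnected P) (f : X → ℝ)
    (hf : Continuous f) (h0 : ∀ x ∈ P, f x ≠ 0) {w : X} (hw : w ∈ P) (hfw : 0 < f w) :
    ∀ x ∈ P, 0 < f x := by
  intro x hx
  by_contra hneg
  push Not at hneg
  have h1 := hP.intermediate_value hx hw hf.continuousOn
  obtain ⟨y, hy, hy0⟩ := h1 ⟨hneg, hfw.le⟩
  exact h0 y hy hy0

theorem zt_core {w : E 5} (h : core w) : zt w = 3 := by
  obtain ⟨h1, h2, -, -⟩ := h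
  have h0 : 0 < w 0 := h1.trans h2
  unfold zt
  rw [if_neg (fun hh => h0.ne' hh.1), if_neg (fun hh => hh.elim h0.ne' h1.ne'), if_neg]
  rw [abs_of_pos h0, abs_of_pos h1]
  exact h2.ne'

theorem core_y {w : E 5} (h : core w) : ¬ (w 2 = 0 ∧ w 3 = 0) := by
  intro hh
  rcases h.2.2.1 with h1 | h1
  · exact h1 hh.1
  · exact h1 hh.2

theorem nd_core {w : E 5} (h : core w) : nd w = 5 := by
  have h0 : 0 < w 0 := h.1.trans h.2.1
  unfold nd
  rw [if_neg (fun hh => h0.ne' hh.1), if_neg (core_y h), if_neg h.2.2.2.ne']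

theorem same_core (hC : S_CODE) {w w' : E 5} (h : core w) (h' : core w') :
    SameType (Q w) (Q w') := by
  apply hC w w' (by rw [zt_core h, zt_core h'])
  · exact iff_of_false (core_y h) (core_y h')
  · exact iff_of_false h.2.2.2.ne' h'.2.2.2.ne'

theorem core_nrm : core (nrm (1 / 2)) := by
  refine ⟨?_, ?_, ?_, ?_⟩
  · show (0 : ℝ) < 1 / 2
    norm_num
  · show (1 / 2 : ℝ) < 1
    norm_num
  · left
    show (1 : ℝ) ≠ 0
    norm_num
  · show (0 : ℝ) < 1
    norm_num

/-- the parametrisation of the core -/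
noncomputable def par (s : (ℝ × ℝ) × (ℂ × ℝ)) : E 5 :=
  !₂[s.1.1, s.1.2, s.2.1.re, s.2.1.im, s.2.2]

theorem par_cont : Continuous par := by
  unfold par
  refine (PiLp.continuous_toLp 2 _).comp ?_
  refine continuous_pi fun i => ?_
  fin_cases i
  · show Continuous fun s : (ℝ × ℝ) × (ℂ × ℝ) => s.1.1
    fun_prop
  · show Continuous fun s : (ℝ × ℝ) × (ℂ × ℝ) => s.1.2
    fun_prop
  · show Continuous fun s : (ℝ × ℝ) × (ℂ × ℝ) => s.2.1.re
    fun_prop
  · show Continuous fun s : (ℝ × ℝ) × (ℂ × ℝ) => s.2.1.im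
    fun_prop
  · show Continuous fun s : (ℝ × ℝ) × (ℂ × ℝ) => s.2.2
    fun_prop

/-- the parameter set -/
def Sp : Set ((ℝ × ℝ) × (ℂ × ℝ)) := {s | 0 < s.2 ∧ s.2 < s.1} ×ˢ (({0}ᶜ : Set ℂ) ×ˢ Ioi (0 : ℝ))

theorem Sp_pre : IsPreconnected Sp := by
  refine IsPreconnected.prod ?_ (IsPreconnected.prod ?_ isPreconnected_Ioi)
  · apply Convex.isPreconnected
    intro x hx y hy a b ha hb hab
    obtain ⟨x1, x2⟩ := hx
    obtain ⟨y1, y2⟩ := hy
    show 0 < a * x.2 + b * y.2 ∧ a * x.2 + b * y.2 < a * x.1 + b * y.1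
    rcases ha.eq_or_lt with h | h
    · subst h
      have hb1 : b = 1 := by linarith
      subst hb1
      constructor <;> linarith
    · have hy1 : 0 ≤ b * y.2 := mul_nonneg hb y1.le
      have hx1 : 0 < a * x.2 := mul_pos h x1
      have hy2 : b * y.2 ≤ b * y.1 := mul_le_mul_of_nonneg_left y2.le hb
      have hx2 : a * x.2 < a * x.1 := mul_lt_mul_of_pos_left x2 h
      constructor <;> linarith
  · have h1 : (1 : Cardinal) < Module.rank ℝ ℂ := by
      rw [Complex.rank_real_complex]
      norm_num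
    exact (isConnected_compl_singleton_of_one_lt_rank h1 (0 : ℂ)).isPreconnected

theorem core_par {s : (ℝ × ℝ) × (ℂ × ℝ)} (hs : s ∈ Sp) : core (par s) := by
  obtain ⟨⟨h1, h2⟩, h3, h4⟩ := hs
  refine ⟨h1, h2, ?_, h4⟩
  show s.2.1.re ≠ 0 ∨ s.2.1.im ≠ 0
  by_contra hcon
  push Not at hcon
  exact h3 (Complex.ext hcon.1 hcon.2)

theorem par_surj {x : E 5} (hx : core x) : ∃ s ∈ Sp, par s = x := by
  refine ⟨((x 0, x 1), (⟨x 2, x 3⟩, x 4)), ⟨⟨hx.1, hx.2.1⟩, ?_, hx.2.2.2⟩, ?_⟩
  · intro h0
    have h0' : (⟨x 2, x 3⟩ : ℂ) = 0 := h0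
    have h1 := congrArg Complex.re h0'
    have h2 := congrArg Complex.im h0'
    exact core_y hx ⟨h1, h2⟩
  · ext c
    fin_cases c <;> rfl

theorem core_ne {x : E 5} (hx : core x) : x ≠ 0 := by
  rintro rfl
  have := hx.2.2.2
  simp at this

theorem core_smul {x : E 5} (hx : core x) {c : ℝ} (hc : 0 < c) : core (c • x) := by
  obtain ⟨h1, h2, h3, h4⟩ := hx
  refine ⟨?_, ?_, ?_, ?_⟩
  · show 0 < c * x 1
    exact mul_pos hc h1
  · show c * x 1 < c * x 0
    exact mul_lt_mul_of_pos_left h2 hc
  · show c * x 2 ≠ 0 ∨ c * x 3 ≠ 0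
    rcases h3 with h | h
    · exact Or.inl (mul_ne_zero hc.ne' h)
    · exact Or.inr (mul_ne_zero hc.ne' h)
  · show 0 < c * x 4
    exact mul_pos hc h4

theorem K_pre (r : ℝ) (hr : 0 < r) :
    IsPreconnected {x : E 5 | x ∈ sphere (0 : E 5) r ∧ core x} := by
  have h1 : {x : E 5 | x ∈ sphere (0 : E 5) r ∧ core x} =
      (fun s => (r / ‖par s‖) • par s) '' Sp := by
    ext x
    constructor
    · rintro ⟨hx, hc⟩
      obtain ⟨s, hs, rfl⟩ := par_surj hc
      refine ⟨s, hs, ?_⟩
      have : ‖par s‖ = r := mem_sphere_zero_iff_norm.1 hx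
      simp only [this, div_self hr.ne', one_smul]
    · rintro ⟨s, hs, rfl⟩
      have hc := core_par hs
      have hn : 0 < ‖par s‖ := norm_pos_iff.2 (core_ne hc)
      refine ⟨?_, core_smul hc (div_pos hr hn)⟩
      rw [mem_sphere_zero_iff_norm, norm_smul, Real.norm_eq_abs, abs_of_pos (div_pos hr hn),
        div_mul_cancel₀ _ hn.ne']
  rw [h1]
  apply Sp_pre.image
  refine ContinuousOn.smul (ContinuousOn.div continuousOn_const
    (par_cont.norm.continuousOn) ?_) par_cont.continuousOn
  intro s hs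
  exact (norm_pos_iff.2 (core_ne (core_par hs))).ne'

end STR

open STR in
theorem str : S_CODE → S_DIM → S_ND → S_NI → S_STR := by
  intro hC hD hN hI r hr w hw hcw
  have hmem : w ∈ typeClass G r w := ⟨hw, ⟨OrderIso.refl _⟩⟩
  apply Set.Subset.antisymm
  · have hPpre : IsPreconnected (stratum G r w) := isPreconnected_connectedComponentIn
    have hPsub : stratum G r w ⊆ typeClass G r w := connectedComponentIn_subset _ _
    have hwP : w ∈ stratum G r w := mem_connectedComponentIn hmem
    have key : ∀ x ∈ stratum G r w, x 0 ≠ 0 ∧ x 1 ≠ 0 ∧ |x 0| ≠ |x 1| ∧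
        ¬ (x 2 = 0 ∧ x 3 = 0) ∧ x 4 ≠ 0 := by
      intro x hx
      obtain ⟨-, hx2⟩ := hPsub hx
      rw [orbPoly_G, orbPoly_G] at hx2
      have h1 := hD 5 I I (pts x) (pts w) hx2
      rw [hN x, hN w, nd_core hcw] at h1
      have h2 : ¬ (x 0 = 0 ∧ x 1 = 0) ∧ ¬ (x 2 = 0 ∧ x 3 = 0) ∧ x 4 ≠ 0 := by
        unfold nd at h1
        by_cases a1 : x 0 = 0 ∧ x 1 = 0
        · rw [if_pos a1] at h1
          split_ifs at h1 <;> omega
        · by_cases a2 : x 2 = 0 ∧ x 3 = 0
          · rw [if_pos a2] at h1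
            split_ifs at h1 <;> omega
          · by_cases a3 : x 4 = 0
            · rw [if_pos a3] at h1
              split_ifs at h1 <;> omega
            · exact ⟨a1, a2, a3⟩
      obtain ⟨b1, b2, b3⟩ := h2
      have hw12 : SameType (Q (nrm (1 / 2))) (Q x) :=
        sameType_trans (same_core hC core_nrm hcw) (sameType_symm hx2)
      by_cases c1 : x 0 = 0 ∨ x 1 = 0
      · exfalso
        apply hI.1
        refine sameType_trans hw12 (hC x (nrm 0) ?_ ?_ ?_)
        · have e1 : zt x = 1 := by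
            unfold zt
            rw [if_neg b1, if_pos c1]
          have e2 : zt (nrm 0) = 1 := by
            have d0 : (nrm 0) 0 = 1 := rfl
            have d1 : (nrm 0) 1 = 0 := rfl
            unfold zt
            rw [if_neg, if_pos]
            · right; exact d1
            · rintro ⟨hh, -⟩
              rw [d0] at hh
              exact one_ne_zero hh
          rw [e1, e2]
        · refine iff_of_false b2 ?_
          rintro ⟨hh, -⟩
          have d2 : (nrm 0) 2 = 1 := rfl
          rw [d2] at hh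
          exact one_ne_zero hh
        · refine iff_of_false b3 ?_
          intro hh
          have d2 : (nrm 0) 4 = 1 := rfl
          rw [d2] at hh
          exact one_ne_zero hh
      · by_cases c2 : |x 0| = |x 1|
        · exfalso
          apply hI.2
          refine sameType_trans hw12 (hC x (nrm 1) ?_ ?_ ?_)
          · have e1 : zt x = 2 := by
              unfold zt
              rw [if_neg b1, if_neg c1, if_pos c2]
            have e2 : zt (nrm 1) = 2 := by
              have d0 : (nrm 1) 0 = 1 := rfl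
              have d1 : (nrm 1) 1 = 1 := rfl
              unfold zt
              rw [if_neg, if_neg, if_pos]
              · rw [d0, d1]
              · rw [d0, d1]
                simp
              · rw [d0, d1]
                simp
            rw [e1, e2]
          · refine iff_of_false b2 ?_
            rintro ⟨hh, -⟩
            have d2 : (nrm 1) 2 = 1 := rfl
            rw [d2] at hh
            exact one_ne_zero hh
          · refine iff_of_false b3 ?_
            intro hh
            have d2 : (nrm 1) 4 = 1 := rfl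
            rw [d2] at hh
            exact one_ne_zero hh
        · push Not at c1
          exact ⟨c1.1, c1.2, c2, b2, b3⟩
    intro x hx
    refine ⟨(hPsub hx).1, ?_⟩
    have hcont : ∀ i : Fin 5, Continuous (fun x : E 5 => x i) := fun i => by fun_prop
    refine ⟨?_, ?_, ?_, ?_⟩
    · exact pos_of_ne hPpre (fun x : E 5 => x 1) (hcont 1) (fun y hy => (key y hy).2.1) hwP
        hcw.1 x hx
    · have := pos_of_ne hPpre (fun x : E 5 => x 0 - x 1) ((hcont 0).sub (hcont 1))
        (fun y hy h0 => (key y hy).2.2.1 (by rw [sub_eq_zero.1 h0])) hwP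
        (sub_pos.2 hcw.2.1) x hx
      exact sub_pos.1 this
    · have := (key x hx).2.2.2.1
      by_contra hcon
      push Not at hcon
      exact this hcon
    · exact pos_of_ne hPpre (fun x : E 5 => x 4) (hcont 4) (fun y hy => (key y hy).2.2.2.2) hwP
        hcw.2.2.2 x hx
  · apply IsPreconnected.subset_connectedComponentIn (K_pre r hr) ⟨hw, hcw⟩
    rintro x ⟨hx, hcx⟩
    refine ⟨hx, ?_⟩
    rw [orbPoly_G, orbPoly_G]
    exact same_core hC hcx hcw

end Pool.Agent.H126.Orb
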