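import Pool.Agent.H126.Orb.Stm

/-!
# SUB: charts of the intersection of a sphere with a linear subspace (helper225)
-/

set_option autoImplicit false

open Set Metric MeasureTheory
open scoped RealInnerProductSpace ContDiff

namespace Pool.Agent.H126.Orb

namespace SUB

variable {k : ℕ} (p : E k) (r : ℝ)

/-- the part orthogonal to `p` -/
noncomputable def pr (x : E k) : E k := x - (⟪x, p⟫ / r ^ 2) • p

/-- the chart -/
noncomputable def ph (x : E k) : E k := pr p r x + ((‖x‖ ^ 2 - r ^ 2) / (2 * r ^ 2)) • p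

/-- the argument of the square root -/
noncomputable def ar (y : E k) : ℝ := 1 + 2 * ⟪y, p⟫ / r ^ 2 - ‖pr p r y‖ ^ 2 / r ^ 2

/-- the inverse of the chart -/
noncomputable def ps (y : E k) : E k := pr p r y + Real.sqrt (ar p r y) • p

variable {p r} (hr : 0 < r) (hp : ‖p‖ = r)

include hp in
lemma inner_pp : ⟪p, p⟫ = r ^ 2 := by rw [real_inner_self_eq_norm_sq, hp]

include hr hp in
lemma inner_pr (x : E k) : ⟪pr p r x, p⟫ = 0 := by
  unfold pr
  rw [inner_sub_left, real_inner_smul_left, inner_pp hp]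
  field_simp
  ring

include hr hp in
lemma inner_ph (x : E k) : ⟪ph p r x, p⟫ = (‖x‖ ^ 2 - r ^ 2) / 2 := by
  unfold ph
  rw [inner_add_left, real_inner_smul_left, inner_pp hp, inner_pr hr hp]
  field_simp
  ring

include hr hp in
lemma pr_add (x : E k) (c : ℝ) : pr p r (pr p r x + c • p) = pr p r x := by
  have h : ⟪pr p r x + c • p, p⟫ = c * r ^ 2 := by
    rw [inner_add_left, real_inner_smul_left, inner_pp hp, inner_pr hr hp, zero_add]
  conv_lhs => unfold pr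
  have h' : ⟪(x - (⟪x, p⟫ / r ^ 2) • p) + c • p, p⟫ = c * r ^ 2 := h
  rw [h', mul_div_assoc, div_self (by positivity), mul_one]
  unfold pr
  abel

include hr hp in
lemma norm_add (x : E k) (c : ℝ) : ‖pr p r x + c • p‖ ^ 2 = ‖pr p r x‖ ^ 2 + c ^ 2 * r ^ 2 := by
  rw [norm_add_sq_real, real_inner_smul_right, inner_pr hr hp, norm_smul, hp, mul_pow,
    Real.norm_eq_abs, sq_abs]
  ring

lemma eq_pr (x : E k) : x = pr p r x + (⟪x, p⟫ / r ^ 2) • p := by
  unfold pr
  abel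

include hr hp in
lemma norm_eq (x : E k) : ‖x‖ ^ 2 = ‖pr p r x‖ ^ 2 + (⟪x, p⟫ / r ^ 2) ^ 2 * r ^ 2 := by
  have h := norm_add hr hp x (⟪x, p⟫ / r ^ 2)
  rw [← eq_pr] at h
  exact h

include hr hp in
lemma ar_ph (x : E k) : ar p r (ph p r x) = (⟪x, p⟫ / r ^ 2) ^ 2 := by
  unfold ar
  rw [inner_ph hr hp]
  have h : pr p r (ph p r x) = pr p r x := pr_add hr hp x _
  rw [h]
  have h2 := norm_eq hr hp x
  have h3 : ‖pr p r x‖ ^ 2 = ‖x‖ ^ 2 - (⟪x, p⟫ / r ^ 2) ^ 2 * r ^ 2 := by linarith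
  rw [h3]
  field_simp
  ring

include hr hp in
lemma ps_ph {x : E k} (hx : 0 < ⟪x, p⟫) : ps p r (ph p r x) = x := by
  unfold ps
  rw [ar_ph hr hp, Real.sqrt_sq (by positivity)]
  have h : pr p r (ph p r x) = pr p r x := pr_add hr hp x _
  rw [h, ← eq_pr]

include hr hp in
lemma ph_ps {y : E k} (hy : 0 ≤ ar p r y) : ph p r (ps p r y) = y := by
  have h : pr p r (ps p r y) = pr p r y := pr_add hr hp y _
  have h2 : ‖ps p r y‖ ^ 2 = ‖pr p r y‖ ^ 2 + Real.sqrt (ar p r y) ^ 2 * r ^ 2 :=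
    norm_add hr hp y _
  unfold ph
  rw [h, h2, Real.sq_sqrt hy]
  conv_rhs => rw [eq_pr (p := p) (r := r) y]
  congr 2
  unfold ar
  field_simp
  ring

include hr hp in
lemma inner_ps (y : E k) : ⟪ps p r y, p⟫ = Real.sqrt (ar p r y) * r ^ 2 := by
  unfold ps
  rw [inner_add_left, real_inner_smul_left, inner_pp hp, inner_pr hr hp, zero_add]

lemma contDiff_inner : ContDiff ℝ ∞ (fun x : E k => ⟪x, p⟫) := contDiff_id.inner ℝ contDiff_const

lemma contDiff_pr : ContDiff ℝ ∞ (pr p r) := by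
  unfold pr
  exact contDiff_id.sub ((contDiff_inner.div_const _).smul contDiff_const)

lemma contDiff_ph : ContDiff ℝ ∞ (ph p r) := by
  unfold ph
  have h := contDiff_pr (p := p) (r := r)
  exact h.add ((((contDiff_norm_sq ℝ).sub contDiff_const).div_const _).smul contDiff_const)

lemma contDiff_ar : ContDiff ℝ ∞ (ar p r) := by
  unfold ar
  have h := contDiff_pr (p := p) (r := r)
  exact (contDiff_const.add ((contDiff_const.mul contDiff_inner).div_const _)).sub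
    ((h.norm_sq ℝ).div_const _)

lemma contDiffOn_ps : ContDiffOn ℝ ∞ (ps p r) {y | 0 < ar p r y} := by
  unfold ps
  have h := contDiff_pr (p := p) (r := r)
  have h2 := contDiff_ar (p := p) (r := r)
  exact h.contDiffOn.add ((h2.contDiffOn.sqrt fun y hy => (ne_of_gt hy)).smul contDiffOn_const)

lemma pr_zero : pr p r 0 = 0 := by
  unfold pr
  simp

lemma ar_zero : ar p r 0 = 1 := by
  unfold ar
  rw [pr_zero]
  simp

lemma ps_zero : ps p r 0 = p := by
  unfold ps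
  rw [pr_zero, ar_zero]
  simp

lemma isOpen_ar : IsOpen {y : E k | 0 < ar p r y} :=
  isOpen_lt continuous_const (contDiff_ar (p := p) (r := r)).continuous

include hp in
lemma ph_p (hr : 0 < r) : ph p r p = 0 := by
  have h : ps p r 0 = p := ps_zero
  rw [← h]
  conv_lhs => rw [h]
  have h1 : ph p r (ps p r 0) = 0 := ph_ps hr hp (by rw [ar_zero]; norm_num)
  rwa [h] at h1

lemma exists_ball {V : Set (E k)} (hV : IsOpen V) (hpV : p ∈ V) :
    ∃ ε : ℝ, 0 < ε ∧ ∀ y ∈ ball (0 : E k) ε, 0 < ar p r y ∧ ps p r y ∈ V := by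
  have h0 : (0 : E k) ∈ {y : E k | 0 < ar p r y} := by
    show 0 < ar p r 0
    rw [ar_zero]
    norm_num
  have h1 : ContinuousAt (ps p r) 0 :=
    (contDiffOn_ps.continuousOn).continuousAt (isOpen_ar.mem_nhds h0)
  have h2 : ps p r ⁻¹' V ∈ nhds (0 : E k) := by
    apply h1.preimage_mem_nhds
    rw [ps_zero]
    exact hV.mem_nhds hpV
  obtain ⟨ε, hε, h⟩ := Metric.mem_nhds_iff.1 (Filter.inter_mem (isOpen_ar.mem_nhds h0) h2)
  exact ⟨ε, hε, fun y hy => ⟨(h hy).1, (h hy).2⟩⟩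

variable (p r) in
/-- the source of the chart -/
def src (ε : ℝ) : Set (E k) := {x : E k | 0 < ⟪x, p⟫ ∧ ‖ph p r x‖ < ε}

lemma isOpen_src (ε : ℝ) : IsOpen (src p r ε) :=
  (isOpen_lt continuous_const (contDiff_inner (p := p)).continuous).inter
    (isOpen_lt (contDiff_ph (p := p) (r := r)).continuous.norm continuous_const)

lemma mem_src {ε : ℝ} {x : E k} (hx : x ∈ src p r ε) : ph p r x ∈ ball (0 : E k) ε :=
  mem_ball_zero_iff.2 hx.2

include hr hp in
lemma ps_mem {ε : ℝ} {y : E k} (hy : y ∈ ball (0 : E k) ε) (hy' : 0 < ar p r y) :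
    ps p r y ∈ src p r ε := by
  have h1 : 0 < ⟪ps p r y, p⟫ := by
    rw [inner_ps hr hp]
    have := Real.sqrt_pos.2 hy'
    positivity
  have h2 : ‖ph p r (ps p r y)‖ < ε := by
    rw [ph_ps hr hp hy'.le]
    exact mem_ball_zero_iff.1 hy
  exact ⟨h1, h2⟩

/-- the chart as an equivalence -/
noncomputable def che (hr : 0 < r) (hp : ‖p‖ = r) {ε : ℝ}
    (hε : ∀ y ∈ ball (0 : E k) ε, 0 < ar p r y) : PartialEquiv (E k) (E k) where
  toFun := ph p r
  invFun := ps p r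
  source := src p r ε
  target := ball (0 : E k) ε
  map_source' := fun _ hx => mem_src hx
  map_target' := fun y hy => ps_mem hr hp hy (hε y hy)
  left_inv' := fun _ hx => ps_ph hr hp hx.1
  right_inv' := fun y hy => ph_ps hr hp (hε y hy).le

/-- the chart as a partial homeomorphism -/
noncomputable def ch (hr : 0 < r) (hp : ‖p‖ = r) {ε : ℝ}
    (hε : ∀ y ∈ ball (0 : E k) ε, 0 < ar p r y) : OpenPartialHomeomorph (E k) (E k) where
  toPartialEquiv := che hr hp hε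
  open_source := isOpen_src ε
  open_target := isOpen_ball
  continuousOn_toFun := (contDiff_ph (p := p) (r := r)).continuous.continuousOn
  continuousOn_invFun := (contDiffOn_ps (p := p) (r := r)).continuousOn.mono hε

end SUB

theorem sub_chart : S_SUB := by
  intro k r M p V hr hpM hp hV hpV
  obtain ⟨ε, hε0, hε⟩ := SUB.exists_ball (p := p) (r := r) hV hpV
  have hε1 : ∀ y ∈ ball (0 : E k) ε, 0 < SUB.ar p r y := fun y hy => (hε y hy).1
  obtain ⟨W, hW⟩ : ∃ W : Submodule ℝ (E k), W = M ⊓ (ℝ ∙ p)ᗮ := ⟨_, rfl⟩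
  have hprM : ∀ x ∈ M, SUB.pr p r x ∈ M := fun x hx => M.sub_mem hx (M.smul_mem _ hpM)
  have hmem : ∀ y : E k, y ∈ W ↔ y ∈ M ∧ ⟪y, p⟫ = 0 := by
    intro y
    rw [hW, Submodule.mem_inf, Submodule.mem_orthogonal_singleton_iff_inner_left]
  have key : ∀ y : E k, y ∈ W → y ∈ ball (0 : E k) ε →
      SUB.ps p r y ∈ (sphere (0 : E k) r ∩ M) ∩ SUB.src p r ε := by
    intro y hyW hy
    have h1 := (hmem y).1 hyW
    have h2 : SUB.ph p r (SUB.ps p r y) = y := SUB.ph_ps hr hp (hε1 y hy).le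
    refine ⟨⟨?_, ?_⟩, SUB.ps_mem hr hp hy (hε1 y hy)⟩
    · rw [mem_sphere_zero_iff_norm]
      have h3 := SUB.inner_ph hr hp (SUB.ps p r y)
      rw [h2, h1.2] at h3
      have h4 : ‖SUB.ps p r y‖ ^ 2 = r ^ 2 := by linarith
      exact (sq_eq_sq₀ (norm_nonneg _) hr.le).1 h4
    · exact M.add_mem (hprM y h1.1) (M.smul_mem _ hpM)
  have key2 : ∀ x ∈ (sphere (0 : E k) r ∩ M) ∩ SUB.src p r ε,
      SUB.ph p r x ∈ W ∧ SUB.ph p r x ∈ ball (0 : E k) ε := by
    rintro x ⟨⟨hx1, hx2⟩, hx3⟩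
    refine ⟨(hmem _).2 ⟨M.add_mem (hprM x hx2) (M.smul_mem _ hpM), ?_⟩, SUB.mem_src hx3⟩
    rw [SUB.inner_ph hr hp, mem_sphere_zero_iff_norm.1 hx1]
    simp
  have hps : p ∈ SUB.src p r ε := by
    have h1 : 0 < ⟪p, p⟫ := by
      rw [SUB.inner_pp hp]
      positivity
    have h2 : ‖SUB.ph p r p‖ < ε := by
      rw [SUB.ph_p hp hr, norm_zero]
      exact hε0
    exact ⟨h1, h2⟩
  have hsV : SUB.src p r ε ⊆ V := by
    intro x hx
    have h1 := (hε _ (SUB.mem_src hx)).2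
    rwa [SUB.ps_ph hr hp hx.1] at h1
  have him : SUB.ph p r '' ((sphere (0 : E k) r ∩ M) ∩ SUB.src p r ε) =
      (W.toAffineSubspace : Set (E k)) ∩ ball (0 : E k) ε := by
    ext y
    constructor
    · rintro ⟨x, hx, rfl⟩
      exact ⟨(key2 x hx).1, (key2 x hx).2⟩
    · rintro ⟨hy1, hy2⟩
      exact ⟨SUB.ps p r y, key y hy1 hy2, SUB.ph_ps hr hp (hε1 y hy2).le⟩
  have hpre : IsPreconnected ((sphere (0 : E k) r ∩ M) ∩ SUB.src p r ε) := by
    have h1 : (sphere (0 : E k) r ∩ M) ∩ SUB.src p r ε =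
        SUB.ps p r '' ((W : Set (E k)) ∩ ball 0 ε) := by
      ext x
      constructor
      · intro hx
        exact ⟨SUB.ph p r x, ⟨(key2 x hx).1, (key2 x hx).2⟩, SUB.ps_ph hr hp hx.2.1⟩
      · rintro ⟨y, ⟨hy1, hy2⟩, rfl⟩
        exact key y hy1 hy2
    rw [h1]
    refine IsPreconnected.image ?_ _ (SUB.contDiffOn_ps.continuousOn.mono fun y hy => hε1 y hy.2)
    exact (W.convex.inter (convex_ball 0 ε)).isPreconnected
  exact ⟨SUB.ch hr hp hε1, W.toAffineSubspace, hps, hsV, SUB.contDiff_ph.contDiffOn,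
    SUB.contDiffOn_ps.mono hε1, him, hpre⟩

end Pool.Agent.H126.Orb
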