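import Pool.Agent.H126.Orb.Stm

/-!
# Volume of a tetrahedron, splitting by a plane
-/

set_option autoImplicit false

open Set Metric MeasureTheory

namespace Pool.Agent.H126.Orb

namespace TET

/-- the simplex -/
def Del (n : ℕ) (h : ℝ) : Set (Fin n → ℝ) := {u | (∀ i, 0 ≤ u i) ∧ ∑ i, u i ≤ h}

lemma meas_Del (n : ℕ) (h : ℝ) : MeasurableSet (Del n h) := by
  have h1 : IsClosed (Del n h) := by
    unfold Del
    simp only [Set.ofPred_and, Set.ofPred_forall]
    exact (isClosed_iInter fun i => isClosed_le continuous_const (continuous_apply i)).inter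
      (isClosed_le (by fun_prop) continuous_const)
  exact h1.measurableSet

lemma int_pow (n : ℕ) (h : ℝ) : ∫ t in (0:ℝ)..h, (h - t) ^ n / (n.factorial : ℝ) =
    h ^ (n + 1) / ((n + 1).factorial : ℝ) := by
  rw [intervalIntegral.integral_div, intervalIntegral.integral_comp_sub_left (fun t => t ^ n) h,
    integral_pow]
  simp only [sub_self, sub_zero]
  rw [Nat.factorial_succ]
  push_cast
  rw [zero_pow (by omega), sub_zero, div_div]

lemma vol_Del (n : ℕ) : ∀ h : ℝ, 0 ≤ h → volume (Del n h) =
    ENNReal.ofReal (h ^ n / (n.factorial : ℝ)) := by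
  induction n with
  | zero =>
    intro h hh
    have : Del 0 h = Set.univ := by
      ext u; simp [Del, hh]
    rw [this, volume_pi, Measure.pi_of_empty (fun _ : Fin 0 => (volume : Measure ℝ)),
      measure_univ]
    simp
  | succ n ih =>
    intro h hh
    have mp := (volume_preserving_piFinSuccAbove (fun _ : Fin (n + 1) => ℝ) 0).symm
    rw [← mp.measure_preimage (meas_Del (n + 1) h).nullMeasurableSet]
    rw [Measure.volume_eq_prod, Measure.prod_apply ((meas_Del (n + 1) h).preimage mp.measurable)]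
    have e : ∀ t : ℝ, volume (Prod.mk t ⁻¹'
        ((MeasurableEquiv.piFinSuccAbove (fun _ : Fin (n + 1) => ℝ) 0).symm ⁻¹' Del (n + 1) h)) =
        (Set.Icc 0 h).indicator (fun t => ENNReal.ofReal ((h - t) ^ n / (n.factorial : ℝ))) t := by
      intro t
      have e1 : (Prod.mk t ⁻¹'
        ((MeasurableEquiv.piFinSuccAbove (fun _ : Fin (n + 1) => ℝ) 0).symm ⁻¹' Del (n + 1) h)) =
        {u : Fin n → ℝ | 0 ≤ t ∧ u ∈ Del n (h - t)} := by
        ext u
        simp only [Set.mem_preimage, Del, Set.mem_ofPred_eq, MeasurableEquiv.piFinSuccAbove_symm_apply,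
          Fin.forall_fin_succ, Fin.sum_univ_succ]
        simp only [Fin.insertNthEquiv, Equiv.coe_fn_mk, Fin.insertNth_zero, Fin.cons_zero,
          Fin.cons_succ]
        constructor
        · rintro ⟨⟨h1, h2⟩, h3⟩
          have h3' : t + ∑ j, u j ≤ h := h3
          exact ⟨h1, h2, by linarith⟩
        · rintro ⟨h1, h2, h3⟩
          refine ⟨⟨h1, h2⟩, ?_⟩
          show t + ∑ j, u j ≤ h
          linarith
      rw [e1]
      by_cases ht : t ∈ Set.Icc 0 h
      · rw [Set.indicator_of_mem ht, ← ih (h - t) (by linarith [ht.2])]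
        congr 1
        ext u
        simp [ht.1]
      · rw [Set.indicator_of_notMem ht]
        have : {u : Fin n → ℝ | 0 ≤ t ∧ u ∈ Del n (h - t)} = ∅ := by
          ext u
          simp only [Set.mem_ofPred_eq, Set.mem_empty_iff_false, iff_false]
          rintro ⟨h1, h2, h3⟩
          apply ht
          refine ⟨h1, ?_⟩
          have := Finset.sum_nonneg (s := Finset.univ) (fun i _ => h2 i)
          linarith
        rw [this, measure_empty]
    simp_rw [e]
    rw [lintegral_indicator measurableSet_Icc, ← int_pow n h,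
      intervalIntegral.integral_of_le hh, ← integral_Icc_eq_integral_Ioc,
      ← ofReal_integral_eq_lintegral_ofReal]
    · exact (ContinuousOn.integrableOn_compact isCompact_Icc (by fun_prop))
    · refine (ae_restrict_iff' measurableSet_Icc).2 (Filter.Eventually.of_forall fun t ht => ?_)
      have : 0 ≤ h - t := by linarith [ht.2]
      simp only [Pi.zero_apply]
      positivity

end TET

open TET in
theorem tet : S_TET := by
  intro A c h hA hc hh
  have mp := PiLp.volume_preserving_toLp (Fin 3)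
  set B : Matrix (Fin 3) (Fin 3) ℝ := Matrix.diagonal c * A with hB
  have hBi : ∀ (v : Fin 3 → ℝ) (i : Fin 3), Matrix.toLin' B v i = c i * ∑ j, A i j * v j := by
    intro v i
    rw [hB, Matrix.toLin'_apply, ← Matrix.mulVec_mulVec, Matrix.mulVec_diagonal]
    rfl
  have hdet : LinearMap.det (Matrix.toLin' B) = (c 0 * c 1 * c 2) * A.det := by
    rw [LinearMap.det_toLin', hB, Matrix.det_mul, Matrix.det_diagonal, Fin.prod_univ_three]
  have hcp : 0 < c 0 * c 1 * c 2 := mul_pos (mul_pos (hc 0) (hc 1)) (hc 2)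
  have hdet0 : LinearMap.det (Matrix.toLin' B) ≠ 0 := by
    rw [hdet]; exact mul_ne_zero hcp.ne' hA
  have hset : (WithLp.toLp 2 : (Fin 3 → ℝ) → E 3) ⁻¹'
      {v : E 3 | (∀ i, 0 ≤ ∑ j, A i j * v j) ∧ ∑ i, c i * ∑ j, A i j * v j ≤ h} =
      (Matrix.toLin' B) ⁻¹' Del 3 h := by
    ext v
    simp only [Set.mem_preimage, Del, Set.mem_ofPred_eq, hBi]
    constructor
    · rintro ⟨h1, h2⟩
      exact ⟨fun i => mul_nonneg (hc i).le (h1 i), h2⟩
    · rintro ⟨h1, h2⟩
      exact ⟨fun i => nonneg_of_mul_nonneg_right (h1 i) (hc i), h2⟩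
  have hmeas : MeasurableSet
      {v : E 3 | (∀ i, 0 ≤ ∑ j, A i j * v j) ∧ ∑ i, c i * ∑ j, A i j * v j ≤ h} := by
    simp only [Set.ofPred_and, Set.ofPred_forall]
    exact ((isClosed_iInter fun i => isClosed_le continuous_const (by fun_prop)).inter
      (isClosed_le (by fun_prop) continuous_const)).measurableSet
  rw [← mp.measure_preimage hmeas.nullMeasurableSet, hset,
    Measure.addHaar_preimage_linearMap _ hdet0, vol_Del 3 h hh, hdet,
    ← ENNReal.ofReal_mul (abs_nonneg _)]
  congr 1
  rw [abs_inv, abs_mul, abs_of_pos hcp]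
  have : ((3 : ℕ).factorial : ℝ) = 6 := by norm_num [Nat.factorial]
  rw [this]
  have hA' : |A.det| ≠ 0 := abs_ne_zero.2 hA
  field_simp

namespace TET

/-- a level plane -/
def pl (φ : Fin 3 → ℝ) (c : ℝ) : AffineSubspace ℝ (E 3) where
  carrier := {v | ∑ j, φ j * v j = c}
  smul_vsub_vadd_mem' := by
    intro t p1 p2 p3 h1 h2 h3
    simp only [Set.mem_ofPred_eq] at *
    simp only [vsub_eq_sub, vadd_eq_add, PiLp.add_apply, PiLp.smul_apply, PiLp.sub_apply,
      smul_eq_mul]
    have : ∀ j, φ j * (t * (p1 j - p2 j) + p3 j) =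
        t * (φ j * p1 j) - t * (φ j * p2 j) + φ j * p3 j := fun j => by ring
    simp_rw [this]
    rw [Finset.sum_add_distrib, Finset.sum_sub_distrib, ← Finset.mul_sum, ← Finset.mul_sum, h1, h2,
      h3]
    ring

lemma pl_ne {φ : Fin 3 → ℝ} (hφ : φ ≠ 0) (c : ℝ) : pl φ c ≠ ⊤ := by
  intro h
  apply hφ
  funext j
  have h0 : (0 : E 3) ∈ pl φ c := by rw [h]; trivial
  have h1 : (EuclideanSpace.single j (1:ℝ) : E 3) ∈ pl φ c := by rw [h]; trivial
  have h0' : ∑ i, φ i * (0 : E 3) i = c := h0
  have h1' : ∑ i, φ i * (EuclideanSpace.single j (1:ℝ) : E 3) i = c := h1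
  simp at h0' h1'
  simp [h1', ← h0']

end TET

open TET in
theorem split : S_SPLIT := by
  intro φ R c hφ hR
  have hm : MeasurableSet {v : E 3 | c ≤ ∑ j, φ j * v j} :=
    (isClosed_le continuous_const (by fun_prop)).measurableSet
  have h0 : volume {v : E 3 | ∑ j, φ j * v j = c} = 0 :=
    Measure.addHaar_affineSubspace volume (pl φ c) (pl_ne hφ c)
  rw [← measure_inter_add_sdiff R hm]
  congr 1
  apply le_antisymm
  · apply measure_mono
    rintro v ⟨h1, h2⟩
    simp only [Set.mem_ofPred_eq, not_le] at h2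
    exact ⟨h1, h2.le⟩
  · calc volume (R ∩ {v | ∑ j, φ j * v j ≤ c}) ≤
        volume ((R \ {v | c ≤ ∑ j, φ j * v j}) ∪ {v : E 3 | ∑ j, φ j * v j = c}) := by
          apply measure_mono
          rintro v ⟨h1, h2⟩
          simp only [Set.mem_ofPred_eq] at h2
          rcases h2.lt_or_eq with h3 | h3
          · left; exact ⟨h1, by simpa using h3⟩
          · right; exact h3
      _ ≤ _ := measure_union_le _ _
      _ = _ := by rw [h0, add_zero]

end Pool.Agent.H126.Orb
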