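import Pool.Agent.H126.Orb.Stm

/-!
# Volumes of two regions (V1, V3)
-/

set_option autoImplicit false

open Set Metric MeasureTheory

namespace Pool.Agent.H126.Orb

namespace V13

/-- the reflection in the coordinate `i` -/
noncomputable def rf (i : Fin 3) : E 3 ≃ₗᵢ[ℝ] E 3 :=
  LinearIsometryEquiv.piLpCongrRight 2
    (fun j => if j = i then LinearIsometryEquiv.neg ℝ else LinearIsometryEquiv.refl ℝ ℝ)

lemma rf_apply (i : Fin 3) (v : E 3) (j : Fin 3) : rf i v j = if j = i then -v j else v j := by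
  unfold rf
  rw [LinearIsometryEquiv.piLpCongrRight_apply]
  show (if j = i then LinearIsometryEquiv.neg ℝ else LinearIsometryEquiv.refl ℝ ℝ) (v j) = _
  split_ifs <;> rfl

/-- a region symmetric in the coordinate `i` -/
lemma sym (hs : S_SPLIT) (i : Fin 3) (R : Set (E 3)) (hR : MeasurableSet R)
    (h : ∀ v, v ∈ R → rf i v ∈ R) : volume R = 2 * volume (R ∩ {v | 0 ≤ v i}) := by
  have hφ : (Pi.single i 1 : Fin 3 → ℝ) ≠ 0 := by
    intro h0
    have := congrFun h0 i
    simp at this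
  have h1 := hs (Pi.single i 1) R 0 hφ hR
  have e : ∀ v : E 3, ∑ j, (Pi.single i 1 : Fin 3 → ℝ) j * v j = v i := by
    intro v
    simp [Pi.single_apply]
  simp_rw [e] at h1
  have mp := (rf i).measurePreserving
  have hm : MeasurableSet (R ∩ {v : E 3 | 0 ≤ v i}) :=
    hR.inter (isClosed_le continuous_const (by fun_prop)).measurableSet
  have h2 : volume (R ∩ {v : E 3 | v i ≤ 0}) = volume (R ∩ {v : E 3 | 0 ≤ v i}) := by
    rw [← mp.measure_preimage hm.nullMeasurableSet]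
    congr 1
    ext v
    simp only [Set.mem_inter_iff, Set.mem_preimage, Set.mem_ofPred_eq, rf_apply, if_true]
    have hrr : rf i (rf i v) = v := by
      ext j
      rw [rf_apply, rf_apply]
      split_ifs <;> simp
    constructor
    · rintro ⟨h3, h4⟩
      exact ⟨h v h3, by linarith⟩
    · rintro ⟨h3, h4⟩
      refine ⟨?_, by linarith⟩
      have := h _ h3
      rwa [hrr] at this
  rw [h1, h2, two_mul]

lemma rf_ne {i j : Fin 3} (h : j ≠ i) (v : E 3) : rf i v j = v j := by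
  rw [rf_apply, if_neg h]

lemma rf_eq (i : Fin 3) (v : E 3) : rf i v i = -v i := by
  rw [rf_apply, if_pos rfl]

lemma four {x y : ℝ} (h : 4 * x = y) : (2 : ENNReal) * (2 * ENNReal.ofReal x) =
    ENNReal.ofReal y := by
  have e : (2 : ENNReal) = ENNReal.ofReal 2 := by simp
  rw [e, ← ENNReal.ofReal_mul (by norm_num), ← ENNReal.ofReal_mul (by norm_num), ← h]
  congr 1
  ring

end V13

open V13 in
theorem v1 : S_TET → S_SPLIT → S_V1 := by
  intro ht hs t ht0 ht1
  have hN : 0 < N t := by unfold N; positivity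
  have hm : MeasurableSet (RA1 t) := by
    simp only [RA1, Set.ofPred_and]
    exact ((isClosed_le (by fun_prop) (by fun_prop)).inter
      (isClosed_le (by fun_prop) (by fun_prop))).measurableSet
  have hm2 : MeasurableSet (RA1 t ∩ {v | 0 ≤ v 0}) :=
    hm.inter (isClosed_le continuous_const (by fun_prop)).measurableSet
  rw [sym hs 0 (RA1 t) hm, sym hs 2 (RA1 t ∩ {v | 0 ≤ v 0}) hm2]
  · have e : RA1 t ∩ {v | 0 ≤ v 0} ∩ {v | 0 ≤ v 2} =
        {v : E 3 | (∀ i, 0 ≤ ∑ j, (!![1, 0, 0; 0, 0, 1; -t, 1, 0] : Matrix (Fin 3) (Fin 3) ℝ) i j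
          * v j) ∧ ∑ i, (![N t, 1, 1] : Fin 3 → ℝ) i * ∑ j,
          (!![1, 0, 0; 0, 0, 1; -t, 1, 0] : Matrix (Fin 3) (Fin 3) ℝ) i j * v j ≤ 1} := by
      ext v
      simp only [RA1, Set.mem_inter_iff, Set.mem_ofPred_eq, Fin.forall_fin_succ, Fin.sum_univ_three,
        Matrix.of_apply, Matrix.cons_val', Matrix.cons_val_zero, Matrix.cons_val_one,
        Matrix.cons_val_two, Matrix.cons_val_fin_one, N]
      simp
      constructor
      · rintro ⟨⟨⟨h1, h2⟩, h3⟩, h4⟩
        rw [abs_of_nonneg h3] at h1 h2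
        rw [abs_of_nonneg h4] at h2
        exact ⟨⟨h3, h4, by linarith⟩, by linarith⟩
      · rintro ⟨⟨h3, h4, h5⟩, h6⟩
        rw [abs_of_nonneg h3, abs_of_nonneg h4]
        exact ⟨⟨⟨by linarith, by linarith⟩, h3⟩, h4⟩
    rw [e, ht]
    · apply four
      have hd : (!![1, 0, 0; 0, 0, 1; -t, 1, 0] : Matrix (Fin 3) (Fin 3) ℝ).det = -1 := by
        rw [Matrix.det_fin_three]; simp
      rw [hd, wA1]
      simp
      field_simp
      norm_num
    · rw [Matrix.det_fin_three]; simp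
    · simp [Fin.forall_fin_succ, hN]
    · norm_num
  · rintro v ⟨⟨h1, h2⟩, h3⟩
    simp only [Set.mem_ofPred_eq] at h3
    refine ⟨⟨?_, ?_⟩, ?_⟩ <;>
      simp only [rf_ne (by decide : (0:Fin 3) ≠ 2), rf_ne (by decide : (1:Fin 3) ≠ 2), rf_eq,
        abs_neg, Set.mem_ofPred_eq] <;> assumption
  · rintro v ⟨h1, h2⟩
    refine ⟨?_, ?_⟩ <;>
      simp only [rf_ne (by decide : (2:Fin 3) ≠ 0), rf_ne (by decide : (1:Fin 3) ≠ 0), rf_eq,
        abs_neg] <;> assumption

open V13 in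
theorem v3 : S_TET → S_SPLIT → S_V3 := by
  intro ht hs t ht0 ht1
  have hN : 0 < N t := by unfold N; positivity
  have hm : MeasurableSet (RA3 t) := by
    simp only [RA3, Set.ofPred_and]
    exact ((isClosed_le (by fun_prop) (by fun_prop)).inter
      (isClosed_le (by fun_prop) (by fun_prop))).measurableSet
  have hm2 : MeasurableSet (RA3 t ∩ {v | 0 ≤ v 0}) :=
    hm.inter (isClosed_le continuous_const (by fun_prop)).measurableSet
  rw [sym hs 0 (RA3 t) hm, sym hs 2 (RA3 t ∩ {v | 0 ≤ v 0}) hm2]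
  · have e : RA3 t ∩ {v | 0 ≤ v 0} ∩ {v | 0 ≤ v 2} =
        {v : E 3 | (∀ i, 0 ≤ ∑ j, (!![1, 0, 0; 0, 0, 1; -1, t, 0] : Matrix (Fin 3) (Fin 3) ℝ) i j
          * v j) ∧ ∑ i, (![N t / t, 1, 1 / t] : Fin 3 → ℝ) i * ∑ j,
          (!![1, 0, 0; 0, 0, 1; -1, t, 0] : Matrix (Fin 3) (Fin 3) ℝ) i j * v j ≤ 1} := by
      ext v
      have e1 : N t / t * v 0 + v 2 + 1 / t * (-v 0 + t * v 1) =
          v 2 + (1 + t) * v 0 + v 1 := by
        unfold N; field_simp; ring
      simp only [RA3, Set.mem_inter_iff, Set.mem_ofPred_eq, Fin.forall_fin_succ, Fin.sum_univ_three,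
        Matrix.of_apply, Matrix.cons_val', Matrix.cons_val_zero, Matrix.cons_val_one,
        Matrix.cons_val_two, Matrix.cons_val_fin_one]
      simp
      simp only [one_div] at e1
      rw [e1]
      constructor
      · rintro ⟨⟨⟨h1, h2⟩, h3⟩, h4⟩
        rw [abs_of_nonneg h3] at h1 h2
        rw [abs_of_nonneg h4] at h2
        exact ⟨⟨h3, h4, by linarith⟩, by linarith⟩
      · rintro ⟨⟨h3, h4, h5⟩, h6⟩
        rw [abs_of_nonneg h3, abs_of_nonneg h4]
        exact ⟨⟨⟨by linarith, by linarith⟩, h3⟩, h4⟩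
    have hd : (!![1, 0, 0; 0, 0, 1; -1, t, 0] : Matrix (Fin 3) (Fin 3) ℝ).det = -t := by
      rw [Matrix.det_fin_three]; simp
    rw [e, ht]
    · apply four
      rw [hd, wA3, abs_neg, abs_of_pos ht0]
      simp
      field_simp
      norm_num
    · rw [hd]; exact (neg_neg_of_pos ht0).ne
    · simp [Fin.forall_fin_succ, hN, ht0]
    · norm_num
  · rintro v ⟨⟨h1, h2⟩, h3⟩
    simp only [Set.mem_ofPred_eq] at h3
    refine ⟨⟨?_, ?_⟩, ?_⟩ <;>
      simp only [rf_ne (by decide : (0:Fin 3) ≠ 2), rf_ne (by decide : (1:Fin 3) ≠ 2), rf_eq,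
        abs_neg, Set.mem_ofPred_eq] <;> assumption
  · rintro v ⟨h1, h2⟩
    refine ⟨?_, ?_⟩ <;>
      simp only [rf_ne (by decide : (2:Fin 3) ≠ 0), rf_ne (by decide : (1:Fin 3) ≠ 0), rf_eq,
        abs_neg] <;> assumption

end Pool.Agent.H126.Orb
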