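import Pool.Agent.H126.Orb.Stm

/-!
# Volume of a region (V2)
-/

set_option autoImplicit false

open Set Metric MeasureTheory

namespace Pool.Agent.H126.Orb

namespace V2

/-- the reflection in the coordinate `i` -/
noncomputable def rf (i : Fin 3) : E 3 ≃ₗᵢ[ℝ] E 3 :=
  LinearIsometryEquiv.piLpCongrRight 2
    (fun j => if j = i then LinearIsometryEquiv.neg ℝ else LinearIsometryEquiv.refl ℝ ℝ)

lemma rf_apply (i : Fin 3) (v : E 3) (j : Fin 3) : rf i v j = if j = i then -v j else v j := by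
  unfold rf
  rw [LinearIsometryEquiv.piLpCongrRight_apply]
  show (if j = i then LinearIsometryEquiv.neg ℝ else LinearIsometryEquiv.refl ℝ ℝ) (v j) = _
  split_ifs <;> rfl

/-- a region symmetric in the coordinate `i` -/
lemma sym (hs : S_SPLIT) (i : Fin 3) (R : Set (E 3)) (hR : MeasurableSet R)
    (h : ∀ v, v ∈ R → rf i v ∈ R) : volume R = 2 * volume (R ∩ {v | 0 ≤ v i}) := by
  have hφ : (Pi.single i 1 : Fin 3 → ℝ) ≠ 0 := by
    intro h0
    have := congrFun h0 i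
    simp at this
  have h1 := hs (Pi.single i 1) R 0 hφ hR
  have e : ∀ v : E 3, ∑ j, (Pi.single i 1 : Fin 3 → ℝ) j * v j = v i := by
    intro v
    simp [Pi.single_apply]
  simp_rw [e] at h1
  have mp := (rf i).measurePreserving
  have hm : MeasurableSet (R ∩ {v : E 3 | 0 ≤ v i}) :=
    hR.inter (isClosed_le continuous_const (by fun_prop)).measurableSet
  have h2 : volume (R ∩ {v : E 3 | v i ≤ 0}) = volume (R ∩ {v : E 3 | 0 ≤ v i}) := by
    rw [← mp.measure_preimage hm.nullMeasurableSet]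
    congr 1
    ext v
    simp only [Set.mem_inter_iff, Set.mem_preimage, Set.mem_ofPred_eq, rf_apply, if_true]
    have hrr : rf i (rf i v) = v := by
      ext j
      rw [rf_apply, rf_apply]
      split_ifs <;> simp
    constructor
    · rintro ⟨h3, h4⟩
      exact ⟨h v h3, by linarith⟩
    · rintro ⟨h3, h4⟩
      refine ⟨?_, by linarith⟩
      have := h _ h3
      rwa [hrr] at this
  rw [h1, h2, two_mul]

lemma rf_ne {i j : Fin 3} (h : j ≠ i) (v : E 3) : rf i v j = v j := by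
  rw [rf_apply, if_neg h]

lemma rf_eq (i : Fin 3) (v : E 3) : rf i v i = -v i := by
  rw [rf_apply, if_pos rfl]

lemma four {x y : ℝ} (h : 4 * x = y) : (2 : ENNReal) * (2 * ENNReal.ofReal x) =
    ENNReal.ofReal y := by
  have e : (2 : ENNReal) = ENNReal.ofReal 2 := by simp
  rw [e, ← ENNReal.ofReal_mul (by norm_num), ← ENNReal.ofReal_mul (by norm_num), ← h]
  congr 1
  ring

/-- The tetrahedron without the restriction `v 0 ≤ 1`. -/
def T1 (t : ℝ) : Set (E 3) :=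
  {v | 0 ≤ v 1 ∧ 0 ≤ v 2 ∧ t * v 1 ≤ v 0 ∧ v 2 + (1 + t) * v 1 + t * v 0 ≤ 1}

lemma vol_T1 (ht : S_TET) (t : ℝ) (ht0 : 0 < t) :
    volume (T1 t) = ENNReal.ofReal (1 / (6 * (N t * t))) := by
  have hN : 0 < N t := by unfold N; positivity
  have e : T1 t = {v : E 3 | (∀ i, 0 ≤ ∑ j, (!![0, 1, 0; 0, 0, 1; 1, -t, 0] :
          Matrix (Fin 3) (Fin 3) ℝ) i j
          * v j) ∧ ∑ i, (![N t, 1, t] : Fin 3 → ℝ) i * ∑ j,
          (!![0, 1, 0; 0, 0, 1; 1, -t, 0] : Matrix (Fin 3) (Fin 3) ℝ) i j * v j ≤ 1} := by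
    ext v
    simp only [T1, Set.mem_ofPred_eq, Fin.forall_fin_succ, Fin.sum_univ_three,
      Matrix.of_apply, Matrix.cons_val', Matrix.cons_val_zero, Matrix.cons_val_one,
      Matrix.cons_val_two, Matrix.cons_val_fin_one, N]
    simp
    constructor
    · rintro ⟨h1, h2, h3, h4⟩
      exact ⟨⟨h1, h2, by linarith⟩, by linarith⟩
    · rintro ⟨⟨h1, h2, h3⟩, h4⟩
      exact ⟨h1, h2, by linarith, by linarith⟩
  have hd : (!![0, 1, 0; 0, 0, 1; 1, -t, 0] : Matrix (Fin 3) (Fin 3) ℝ).det = 1 := by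
    rw [Matrix.det_fin_three]; simp
  rw [e, ht]
  · rw [hd]
    simp
  · rw [hd]; exact one_ne_zero
  · simp [Fin.forall_fin_succ, hN, ht0]
  · norm_num

/-- The part with `1 ≤ v 0`. -/
def T2 (t : ℝ) : Set (E 3) :=
  {v | 0 ≤ v 1 ∧ 0 ≤ v 2 ∧ 0 ≤ v 0 ∧ v 2 + (1 + t) * v 1 + t * v 0 ≤ 1 - t}

lemma vol_T2 (ht : S_TET) (t : ℝ) (ht0 : 0 < t) (ht1 : t < 1) :
    volume (T2 t) = ENNReal.ofReal ((1 - t) ^ 3 / (6 * ((1 + t) * t))) := by
  have e : T2 t = {v : E 3 | (∀ i, 0 ≤ ∑ j, (!![0, 1, 0; 0, 0, 1; 1, 0, 0] :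
          Matrix (Fin 3) (Fin 3) ℝ) i j
          * v j) ∧ ∑ i, (![1 + t, 1, t] : Fin 3 → ℝ) i * ∑ j,
          (!![0, 1, 0; 0, 0, 1; 1, 0, 0] : Matrix (Fin 3) (Fin 3) ℝ) i j * v j ≤ 1 - t} := by
    ext v
    simp only [T2, Set.mem_ofPred_eq, Fin.forall_fin_succ, Fin.sum_univ_three,
      Matrix.of_apply, Matrix.cons_val', Matrix.cons_val_zero, Matrix.cons_val_one,
      Matrix.cons_val_two, Matrix.cons_val_fin_one]
    simp
    constructor
    · rintro ⟨h1, h2, h3, h4⟩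
      exact ⟨⟨h1, h2, h3⟩, by linarith⟩
    · rintro ⟨⟨h1, h2, h3⟩, h4⟩
      exact ⟨h1, h2, h3, by linarith⟩
  have hd : (!![0, 1, 0; 0, 0, 1; 1, 0, 0] : Matrix (Fin 3) (Fin 3) ℝ).det = 1 := by
    rw [Matrix.det_fin_three]; simp
  have h1t : (0 : ℝ) < 1 + t := by linarith
  rw [e, ht]
  · rw [hd]
    simp
  · rw [hd]; exact one_ne_zero
  · simp [Fin.forall_fin_succ, h1t, ht0]
  · linarith

lemma split_T1 (hs : S_SPLIT) (t : ℝ) (ht0 : 0 < t) (ht1 : t < 1) :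
    volume (T1 t) = volume (T2 t) + volume (T1 t ∩ {v | v 0 ≤ 1}) := by
  have hm : MeasurableSet (T1 t) := by
    simp only [T1, Set.ofPred_and]
    exact ((isClosed_le (by fun_prop) (by fun_prop)).inter
      ((isClosed_le (by fun_prop) (by fun_prop)).inter
      ((isClosed_le (by fun_prop) (by fun_prop)).inter
      (isClosed_le (by fun_prop) (by fun_prop))))).measurableSet
  have hφ : (Pi.single 0 1 : Fin 3 → ℝ) ≠ 0 := by
    intro h0
    have := congrFun h0 0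
    simp at this
  have h1 := hs (Pi.single 0 1) (T1 t) 1 hφ hm
  have e : ∀ v : E 3, ∑ j, (Pi.single 0 1 : Fin 3 → ℝ) j * v j = v 0 := by
    intro v
    simp [Pi.single_apply]
  simp_rw [e] at h1
  rw [h1]
  congr 1
  have h2 : T1 t ∩ {v | 1 ≤ v 0} =
      (fun v : E 3 => v + EuclideanSpace.single (0 : Fin 3) (-1 : ℝ)) ⁻¹' (T2 t) := by
    ext v
    simp only [T1, T2, Set.mem_inter_iff, Set.mem_preimage, Set.mem_ofPred_eq, PiLp.add_apply,
      EuclideanSpace.single_apply]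
    simp
    constructor
    · rintro ⟨⟨h1, h2, h3, h4⟩, h5⟩
      exact ⟨h1, h2, by linarith, by linarith⟩
    · rintro ⟨h1, h2, h3, h4⟩
      refine ⟨⟨h1, h2, ?_, by linarith⟩, by linarith⟩
      nlinarith
  rw [h2, measure_preimage_add_right]

end V2

open V2 in
theorem v2 : S_TET → S_SPLIT → S_V2 := by
  intro ht hs t ht0 ht1
  have hN : 0 < N t := by unfold N; positivity
  have hm : MeasurableSet (RA2 t) := by
    simp only [RA2, Set.ofPred_and]
    exact ((isClosed_le (by fun_prop) (by fun_prop)).inter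
      ((isClosed_le (by fun_prop) (by fun_prop)).inter
      (isClosed_le (by fun_prop) (by fun_prop)))).measurableSet
  have hm2 : MeasurableSet (RA2 t ∩ {v | 0 ≤ v 1}) :=
    hm.inter (isClosed_le continuous_const (by fun_prop)).measurableSet
  rw [sym hs 1 (RA2 t) hm, sym hs 2 (RA2 t ∩ {v | 0 ≤ v 1}) hm2]
  · have e : RA2 t ∩ {v | 0 ≤ v 1} ∩ {v | 0 ≤ v 2} = T1 t ∩ {v | v 0 ≤ 1} := by
      ext v
      simp only [RA2, T1, Set.mem_inter_iff, Set.mem_ofPred_eq]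
      constructor
      · rintro ⟨⟨⟨h1, h2, h3⟩, h4⟩, h5⟩
        rw [abs_of_nonneg h4] at h1 h3
        rw [abs_of_nonneg h5] at h3
        exact ⟨⟨h4, h5, h1, h3⟩, h2⟩
      · rintro ⟨⟨h4, h5, h1, h3⟩, h2⟩
        rw [abs_of_nonneg h4, abs_of_nonneg h5]
        exact ⟨⟨⟨h1, h2, h3⟩, h4⟩, h5⟩
    rw [e]
    have h1 := split_T1 hs t ht0 ht1
    rw [vol_T1 ht t ht0, vol_T2 ht t ht0 ht1] at h1
    have hx : (0 : ℝ) ≤ (1 - t) ^ 3 / (6 * ((1 + t) * t)) := by
      have : (0 : ℝ) ≤ 1 - t := by linarith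
      positivity
    have h2 : volume (T1 t ∩ {v : E 3 | v 0 ≤ 1}) =
        ENNReal.ofReal (1 / (6 * (N t * t)) - (1 - t) ^ 3 / (6 * ((1 + t) * t))) := by
      rw [ENNReal.ofReal_sub _ hx, h1]
      rw [ENNReal.add_sub_cancel_left ENNReal.ofReal_ne_top]
    rw [h2]
    apply four
    have h1t : (0 : ℝ) < 1 + t := by linarith
    unfold wA2
    have hN' : N t = 1 + t + t ^ 2 := rfl
    have hN2 : (1 + t + t ^ 2 : ℝ) ≠ 0 := by rw [← hN']; exact hN.ne'
    rw [hN']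
    field_simp
    ring
  · rintro v ⟨⟨h1, h2, h3⟩, h4⟩
    simp only [Set.mem_ofPred_eq] at h4
    refine ⟨⟨?_, ?_, ?_⟩, ?_⟩ <;>
      simp only [rf_ne (by decide : (0:Fin 3) ≠ 2), rf_ne (by decide : (1:Fin 3) ≠ 2), rf_eq,
        abs_neg, Set.mem_ofPred_eq] <;> assumption
  · rintro v ⟨h1, h2, h3⟩
    refine ⟨?_, ?_, ?_⟩ <;>
      simp only [rf_ne (by decide : (2:Fin 3) ≠ 1), rf_ne (by decide : (0:Fin 3) ≠ 1), rf_eq,
        abs_neg] <;> assumption

end Pool.Agent.H126.Orb
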