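import Pool.Agent.H126.Orb.Stm

/-!
# V4: the volume of `RB t` (MP_6361d2_co)
-/

set_option autoImplicit false

open Set Metric MeasureTheory
open scoped RealInnerProductSpace ContDiff

namespace Pool.Agent.H126.Orb

namespace V4

/-- The upper half of `RB t`. -/
def P (t : ℝ) : Set (E 3) :=
  {v | 0 ≤ v 2 ∧ v 0 ≤ 1 ∧ v 2 ≤ (1 + t) * v 0 - (1 - t) * v 1 ∧
    v 2 ≤ (1 - t) * v 0 + (1 + t) * v 1 ∧ v 2 ≤ 2 - (1 + t) * (v 0 + v 1)}

/-- The large tetrahedron. -/
def T (t : ℝ) : Set (E 3) :=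
  {v | 0 ≤ v 2 ∧ v 2 ≤ (1 + t) * v 0 - (1 - t) * v 1 ∧
    v 2 ≤ (1 - t) * v 0 + (1 + t) * v 1 ∧ v 2 ≤ 2 - (1 + t) * (v 0 + v 1)}

/-- The small tetrahedron. -/
def T' (t : ℝ) : Set (E 3) :=
  {v | 0 ≤ v 2 ∧ 1 ≤ v 0 ∧
    v 2 ≤ (1 - t) * v 0 + (1 + t) * v 1 ∧ v 2 ≤ 2 - (1 + t) * (v 0 + v 1)}

theorem meas_RB (t : ℝ) : MeasurableSet (RB t) := by
  have h1 : IsClosed {v : E 3 | v 0 ≤ 1} := isClosed_le (by fun_prop) (by fun_prop)
  have h2 : IsClosed {v : E 3 | |v 2| ≤ (1 + t) * v 0 - (1 - t) * v 1} :=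
    isClosed_le (by fun_prop) (by fun_prop)
  have h3 : IsClosed {v : E 3 | |v 2| ≤ (1 - t) * v 0 + (1 + t) * v 1} :=
    isClosed_le (by fun_prop) (by fun_prop)
  have h4 : IsClosed {v : E 3 | |v 2| ≤ 2 - (1 + t) * (v 0 + v 1)} :=
    isClosed_le (by fun_prop) (by fun_prop)
  exact (h1.inter (h2.inter (h3.inter h4))).measurableSet

theorem meas_T (t : ℝ) : MeasurableSet (T t) := by
  have h1 : IsClosed {v : E 3 | 0 ≤ v 2} := isClosed_le (by fun_prop) (by fun_prop)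
  have h2 : IsClosed {v : E 3 | v 2 ≤ (1 + t) * v 0 - (1 - t) * v 1} :=
    isClosed_le (by fun_prop) (by fun_prop)
  have h3 : IsClosed {v : E 3 | v 2 ≤ (1 - t) * v 0 + (1 + t) * v 1} :=
    isClosed_le (by fun_prop) (by fun_prop)
  have h4 : IsClosed {v : E 3 | v 2 ≤ 2 - (1 + t) * (v 0 + v 1)} :=
    isClosed_le (by fun_prop) (by fun_prop)
  exact (h1.inter (h2.inter (h3.inter h4))).measurableSet

/-- The reflection `v 2 ↦ -v 2`. -/
noncomputable def refl2 : E 3 ≃ₗᵢ[ℝ] E 3 :=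
  LinearIsometryEquiv.piLpCongrRight 2
    (fun i : Fin 3 => if i = 2 then LinearIsometryEquiv.neg ℝ else LinearIsometryEquiv.refl ℝ ℝ)

theorem refl2_0 (v : E 3) : refl2 v 0 = v 0 := by
  simp [refl2]

theorem refl2_1 (v : E 3) : refl2 v 1 = v 1 := by
  simp [refl2]

theorem refl2_2 (v : E 3) : refl2 v 2 = - v 2 := by
  simp [refl2]

theorem vol_half (t : ℝ) (hS : S_SPLIT) : volume (RB t) = 2 * volume (P t) := by
  have h1 := hS ![0, 0, 1] (RB t) 0 (by
    intro h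
    have := congrFun h 2
    simp at this) (meas_RB t)
  have h2 : RB t ∩ {v | 0 ≤ ∑ j, (![0, 0, 1] : Fin 3 → ℝ) j * v j} = P t := by
    ext v
    simp only [RB, P, mem_inter_iff, mem_ofPred_eq, Fin.sum_univ_three]
    simp only [Matrix.cons_val_zero, Matrix.cons_val_one, Matrix.cons_val, zero_mul, one_mul,
      zero_add]
    constructor
    · rintro ⟨⟨a, b, c, d⟩, e⟩
      rw [abs_of_nonneg e] at b c d
      exact ⟨e, a, b, c, d⟩
    · rintro ⟨e, a, b, c, d⟩
      rw [abs_of_nonneg e]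
      exact ⟨⟨a, b, c, d⟩, e⟩
  have h3 : RB t ∩ {v | ∑ j, (![0, 0, 1] : Fin 3 → ℝ) j * v j ≤ 0} = refl2 ⁻¹' (P t) := by
    ext v
    simp only [RB, P, mem_inter_iff, mem_ofPred_eq, mem_preimage, Fin.sum_univ_three, refl2_0,
      refl2_1, refl2_2]
    simp only [Matrix.cons_val_zero, Matrix.cons_val_one, Matrix.cons_val, zero_mul, one_mul,
      zero_add]
    constructor
    · rintro ⟨⟨a, b, c, d⟩, e⟩
      rw [abs_of_nonpos e] at b c d
      exact ⟨by linarith, a, b, c, d⟩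
    · rintro ⟨e, a, b, c, d⟩
      rw [abs_of_nonpos (by linarith)]
      exact ⟨⟨a, b, c, d⟩, by linarith⟩
  rw [h2, h3] at h1
  have h4 : volume (refl2 ⁻¹' (P t)) = volume (P t) := by
    have h5 : MeasurePreserving refl2.toMeasurableEquiv volume volume :=
      refl2.measurePreserving
    exact h5.measure_preimage_equiv (P t)
  rw [h1, h4, two_mul]

theorem vol_T (t : ℝ) (h0 : 0 < t) (hT : S_TET) :
    volume (T t) = ENNReal.ofReal ((1 + t ^ 2) ^ 2 / (3 * N t * t * (1 + t) ^ 2)) := by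
  have hN : 0 < N t := by unfold N; positivity
  have hdet : (!![0, 0, 1; 1 + t, -(1 - t), -1; 1 - t, 1 + t, -1] :
      Matrix (Fin 3) (Fin 3) ℝ).det = 2 * (1 + t ^ 2) := by
    rw [Matrix.det_fin_three]
    simp
    ring
  have hne : (0 : ℝ) < 2 * (1 + t ^ 2) := by positivity
  have h1 := hT !![0, 0, 1; 1 + t, -(1 - t), -1; 1 - t, 1 + t, -1]
    ![2 * N t / (1 + t ^ 2), (1 + t) * t / (1 + t ^ 2), (1 + t) / (1 + t ^ 2)] 2
    (by rw [hdet]; exact hne.ne')
    (by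
      intro i
      fin_cases i
      · simp only [Fin.zero_eta, Matrix.cons_val_zero]; positivity
      · simp only [Fin.mk_one, Matrix.cons_val_one, Matrix.cons_val_zero]; positivity
      · simp only [Fin.reduceFinMk, Matrix.cons_val]; positivity)
    (by norm_num)
  have h2 : {v : E 3 | (∀ i, 0 ≤ ∑ j, (!![0, 0, 1; 1 + t, -(1 - t), -1; 1 - t, 1 + t, -1] :
      Matrix (Fin 3) (Fin 3) ℝ) i j * v j) ∧
      ∑ i, (![2 * N t / (1 + t ^ 2), (1 + t) * t / (1 + t ^ 2), (1 + t) / (1 + t ^ 2)] :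
        Fin 3 → ℝ) i * ∑ j, (!![0, 0, 1; 1 + t, -(1 - t), -1; 1 - t, 1 + t, -1] :
      Matrix (Fin 3) (Fin 3) ℝ) i j * v j ≤ 2} = T t := by
    ext v
    simp only [T, mem_ofPred_eq, Fin.forall_fin_succ, Fin.sum_univ_three]
    simp
    have e1 : 2 * N t / (1 + t ^ 2) * v 2 +
        (1 + t) * t / (1 + t ^ 2) * ((1 + t) * v 0 + (t - 1) * v 1 + -v 2) +
        (1 + t) / (1 + t ^ 2) * ((1 - t) * v 0 + (1 + t) * v 1 + -v 2) =
        v 2 + (1 + t) * (v 0 + v 1) := by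
      unfold N
      field_simp
      ring
    rw [e1]
    constructor
    · rintro ⟨⟨a, b, c⟩, d⟩
      exact ⟨a, by linarith, by linarith, by linarith⟩
    · rintro ⟨a, b, c, d⟩
      exact ⟨⟨a, by linarith, by linarith⟩, by linarith⟩
  rw [h2, hdet, abs_of_pos hne] at h1
  rw [h1]
  congr 1
  simp only [Matrix.cons_val_zero, Matrix.cons_val_one, Matrix.cons_val]
  field_simp
  norm_num

theorem vol_T' (t : ℝ) (h0 : 0 < t) (ht : t < 1) (hT : S_TET) :
    volume (T' t) = ENNReal.ofReal ((1 - t) ^ 3 / (3 * t * (1 + t))) := by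
  have hdet : (!![0, 0, 1; 1 - t, 1 + t, -1; -(1 + t), -(1 + t), -1] :
      Matrix (Fin 3) (Fin 3) ℝ).det = 2 * t * (1 + t) := by
    rw [Matrix.det_fin_three]
    simp
    ring
  have hne : (0 : ℝ) < 2 * t * (1 + t) := by positivity
  have h1 := hT !![0, 0, 1; 1 - t, 1 + t, -1; -(1 + t), -(1 + t), -1]
    ![1 / t, 1 / (2 * t), 1 / (2 * t)] ((1 - t) / t)
    (by rw [hdet]; exact hne.ne')
    (by
      intro i
      fin_cases i
      · simp only [Fin.zero_eta, Matrix.cons_val_zero]; positivity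
      · simp only [Fin.mk_one, Matrix.cons_val_one, Matrix.cons_val_zero]; positivity
      · simp only [Fin.reduceFinMk, Matrix.cons_val]; positivity)
    (div_nonneg (by linarith) h0.le)
  have h2 : {v : E 3 | (∀ i, 0 ≤ ∑ j, (!![0, 0, 1; 1 - t, 1 + t, -1; -(1 + t), -(1 + t), -1] :
      Matrix (Fin 3) (Fin 3) ℝ) i j * v j) ∧
      ∑ i, (![1 / t, 1 / (2 * t), 1 / (2 * t)] :
        Fin 3 → ℝ) i * ∑ j, (!![0, 0, 1; 1 - t, 1 + t, -1; -(1 + t), -(1 + t), -1] :
      Matrix (Fin 3) (Fin 3) ℝ) i j * v j ≤ (1 - t) / t} =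
      (fun v => v + (!₂[1 / t, -(1 - t) / (t * (1 + t)), 0] : E 3)) ⁻¹' T' t := by
    ext v
    simp only [T', mem_ofPred_eq, mem_preimage, Fin.forall_fin_succ, Fin.sum_univ_three,
      PiLp.add_apply]
    simp
    have e1 : t⁻¹ * v 2 + t⁻¹ * 2⁻¹ * ((1 - t) * v 0 + (1 + t) * v 1 + -v 2) +
        t⁻¹ * 2⁻¹ * ((-t + -1) * v 0 + (-t + -1) * v 1 + -v 2) = - v 0 := by
      field_simp
      ring
    have e2 : (1 - t) / t = t⁻¹ - 1 := by
      field_simp
    have e3 : (1 - t) * (v 0 + t⁻¹) + (1 + t) * (v 1 + (t - 1) / (t * (1 + t))) =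
        (1 - t) * v 0 + (1 + t) * v 1 := by
      field_simp
      ring
    have e4 : (1 + t) * (v 0 + t⁻¹ + (v 1 + (t - 1) / (t * (1 + t)))) =
        (1 + t) * (v 0 + v 1) + 2 := by
      field_simp
      ring
    rw [e1, e2, e3, e4]
    constructor
    · rintro ⟨⟨a, b, c⟩, d⟩
      exact ⟨a, by linarith, by linarith, by linarith⟩
    · rintro ⟨a, b, c, d⟩
      exact ⟨⟨a, by linarith, by linarith⟩, by linarith⟩
  rw [h2, hdet, abs_of_pos hne, measure_preimage_add_right] at h1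
  rw [h1]
  congr 1
  simp only [Matrix.cons_val_zero, Matrix.cons_val_one, Matrix.cons_val]
  field_simp
  ring

theorem split_T (t : ℝ) (h0 : 0 < t) (ht : t < 1) (hS : S_SPLIT) :
    volume (T t) = volume (T' t) + volume (P t) := by
  have h1 := hS ![1, 0, 0] (T t) 1 (by
    intro h
    have := congrFun h 0
    simp at this) (meas_T t)
  have h2 : T t ∩ {v | 1 ≤ ∑ j, (![1, 0, 0] : Fin 3 → ℝ) j * v j} = T' t := by
    ext v
    simp only [T, T', mem_inter_iff, mem_ofPred_eq, Fin.sum_univ_three]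
    simp only [Matrix.cons_val_zero, Matrix.cons_val_one, Matrix.cons_val, zero_mul, one_mul,
      add_zero]
    constructor
    · rintro ⟨⟨a, b, c, d⟩, e⟩
      exact ⟨a, e, c, d⟩
    · rintro ⟨a, e, c, d⟩
      refine ⟨⟨a, ?_, c, d⟩, e⟩
      have h3 : v 2 ≤ 1 - t * v 0 := by
        nlinarith
      have h4 : 0 ≤ (1 + t + t ^ 2) * v 0 - 1 := by
        nlinarith [mul_nonneg h0.le (sub_nonneg.2 e)]
      have h5 : 0 ≤ (1 + t) * v 0 - (1 - t) - t * v 2 := by
        nlinarith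
      have h6 : 0 ≤ (1 + t) * ((1 + t) * v 0 - (1 - t) * v 1 - v 2) := by
        have h7 : 0 ≤ (1 - t) * (2 - (1 + t) * (v 0 + v 1) - v 2) :=
          mul_nonneg (by linarith) (by linarith)
        nlinarith
      have h8 := nonneg_of_mul_nonneg_right h6 (by linarith : (0 : ℝ) < 1 + t)
      linarith
  have h3 : T t ∩ {v | ∑ j, (![1, 0, 0] : Fin 3 → ℝ) j * v j ≤ 1} = P t := by
    ext v
    simp only [T, P, mem_inter_iff, mem_ofPred_eq, Fin.sum_univ_three]
    simp only [Matrix.cons_val_zero, Matrix.cons_val_one, Matrix.cons_val, zero_mul, one_mul,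
      add_zero]
    tauto
  rw [h2, h3] at h1
  exact h1

end V4

open V4 in
theorem v4 : S_TET → S_SPLIT → S_V4 := by
  intro hT hS t h0 ht
  have hN : 0 < N t := by unfold N; positivity
  have h1 := split_T t h0 ht hS
  rw [vol_T t h0 hT, vol_T' t h0 ht hT] at h1
  have h2 : volume (P t) = ENNReal.ofReal (wB t) := by
    have h3 : ENNReal.ofReal ((1 + t ^ 2) ^ 2 / (3 * N t * t * (1 + t) ^ 2)) =
        ENNReal.ofReal ((1 - t) ^ 3 / (3 * t * (1 + t))) + ENNReal.ofReal (wB t) := by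
      rw [← ENNReal.ofReal_add]
      · congr 1
        unfold wB
        have hN' : N t = 1 + t + t ^ 2 := rfl
        field_simp
        rw [hN']
        ring
      · exact div_nonneg (pow_nonneg (by linarith) 3) (by positivity)
      · unfold wB
        apply div_nonneg _ (by positivity)
        have : t ^ 4 ≤ 1 := pow_le_one₀ h0.le ht.le
        have : 0 ≤ t ^ 5 := by positivity
        nlinarith
    rw [h3] at h1
    exact ((ENNReal.add_right_inj ENNReal.ofReal_ne_top).1 h1).symm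
  rw [vol_half t hS, h2, ENNReal.ofReal_mul (by norm_num)]
  norm_num

end Pool.Agent.H126.Orb
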