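import Pool.Agent.H126.Orb.Stm

/-!
# Volume of a region (V5)
-/

set_option autoImplicit false

open Set Metric MeasureTheory

namespace Pool.Agent.H126.Orb


theorem v5 : S_TET → S_SPLIT → S_V5 := by
  intro ht hs t ht0 ht1
  have hN : 0 < N t := by unfold N; positivity
  have h1t : 0 < 1 - t := by linarith
  have hm : MeasurableSet (RC1 t) := by
    simp only [RC1, Set.ofPred_and]
    exact ((isClosed_le (by fun_prop) (by fun_prop)).inter
      ((isClosed_le (by fun_prop) (by fun_prop)).inter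
      ((isClosed_le (by fun_prop) (by fun_prop)).inter
      ((isClosed_le (by fun_prop) (by fun_prop)).inter
      ((isClosed_le (by fun_prop) (by fun_prop)).inter
      (isClosed_le (by fun_prop) (by fun_prop))))))).measurableSet
  have hφ1 : (![1 + t, -(1 - t), 0] : Fin 3 → ℝ) ≠ 0 := by
    intro h
    have := congrFun h 0
    simp at this
    linarith
  have hφ2 : (![1, 0, 0] : Fin 3 → ℝ) ≠ 0 := by
    intro h
    have := congrFun h 0
    simp at this
  have hm2 : MeasurableSet (RC1 t ∩ {v : E 3 | ∑ j, (![1 + t, -(1 - t), 0] : Fin 3 → ℝ) j * v j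
      ≤ 0}) := hm.inter (isClosed_le (by fun_prop) continuous_const).measurableSet
  rw [hs _ (RC1 t) 0 hφ1 hm, hs _ _ 0 hφ2 hm2]
  have a1 : volume (RC1 t ∩ {v : E 3 | 0 ≤ ∑ j, (![1 + t, -(1 - t), 0] : Fin 3 → ℝ) j * v j}) =
      ENNReal.ofReal ((1 + t ^ 2) / (6 * (1 + t) * N t)) := by
    have e : RC1 t ∩ {v : E 3 | 0 ≤ ∑ j, (![1 + t, -(1 - t), 0] : Fin 3 → ℝ) j * v j} =
        {v : E 3 | (∀ i, 0 ≤ ∑ j, (!![-t, 1, 0; 1 + t, -(1 - t), 0; -t, 0, 1] :
          Matrix (Fin 3) (Fin 3) ℝ) i j * v j) ∧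
          ∑ i, (![(1 + t) / (1 + t ^ 2), N t / (1 + t ^ 2), 1] : Fin 3 → ℝ) i * ∑ j,
          (!![-t, 1, 0; 1 + t, -(1 - t), 0; -t, 0, 1] : Matrix (Fin 3) (Fin 3) ℝ) i j * v j
            ≤ 1} := by
      ext v
      have e1 : (1 + t) / (1 + t ^ 2) * (-t * v 0 + v 1) +
          N t / (1 + t ^ 2) * ((1 + t) * v 0 + -(1 - t) * v 1) + (-t * v 0 + v 2) =
          v 0 + t * v 1 + v 2 := by
        unfold N; field_simp; ring
      simp only [RC1, Set.mem_inter_iff, Set.mem_ofPred_eq, Fin.forall_fin_succ,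
        Fin.sum_univ_three,
        Matrix.of_apply, Matrix.cons_val', Matrix.cons_val_zero, Matrix.cons_val_one,
        Matrix.cons_val_two, Matrix.cons_val_fin_one]
      simp [-neg_mul, -neg_sub]
      rw [e1]
      constructor
      · rintro ⟨⟨h1, h2, h3, h4, h5, h6⟩, h7⟩
        exact ⟨⟨by linarith, h7, by linarith⟩, h5⟩
      · rintro ⟨⟨h1, h2, h3⟩, h4⟩
        have k0 : 0 ≤ v 0 := by nlinarith [mul_nonneg h1t.le h1, sq_nonneg t]
        have k1 : 0 ≤ t * v 0 := by positivity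
        have k2 : 0 ≤ t * v 1 := mul_nonneg ht0.le (by linarith)
        exact ⟨⟨by linarith, by linarith, by linarith, by linarith, h4, by linarith⟩, h2⟩
    have hd : (!![-t, 1, 0; 1 + t, -(1 - t), 0; -t, 0, 1] : Matrix (Fin 3) (Fin 3) ℝ).det
        = -(1 + t ^ 2) := by
      rw [Matrix.det_fin_three]; simp; ring
    rw [e, ht]
    · congr 1
      rw [hd, abs_neg, abs_of_pos (by positivity)]
      simp
      field_simp
    · rw [hd]; exact (neg_neg_of_pos (by positivity)).ne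
    · have : 0 < 1 + t := by linarith
      simp [Fin.forall_fin_succ]
      constructor <;> positivity
    · norm_num
  have a2 : volume (RC1 t ∩ {v : E 3 | ∑ j, (![1 + t, -(1 - t), 0] : Fin 3 → ℝ) j * v j
      ≤ 0} ∩ {v : E 3 | 0 ≤ ∑ j, (![1, 0, 0] : Fin 3 → ℝ) j * v j}) =
      ENNReal.ofReal ((1 - t) / (6 * (1 + t))) := by
    have e : RC1 t ∩ {v : E 3 | ∑ j, (![1 + t, -(1 - t), 0] : Fin 3 → ℝ) j * v j
      ≤ 0} ∩ {v : E 3 | 0 ≤ ∑ j, (![1, 0, 0] : Fin 3 → ℝ) j * v j} =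
        {v : E 3 | (∀ i, 0 ≤ ∑ j, (!![1, 0, 0; -(1 + t), 1 - t, 0; -t, 0, 1] :
          Matrix (Fin 3) (Fin 3) ℝ) i j * v j) ∧
          ∑ i, (![(1 + t) / (1 - t), 1 / (1 - t), 1] : Fin 3 → ℝ) i * ∑ j,
          (!![1, 0, 0; -(1 + t), 1 - t, 0; -t, 0, 1] : Matrix (Fin 3) (Fin 3) ℝ) i j * v j
            ≤ 1} := by
      ext v
      have e1 : (1 + t) / (1 - t) * v 0 + (1 - t)⁻¹ * (-(1 + t) * v 0 + (1 - t) * v 1) +
          (-t * v 0 + v 2) = -t * v 0 + v 1 + v 2 := by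
        have := h1t.ne'
        field_simp; ring
      simp only [RC1, Set.mem_inter_iff, Set.mem_ofPred_eq, Fin.forall_fin_succ,
        Fin.sum_univ_three,
        Matrix.of_apply, Matrix.cons_val', Matrix.cons_val_zero, Matrix.cons_val_one,
        Matrix.cons_val_two, Matrix.cons_val_fin_one]
      simp [-neg_mul, -neg_sub, -neg_add_rev]
      rw [e1]
      constructor
      · rintro ⟨⟨⟨h1, h2, h3, h4, h5, h6⟩, h7⟩, h8⟩
        exact ⟨⟨h8, by linarith, by linarith⟩, h6⟩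
      · rintro ⟨⟨h1, h2, h3⟩, h4⟩
        have k1 : 0 ≤ t * v 0 := by positivity
        have k3 : 0 ≤ (1 - t) * v 1 := by nlinarith
        have k2 : 0 ≤ v 1 := nonneg_of_mul_nonneg_right k3 h1t
        have k4 : t * v 0 ≤ v 1 := by nlinarith
        have k5 : 0 ≤ t * v 1 := by positivity
        exact ⟨⟨⟨by linarith, k4, by linarith, by linarith, by nlinarith, h4⟩,
          by linarith⟩, h1⟩
    have hd : (!![1, 0, 0; -(1 + t), 1 - t, 0; -t, 0, 1] : Matrix (Fin 3) (Fin 3) ℝ).det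
        = 1 - t := by
      rw [Matrix.det_fin_three]; simp
    rw [e, ht]
    · congr 1
      rw [hd, abs_of_pos h1t]
      have := h1t.ne'
      simp
      field_simp
    · rw [hd]; exact h1t.ne'
    · have : 0 < 1 + t := by linarith
      simp [Fin.forall_fin_succ, ht1]
      positivity
    · norm_num
  have a3 : volume (RC1 t ∩ {v : E 3 | ∑ j, (![1 + t, -(1 - t), 0] : Fin 3 → ℝ) j * v j
      ≤ 0} ∩ {v : E 3 | ∑ j, (![1, 0, 0] : Fin 3 → ℝ) j * v j ≤ 0}) =
      ENNReal.ofReal (t / (6 * N t)) := by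
    have e : RC1 t ∩ {v : E 3 | ∑ j, (![1 + t, -(1 - t), 0] : Fin 3 → ℝ) j * v j
      ≤ 0} ∩ {v : E 3 | ∑ j, (![1, 0, 0] : Fin 3 → ℝ) j * v j ≤ 0} =
        {v : E 3 | (∀ i, 0 ≤ ∑ j, (!![-1, 0, 0; 1, t, 0; 1, 0, 1] :
          Matrix (Fin 3) (Fin 3) ℝ) i j * v j) ∧
          ∑ i, (![N t / t, 1 / t, 1] : Fin 3 → ℝ) i * ∑ j,
          (!![-1, 0, 0; 1, t, 0; 1, 0, 1] : Matrix (Fin 3) (Fin 3) ℝ) i j * v j
            ≤ 1} := by
      ext v
      have e1 : -(N t / t * v 0) + t⁻¹ * (v 0 + t * v 1) + (v 0 + v 2) =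
          -t * v 0 + v 1 + v 2 := by
        unfold N; field_simp; ring
      simp only [RC1, Set.mem_inter_iff, Set.mem_ofPred_eq, Fin.forall_fin_succ,
        Fin.sum_univ_three,
        Matrix.of_apply, Matrix.cons_val', Matrix.cons_val_zero, Matrix.cons_val_one,
        Matrix.cons_val_two, Matrix.cons_val_fin_one]
      simp
      rw [e1]
      constructor
      · rintro ⟨⟨⟨h1, h2, h3, h4, h5, h6⟩, h7⟩, h8⟩
        exact ⟨⟨h8, by linarith, by linarith⟩, by linarith⟩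
      · rintro ⟨⟨h1, h2, h3⟩, h4⟩
        have k1 : t * v 0 ≤ 0 := mul_nonpos_of_nonneg_of_nonpos ht0.le h1
        have k3 : 0 ≤ t * v 1 := by linarith
        have k2 : 0 ≤ v 1 := nonneg_of_mul_nonneg_right k3 ht0
        have k4 : 0 ≤ (1 - t) * v 1 := mul_nonneg h1t.le k2
        exact ⟨⟨⟨by linarith, by linarith, by linarith, by linarith, by linarith, by linarith⟩,
          by nlinarith⟩, h1⟩
    have hd : (!![-1, 0, 0; 1, t, 0; 1, 0, 1] : Matrix (Fin 3) (Fin 3) ℝ).det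
        = -t := by
      rw [Matrix.det_fin_three]; simp
    rw [e, ht]
    · congr 1
      rw [hd, abs_neg, abs_of_pos ht0]
      simp
      field_simp
    · rw [hd]; exact (neg_neg_of_pos ht0).ne
    · simp [Fin.forall_fin_succ, ht0, hN]
    · norm_num
  rw [a1, a2, a3, ← ENNReal.ofReal_add (by positivity) (by positivity),
    ← ENNReal.ofReal_add (by positivity) (by positivity)]
  congr 1
  unfold wC1 N
  have : 0 < 1 + t + t ^ 2 := by positivity
  field_simp
  ring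

end Pool.Agent.H126.Orb
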