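import Pool.Agent.H126.Orb.Stm

/-!
# V6: the volume of the region `RC2 t`
-/

set_option autoImplicit false

open Set Metric MeasureTheory
open scoped RealInnerProductSpace ContDiff

namespace Pool.Agent.H126.Orb

namespace V6

/-- the linear map `(v 0, v 1, v 2) ↦ (v 1, v 0, -v 2)` -/
noncomputable def sl : E 3 →ₗ[ℝ] E 3 where
  toFun := fun v => !₂[v 1, v 0, -v 2]
  map_add' := by
    intro v w
    ext i
    fin_cases i
    · simp
    · simp
    · simp; ring
  map_smul' := by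
    intro c v
    ext i
    fin_cases i <;> simp

theorem sl_0 (v : E 3) : sl v 0 = v 1 := rfl
theorem sl_1 (v : E 3) : sl v 1 = v 0 := rfl
theorem sl_2 (v : E 3) : sl v 2 = -v 2 := rfl

theorem sl_inv : Function.Involutive sl := by
  intro v
  ext i
  fin_cases i
  · change sl (sl v) 0 = v 0
    rw [sl_0, sl_1]
  · change sl (sl v) 1 = v 1
    rw [sl_1, sl_0]
  · change sl (sl v) 2 = v 2
    rw [sl_2, sl_2, neg_neg]

/-- the isometry `(v 0, v 1, v 2) ↦ (v 1, v 0, -v 2)` -/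
noncomputable def sg3 : E 3 ≃ₗᵢ[ℝ] E 3 where
  toLinearEquiv := LinearEquiv.ofInvolutive sl sl_inv
  norm_map' := by
    intro v
    change ‖sl v‖ = ‖v‖
    simp only [EuclideanSpace.norm_eq, Fin.sum_univ_three, sl_0, sl_1, sl_2, norm_neg]
    congr 1
    ring

theorem sg3_0 (v : E 3) : sg3 v 0 = v 1 := rfl
theorem sg3_1 (v : E 3) : sg3 v 1 = v 0 := rfl
theorem sg3_2 (v : E 3) : sg3 v 2 = -v 2 := rfl

theorem meas (t : ℝ) : MeasurableSet (RC2 t) := by
  have h1 : MeasurableSet {v : E 3 | v 2 ≤ t * v 0} := measurableSet_le (by fun_prop) (by fun_prop)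
  have h2 : MeasurableSet {v : E 3 | v 2 ≤ v 1} := measurableSet_le (by fun_prop) (by fun_prop)
  have h3 : MeasurableSet {v : E 3 | 0 ≤ v 2 + t * v 1} :=
    measurableSet_le (by fun_prop) (by fun_prop)
  have h4 : MeasurableSet {v : E 3 | 0 ≤ v 2 + v 0} := measurableSet_le (by fun_prop) (by fun_prop)
  have h5 : MeasurableSet {v : E 3 | v 0 + t * v 1 + v 2 ≤ 1} :=
    measurableSet_le (by fun_prop) (by fun_prop)
  have h6 : MeasurableSet {v : E 3 | t * v 0 + v 1 - v 2 ≤ 1} :=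
    measurableSet_le (by fun_prop) (by fun_prop)
  exact h1.inter (h2.inter (h3.inter (h4.inter (h5.inter h6))))

/-- the half of the region -/
def Rp (t : ℝ) : Set (E 3) := RC2 t ∩ {v | 0 ≤ ∑ j, ![1 - t, -(1 - t), 2] j * v j}

theorem meas_Rp (t : ℝ) : MeasurableSet (Rp t) :=
  (meas t).inter (measurableSet_le (by fun_prop) (by fun_prop))

theorem mem_Rp (t : ℝ) (v : E 3) : v ∈ Rp t ↔ (v 2 ≤ t * v 0 ∧ v 2 ≤ v 1 ∧ 0 ≤ v 2 + t * v 1 ∧
    0 ≤ v 2 + v 0 ∧ v 0 + t * v 1 + v 2 ≤ 1 ∧ t * v 0 + v 1 - v 2 ≤ 1) ∧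
    0 ≤ (1 - t) * v 0 + -(1 - t) * v 1 + 2 * v 2 := by
  unfold Rp RC2
  rw [Set.mem_inter_iff, Set.mem_ofPred_eq, Set.mem_ofPred_eq, Fin.sum_univ_three]
  simp

theorem refl (t : ℝ) : volume (RC2 t ∩ {v | ∑ j, ![1 - t, -(1 - t), 2] j * v j ≤ 0}) =
    volume (Rp t) := by
  have h := (sg3.measurePreserving).measure_preimage (meas_Rp t).nullMeasurableSet
  rw [← h]
  congr 1
  ext v
  rw [Set.mem_preimage, mem_Rp, sg3_0, sg3_1, sg3_2]
  unfold RC2
  rw [Set.mem_inter_iff, Set.mem_ofPred_eq, Set.mem_ofPred_eq, Fin.sum_univ_three]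
  simp only [Matrix.cons_val_zero, Matrix.cons_val_one, Matrix.cons_val]
  constructor
  · rintro ⟨⟨h1, h2, h3, h4, h5, h6⟩, h7⟩
    refine ⟨⟨?_, ?_, ?_, ?_, ?_, ?_⟩, ?_⟩ <;> linarith
  · rintro ⟨⟨h1, h2, h3, h4, h5, h6⟩, h7⟩
    refine ⟨⟨?_, ?_, ?_, ?_, ?_, ?_⟩, ?_⟩ <;> linarith

/-- the first tetrahedron -/
theorem part1 (hT : S_TET) (t : ℝ) (h0 : 0 < t) (h1 : t < 1) :
    volume (Rp t ∩ {v | 0 ≤ ∑ j, ![0, -(t * (1 - t)), 1 + t] j * v j}) =
      ENNReal.ofReal (t * (1 + t^2) / (6 * (1 + t) * N t)) := by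
  have hN : 0 < N t := by unfold N; positivity
  have hdet : (!![t, 0, -1; 0, 1, -1; 0, -(t * (1 - t)), 1 + t] : Matrix (Fin 3) (Fin 3) ℝ).det =
      t * (1 + t^2) := by
    rw [Matrix.det_fin_three]
    simp
    ring
  have h := hT !![t, 0, -1; 0, 1, -1; 0, -(t * (1 - t)), 1 + t]
    ![1 / t, (1 + t) / (1 + t^2), N t / (t * (1 + t^2))] 1 (by rw [hdet]; positivity)
    (by intro i; fin_cases i <;> simp <;> positivity) zero_le_one
  have e : Rp t ∩ {v | 0 ≤ ∑ j, ![0, -(t * (1 - t)), 1 + t] j * v j} =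
      {v : E 3 | (∀ i, 0 ≤ ∑ j, (!![t, 0, -1; 0, 1, -1; 0, -(t * (1 - t)), 1 + t] :
        Matrix (Fin 3) (Fin 3) ℝ) i j * v j) ∧
        ∑ i, ![1 / t, (1 + t) / (1 + t^2), N t / (t * (1 + t^2))] i *
          ∑ j, (!![t, 0, -1; 0, 1, -1; 0, -(t * (1 - t)), 1 + t] :
            Matrix (Fin 3) (Fin 3) ℝ) i j * v j ≤ 1} := by
    ext v
    have hl : t⁻¹ * (t * v 0 + -v 2) + (1 + t) / (1 + t^2) * (v 1 + -v 2) +
        N t / (t * (1 + t^2)) * (-(t * (1 - t) * v 1) + (1 + t) * v 2) = v 0 + t * v 1 + v 2 := by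
      unfold N
      have : (1 + t^2) ≠ 0 := by positivity
      field_simp
      ring
    rw [Set.mem_inter_iff, mem_Rp, Set.mem_ofPred_eq, Set.mem_ofPred_eq]
    simp only [Fin.forall_fin_succ, Fin.sum_univ_three]
    simp
    rw [hl]
    constructor
    · rintro ⟨⟨⟨h1, h2, h3, h4, h5, h6⟩, h7⟩, h8⟩
      exact ⟨⟨h1, h2, h8⟩, h5⟩
    · rintro ⟨⟨h2, h3, h8⟩, h5⟩
      have p0 : 0 ≤ t * (1 - t) * (v 1 - v 2) :=
        mul_nonneg (mul_nonneg h0.le (by linarith)) (sub_nonneg.mpr h3)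
      have p1 : 0 ≤ (1 + t^2) * v 2 := by
        have e1 : (1 + t^2) * v 2 = ((1 + t) * v 2 - t * (1 - t) * v 1) +
          t * (1 - t) * (v 1 - v 2) := by ring
        linarith
      have p2 : 0 ≤ v 2 := by
        by_contra hc
        push Not at hc
        have : 0 < 1 + t^2 := by positivity
        nlinarith
      have p3 : 0 ≤ v 1 := p2.trans h3
      have p4 : 0 ≤ t * v 0 := p2.trans h2
      have p5 : 0 ≤ v 0 := by
        by_contra hc
        push Not at hc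
        nlinarith
      have p6 : 0 ≤ t * v 1 := mul_nonneg h0.le p3
      have p7 : 0 ≤ (1 - t) * v 0 + (t - 1) * v 1 + 2 * v 2 := by
        have e1 : t * ((1 - t) * v 0 + (t - 1) * v 1 + 2 * v 2) =
            (1 - t) * (t * v 0 - v 2) + ((1 + t) * v 2 - t * (1 - t) * v 1) := by ring
        have e2 : 0 ≤ (1 - t) * (t * v 0 - v 2) :=
          mul_nonneg (by linarith) (by linarith)
        by_contra hc
        push Not at hc
        have := mul_neg_of_pos_of_neg h0 hc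
        linarith
      refine ⟨⟨⟨h2, h3, by linarith, by linarith, h5, by linarith⟩, p7⟩, h8⟩
  rw [e, h, hdet]
  congr 1
  rw [abs_of_pos (by positivity)]
  simp
  field_simp

/-- the second tetrahedron -/
theorem part2 (hT : S_TET) (t : ℝ) (h0 : 0 < t) (h1 : t < 1) :
    volume (Rp t ∩ {v | ∑ j, ![0, -(t * (1 - t)), 1 + t] j * v j ≤ 0}) =
      ENNReal.ofReal (2 * t * (1 - t) / (6 * (1 + t)^2)) := by
  have hu : 0 < 1 - t := by linarith
  have hdet : (!![1 - t, -(1 - t), 2; 0, t, 1; 0, t * (1 - t), -(1 + t)] :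
      Matrix (Fin 3) (Fin 3) ℝ).det = -(2 * t * (1 - t)) := by
    rw [Matrix.det_fin_three]
    simp
    ring
  have h := hT !![1 - t, -(1 - t), 2; 0, t, 1; 0, t * (1 - t), -(1 + t)]
    ![1 / (1 - t), (1 + t) / (2 * t), (1 + t) / (2 * t * (1 - t))] 1
    (by rw [hdet]; exact neg_ne_zero.mpr (by positivity))
    (by intro i; fin_cases i <;> simp <;> first | positivity | exact h1) zero_le_one
  have e : Rp t ∩ {v | ∑ j, ![0, -(t * (1 - t)), 1 + t] j * v j ≤ 0} =
      {v : E 3 | (∀ i, 0 ≤ ∑ j, (!![1 - t, -(1 - t), 2; 0, t, 1; 0, t * (1 - t), -(1 + t)] :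
        Matrix (Fin 3) (Fin 3) ℝ) i j * v j) ∧
        ∑ i, ![1 / (1 - t), (1 + t) / (2 * t), (1 + t) / (2 * t * (1 - t))] i *
          ∑ j, (!![1 - t, -(1 - t), 2; 0, t, 1; 0, t * (1 - t), -(1 + t)] :
            Matrix (Fin 3) (Fin 3) ℝ) i j * v j ≤ 1} := by
    ext v
    have hl : (1 - t)⁻¹ * ((1 - t) * v 0 + (t - 1) * v 1 + 2 * v 2) +
        (1 + t) / (2 * t) * (t * v 1 + v 2) +
        (1 + t) / (2 * t * (1 - t)) * (t * (1 - t) * v 1 + (-t + -1) * v 2) =
        v 0 + t * v 1 + v 2 := by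
      have := hu.ne'
      field_simp
      ring
    rw [Set.mem_inter_iff, mem_Rp, Set.mem_ofPred_eq, Set.mem_ofPred_eq]
    simp only [Fin.forall_fin_succ, Fin.sum_univ_three]
    simp
    rw [hl]
    constructor
    · rintro ⟨⟨⟨h1, h2, h3, h4, h5, h6⟩, h7⟩, h8⟩
      exact ⟨⟨h7, by linarith, by linarith⟩, h5⟩
    · rintro ⟨⟨h7, h2, h8⟩, h5⟩
      have q1 : v 2 ≤ t * v 0 := by
        have e1 : (1 - t) * (t * v 0 - v 2) = t * ((1 - t) * v 0 + (t - 1) * v 1 + 2 * v 2) +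
          (t * (1 - t) * v 1 + (-t + -1) * v 2) := by ring
        have e2 : 0 ≤ (1 - t) * (t * v 0 - v 2) := by
          rw [e1]; exact add_nonneg (mul_nonneg h0.le h7) h8
        have := nonneg_of_mul_nonneg_right e2 hu
        linarith
      have q2 : v 2 ≤ v 1 := by
        have e1 : (2 * t) * (v 1 - v 2) = (1 + t^2) * (t * v 1 + v 2) +
          (1 + t) * (t * (1 - t) * v 1 + (-t + -1) * v 2) := by ring
        have e2 : 0 ≤ (2 * t) * (v 1 - v 2) := by
          rw [e1]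
          exact add_nonneg (mul_nonneg (by positivity) h2) (mul_nonneg (by positivity) h8)
        have := nonneg_of_mul_nonneg_right e2 (by positivity)
        linarith
      have q3 : 0 ≤ v 2 + v 0 := by
        have e1 : (2 * t * (1 - t)) * (v 2 + v 0) =
          2 * t * ((1 - t) * v 0 + (t - 1) * v 1 + 2 * v 2) +
          (1 - t^2) * (1 - t) * (t * v 1 + v 2) +
          (1 + t^2) * (t * (1 - t) * v 1 + (-t + -1) * v 2) := by ring
        have e2 : 0 ≤ (2 * t * (1 - t)) * (v 2 + v 0) := by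
          rw [e1]
          have : 0 ≤ 1 - t^2 := by nlinarith
          exact add_nonneg (add_nonneg (mul_nonneg (by positivity) h7)
            (mul_nonneg (mul_nonneg this hu.le) h2)) (mul_nonneg (by positivity) h8)
        exact nonneg_of_mul_nonneg_right e2 (by positivity)
      exact ⟨⟨⟨q1, q2, by linarith, q3, h5, by linarith⟩, h7⟩, by linarith⟩
  rw [e, h, hdet]
  congr 1
  rw [abs_neg, abs_of_pos (by positivity)]
  simp
  field_simp

end V6

theorem v6 : S_TET → S_SPLIT → S_V6 := by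
  intro hT hS t h0 h1
  have hN : 0 < N t := by unfold N; positivity
  have hu : 0 < 1 - t := by linarith
  have a1 := hS ![1 - t, -(1 - t), 2] (RC2 t) 0 (by
    intro h
    have h2 := congrFun h 2
    change (2:ℝ) = 0 at h2
    norm_num at h2) (V6.meas t)
  have a2 := hS ![0, -(t * (1 - t)), 1 + t] (V6.Rp t) 0 (by
    intro h
    have h2 := congrFun h 2
    change 1 + t = 0 at h2
    linarith) (V6.meas_Rp t)
  rw [V6.refl] at a1
  have a3 : volume (RC2 t) = volume (V6.Rp t) + volume (V6.Rp t) := a1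
  rw [a3, a2, V6.part1 hT t h0 h1, V6.part2 hT t h0 h1,
    ← ENNReal.ofReal_add (by positivity) (by positivity),
    ← ENNReal.ofReal_add (by positivity) (by positivity)]
  congr 1
  unfold wC2
  field_simp
  unfold N
  ring

end Pool.Agent.H126.Orb
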