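import Pool.Agent.H126.Orb.Stm

/-!
# Three edge weights of the explicit polytope (MP_6361d2_co)
-/

set_option autoImplicit false

open Set Metric MeasureTheory
open scoped RealInnerProductSpace ContDiff

namespace Pool.Agent.H126.Orb

namespace WA

theorem ti_add (w : E 5) (p q b1 b2 e p' q' b1' b2' e' : ℝ) :
    ti w p q b1 b2 e + ti w p' q' b1' b2' e' =
      ti w (p + p') (q + q') (b1 + b1') (b2 + b2') (e + e') := by
  ext c
  fin_cases c <;> simp [ti] <;> ring

theorem ti_smul (w : E 5) (r p q b1 b2 e : ℝ) :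
    r • ti w p q b1 b2 e = ti w (r * p) (r * q) (r * b1) (r * b2) (r * e) := by
  ext c
  fin_cases c <;> simp [ti] <;> ring

theorem inner_ti_ti {w : E 5} (h : core w) (p q b1 b2 e p' q' b1' b2' e' : ℝ) :
    ⟪ti w p q b1 b2 e, ti w p' q' b1' b2' e'⟫ =
      (p * p' + q * q') / w 0 ^ 2 + (b1 * b1' + b2 * b2') / rho w + e * e' / w 4 ^ 2 := by
  have h0 : w 0 ≠ 0 := (h.1.trans h.2.1).ne'
  have h4 : w 4 ≠ 0 := h.2.2.2.ne'
  have hr := (rho_pos h).ne'
  have hr2 : rho w = w 2 ^ 2 + w 3 ^ 2 := rfl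
  simp only [ti, PiLp.inner_apply, Fin.sum_univ_five, RCLike.inner_apply, conj_trivial,
    PiLp.toLp_apply]
  simp only [Matrix.cons_val_zero, Matrix.cons_val_one, Matrix.cons_val]
  have e1 : (w 2 * b1' - w 3 * b2') / rho w * ((w 2 * b1 - w 3 * b2) / rho w) +
      (w 3 * b1' + w 2 * b2') / rho w * ((w 3 * b1 + w 2 * b2) / rho w) =
      (b1 * b1' + b2 * b2') / rho w := by
    field_simp
    rw [hr2]
    ring
  have e2 : p' / w 0 * (p / w 0) + q' / w 0 * (q / w 0) = (p * p' + q * q') / w 0 ^ 2 := by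
    field_simp
  have e3 : e' / w 4 * (e / w 4) = e * e' / w 4 ^ 2 := by
    field_simp
  linear_combination e1 + e2 + e3

/-- a linear map given by its coefficients -/
noncomputable def Fl (w : E 5) (a : Matrix (Fin 5) (Fin 3) ℝ) : E 3 →ₗ[ℝ] E 5 where
  toFun v := ti w (∑ j, a 0 j * v j) (∑ j, a 1 j * v j) (∑ j, a 2 j * v j) (∑ j, a 3 j * v j)
    (∑ j, a 4 j * v j)
  map_add' u v := by
    rw [ti_add]
    simp only [PiLp.add_apply, mul_add, Finset.sum_add_distrib]
  map_smul' r v := by
    rw [RingHom.id_apply, ti_smul]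
    simp only [PiLp.smul_apply, smul_eq_mul, Finset.mul_sum, mul_left_comm]

theorem Fl_apply (w : E 5) (a : Matrix (Fin 5) (Fin 3) ℝ) (v : E 3) :
    Fl w a v = ti w (∑ j, a 0 j * v j) (∑ j, a 1 j * v j) (∑ j, a 2 j * v j) (∑ j, a 3 j * v j)
    (∑ j, a 4 j * v j) := rfl

theorem Fl_bs (w : E 5) (a : Matrix (Fin 5) (Fin 3) ℝ) (i : Fin 3) :
    Fl w a (bs i) = ti w (a 0 i) (a 1 i) (a 2 i) (a 3 i) (a 4 i) := by
  rw [Fl_apply]
  fin_cases i <;> simp [bs, Fin.sum_univ_three]

/-- the polar body in normalised coordinates -/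
theorem polar_iff {w : E 5} (h : core w) (p q b1 b2 e : ℝ) :
    ti w p q b1 b2 e ∈ polar (Q w) ↔
      (|b1| + (p + tt w * q + e) ≤ 1 ∧ |b1| + (p - tt w * q - e) ≤ 1 ∧
      |b1| + (-p + tt w * q - e) ≤ 1 ∧ |b1| + (-p - tt w * q + e) ≤ 1) ∧
      (|b2| + (tt w * p + q - e) ≤ 1 ∧ |b2| + (tt w * p - q + e) ≤ 1 ∧
      |b2| + (-(tt w * p) + q + e) ≤ 1 ∧ |b2| + (-(tt w * p) - q - e) ≤ 1) := by
  rw [mem_polar]
  constructor
  · intro H
    have k : ∀ b c : ℝ, b + c ≤ 1 → -b + c ≤ 1 → |b| + c ≤ 1 := by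
      intro b c h1 h2
      rcases abs_cases b with ⟨h3, -⟩ | ⟨h3, -⟩ <;> rw [h3] <;> assumption
    have H0 := fun a b s => (inner_ti_false h p q b1 b2 e a b s) ▸ H (a, b, s, false)
    have H1 := fun a b s => (inner_ti_true h p q b1 b2 e a b s) ▸ H (a, b, s, true)
    refine ⟨⟨k _ _ ?_ ?_, k _ _ ?_ ?_, k _ _ ?_ ?_, k _ _ ?_ ?_⟩,
      ⟨k _ _ ?_ ?_, k _ _ ?_ ?_, k _ _ ?_ ?_, k _ _ ?_ ?_⟩⟩
    · have := H0 true true true; simp only [sg_true] at this; linarith
    · have := H0 true true false; simp only [sg_true, sg_false] at this; linarith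
    · have := H0 true false true; simp only [sg_true, sg_false] at this; linarith
    · have := H0 true false false; simp only [sg_true, sg_false] at this; linarith
    · have := H0 false true true; simp only [sg_true, sg_false] at this; linarith
    · have := H0 false true false; simp only [sg_true, sg_false] at this; linarith
    · have := H0 false false true; simp only [sg_true, sg_false] at this; linarith
    · have := H0 false false false; simp only [sg_false] at this; linarith
    · have := H1 true true true; simp only [sg_true] at this; linarith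
    · have := H1 true true false; simp only [sg_true, sg_false] at this; linarith
    · have := H1 true false true; simp only [sg_true, sg_false] at this; linarith
    · have := H1 true false false; simp only [sg_true, sg_false] at this; linarith
    · have := H1 false true true; simp only [sg_true, sg_false] at this; linarith
    · have := H1 false true false; simp only [sg_true, sg_false] at this; linarith
    · have := H1 false false true; simp only [sg_true, sg_false] at this; linarith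
    · have := H1 false false false; simp only [sg_false] at this; linarith
  · rintro ⟨⟨h1, h2, h3, h4⟩, ⟨h5, h6, h7, h8⟩⟩ ⟨a, b, s, j⟩
    have u1 := le_abs_self b1
    have u2 := neg_abs_le b1
    have u3 := le_abs_self b2
    have u4 := neg_abs_le b2
    cases j
    · rw [inner_ti_false h]
      cases a <;> cases b <;> cases s <;> simp only [sg_true, sg_false] <;> linarith
    · rw [inner_ti_true h]
      cases a <;> cases b <;> cases s <;> simp only [sg_true, sg_false] <;> linarith

theorem inner_w {w : E 5} (h : core w) (p q b1 b2 e : ℝ) :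
    ⟪ti w p q b1 b2 e, w⟫ = p + tt w * q + b1 + e := by
  have h1 := inner_ti_false h p q b1 b2 e true true true
  have h2 : pts w (true, true, true, false) = w := pts_o w
  rw [h2] at h1
  rw [h1]
  simp only [sg_true]
  ring

theorem norm_w (w : E 5) : ‖w‖ ^ 2 = w 0 ^ 2 + w 1 ^ 2 + rho w + w 4 ^ 2 := by
  rw [EuclideanSpace.norm_sq_eq, Fin.sum_univ_five]
  simp only [Real.norm_eq_abs, sq_abs]
  unfold rho
  ring

theorem inner_pts (w : E 5) (a b : Bool) :
    ⟪w, pts w (a, b, true, false)⟫ = sg a * w 0 ^ 2 + sg b * w 1 ^ 2 + rho w +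
      sg a * sg b * w 4 ^ 2 := by
  simp only [pts, PiLp.inner_apply, Fin.sum_univ_five, RCLike.inner_apply, conj_trivial,
    PiLp.toLp_apply]
  simp only [Matrix.cons_val_zero, Matrix.cons_val_one, Matrix.cons_val]
  unfold rho
  simp only [sg_true]
  ring

/-- assembling a weight -/
theorem assemble {w : E 5} (h : core w) (hE : S_EDG) {i : I} (hi : nb i = true)
    (x₀ : E 5) (a : Matrix (Fin 5) (Fin 3) ℝ) (R : Set (E 3))
    (hF : dualFace (Q w) w (pts w i) = (fun v => x₀ + Fl w a v) '' R) {V : ℝ} (hV : 0 ≤ V)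
    (hvol : volume R = ENNReal.ofReal (2 * V))
    (hpos : 0 < ‖w‖ ^ 2 * ‖pts w i‖ ^ 2 - ⟪w, pts w i⟫ ^ 2)
    (hgram : (Matrix.of fun k l => ⟪Fl w a (bs k), Fl w a (bs l)⟫ :
      Matrix (Fin 3) (Fin 3) ℝ).det =
      (1 / (2 * den w)) ^ 2 * (‖w‖ ^ 2 * ‖pts w i‖ ^ 2 - ⟪w, pts w i⟫ ^ 2)) :
    cw (Q w) w (pts w i) = V / den w := by
  have hden : 0 < den w := by
    have h0 : 0 < w 0 := h.1.trans h.2.1
    have h4 : 0 < w 4 := h.2.2.2
    have hr := rho_pos h
    unfold den
    positivity
  rw [cw_of_image ((hE w h i).2 hi) (Fl w a) x₀ R hF (1 / (2 * den w)) (by positivity) hpos hgram,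
    hvol, ENNReal.toReal_ofReal (by positivity)]
  field_simp

end WA

open WA

theorem wa1 : S_EDG → S_V1 → S_WA1 := by
  intro hE hV w h
  have ht0 := tt_pos h
  have ht1 := tt_lt h
  have h0 : 0 < w 0 := h.1.trans h.2.1
  have h4 : 0 < w 4 := h.2.2.2
  have hr := rho_pos h
  have hw1 := tt_mul h
  set t := tt w with htd
  have hgap : ‖w‖ ^ 2 * ‖pts w (false, false, true, false)‖ ^ 2 -
      ⟪w, pts w (false, false, true, false)⟫ ^ 2 =
      4 * w 0 ^ 2 * (1 + t ^ 2) * (rho w + w 4 ^ 2) := by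
    rw [norm_pts, norm_w, inner_pts, hw1]
    simp only [sg_false]
    ring
  refine assemble h hE (by rfl) (ti w 0 0 1 0 0)
    !![-t, 0, 0; 1, 0, 0; 0, -1, 0; 0, 0, 1; 0, 1, 0] (RA1 t) ?_ ?_ (hV t ht0 ht1) ?_ ?_
  · ext x
    constructor
    · rintro ⟨hx1, hx2, hx3⟩
      rw [exists_ti h x] at hx1 hx2 hx3 ⊢
      generalize w 0 * x 0 = p at *
      generalize w 0 * x 1 = q at *
      generalize w 2 * x 2 + w 3 * x 3 = b1 at *
      generalize w 2 * x 3 - w 3 * x 2 = b2 at *
      generalize w 4 * x 4 = e at *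
      rw [inner_w h] at hx2
      rw [inner_ti_false h] at hx3
      rw [polar_iff h] at hx1
      simp only [sg_true, sg_false] at hx3
      rw [← htd] at hx1 hx2 hx3
      obtain ⟨⟨k1, k2, k3, k4⟩, ⟨k5, k6, k7, k8⟩⟩ := hx1
      have e1 : p = -t * q := by linarith
      have e2 : b1 = 1 - e := by linarith
      subst e1
      subst e2
      refine ⟨!₂[q, e, b2], ⟨?_, ?_⟩, ?_⟩
      · show t * |q| ≤ e
        have u1 := le_abs_self (1 - e)
        rcases abs_cases q with ⟨h3, -⟩ | ⟨h3, -⟩ <;> rw [h3] <;> nlinarith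
      · show |b2| + (1 + t ^ 2) * |q| + e ≤ 1
        rcases abs_cases q with ⟨h3, -⟩ | ⟨h3, -⟩ <;> rw [h3] <;> nlinarith
      · simp only [Fl_apply, ti_add, Fin.sum_univ_three]
        simp
        congr 1 <;> ring
    · rintro ⟨v, ⟨hv1, hv2⟩, rfl⟩
      have e0 : ti w 0 0 1 0 0 + Fl w !![-t, 0, 0; 1, 0, 0; 0, -1, 0; 0, 0, 1; 0, 1, 0] v =
          ti w (-t * v 0) (v 0) (1 - v 1) (v 2) (v 1) := by
        simp only [Fl_apply, ti_add, Fin.sum_univ_three]
        simp
        congr 1
      show _ ∧ _ ∧ _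
      simp only [e0]
      rw [polar_iff h, inner_w h, inner_ti_false h, ← htd]
      generalize v 0 = q at *
      generalize v 1 = e at *
      generalize v 2 = b2 at *
      have u1 := le_abs_self q
      have u2 := neg_abs_le q
      have u3 := abs_nonneg q
      have u4 := abs_nonneg b2
      have he0 : 0 ≤ e := le_trans (by positivity) hv1
      have w8 : 0 ≤ (1 + t ^ 2) * |q| := by positivity
      have he1 : e ≤ 1 := by linarith
      have a1 : |1 - e| = 1 - e := abs_of_nonneg (by linarith)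
      rw [a1]
      have w1 : t * q ≤ e := le_trans (mul_le_mul_of_nonneg_left u1 ht0.le) hv1
      have w2 : -(t * q) ≤ e := by
        have := mul_le_mul_of_nonneg_left u2 ht0.le
        linarith
      have w3 : (1 + t ^ 2) * q ≤ (1 + t ^ 2) * |q| := mul_le_mul_of_nonneg_left u1 (by positivity)
      have w4 : -((1 + t ^ 2) * q) ≤ (1 + t ^ 2) * |q| := by
        have := mul_le_mul_of_nonneg_left u2 (show 0 ≤ 1 + t ^ 2 by positivity)
        linarith
      have w5 : t * (t * q) ≤ t * e := mul_le_mul_of_nonneg_left w1 ht0.le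
      have w6 : t * -(t * q) ≤ t * e := mul_le_mul_of_nonneg_left w2 ht0.le
      have w7 : t * e ≤ e := mul_le_of_le_one_left he0 ht1.le
      simp only [sg_true, sg_false]
      refine ⟨⟨⟨?_, ?_, ?_, ?_⟩, ⟨?_, ?_, ?_, ?_⟩⟩, ?_, ?_⟩ <;> linarith
  · unfold wA1 N
    positivity
  · rw [hgap]
    positivity
  · rw [hgap, Matrix.det_fin_three]
    simp only [Matrix.of_apply, Fl_bs, inner_ti_ti h]
    simp
    unfold den
    field_simp
    ring

theorem wa2 : S_EDG → S_V2 → S_WA2 := by
  intro hE hV w h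
  have ht0 := tt_pos h
  have ht1 := tt_lt h
  have h0 : 0 < w 0 := h.1.trans h.2.1
  have h4 : 0 < w 4 := h.2.2.2
  have hr := rho_pos h
  have hw1 := tt_mul h
  set t := tt w with htd
  have hgap : ‖w‖ ^ 2 * ‖pts w (true, false, true, false)‖ ^ 2 -
      ⟪w, pts w (true, false, true, false)⟫ ^ 2 =
      4 * (w 0 ^ 2 * t ^ 2 + w 4 ^ 2) * (w 0 ^ 2 + rho w) := by
    rw [norm_pts, norm_w, inner_pts, hw1]
    simp only [sg_true, sg_false]
    ring
  refine assemble h hE (by rfl) (ti w 0 0 1 0 0)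
    !![1, 0, 0; 0, 1, 0; -1, 0, 0; 0, 0, 1; 0, -t, 0] (RA2 t) ?_ ?_ (hV t ht0 ht1) ?_ ?_
  · ext x
    constructor
    · rintro ⟨hx1, hx2, hx3⟩
      rw [exists_ti h x] at hx1 hx2 hx3 ⊢
      generalize w 0 * x 0 = p at *
      generalize w 0 * x 1 = q at *
      generalize w 2 * x 2 + w 3 * x 3 = b1 at *
      generalize w 2 * x 3 - w 3 * x 2 = b2 at *
      generalize w 4 * x 4 = e at *
      rw [inner_w h] at hx2
      rw [inner_ti_false h] at hx3
      rw [polar_iff h] at hx1
      simp only [sg_true, sg_false] at hx3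
      rw [← htd] at hx1 hx2 hx3
      obtain ⟨⟨k1, k2, k3, k4⟩, ⟨k5, k6, k7, k8⟩⟩ := hx1
      have e1 : e = -t * q := by linarith
      have e2 : b1 = 1 - p := by linarith
      subst e1
      subst e2
      refine ⟨!₂[p, q, b2], ⟨?_, ?_, ?_⟩, ?_⟩
      · show t * |q| ≤ p
        have u1 := le_abs_self (1 - p)
        rcases abs_cases q with ⟨h3, -⟩ | ⟨h3, -⟩ <;> rw [h3] <;> nlinarith
      · show p ≤ 1
        have u1 := neg_abs_le (1 - p)
        linarith
      · show |b2| + (1 + t) * |q| + t * p ≤ 1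
        rcases abs_cases q with ⟨h3, -⟩ | ⟨h3, -⟩ <;> rw [h3] <;> nlinarith
      · simp only [Fl_apply, ti_add, Fin.sum_univ_three]
        simp
        congr 1 <;> ring
    · rintro ⟨v, ⟨hv1, hv2, hv3⟩, rfl⟩
      have e0 : ti w 0 0 1 0 0 + Fl w !![1, 0, 0; 0, 1, 0; -1, 0, 0; 0, 0, 1; 0, -t, 0] v =
          ti w (v 0) (v 1) (1 - v 0) (v 2) (-t * v 1) := by
        simp only [Fl_apply, ti_add, Fin.sum_univ_three]
        simp
        congr 1
      show _ ∧ _ ∧ _
      simp only [e0]
      rw [polar_iff h, inner_w h, inner_ti_false h, ← htd]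
      generalize v 0 = p at *
      generalize v 1 = q at *
      generalize v 2 = b2 at *
      have u1 := le_abs_self q
      have u2 := neg_abs_le q
      have u3 := abs_nonneg q
      have u4 := abs_nonneg b2
      have he0 : 0 ≤ p := le_trans (by positivity) hv1
      have a1 : |1 - p| = 1 - p := abs_of_nonneg (by linarith)
      rw [a1]
      have w1 : t * q ≤ p := le_trans (mul_le_mul_of_nonneg_left u1 ht0.le) hv1
      have w2 : -(t * q) ≤ p := by
        have := mul_le_mul_of_nonneg_left u2 ht0.le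
        linarith
      have w3 : (1 + t) * q ≤ (1 + t) * |q| := mul_le_mul_of_nonneg_left u1 (by positivity)
      have w4 : -((1 + t) * q) ≤ (1 + t) * |q| := by
        have := mul_le_mul_of_nonneg_left u2 (show 0 ≤ 1 + t by positivity)
        linarith
      have w5 : (1 - t) * q ≤ (1 - t) * |q| := mul_le_mul_of_nonneg_left u1 (by linarith)
      have w6 : -((1 - t) * q) ≤ (1 - t) * |q| := by
        have := mul_le_mul_of_nonneg_left u2 (show 0 ≤ 1 - t by linarith)
        linarith
      have w7 : (1 - t) * |q| ≤ (1 + t) * |q| := mul_le_mul_of_nonneg_right (by linarith) u3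
      have w8 : 0 ≤ t * p := by positivity
      simp only [sg_true, sg_false]
      refine ⟨⟨⟨?_, ?_, ?_, ?_⟩, ⟨?_, ?_, ?_, ?_⟩⟩, ?_, ?_⟩ <;> linarith
  · unfold wA2 N
    have : 0 ≤ 3 - t + t ^ 2 - 2 * t ^ 3 + t ^ 4 := by
      have : t ^ 3 ≤ 1 := pow_le_one₀ ht0.le ht1.le
      have : 0 ≤ t ^ 2 := by positivity
      have : 0 ≤ t ^ 4 := by positivity
      linarith
    positivity
  · rw [hgap]
    positivity
  · rw [hgap, Matrix.det_fin_three]
    simp only [Matrix.of_apply, Fl_bs, inner_ti_ti h]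
    simp
    unfold den
    field_simp
    ring

theorem wa3 : S_EDG → S_V3 → S_WA3 := by
  intro hE hV w h
  have ht0 := tt_pos h
  have ht1 := tt_lt h
  have h0 : 0 < w 0 := h.1.trans h.2.1
  have h4 : 0 < w 4 := h.2.2.2
  have hr := rho_pos h
  have hw1 := tt_mul h
  set t := tt w with htd
  have hgap : ‖w‖ ^ 2 * ‖pts w (false, true, true, false)‖ ^ 2 -
      ⟪w, pts w (false, true, true, false)⟫ ^ 2 =
      4 * (w 0 ^ 2 + w 4 ^ 2) * (w 0 ^ 2 * t ^ 2 + rho w) := by
    rw [norm_pts, norm_w, inner_pts, hw1]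
    simp only [sg_true, sg_false]
    ring
  refine assemble h hE (by rfl) (ti w 0 0 1 0 0)
    !![1, 0, 0; 0, 1, 0; 0, -t, 0; 0, 0, 1; -1, 0, 0] (RA3 t) ?_ ?_ (hV t ht0 ht1) ?_ ?_
  · ext x
    constructor
    · rintro ⟨hx1, hx2, hx3⟩
      rw [exists_ti h x] at hx1 hx2 hx3 ⊢
      generalize w 0 * x 0 = p at *
      generalize w 0 * x 1 = q at *
      generalize w 2 * x 2 + w 3 * x 3 = b1 at *
      generalize w 2 * x 3 - w 3 * x 2 = b2 at *
      generalize w 4 * x 4 = e at *
      rw [inner_w h] at hx2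
      rw [inner_ti_false h] at hx3
      rw [polar_iff h] at hx1
      simp only [sg_true, sg_false] at hx3
      rw [← htd] at hx1 hx2 hx3
      obtain ⟨⟨k1, k2, k3, k4⟩, ⟨k5, k6, k7, k8⟩⟩ := hx1
      have e1 : e = -p := by linarith
      have e2 : b1 = 1 - t * q := by linarith
      subst e1
      subst e2
      refine ⟨!₂[p, q, b2], ⟨?_, ?_⟩, ?_⟩
      · show |p| ≤ t * q
        have u1 := le_abs_self (1 - t * q)
        rcases abs_cases p with ⟨h3, -⟩ | ⟨h3, -⟩ <;> rw [h3] <;> linarith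
      · show |b2| + (1 + t) * |p| + q ≤ 1
        rcases abs_cases p with ⟨h3, -⟩ | ⟨h3, -⟩ <;> rw [h3] <;> nlinarith
      · simp only [Fl_apply, ti_add, Fin.sum_univ_three]
        simp
        congr 1 <;> ring
    · rintro ⟨v, ⟨hv1, hv3⟩, rfl⟩
      have e0 : ti w 0 0 1 0 0 + Fl w !![1, 0, 0; 0, 1, 0; 0, -t, 0; 0, 0, 1; -1, 0, 0] v =
          ti w (v 0) (v 1) (1 - t * v 1) (v 2) (-v 0) := by
        simp only [Fl_apply, ti_add, Fin.sum_univ_three]
        simp
        congr 1
      show _ ∧ _ ∧ _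
      simp only [e0]
      rw [polar_iff h, inner_w h, inner_ti_false h, ← htd]
      generalize v 0 = p at *
      generalize v 1 = q at *
      generalize v 2 = b2 at *
      have u1 := le_abs_self p
      have u2 := neg_abs_le p
      have u3 := abs_nonneg p
      have u4 := abs_nonneg b2
      have he0 : 0 ≤ t * q := le_trans u3 hv1
      have hq0 : 0 ≤ q := by
        by_contra hc
        push Not at hc
        have := mul_neg_of_pos_of_neg ht0 hc
        linarith
      have w8 : 0 ≤ (1 + t) * |p| := by positivity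
      have hq1 : q ≤ 1 := by linarith
      have htq : t * q ≤ 1 := le_trans (mul_le_of_le_one_left hq0 ht1.le) hq1
      have a1 : |1 - t * q| = 1 - t * q := abs_of_nonneg (by linarith)
      rw [a1]
      have w3 : (1 + t) * p ≤ (1 + t) * |p| := mul_le_mul_of_nonneg_left u1 (by positivity)
      have w4 : -((1 + t) * p) ≤ (1 + t) * |p| := by
        have := mul_le_mul_of_nonneg_left u2 (show 0 ≤ 1 + t by positivity)
        linarith
      have w5 : (1 - t) * p ≤ (1 - t) * |p| := mul_le_mul_of_nonneg_left u1 (by linarith)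
      have w6 : -((1 - t) * p) ≤ (1 - t) * |p| := by
        have := mul_le_mul_of_nonneg_left u2 (show 0 ≤ 1 - t by linarith)
        linarith
      have w7 : (1 - t) * |p| ≤ (1 + t) * |p| := mul_le_mul_of_nonneg_right (by linarith) u3
      simp only [sg_true, sg_false]
      refine ⟨⟨⟨?_, ?_, ?_, ?_⟩, ⟨?_, ?_, ?_, ?_⟩⟩, ?_, ?_⟩ <;> linarith
  · unfold wA3 N
    positivity
  · rw [hgap]
    positivity
  · rw [hgap, Matrix.det_fin_three]
    simp only [Matrix.of_apply, Fl_bs, inner_ti_ti h]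
    simp
    unfold den
    field_simp
    ring

end Pool.Agent.H126.Orb
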