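import Pool.Agent.H126.Orb.Stm

/-!
# WALL and LAM (MP_6361d2_co): all weights by symmetry, the second eigenvalue as a supremum over a
16 x 16 matrix
-/

set_option autoImplicit false

open Set Metric MeasureTheory
open scoped RealInnerProductSpace ContDiff

namespace Pool.Agent.H126.Orb

namespace WALL

variable {k : ℕ}

theorem isEdge_comm {P : Set (E k)} {s t : E k} (h : IsEdge P s t) : IsEdge P t s :=
  ⟨h.2.1, h.1, h.2.2.1.symm, by rw [segment_symm]; exact h.2.2.2⟩

theorem dualFace_comm (P : Set (E k)) (s t : E k) : dualFace P s t = dualFace P t s := by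
  ext x
  constructor
  · rintro ⟨h1, h2, h3⟩; exact ⟨h1, h3, h2⟩
  · rintro ⟨h1, h2, h3⟩; exact ⟨h1, h3, h2⟩

theorem cw_comm (P : Set (E k)) (s t : E k) : cw P s t = cw P t s := by
  unfold cw
  by_cases h : IsEdge P s t
  · rw [if_pos h, if_pos (isEdge_comm h), dualFace_comm, InnerProductGeometry.angle_comm,
      mul_comm ‖s‖ ‖t‖]
  · rw [if_neg h, if_neg (fun h' => h (isEdge_comm h'))]

theorem isExposed_image {P S : Set (E k)} (g : E k ≃ₗᵢ[ℝ] E k) (h : IsExposed ℝ P S) :
    IsExposed ℝ (g '' P) (g '' S) := by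
  intro hne
  obtain ⟨l, hl⟩ := h (Set.image_nonempty.1 hne)
  refine ⟨l.comp (g.symm.toContinuousLinearEquiv : E k →L[ℝ] E k), ?_⟩
  ext x
  constructor
  · rintro ⟨y, hy, rfl⟩
    rw [hl] at hy
    refine ⟨⟨y, hy.1, rfl⟩, ?_⟩
    rintro _ ⟨z, hz, rfl⟩
    simpa using hy.2 z hz
  · rintro ⟨⟨y, hy, rfl⟩, h2⟩
    refine ⟨y, ?_, rfl⟩
    rw [hl]
    refine ⟨hy, fun z hz => ?_⟩
    simpa using h2 (g z) ⟨z, hz, rfl⟩

theorem isEdge_image {P : Set (E k)} {s t : E k} (g : E k ≃ₗᵢ[ℝ] E k) (h : IsEdge P s t) :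
    IsEdge (g '' P) (g s) (g t) := by
  refine ⟨?_, ?_, ?_, ?_⟩
  · have := image_extremePoints g P
    show g s ∈ (g '' P).extremePoints ℝ
    rw [← image_extremePoints g P]
    exact ⟨s, h.1, rfl⟩
  · show g t ∈ (g '' P).extremePoints ℝ
    rw [← image_extremePoints g P]
    exact ⟨t, h.2.1, rfl⟩
  · exact fun h' => h.2.2.1 (g.injective h')
  · have h1 := isExposed_image g h.2.2.2
    have h2 : g '' segment ℝ s t = segment ℝ (g s) (g t) :=
      image_segment ℝ (g.toLinearEquiv.toLinearMap.toAffineMap) s t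
    rwa [h2] at h1

theorem isEdge_iff {P : Set (E k)} {s t : E k} (g : E k ≃ₗᵢ[ℝ] E k) :
    IsEdge (g '' P) (g s) (g t) ↔ IsEdge P s t := by
  refine ⟨fun h => ?_, isEdge_image g⟩
  have h1 := isEdge_image g.symm h
  rw [Set.image_image] at h1
  simpa using h1

theorem dualFace_image (P : Set (E k)) (s t : E k) (g : E k ≃ₗᵢ[ℝ] E k) :
    dualFace (g '' P) (g s) (g t) = g '' dualFace P s t := by
  ext x
  constructor
  · rintro ⟨h1, h2, h3⟩
    refine ⟨g.symm x, ⟨fun y hy => ?_, ?_, ?_⟩, by simp⟩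
    · have := h1 (g y) ⟨y, hy, rfl⟩
      rwa [← g.apply_symm_apply x, g.inner_map_map] at this
    · rwa [← g.apply_symm_apply x, g.inner_map_map] at h2
    · rwa [← g.apply_symm_apply x, g.inner_map_map] at h3
  · rintro ⟨y, ⟨h1, h2, h3⟩, rfl⟩
    refine ⟨?_, ?_, ?_⟩
    · rintro _ ⟨z, hz, rfl⟩
      rw [g.inner_map_map]
      exact h1 z hz
    · rw [g.inner_map_map]; exact h2
    · rw [g.inner_map_map]; exact h3

theorem cw_image (P : Set (E k)) (s t : E k) (g : E k ≃ₗᵢ[ℝ] E k) :
    cw (g '' P) (g s) (g t) = cw P s t := by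
  unfold cw
  by_cases h : IsEdge P s t
  · rw [if_pos h, if_pos ((isEdge_iff g).2 h), dualFace_image,
      g.isometry.euclideanHausdorffMeasure_image, g.norm_map, g.norm_map]
    congr 3
    exact g.toLinearIsometry.angle_map s t
  · rw [if_neg h, if_neg (fun h' => h ((isEdge_iff g).1 h'))]

theorem mulI_rel (i j : I) : mulI i (rel i j) = j := by
  revert i j; decide

theorem image_Q (w : E 5) (i : I) : L i '' Q w = Q w := by
  unfold Q
  have h1 : (L i : E 5 → E 5) '' convexHull ℝ (Set.range (pts w)) =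
      convexHull ℝ ((L i : E 5 → E 5) '' Set.range (pts w)) :=
    (L i).toLinearEquiv.toLinearMap.image_convexHull (Set.range (pts w))
  rw [h1]
  congr 1
  ext x
  constructor
  · rintro ⟨_, ⟨j, rfl⟩, rfl⟩
    exact ⟨mulI i j, by rw [L_apply, pts_mul]⟩
  · rintro ⟨j, rfl⟩
    exact ⟨pts w (rel i j), ⟨_, rfl⟩, by rw [L_apply, pts_mul, mulI_rel]⟩

/-- The weights are determined by those of the base vertex. -/
theorem cw_rel (w : E 5) (i j : I) : cw (Q w) (pts w i) (pts w j) = cw (Q w) w (pts w (rel i j)) := by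
  have h := cw_image (Q w) w (pts w (rel i j)) (L i)
  rw [image_Q, L_apply, L_apply, pts_mul, mulI_rel] at h
  exact h

theorem rel_invI_o (l : I) : rel (invI l) o = l := by
  revert l; decide

theorem cw_invI (w : E 5) (l : I) : cw (Q w) w (pts w l) = cw (Q w) w (pts w (invI l)) := by
  have h := cw_rel w (invI l) o
  rw [rel_invI_o, pts_o] at h
  rw [← h, cw_comm]

theorem den_pos {w : E 5} (h : core w) : 0 < den w := by
  have h0 : 0 < w 0 := h.1.trans h.2.1
  have h4 : 0 < w 4 := h.2.2.2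
  have hr := rho_pos h
  unfold den
  positivity

theorem base (hE : S_EDG) (h1 : S_WA1) (h2 : S_WA2) (h3 : S_WA3) (h4 : S_WB) (h5 : S_WC1)
    (h6 : S_WC2) (w : E 5) (hw : core w) (l : I) :
    cw (Q w) w (pts w l) = wt (tt w) l / den w := by
  have hz : nb l = false → cw (Q w) w (pts w l) = 0 := by
    intro hl
    have hn : ¬ IsEdge (Q w) w (pts w l) := by
      rw [hE w hw l, hl]; simp
    unfold cw
    rw [if_neg hn]
  obtain ⟨a, b, s, x⟩ := l
  cases x
  · cases s
    · cases a <;> cases b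
      · rw [hz rfl]; simp [wt]
      · rw [hz rfl]; simp [wt]
      · rw [hz rfl]; simp [wt]
      · exact h4 w hw
    · cases a <;> cases b
      · exact h1 w hw
      · exact h3 w hw
      · exact h2 w hw
      · rw [hz rfl]; simp [wt]
  · cases a <;> cases b
    · rw [hz (by cases s <;> rfl)]; cases s <;> simp [wt]
    · rw [h5 w hw s]; cases s <;> rfl
    · rw [cw_invI]
      have := h5 w hw (!s)
      cases s
      · exact this
      · exact this
    · rw [h6 w hw s]; cases s <;> rfl

end WALL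

open WALL in
/-- All the weights. -/
theorem wall : S_EDG → S_WA1 → S_WA2 → S_WA3 → S_WB → S_WC1 → S_WC2 → S_WALL := by
  intro hE h1 h2 h3 h4 h5 h6 w hw i j
  rw [cw_rel]
  exact base hE h1 h2 h3 h4 h5 h6 w hw _

namespace WALL

theorem bij_rel (i : I) : Function.Bijective (rel i) := by
  revert i; decide

theorem sum_rel (t : ℝ) (i : I) : ∑ j, wt t (rel i j) = ∑ l, wt t l :=
  Function.Bijective.sum_comp (bij_rel i) (wt t)

end WALL

open WALL in
/-- The second eigenvalue. -/
theorem lam : S_VERT → S_WALL → S_LAM := by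
  intro hV hW w hw
  obtain ⟨hv1, hv2⟩ := hV w hw
  have hfin : (verts (Q w)).Finite := by rw [hv1]; exact Set.finite_range _
  have hd : den w ≠ 0 := (den_pos hw).ne'
  unfold lam1
  rw [dif_pos hfin]
  let _ : Fintype (verts (Q w)) := hfin.fintype
  let e : I ≃ verts (Q w) :=
    Equiv.ofBijective (fun i => ⟨pts w i, by rw [hv1]; exact ⟨i, rfl⟩⟩) (by
      constructor
      · intro i j hij
        exact hv2 (congrArg Subtype.val hij)
      · rintro ⟨x, hx⟩
        have hx' := hx
        rw [hv1] at hx'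
        obtain ⟨i, rfl⟩ := hx'
        exact ⟨i, rfl⟩)
  have he : ∀ i, ((e i : verts (Q w)) : E 5) = pts w i := fun i => rfl
  have hwalk : ∀ i j, walk (Q w) (e i) (e j) = wt (tt w) (rel i j) / ∑ l, wt (tt w) l := by
    intro i j
    unfold walk
    rw [← e.sum_comp (fun u : verts (Q w) => cw (Q w) (e i) u)]
    simp only [he]
    simp only [hW w hw]
    rw [← Finset.sum_div, sum_rel]
    field_simp
  congr 1
  ext ρ
  constructor
  · rintro ⟨v, hv, hs, hρ⟩
    refine ⟨fun i => v (e i), ?_, ?_, ?_⟩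
    · intro h0
      apply hv
      ext x
      obtain ⟨i, rfl⟩ := e.surjective x
      exact congrFun h0 i
    · rw [e.sum_comp (fun x => v x)]
      exact hs
    · rw [hρ]
      congr 1
      · rw [← e.sum_comp (fun s => ∑ t, v s * walk (Q w) s t * v t)]
        refine Finset.sum_congr rfl fun i _ => ?_
        rw [← e.sum_comp (fun t => v (e i) * walk (Q w) (e i) t * v t)]
        refine Finset.sum_congr rfl fun j _ => ?_
        rw [hwalk]
      · rw [← e.sum_comp (fun s => v s ^ 2)]
  · rintro ⟨v, hv, hs, hρ⟩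
    refine ⟨fun x => v (e.symm x), ?_, ?_, ?_⟩
    · intro h0
      apply hv
      ext i
      have := congrFun h0 (e i)
      simpa using this
    · rw [← e.sum_comp (fun x => v (e.symm x))]
      simpa using hs
    · rw [hρ]
      congr 1
      · rw [← e.sum_comp (fun s => ∑ t, v (e.symm s) * walk (Q w) s t * v (e.symm t))]
        refine Finset.sum_congr rfl fun i _ => ?_
        rw [← e.sum_comp (fun t => v (e.symm (e i)) * walk (Q w) (e i) t * v (e.symm t))]
        refine Finset.sum_congr rfl fun j _ => ?_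
        rw [hwalk]
        simp
      · rw [← e.sum_comp (fun s => v (e.symm s) ^ 2)]
        simp

end Pool.Agent.H126.Orb
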