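import Pool.Agent.H126.Orb.Stm

/-!
# The edge weight WB (MP_6361d2_co)
-/

set_option autoImplicit false

open Set Metric MeasureTheory
open scoped RealInnerProductSpace ContDiff

namespace Pool.Agent.H126.Orb

namespace WB

/-- The linear part of the parametrisation of the dual face. -/
noncomputable def F (w : E 5) : E 3 →ₗ[ℝ] E 5 where
  toFun v := ti w (v 0) (v 1) 0 (v 2) (-(v 0) - tt w * v 1)
  map_add' u v := by
    ext c
    fin_cases c <;> simp [ti] <;> ring
  map_smul' r v := by
    ext c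
    fin_cases c <;> simp [ti] <;> ring

theorem F_apply (w : E 5) (v : E 3) :
    F w v = ti w (v 0) (v 1) 0 (v 2) (-(v 0) - tt w * v 1) := rfl

theorem x0_add (w : E 5) (v : E 3) :
    ti w 0 0 0 0 1 + F w v = ti w (v 0) (v 1) 0 (v 2) (1 - v 0 - tt w * v 1) := by
  rw [F_apply]
  ext c
  fin_cases c <;> simp [ti] <;> ring

theorem abs_le_iff' {x y : ℝ} : |x| ≤ y ↔ x ≤ y ∧ -x ≤ y := abs_le'

/-- The dual face. -/
theorem dual {w : E 5} (h : core w) :
    dualFace (Q w) w (pts w (true, true, false, false)) =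
      (fun v => ti w 0 0 0 0 1 + F w v) '' RB (tt w) := by
  have ht := tt_pos h
  have ht1 := tt_lt h
  set t := tt w with htdef
  ext x
  constructor
  · rintro ⟨hx, h1, h2⟩
    rw [exists_ti h x] at hx h1 h2 ⊢
    set p := w 0 * x 0
    set q := w 0 * x 1
    set b1 := w 2 * x 2 + w 3 * x 3
    set b2 := w 2 * x 3 - w 3 * x 2
    set e := w 4 * x 4
    rw [mem_polar] at hx
    have h1' : ⟪ti w p q b1 b2 e, pts w (true, true, true, false)⟫ = 1 := by
      have := pts_o w
      unfold o at this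
      rw [this]
      exact h1
    rw [inner_ti_false h] at h1' h2
    simp only [sg_true, sg_false, ← htdef] at h1' h2
    have hb1 : b1 = 0 := by linarith
    have he : e = 1 - p - t * q := by linarith
    have a1 := hx (true, false, true, false)
    rw [inner_ti_false h] at a1
    have a2 := hx (true, true, true, true)
    have a3 := hx (true, true, false, true)
    have a4 := hx (true, false, true, true)
    have a5 := hx (true, false, false, true)
    have a6 := hx (false, true, true, true)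
    have a7 := hx (false, true, false, true)
    rw [inner_ti_true h] at a2 a3 a4 a5 a6 a7
    simp only [sg_true, sg_false, ← htdef, hb1, he] at a1 a2 a3 a4 a5 a6 a7
    refine ⟨!₂[p, q, b2], ?_, ?_⟩
    · show p ≤ 1 ∧ |b2| ≤ (1 + t) * p - (1 - t) * q ∧ |b2| ≤ (1 - t) * p + (1 + t) * q ∧
        |b2| ≤ 2 - (1 + t) * (p + q)
      simp only [abs_le_iff']
      refine ⟨by linarith, ⟨by linarith, by linarith⟩, ⟨by linarith, by linarith⟩,
        ⟨by linarith, by linarith⟩⟩
    · show ti w 0 0 0 0 1 + F w !₂[p, q, b2] = ti w p q b1 b2 e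
      rw [x0_add, hb1, he]
      rfl
  · rintro ⟨v, hv, rfl⟩
    simp only [x0_add]
    set p := v 0
    set q := v 1
    set b := v 2
    have hv' : p ≤ 1 ∧ |b| ≤ (1 + t) * p - (1 - t) * q ∧ |b| ≤ (1 - t) * p + (1 + t) * q ∧
        |b| ≤ 2 - (1 + t) * (p + q) := hv
    obtain ⟨v1, v2, v3, v4⟩ := hv'
    rw [← htdef]
    have hb0 := abs_nonneg b
    have hbp := le_abs_self b
    have hbn := neg_abs_le b
    have hp : 0 ≤ p := by
      have e1 : 0 ≤ (1 + t) * ((1 + t) * p - (1 - t) * q) := mul_nonneg (by linarith) (by linarith)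
      have e2 : 0 ≤ (1 - t) * ((1 - t) * p + (1 + t) * q) := mul_nonneg (by linarith) (by linarith)
      have e3 : 0 ≤ 2 * (1 + t ^ 2) * p := by nlinarith
      by_contra hneg
      push Not at hneg
      nlinarith [mul_pos (show (0 : ℝ) < 2 * (1 + t ^ 2) by positivity) (neg_pos.2 hneg)]
    have hq1 : q ≤ 1 := by nlinarith
    have htq : t * q ≤ 1 := by nlinarith
    have hβ : |b| ≤ 1 - t * p := by nlinarith
    have hpq : 0 ≤ p + t * q := by
      have e1 : 0 ≤ t * ((1 - t) * p + (1 + t) * q) := mul_nonneg ht.le (by linarith)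
      have e2 : 0 ≤ (1 + t ^ 2) * p := mul_nonneg (by positivity) hp
      have e3 : (1 + t) * (p + t * q) = t * ((1 - t) * p + (1 + t) * q) + (1 + t ^ 2) * p := by ring
      have e4 : 0 ≤ (1 + t) * (p + t * q) := by rw [e3]; linarith
      exact nonneg_of_mul_nonneg_right e4 (by linarith)
    have hlast : |b| + (1 - t) * (p - q) ≤ 2 := by
      have e1 : 0 ≤ (1 - t) * ((1 - t) * p + (1 + t) * q - |b|) :=
        mul_nonneg (by linarith) (by linarith)
      have e2 : (1 + t) * (|b| + (1 - t) * (p - q)) ≤ 2 * t * |b| + 2 * (1 - t) * p := by nlinarith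
      have e3 : t * |b| ≤ t := by nlinarith [mul_nonneg ht.le hp]
      have e4 : (1 - t) * p ≤ 1 - t := by nlinarith
      have e5 : (1 + t) * (|b| + (1 - t) * (p - q)) ≤ (1 + t) * 2 := by nlinarith
      exact le_of_mul_le_mul_left e5 (by linarith)
    refine ⟨?_, ?_, ?_⟩
    · rw [mem_polar]
      rintro ⟨a, a', s, j⟩
      cases j
      · rw [inner_ti_false h, ← htdef]
        cases a <;> cases a' <;> simp only [sg_true, sg_false] <;> nlinarith
      · rw [inner_ti_true h, ← htdef]
        cases a <;> cases a' <;> cases s <;> simp only [sg_true, sg_false] <;> nlinarith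
    · have h3 := inner_ti_false h p q 0 b (1 - p - t * q) true true true
      have := pts_o w
      unfold o at this
      rw [this] at h3
      rw [h3, ← htdef]
      simp only [sg_true]
      ring
    · rw [inner_ti_false h, ← htdef]
      simp only [sg_true, sg_false]
      ring

theorem bs_apply (c d : Fin 3) : bs c d = if d = c then 1 else 0 := by
  simp [bs, PiLp.single_apply]

theorem F_bs0 (w : E 5) : F w (bs 0) = ti w 1 0 0 0 (-1) := by
  rw [F_apply]
  simp only [bs_apply, Fin.ext_iff]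
  norm_num

theorem F_bs1 (w : E 5) : F w (bs 1) = ti w 0 1 0 0 (-tt w) := by
  rw [F_apply]
  simp only [bs_apply, Fin.ext_iff]
  norm_num

theorem F_bs2 (w : E 5) : F w (bs 2) = ti w 0 0 0 1 0 := by
  rw [F_apply]
  simp only [bs_apply, Fin.ext_iff]
  norm_num

theorem inner_ti_ti {w : E 5} (h : core w) (p q b1 b2 e p' q' b1' b2' e' : ℝ) :
    ⟪ti w p q b1 b2 e, ti w p' q' b1' b2' e'⟫ =
      (p * p' + q * q') / w 0 ^ 2 + (b1 * b1' + b2 * b2') / rho w + e * e' / w 4 ^ 2 := by
  have h0 : w 0 ≠ 0 := (h.1.trans h.2.1).ne'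
  have h4 : w 4 ≠ 0 := h.2.2.2.ne'
  have hr := (rho_pos h).ne'
  have hr2 : rho w = w 2 ^ 2 + w 3 ^ 2 := rfl
  simp only [ti, PiLp.inner_apply, Fin.sum_univ_five, RCLike.inner_apply, conj_trivial,
    PiLp.toLp_apply]
  simp only [Matrix.cons_val_zero, Matrix.cons_val_one, Matrix.cons_val]
  field_simp
  rw [hr2]
  ring

theorem norm_sq {w : E 5} (h : core w) :
    ‖w‖ ^ 2 = w 0 ^ 2 * (1 + tt w ^ 2) + rho w + w 4 ^ 2 := by
  have ht := tt_mul h
  rw [EuclideanSpace.norm_sq_eq, Fin.sum_univ_five]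
  simp only [Real.norm_eq_abs, sq_abs]
  rw [ht]
  unfold rho
  ring

theorem inner_w {w : E 5} (h : core w) :
    ⟪w, pts w (true, true, false, false)⟫ = w 0 ^ 2 * (1 + tt w ^ 2) - rho w + w 4 ^ 2 := by
  have ht := tt_mul h
  simp only [pts, PiLp.inner_apply, Fin.sum_univ_five, RCLike.inner_apply, conj_trivial,
    PiLp.toLp_apply]
  simp only [Matrix.cons_val_zero, Matrix.cons_val_one, Matrix.cons_val, sg_true, sg_false]
  rw [ht]
  unfold rho
  ring

theorem den_pos {w : E 5} (h : core w) : 0 < den w := by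
  have h0 : 0 < w 0 := h.1.trans h.2.1
  have h4 : 0 < w 4 := h.2.2.2
  have hr := rho_pos h
  unfold den
  positivity

end WB

open WB in
theorem wb : S_EDG → S_V4 → S_WB := by
  intro hE hV w h
  have ht := tt_pos h
  have ht1 := tt_lt h
  have h0 : 0 < w 0 := h.1.trans h.2.1
  have h4 : 0 < w 4 := h.2.2.2
  have hr := rho_pos h
  have hd := den_pos h
  have hedge : IsEdge (Q w) w (pts w (true, true, false, false)) := (hE w h _).2 rfl
  have hdiff : ‖w‖ ^ 2 * ‖pts w (true, true, false, false)‖ ^ 2 -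
      ⟪w, pts w (true, true, false, false)⟫ ^ 2 =
      4 * rho w * (w 0 ^ 2 * (1 + tt w ^ 2) + w 4 ^ 2) := by
    rw [norm_pts, inner_w h, norm_sq h]
    ring
  have hcw := cw_of_image hedge (F w) (ti w 0 0 0 0 1) (RB (tt w)) (dual h) (1 / (2 * den w))
    (by positivity) (by rw [hdiff]; positivity) (by
      rw [hdiff, Matrix.det_fin_three]
      simp only [Matrix.of_apply, F_bs0, F_bs1, F_bs2, inner_ti_ti h]
      unfold den
      field_simp
      ring)
  rw [hcw, hV (tt w) ht ht1]
  have hwB : 0 ≤ wB (tt w) := by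
    unfold wB N
    have : 0 ≤ 1 + 3 * tt w - tt w ^ 4 + tt w ^ 5 := by
      have e1 : tt w ^ 4 ≤ 1 := pow_le_one₀ ht.le ht1.le
      have e2 : 0 ≤ tt w ^ 5 := by positivity
      linarith
    positivity
  rw [ENNReal.toReal_ofReal (by positivity)]
  field_simp

end Pool.Agent.H126.Orb
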