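import Pool.Agent.H126.Orb.Stm

/-!
# WC1, WC2: the weights of the edges to the vertices `(-,+,s,1)` and `(+,+,s,1)` (MP_6361d2_co)
-/

set_option autoImplicit false

open Set Metric MeasureTheory
open scoped RealInnerProductSpace ContDiff

namespace Pool.Agent.H126.Orb

namespace WC

/-- inner products in normalised coordinates -/
theorem inner_tt {w : E 5} (h : core w) (p q b1 b2 e p' q' b1' b2' e' : ℝ) :
    ⟪ti w p q b1 b2 e, ti w p' q' b1' b2' e'⟫ =
      (p * p' + q * q') / w 0 ^ 2 + (b1 * b1' + b2 * b2') / rho w + e * e' / w 4 ^ 2 := by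
  have h0 : w 0 ≠ 0 := (h.1.trans h.2.1).ne'
  have h4 : w 4 ≠ 0 := h.2.2.2.ne'
  have hr := (rho_pos h).ne'
  have hr2 : rho w = w 2 ^ 2 + w 3 ^ 2 := rfl
  simp only [ti, PiLp.inner_apply, Fin.sum_univ_five, RCLike.inner_apply, conj_trivial,
    PiLp.toLp_apply]
  simp only [Matrix.cons_val_zero, Matrix.cons_val_one, Matrix.cons_val]
  field_simp
  rw [hr2]
  ring

theorem ti_add (w : E 5) (p q b1 b2 e p' q' b1' b2' e' : ℝ) :
    ti w p q b1 b2 e + ti w p' q' b1' b2' e' =
      ti w (p + p') (q + q') (b1 + b1') (b2 + b2') (e + e') := by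
  ext c
  fin_cases c <;> simp [ti] <;> ring

theorem ti_smul (w : E 5) (r p q b1 b2 e : ℝ) :
    r • ti w p q b1 b2 e = ti w (r * p) (r * q) (r * b1) (r * b2) (r * e) := by
  ext c
  fin_cases c <;> simp [ti] <;> ring

/-- the linear map `v ↦ ti w v₀ v₁ (α · v) (β · v) v₂` -/
noncomputable def Fm (w : E 5) (α β : Fin 3 → ℝ) : E 3 →ₗ[ℝ] E 5 where
  toFun := fun v => ti w (v 0) (v 1) (∑ j, α j * v j) (∑ j, β j * v j) (v 2)
  map_add' := fun u v => by
    rw [ti_add]
    simp only [Fin.sum_univ_three, PiLp.add_apply]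
    congr 1 <;> ring
  map_smul' := fun r v => by
    simp only [RingHom.id_apply]
    rw [ti_smul]
    simp only [Fin.sum_univ_three, PiLp.smul_apply, smul_eq_mul]
    congr 1 <;> ring

theorem Fm_apply (w : E 5) (α β : Fin 3 → ℝ) (v : E 3) :
    Fm w α β v = ti w (v 0) (v 1) (∑ j, α j * v j) (∑ j, β j * v j) (v 2) := rfl

theorem Fm_bs0 (w : E 5) (α β : Fin 3 → ℝ) : Fm w α β (bs 0) = ti w 1 0 (α 0) (β 0) 0 := by
  rw [Fm_apply]
  simp [bs]

theorem Fm_bs1 (w : E 5) (α β : Fin 3 → ℝ) : Fm w α β (bs 1) = ti w 0 1 (α 1) (β 1) 0 := by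
  rw [Fm_apply]
  simp [bs]

theorem Fm_bs2 (w : E 5) (α β : Fin 3 → ℝ) : Fm w α β (bs 2) = ti w 0 0 (α 2) (β 2) 1 := by
  rw [Fm_apply]
  simp [bs]

theorem inner_w {w : E 5} (h : core w) (p q b1 b2 e : ℝ) :
    ⟪ti w p q b1 b2 e, w⟫ = p + tt w * q + b1 + e := by
  have h1 := inner_ti_false h p q b1 b2 e true true true
  have h2 : pts w (true, true, true, false) = w := pts_o w
  rw [h2] at h1
  rw [h1]
  simp

theorem norm_sq_w {w : E 5} (h : core w) :
    ‖w‖ ^ 2 = w 0 ^ 2 * (1 + tt w ^ 2) + rho w + w 4 ^ 2 := by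
  rw [EuclideanSpace.norm_sq_eq, Fin.sum_univ_five]
  simp only [Real.norm_eq_abs, sq_abs]
  rw [tt_mul h]
  unfold rho
  ring

theorem Npos {t : ℝ} (ht : 0 < t) : 0 < N t := by unfold N; positivity

end WC

open WC

theorem wc1 (hE : S_EDG) (hV : S_V5) : S_WC1 := by
  intro w h s
  have h0 : 0 < w 0 := h.1.trans h.2.1
  have h4 : 0 < w 4 := h.2.2.2
  have hr := rho_pos h
  have ht0 := tt_pos h
  have ht1 := tt_lt h
  have hm := tt_mul h
  set t := tt w with ht
  have hedge : IsEdge (Q w) w (pts w (false, true, s, true)) := (hE w h _).2 (by cases s <;> rfl)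
  have hss : sg s * sg s = 1 := sg_mul_self s
  have hface : dualFace (Q w) w (pts w (false, true, s, true)) =
      (fun v => ti w 0 0 1 (sg s) 0 + Fm w ![-1, -t, -1] ![sg s * t, -sg s, -sg s] v) '' RC1 t := by
    ext x
    constructor
    · rintro ⟨hx1, hx2, hx3⟩
      rw [mem_polar] at hx1
      rw [exists_ti h x] at hx1 hx2 hx3
      set p := w 0 * x 0 with hp
      set q := w 0 * x 1 with hq
      set b1 := w 2 * x 2 + w 3 * x 3 with hb1
      set b2 := w 2 * x 3 - w 3 * x 2 with hb2
      set e := w 4 * x 4 with he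
      rw [inner_w h] at hx2
      rw [inner_ti_true h] at hx3
      simp only [sg_true, sg_false] at hx3
      rw [← ht] at hx2 hx3
      have e1 := hx1 (true, true, false, false)
      have e2 := hx1 (false, false, true, false)
      have e3 := hx1 (false, true, true, false)
      rw [inner_ti_false h] at e1 e2 e3
      simp only [sg_true, sg_false] at e1 e2 e3
      rw [← ht] at e1 e2 e3
      have e4 := hx1 (false, true, !s, true)
      have e5 := hx1 (true, true, s, true)
      have e6 := hx1 (true, false, s, true)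
      rw [inner_ti_true h] at e4 e5 e6
      rw [sg_not] at e4
      simp only [sg_true, sg_false] at e4 e5 e6
      rw [← ht] at e4 e5 e6
      refine ⟨!₂[p, q, e], ?_, ?_⟩
      · refine ⟨?_, ?_, ?_, ?_, ?_, ?_⟩ <;> simp <;> linarith
      · show ti w 0 0 1 (sg s) 0 + Fm w ![-1, -t, -1] ![sg s * t, -sg s, -sg s] !₂[p, q, e] = x
        rw [Fm_apply, ti_add]
        conv_rhs => rw [exists_ti h x]
        simp only [Fin.sum_univ_three]
        simp
        have hb2' : b2 = sg s * (1 - (-(t * p) + q + e)) := by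
          have : sg s * b2 = 1 - (-(t * p) + q + e) := by linarith
          rw [← this, ← mul_assoc, hss, one_mul]
        congr 1
        · linarith
        · rw [← hb2, hb2']; ring
    · rintro ⟨v, hv, rfl⟩
      obtain ⟨c1, c2, c3, c4, c5, c6⟩ := hv
      have hve : 0 ≤ v 2 := by
        have k1 : 0 ≤ t * (v 2 + v 0) := mul_nonneg ht0.le c4
        have k2 : 0 ≤ (1 + t) * v 2 := by nlinarith
        exact (mul_nonneg_iff_of_pos_left (by linarith)).1 k2
      have hvq : 0 ≤ v 1 := by
        have k1 : 0 ≤ t * (v 0 + t * v 1) := mul_nonneg ht0.le c1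
        have k2 : 0 ≤ (1 + t ^ 2) * v 1 := by nlinarith
        exact (mul_nonneg_iff_of_pos_left (by positivity)).1 k2
      have htq : 0 ≤ t * v 1 := mul_nonneg ht0.le hvq
      show ti w 0 0 1 (sg s) 0 + Fm w ![-1, -t, -1] ![sg s * t, -sg s, -sg s] v ∈ _
      rw [Fm_apply, ti_add]
      simp only [Fin.sum_univ_three, Matrix.cons_val_zero, Matrix.cons_val_one, Matrix.cons_val]
      refine ⟨?_, ?_, ?_⟩
      · rw [mem_polar]
        rintro ⟨a, b, s', j⟩
        cases j
        · rw [inner_ti_false h, ← ht]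
          cases a <;> cases b <;> cases s' <;> simp <;> linarith
        · rw [inner_ti_true h, ← ht]
          have key : sg s' * (sg s + (sg s * t * v 0 + -sg s * v 1 + -sg s * v 2)) =
              sg s' * sg s * (1 - (-t * v 0 + v 1 + v 2)) := by ring
          have key2 : sg s' * sg s * (1 - (-t * v 0 + v 1 + v 2)) ≤
              1 - (-t * v 0 + v 1 + v 2) := by
            have hle : sg s' * sg s ≤ 1 := by cases s' <;> cases s <;> simp
            exact mul_le_of_le_one_left (by linarith) hle
          rw [key]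
          cases a <;> cases b <;> simp only [sg_true, sg_false] <;> linarith
      · rw [inner_w h, ← ht]
        ring
      · rw [inner_ti_true h, ← ht]
        simp only [sg_true, sg_false]
        have key : sg s * (sg s + (sg s * t * v 0 + -sg s * v 1 + -sg s * v 2)) =
            (sg s * sg s) * (1 - (-t * v 0 + v 1 + v 2)) := by ring
        rw [key, hss]
        ring
  have hnw := norm_sq_w h
  have hin : ⟪w, pts w (false, true, s, true)⟫ = w 4 ^ 2 := by
    simp only [pts, PiLp.inner_apply, Fin.sum_univ_five, RCLike.inner_apply, conj_trivial,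
      PiLp.toLp_apply, sg_true, sg_false]
    simp only [Matrix.cons_val_zero, Matrix.cons_val_one, Matrix.cons_val]
    ring
  have hdet : ‖w‖ ^ 2 * ‖pts w (false, true, s, true)‖ ^ 2 -
      ⟪w, pts w (false, true, s, true)⟫ ^ 2 =
      (w 0 ^ 2 * (1 + t ^ 2) + rho w) * (w 0 ^ 2 * (1 + t ^ 2) + rho w + 2 * w 4 ^ 2) := by
    rw [norm_pts, hin, hnw]
    ring
  have hden : 0 < den w := by unfold den; positivity
  have hcw := cw_of_image hedge (Fm w ![-1, -t, -1] ![sg s * t, -sg s, -sg s])
    (ti w 0 0 1 (sg s) 0) (RC1 t) hface (1 / den w) (by positivity)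
    (by rw [hdet]; positivity) (by
      rw [hdet, Matrix.det_fin_three]
      simp only [Matrix.of_apply, Fm_bs0, Fm_bs1, Fm_bs2, inner_tt h]
      simp only [Matrix.cons_val_zero, Matrix.cons_val_one, Matrix.cons_val]
      unfold den
      have h0' := h0.ne'
      have h4' := h4.ne'
      have hr' := hr.ne'
      rcases Bool.eq_false_or_eq_true s with hs | hs
      · rw [hs]
        simp only [sg_true]
        field_simp
        ring
      · rw [hs]
        simp only [sg_false]
        field_simp
        ring)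
  rw [hcw, hV t ht0 ht1, ENNReal.toReal_ofReal]
  · ring
  · unfold wC1
    have hN := Npos ht0
    have : 0 ≤ 2 + t + 2 * t ^ 2 - t ^ 3 := by nlinarith [pow_le_one₀ ht0.le ht1.le (n := 3)]
    positivity

theorem wc2 (hE : S_EDG) (hV : S_V6) : S_WC2 := by
  intro w h s
  have h0 : 0 < w 0 := h.1.trans h.2.1
  have h4 : 0 < w 4 := h.2.2.2
  have hr := rho_pos h
  have ht0 := tt_pos h
  have ht1 := tt_lt h
  have hm := tt_mul h
  set t := tt w with ht
  have hedge : IsEdge (Q w) w (pts w (true, true, s, true)) := (hE w h _).2 (by cases s <;> rfl)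
  have hss : sg s * sg s = 1 := sg_mul_self s
  have hface : dualFace (Q w) w (pts w (true, true, s, true)) =
      (fun v => ti w 0 0 1 (sg s) 0 + Fm w ![-1, -t, -1] ![-sg s * t, -sg s, sg s] v) '' RC2 t := by
    ext x
    constructor
    · rintro ⟨hx1, hx2, hx3⟩
      rw [mem_polar] at hx1
      rw [exists_ti h x] at hx1 hx2 hx3
      set p := w 0 * x 0 with hp
      set q := w 0 * x 1 with hq
      set b1 := w 2 * x 2 + w 3 * x 3 with hb1
      set b2 := w 2 * x 3 - w 3 * x 2 with hb2
      set e := w 4 * x 4 with he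
      rw [inner_w h] at hx2
      rw [inner_ti_true h] at hx3
      simp only [sg_true, sg_false] at hx3
      rw [← ht] at hx2 hx3
      have e1 := hx1 (true, true, false, false)
      have e2 := hx1 (true, false, true, false)
      have e3 := hx1 (false, true, true, false)
      rw [inner_ti_false h] at e1 e2 e3
      simp only [sg_true, sg_false] at e1 e2 e3
      rw [← ht] at e1 e2 e3
      have e4 := hx1 (true, true, !s, true)
      have e5 := hx1 (false, true, s, true)
      have e6 := hx1 (true, false, s, true)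
      rw [inner_ti_true h] at e4 e5 e6
      rw [sg_not] at e4
      simp only [sg_true, sg_false] at e4 e5 e6
      rw [← ht] at e4 e5 e6
      refine ⟨!₂[p, q, e], ?_, ?_⟩
      · refine ⟨?_, ?_, ?_, ?_, ?_, ?_⟩ <;> simp <;> linarith
      · show ti w 0 0 1 (sg s) 0 + Fm w ![-1, -t, -1] ![-sg s * t, -sg s, sg s] !₂[p, q, e] = x
        rw [Fm_apply, ti_add]
        conv_rhs => rw [exists_ti h x]
        simp only [Fin.sum_univ_three]
        simp
        have hb2' : b2 = sg s * (1 - (t * p + q - e)) := by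
          have : sg s * b2 = 1 - (t * p + q - e) := by linarith
          rw [← this, ← mul_assoc, hss, one_mul]
        congr 1
        · linarith
        · rw [← hb2, hb2']; ring
    · rintro ⟨v, hv, rfl⟩
      obtain ⟨c1, c2, c3, c4, c5, c6⟩ := hv
      have hvp : 0 ≤ v 0 := by
        have k2 : 0 ≤ (1 + t) * v 0 := by nlinarith
        exact (mul_nonneg_iff_of_pos_left (by linarith)).1 k2
      have hvq : 0 ≤ v 1 := by
        have k2 : 0 ≤ (1 + t) * v 1 := by nlinarith
        exact (mul_nonneg_iff_of_pos_left (by linarith)).1 k2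
      have htp : 0 ≤ t * v 0 := mul_nonneg ht0.le hvp
      have htq : 0 ≤ t * v 1 := mul_nonneg ht0.le hvq
      show ti w 0 0 1 (sg s) 0 + Fm w ![-1, -t, -1] ![-sg s * t, -sg s, sg s] v ∈ _
      rw [Fm_apply, ti_add]
      simp only [Fin.sum_univ_three, Matrix.cons_val_zero, Matrix.cons_val_one, Matrix.cons_val]
      refine ⟨?_, ?_, ?_⟩
      · rw [mem_polar]
        rintro ⟨a, b, s', j⟩
        cases j
        · rw [inner_ti_false h, ← ht]
          cases a <;> cases b <;> cases s' <;> simp <;> linarith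
        · rw [inner_ti_true h, ← ht]
          have key : sg s' * (sg s + (-sg s * t * v 0 + -sg s * v 1 + sg s * v 2)) =
              sg s' * sg s * (1 - (t * v 0 + v 1 - v 2)) := by ring
          have key2 : sg s' * sg s * (1 - (t * v 0 + v 1 - v 2)) ≤
              1 - (t * v 0 + v 1 - v 2) := by
            have hle : sg s' * sg s ≤ 1 := by cases s' <;> cases s <;> simp
            exact mul_le_of_le_one_left (by linarith) hle
          rw [key]
          cases a <;> cases b <;> simp only [sg_true, sg_false] <;> linarith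
      · rw [inner_w h, ← ht]
        ring
      · rw [inner_ti_true h, ← ht]
        simp only [sg_true, sg_false]
        have key : sg s * (sg s + (-sg s * t * v 0 + -sg s * v 1 + sg s * v 2)) =
            (sg s * sg s) * (1 - (t * v 0 + v 1 - v 2)) := by ring
        rw [key, hss]
        ring
  have hnw := norm_sq_w h
  have hin : ⟪w, pts w (true, true, s, true)⟫ = 2 * t * w 0 ^ 2 - w 4 ^ 2 := by
    simp only [pts, PiLp.inner_apply, Fin.sum_univ_five, RCLike.inner_apply, conj_trivial,
      PiLp.toLp_apply, sg_true, sg_false]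
    simp only [Matrix.cons_val_zero, Matrix.cons_val_one, Matrix.cons_val]
    rw [hm]
    ring
  have hdet : ‖w‖ ^ 2 * ‖pts w (true, true, s, true)‖ ^ 2 -
      ⟪w, pts w (true, true, s, true)⟫ ^ 2 =
      (w 0 ^ 2 * (1 - t) ^ 2 + rho w + 2 * w 4 ^ 2) * (w 0 ^ 2 * (1 + t) ^ 2 + rho w) := by
    rw [norm_pts, hin, hnw]
    ring
  have hden : 0 < den w := by unfold den; positivity
  have hcw := cw_of_image hedge (Fm w ![-1, -t, -1] ![-sg s * t, -sg s, sg s])
    (ti w 0 0 1 (sg s) 0) (RC2 t) hface (1 / den w) (by positivity)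
    (by rw [hdet]; positivity) (by
      rw [hdet, Matrix.det_fin_three]
      simp only [Matrix.of_apply, Fm_bs0, Fm_bs1, Fm_bs2, inner_tt h]
      simp only [Matrix.cons_val_zero, Matrix.cons_val_one, Matrix.cons_val]
      unfold den
      have h0' := h0.ne'
      have h4' := h4.ne'
      have hr' := hr.ne'
      rcases Bool.eq_false_or_eq_true s with hs | hs
      · rw [hs]
        simp only [sg_true]
        field_simp
        ring
      · rw [hs]
        simp only [sg_false]
        field_simp
        ring)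
  rw [hcw, hV t ht0 ht1, ENNReal.toReal_ofReal]
  · ring
  · unfold wC2
    have hN := Npos ht0
    have : 0 ≤ 3 + t + t ^ 2 - t ^ 3 := by nlinarith [pow_le_one₀ ht0.le ht1.le (n := 3)]
    positivity

end Pool.Agent.H126.Orb
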