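import Pool.Agent.H126.Orb.Asm
import Pool.Agent.H126.Orb.TET
import Pool.Agent.H126.Orb.V13
import Pool.Agent.H126.Orb.V2
import Pool.Agent.H126.Orb.V4
import Pool.Agent.H126.Orb.V5
import Pool.Agent.H126.Orb.V6
import Pool.Agent.H126.Orb.EDG
import Pool.Agent.H126.Orb.WA
import Pool.Agent.H126.Orb.WB
import Pool.Agent.H126.Orb.WC
import Pool.Agent.H126.Orb.WALL
import Pool.Agent.H126.Orb.LOW
import Pool.Agent.H126.Orb.CONST
import Pool.Agent.H126.Orb.CODE
import Pool.Agent.H126.Orb.DIM
import Pool.Agent.H126.Orb.ND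
import Pool.Agent.H126.Orb.NI
import Pool.Agent.H126.Orb.SUB
import Pool.Agent.H126.Orb.MAN
import Pool.Agent.H126.Orb.STR

/-!
# All parts together (MP_6361d2_co)
-/

set_option autoImplicit false

namespace Pool.Agent.H126.Orb

theorem main_full : Main := by
  have hT := tet
  have hS := split
  have hV := vert
  have hE := edg hV
  have hW := wall hE (wa1 hE (v1 hT hS)) (wa2 hE (v2 hT hS)) (wa3 hE (v3 hT hS))
    (wb hE (v4 hT hS)) (wc1 hE (v5 hT hS)) (wc2 hE (v6 hT hS))
  have hC := code const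
  exact main (man hC dim nd_eq sub_chart) (str hC dim nd_eq ni) full (lam hV hW) low up

end Pool.Agent.H126.Orb
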