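import Pool.Agent.H126.Orb.Defs

/-!
# The group of order 16 (MP_6361d2_co)

`Γ` is a group of 16 signed permutation matrices in dimension 5.  With `z = (w 0, w 1)`,
`y = (w 2, w 3)` (both regarded as complex numbers) and `a = w 4` it is generated by
`(z, y, a) ↦ (i z, i y, a)`, `(z, y, a) ↦ (z̄, y, -a)` and `(z, y, a) ↦ (z, -y, a)`.
-/

set_option autoImplicit false

open Set Metric MeasureTheory
open scoped RealInnerProductSpace ContDiff

namespace Pool.Agent.H126.Orb

/-- Index type of the group: three signs (`true` is `+`) and a swap bit. -/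
abbrev I := Bool × Bool × Bool × Bool

/-- The sign of a Boolean: `true ↦ 1`, `false ↦ -1`. -/
def sg (x : Bool) : ℝ := if x then 1 else -1

@[simp] theorem sg_true : sg true = 1 := rfl
@[simp] theorem sg_false : sg false = -1 := rfl

/-- The images of `w` under the 16 elements of the group. -/
def pts (w : E 5) : I → E 5
  | (a, b, s, false) => !₂[sg a * w 0, sg b * w 1, sg s * w 2, sg s * w 3, sg a * sg b * w 4]
  | (a, b, s, true) => !₂[sg a * w 1, sg b * w 0, -(sg s * w 3), sg s * w 2, -(sg a * sg b * w 4)]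

/-- The neutral element. -/
def o : I := (true, true, true, false)

/-- Multiplication. -/
def mulI : I → I → I
  | (a, b, s, false), (a', b', s', j') => (a == a', b == b', s == s', j')
  | (a, b, s, true), (a', b', s', j') => (a == b', b == a', (s == s') == !j', !j')

/-- Inverse. -/
def invI : I → I
  | (a, b, s, false) => (a, b, s, false)
  | (a, b, s, true) => (b, a, !s, true)

/-- The element taking the point with index `i` to the point with index `j`. -/
def rel (i j : I) : I := mulI (invI i) j

theorem mulI_invI : ∀ i, mulI i (invI i) = o ∧ mulI (invI i) i = o ∧ mulI o i = i ∧ mulI i o = i := by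
  decide

theorem mulI_assoc : ∀ i j l, mulI (mulI i j) l = mulI i (mulI j l) := by
  decide

theorem pts_o (w : E 5) : pts w o = w := by
  ext c; fin_cases c <;> simp [pts, o]

theorem sg_beq (x y : Bool) : sg (x == y) = sg x * sg y := by cases x <;> cases y <;> simp

theorem sg_not (x : Bool) : sg (!x) = -sg x := by cases x <;> simp

theorem sg_mul_self (x : Bool) : sg x * sg x = 1 := by cases x <;> simp

theorem pts_mul (w : E 5) (i j : I) : pts (pts w j) i = pts w (mulI i j) := by
  obtain ⟨a, b, s, x⟩ := i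
  obtain ⟨a', b', s', x'⟩ := j
  cases x <;> cases x' <;> cases s <;> cases s' <;>
    (ext c; fin_cases c <;> simp [pts, mulI, sg_beq] <;> ring)

theorem pts_add (v w : E 5) (i : I) : pts (v + w) i = pts v i + pts w i := by
  obtain ⟨a, b, s, x⟩ := i
  cases x <;> (ext c; fin_cases c <;> simp [pts] <;> ring)

theorem pts_smul (r : ℝ) (w : E 5) (i : I) : pts (r • w) i = r • pts w i := by
  obtain ⟨a, b, s, x⟩ := i
  cases x <;> (ext c; fin_cases c <;> simp [pts] <;> ring)

theorem sg_sq (x : Bool) : sg x ^ 2 = 1 := by cases x <;> simp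

theorem norm_pts (w : E 5) (i : I) : ‖pts w i‖ = ‖w‖ := by
  obtain ⟨a, b, s, x⟩ := i
  rw [EuclideanSpace.norm_eq, EuclideanSpace.norm_eq]
  congr 1
  cases x <;> cases a <;> cases b <;> cases s <;> simp [pts, Fin.sum_univ_five] <;> ring

/-- The isometry with index `i`. -/
noncomputable def L (i : I) : E 5 ≃ₗᵢ[ℝ] E 5 :=
  LinearIsometry.toLinearIsometryEquiv
    { toFun := fun w => pts w i
      map_add' := fun v w => pts_add v w i
      map_smul' := fun r w => pts_smul r w i
      norm_map' := fun w => norm_pts w i } rfl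

@[simp] theorem L_apply (i : I) (w : E 5) : L i w = pts w i := rfl

theorem L_mul (i j : I) : L i * L j = L (mulI i j) := by
  ext w : 1
  show pts (pts w j) i = pts w (mulI i j)
  exact pts_mul w i j

theorem L_o : L o = 1 := by
  ext w : 1
  exact pts_o w

/-- The group. -/
noncomputable def G : Subgroup (E 5 ≃ₗᵢ[ℝ] E 5) where
  carrier := Set.range L
  mul_mem' := by
    rintro _ _ ⟨i, rfl⟩ ⟨j, rfl⟩
    exact ⟨_, (L_mul i j).symm⟩
  one_mem' := ⟨o, L_o⟩
  inv_mem' := by
    rintro _ ⟨i, rfl⟩
    refine ⟨invI i, ?_⟩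
    rw [eq_inv_iff_mul_eq_one, L_mul, (mulI_invI i).2.1, L_o]

theorem mem_G (g : E 5 ≃ₗᵢ[ℝ] E 5) : g ∈ G ↔ ∃ i, L i = g := Iff.rfl

theorem finite_G : Finite G := by
  have : (Set.range L).Finite := Set.finite_range L
  exact this.to_subtype

/-- The orbit polytope of `w`. -/
def Q (w : E 5) : Set (E 5) := convexHull ℝ (Set.range (pts w))

theorem orbPoly_G (w : E 5) : orbPoly G w = Q w := by
  unfold orbPoly Q
  congr 1
  ext x
  constructor
  · rintro ⟨_, ⟨i, rfl⟩, h⟩
    exact ⟨i, h⟩
  · rintro ⟨i, h⟩
    exact ⟨L i, ⟨i, rfl⟩, h⟩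

/-- The normalised points. -/
def nrm (t : ℝ) : E 5 := !₂[1, t, 1, 0, 1]

end Pool.Agent.H126.Orb
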