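import Pool.Agent.H126.Orb.Stm

/-!
# The dimension of the orbit polytope (MP_6361d2_co, leaves ND and FULL)
-/

set_option autoImplicit false

open Set Metric MeasureTheory
open scoped RealInnerProductSpace ContDiff

namespace Pool.Agent.H126.Orb

namespace ND

/-- The standard basis vectors of `ℝ⁵`. -/
noncomputable def eb (c : Fin 5) : E 5 := EuclideanSpace.single c 1

open Classical in
/-- The set of the coordinates which are in nonzero blocks. -/
noncomputable def blk (w : E 5) : Finset (Fin 5) :=
  (if w 0 = 0 ∧ w 1 = 0 then ∅ else {0, 1}) ∪ (if w 2 = 0 ∧ w 3 = 0 then ∅ else {2, 3}) ∪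
    (if w 4 = 0 then ∅ else {4})

theorem card_blk (w : E 5) : (blk w).card = nd w := by
  unfold blk nd
  split_ifs <;> rfl

/-- The vector span of the sixteen points. -/
noncomputable def V (w : E 5) : Submodule ℝ (E 5) := vectorSpan ℝ (Set.range (pts w))

theorem sub_mem_V (w : E 5) (i j : I) : pts w i - pts w j ∈ V w :=
  vsub_mem_vectorSpan ℝ ⟨i, rfl⟩ ⟨j, rfl⟩

/-- The coordinate subspace. -/
def M (w : E 5) : Submodule ℝ (E 5) where
  carrier := {x | (w 0 = 0 ∧ w 1 = 0 → x 0 = 0 ∧ x 1 = 0) ∧ (w 2 = 0 ∧ w 3 = 0 → x 2 = 0 ∧ x 3 = 0) ∧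
    (w 4 = 0 → x 4 = 0)}
  add_mem' := by
    rintro x y ⟨h1, h2, h3⟩ ⟨k1, k2, k3⟩
    refine ⟨fun h => ?_, fun h => ?_, fun h => ?_⟩
    · simp [h1 h, k1 h]
    · simp [h2 h, k2 h]
    · simp [h3 h, k3 h]
  zero_mem' := by simp
  smul_mem' := by
    rintro c x ⟨h1, h2, h3⟩
    refine ⟨fun h => ?_, fun h => ?_, fun h => ?_⟩
    · simp [h1 h]
    · simp [h2 h]
    · simp [h3 h]

theorem pts_mem_M (w : E 5) (i : I) : pts w i ∈ M w := by
  obtain ⟨a, b, s, x⟩ := i
  cases x
  · refine ⟨fun h => ?_, fun h => ?_, fun h => ?_⟩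
    · simp [pts, h.1, h.2]
    · simp [pts, h.1, h.2]
    · simp [pts, h]
  · refine ⟨fun h => ?_, fun h => ?_, fun h => ?_⟩
    · simp [pts, h.1, h.2]
    · simp [pts, h.1, h.2]
    · simp [pts, h]

theorem V_le_M (w : E 5) : V w ≤ M w := by
  unfold V vectorSpan
  rw [Submodule.span_le]
  rintro _ ⟨_, ⟨i, rfl⟩, _, ⟨j, rfl⟩, rfl⟩
  exact (M w).sub_mem (pts_mem_M w i) (pts_mem_M w j)

theorem M_le_span (w : E 5) : M w ≤ Submodule.span ℝ (eb '' (blk w : Set (Fin 5))) := by
  rintro x ⟨h1, h2, h3⟩
  have hx : x = ∑ c, x c • eb c := by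
    ext c
    fin_cases c <;> simp [eb, Fin.sum_univ_five]
  rw [hx]
  refine Submodule.sum_mem _ fun c _ => ?_
  by_cases hc : c ∈ blk w
  · exact Submodule.smul_mem _ _ (Submodule.subset_span ⟨c, hc, rfl⟩)
  · have : x c = 0 := by
      unfold blk at hc
      simp only [Finset.mem_union, not_or] at hc
      obtain ⟨⟨c1, c2⟩, c3⟩ := hc
      fin_cases c
      · by_cases h : w 0 = 0 ∧ w 1 = 0
        · exact (h1 h).1
        · rw [if_neg h] at c1
          exact absurd (by simp) c1
      · by_cases h : w 0 = 0 ∧ w 1 = 0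
        · exact (h1 h).2
        · rw [if_neg h] at c1
          exact absurd (by simp) c1
      · by_cases h : w 2 = 0 ∧ w 3 = 0
        · exact (h2 h).1
        · rw [if_neg h] at c2
          exact absurd (by simp) c2
      · by_cases h : w 2 = 0 ∧ w 3 = 0
        · exact (h2 h).2
        · rw [if_neg h] at c2
          exact absurd (by simp) c2
      · by_cases h : w 4 = 0
        · exact h3 h
        · rw [if_neg h] at c3
          exact absurd (by simp) c3
    rw [this, zero_smul]
    exact Submodule.zero_mem _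

theorem eb_mem_of_smul (w : E 5) (c : Fin 5) {r : ℝ} (hr : r ≠ 0) (h : r • eb c ∈ V w) :
    eb c ∈ V w := by
  have := (V w).smul_mem r⁻¹ h
  rwa [smul_smul, inv_mul_cancel₀ hr, one_smul] at this

theorem mem0 (w : E 5) : (4 * w 0) • eb 0 ∈ V w := by
  have h := (V w).add_mem (sub_mem_V w (true, true, true, false) (false, false, true, false))
    (sub_mem_V w (true, false, true, false) (false, true, true, false))
  convert h using 1
  ext c
  fin_cases c <;> simp [pts, eb] <;> ring

theorem mem0' (w : E 5) : (4 * w 1) • eb 0 ∈ V w := by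
  have h := (V w).add_mem (sub_mem_V w (true, true, true, true) (false, false, true, true))
    (sub_mem_V w (true, false, true, true) (false, true, true, true))
  convert h using 1
  ext c
  fin_cases c <;> simp [pts, eb] <;> ring

theorem mem1 (w : E 5) : (4 * w 1) • eb 1 ∈ V w := by
  have h := (V w).sub_mem (sub_mem_V w (true, true, true, false) (false, false, true, false))
    (sub_mem_V w (true, false, true, false) (false, true, true, false))
  convert h using 1
  ext c
  fin_cases c <;> simp [pts, eb] <;> ring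

theorem mem1' (w : E 5) : (4 * w 0) • eb 1 ∈ V w := by
  have h := (V w).sub_mem (sub_mem_V w (true, true, true, true) (false, false, true, true))
    (sub_mem_V w (true, false, true, true) (false, true, true, true))
  convert h using 1
  ext c
  fin_cases c <;> simp [pts, eb] <;> ring

theorem mem2 (w : E 5) : (2 * (w 2 ^ 2 + w 3 ^ 2)) • eb 2 ∈ V w := by
  have h := (V w).sub_mem
    ((V w).smul_mem (w 2) (sub_mem_V w (true, true, true, false) (true, true, false, false)))
    ((V w).smul_mem (w 3) (sub_mem_V w (true, true, true, true) (true, true, false, true)))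
  convert h using 1
  ext c
  fin_cases c <;> simp [pts, eb] <;> ring

theorem mem3 (w : E 5) : (2 * (w 2 ^ 2 + w 3 ^ 2)) • eb 3 ∈ V w := by
  have h := (V w).add_mem
    ((V w).smul_mem (w 3) (sub_mem_V w (true, true, true, false) (true, true, false, false)))
    ((V w).smul_mem (w 2) (sub_mem_V w (true, true, true, true) (true, true, false, true)))
  convert h using 1
  ext c
  fin_cases c <;> simp [pts, eb] <;> ring

theorem mem4 (w : E 5) : (4 * w 4) • eb 4 ∈ V w := by
  have h := (V w).add_mem (sub_mem_V w (true, true, true, false) (true, false, true, false))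
    (sub_mem_V w (false, false, true, false) (false, true, true, false))
  convert h using 1
  ext c
  fin_cases c <;> simp [pts, eb] <;> ring

theorem span_le_V (w : E 5) : Submodule.span ℝ (eb '' (blk w : Set (Fin 5))) ≤ V w := by
  rw [Submodule.span_le]
  rintro _ ⟨c, hc, rfl⟩
  have hc' : c ∈ blk w := hc
  unfold blk at hc'
  simp only [Finset.mem_union] at hc'
  rcases hc' with (h | h) | h
  · by_cases h0 : w 0 = 0 ∧ w 1 = 0
    · simp [h0] at h
    · rw [if_neg h0] at h
      simp only [Finset.mem_insert, Finset.mem_singleton] at h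
      by_cases h1 : w 0 = 0
      · have h2 : w 1 ≠ 0 := fun h' => h0 ⟨h1, h'⟩
        rcases h with rfl | rfl
        · exact eb_mem_of_smul w 0 (by positivity) (mem0' w)
        · exact eb_mem_of_smul w 1 (by positivity) (mem1 w)
      · rcases h with rfl | rfl
        · exact eb_mem_of_smul w 0 (by positivity) (mem0 w)
        · exact eb_mem_of_smul w 1 (by positivity) (mem1' w)
  · by_cases h0 : w 2 = 0 ∧ w 3 = 0
    · simp [h0] at h
    · rw [if_neg h0] at h
      simp only [Finset.mem_insert, Finset.mem_singleton] at h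
      have h1 : 2 * (w 2 ^ 2 + w 3 ^ 2) ≠ 0 := by
        intro h2
        apply h0
        constructor <;> nlinarith [sq_nonneg (w 2), sq_nonneg (w 3)]
      rcases h with rfl | rfl
      · exact eb_mem_of_smul w 2 h1 (mem2 w)
      · exact eb_mem_of_smul w 3 h1 (mem3 w)
  · by_cases h0 : w 4 = 0
    · simp [h0] at h
    · rw [if_neg h0] at h
      simp only [Finset.mem_singleton] at h
      subst h
      exact eb_mem_of_smul w 4 (by positivity) (mem4 w)

theorem V_eq (w : E 5) : V w = Submodule.span ℝ (eb '' (blk w : Set (Fin 5))) :=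
  le_antisymm ((V_le_M w).trans (M_le_span w)) (span_le_V w)

theorem eb_eq : eb = ⇑(EuclideanSpace.basisFun (Fin 5) ℝ).toBasis := by
  ext c : 1
  simp [eb]

theorem finrank_span (S : Finset (Fin 5)) :
    Module.finrank ℝ (Submodule.span ℝ (eb '' (S : Set (Fin 5)))) = S.card := by
  have hli : LinearIndependent ℝ eb := by
    rw [eb_eq]
    exact (EuclideanSpace.basisFun (Fin 5) ℝ).toBasis.linearIndependent
  have h1 : LinearIndependent ℝ (fun c : (S : Set (Fin 5)) => eb c) :=
    hli.comp _ Subtype.val_injective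
  have h2 := finrank_span_eq_card h1
  have h3 : Set.range (fun c : (S : Set (Fin 5)) => eb c) = eb '' (S : Set (Fin 5)) := by
    rw [Set.image_eq_range]
  rw [h3] at h2
  rw [h2]
  simp

end ND

/-- ND: the dimension of the affine span of the orbit. -/
theorem nd_eq : S_ND := by
  intro w
  have h := ND.V_eq w
  unfold ND.V at h
  rw [h, ND.finrank_span, ND.card_blk]

/-- FULL: the orbit polytope of a point of the core is full-dimensional. -/
theorem full : S_FULL := by
  intro w hw
  have h1 : Module.finrank ℝ (vectorSpan ℝ (Set.range (pts w))) = 5 := by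
    rw [nd_eq w]
    unfold nd
    have h0 : 0 < w 0 := hw.1.trans hw.2.1
    have h2 : ¬ (w 2 = 0 ∧ w 3 = 0) := by
      rintro ⟨h3, h4⟩
      rcases hw.2.2.1 with h | h
      · exact h h3
      · exact h h4
    rw [if_neg (fun h => h0.ne' h.1), if_neg h2, if_neg hw.2.2.2.ne']
  have h2 : vectorSpan ℝ (Set.range (pts w)) = ⊤ := by
    apply Submodule.eq_top_of_finrank_eq
    rw [h1]
    simp
  unfold FullDim Q
  rw [interior_convexHull_nonempty_iff_affineSpan_eq_top,
    AffineSubspace.affineSpan_eq_top_iff_vectorSpan_eq_top_of_nonempty ℝ (E 5) (E 5)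
      (Set.range_nonempty _)]
  exact h2

end Pool.Agent.H126.Orb
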