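import Pool.Agent.H126.Orb.Coord
import Pool.Graph.R_seed8.R29.OP.A1

/-!
# Statements of the leaves (MP_6361d2_co), with proofs

The example: `G` is the group of order 16 of `Grp.lean`, `k = 5`.  For `w` with
`z = (w 0, w 1)`, `y = (w 2, w 3)`, `a = w 4` the stratum is `core w` (that is `0 < w 1 < w 0`,
`y ≠ 0`, `w 4 > 0`), on which `λ_1` is a function of `t = w 1 / w 0 ∈ (0,1)` only:
`λ_1 = (3+2t+3t²)/(9+20t+11t²+4t³-6t⁴+2t⁵)`, which is `> 1/5` and tends to `1/5` for `t → 1`.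
-/

set_option autoImplicit false

open Set Metric MeasureTheory
open scoped RealInnerProductSpace ContDiff

namespace Pool.Agent.H126.Orb

open Pool.Agent.R29.OP (FaceSet)

/-! ## The weights -/

/-- `1 + t + t²` -/
noncomputable def N (t : ℝ) : ℝ := 1 + t + t ^ 2
noncomputable def wA1 (t : ℝ) : ℝ := 1 / (3 * N t)
noncomputable def wA2 (t : ℝ) : ℝ := (3 - t + t ^ 2 - 2 * t ^ 3 + t ^ 4) / (3 * (1 + t) * N t)
noncomputable def wA3 (t : ℝ) : ℝ := t / (3 * N t)
noncomputable def wB (t : ℝ) : ℝ := (1 + 3 * t - t ^ 4 + t ^ 5) / (3 * (1 + t) ^ 2 * N t)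
noncomputable def wC1 (t : ℝ) : ℝ := (2 + t + 2 * t ^ 2 - t ^ 3) / (6 * (1 + t) * N t)
noncomputable def wC2 (t : ℝ) : ℝ := t * (3 + t + t ^ 2 - t ^ 3) / (3 * (1 + t) ^ 2 * N t)

/-- The (normalised) weight of the pair of the base vertex and the vertex with index `i`. -/
noncomputable def wt (t : ℝ) : I → ℝ
  | (true, true, true, false) => 0
  | (false, false, true, false) => wA1 t
  | (true, false, true, false) => wA2 t
  | (false, true, true, false) => wA3 t
  | (true, true, false, false) => wB t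
  | (_, _, false, false) => 0
  | (true, true, _, true) => wC2 t
  | (false, false, _, true) => 0
  | (_, _, _, true) => wC1 t

/-- The indices of the ten neighbours of the base vertex. -/
def nb : I → Bool
  | (a, b, true, false) => !(a && b)
  | (a, b, false, false) => a && b
  | (a, b, _, true) => a || b

/-- The common factor of the weights. -/
noncomputable def den (w : E 5) : ℝ := w 0 ^ 2 * rho w * w 4

/-! ## Volumes of six regions of `ℝ³` (leaves V1-V6) -/

def RA1 (t : ℝ) : Set (E 3) := {v | t * |v 0| ≤ v 1 ∧ |v 2| + (1 + t ^ 2) * |v 0| + v 1 ≤ 1}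
def RA2 (t : ℝ) : Set (E 3) :=
  {v | t * |v 1| ≤ v 0 ∧ v 0 ≤ 1 ∧ |v 2| + (1 + t) * |v 1| + t * v 0 ≤ 1}
def RA3 (t : ℝ) : Set (E 3) := {v | |v 0| ≤ t * v 1 ∧ |v 2| + (1 + t) * |v 0| + v 1 ≤ 1}
def RB (t : ℝ) : Set (E 3) :=
  {v | v 0 ≤ 1 ∧ |v 2| ≤ (1 + t) * v 0 - (1 - t) * v 1 ∧ |v 2| ≤ (1 - t) * v 0 + (1 + t) * v 1 ∧
    |v 2| ≤ 2 - (1 + t) * (v 0 + v 1)}
def RC1 (t : ℝ) : Set (E 3) :=
  {v | 0 ≤ v 0 + t * v 1 ∧ t * v 0 ≤ v 1 ∧ t * v 0 ≤ v 2 ∧ 0 ≤ v 2 + v 0 ∧
    v 0 + t * v 1 + v 2 ≤ 1 ∧ -t * v 0 + v 1 + v 2 ≤ 1}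
def RC2 (t : ℝ) : Set (E 3) :=
  {v | v 2 ≤ t * v 0 ∧ v 2 ≤ v 1 ∧ 0 ≤ v 2 + t * v 1 ∧ 0 ≤ v 2 + v 0 ∧
    v 0 + t * v 1 + v 2 ≤ 1 ∧ t * v 0 + v 1 - v 2 ≤ 1}

/-- TET (tool, proved first): the volume of a tetrahedron
`{v : 0 ≤ φ_i(v), c_1 φ_1(v) + c_2 φ_2(v) + c_3 φ_3(v) ≤ h}`, for the rows `φ_i` of a matrix `A`
with `det A ≠ 0`, `c_i > 0`, `h ≥ 0`, is `h³ / (6 |det A| c_1 c_2 c_3)`.  Proof: the linear map with
matrix `A` takes it to the tetrahedron `{u ≥ 0, ∑ c_i u_i ≤ h}` (`addHaar_preimage_linearMap`), and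
the scaling `u_i ↦ c_i u_i` this one to `{u ≥ 0, ∑ u_i ≤ h}`, whose volume is `h³/6` (Fubini, or an
iterated integral). -/
def S_TET : Prop := ∀ (A : Matrix (Fin 3) (Fin 3) ℝ) (c : Fin 3 → ℝ) (h : ℝ), A.det ≠ 0 →
  (∀ i, 0 < c i) → 0 ≤ h →
    volume {v : E 3 | (∀ i, 0 ≤ ∑ j, A i j * v j) ∧ ∑ i, c i * ∑ j, A i j * v j ≤ h} =
      ENNReal.ofReal (h ^ 3 / (6 * |A.det| * (c 0 * c 1 * c 2)))

/-- SPLIT (tool, easy): a set is split by a plane into two parts whose volumes add up. -/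
def S_SPLIT : Prop := ∀ (φ : Fin 3 → ℝ) (R : Set (E 3)) (c : ℝ), φ ≠ 0 → MeasurableSet R →
  volume R = volume (R ∩ {v | c ≤ ∑ j, φ j * v j}) + volume (R ∩ {v | ∑ j, φ j * v j ≤ c})

/-- V1. By the reflections `v 0 ↦ -v 0`, `v 2 ↦ -v 2` the volume is 4 times the volume of the part
`v 0 ≥ 0, v 2 ≥ 0`, the tetrahedron with `φ = (v 0, v 2, v 1 - t v 0)`, `c = (N t, 1, 1)`, `h = 1`,
`|det| = 1`. Total `4/(6 N)`. -/
def S_V1 : Prop := ∀ t : ℝ, 0 < t → t < 1 → volume (RA1 t) = ENNReal.ofReal (2 * wA1 t)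
/-- V2. By symmetry 4 times the part `v 1, v 2 ≥ 0`: this is the tetrahedron
`v 1, v 2, v 0 - t v 1 ≥ 0`, `v 2 + (1+t) v 1 + t v 0 ≤ 1`, that is
`1 * v 2 + N * v 1 + t * (v 0 - t v 1) ≤ 1` (volume `1/(6 N t)`), minus (up to measure zero) the
part with `v 0 ≥ 1`, which is the translated tetrahedron `v 1, v 2, v 0 - 1 ≥ 0`,
`v 2 + (1+t) v 1 + t (v 0 - 1) ≤ 1 - t` (there `v 0 ≥ t v 1` holds automatically) of volume
`(1-t)³/(6 t (1+t))`. -/
def S_V2 : Prop := ∀ t : ℝ, 0 < t → t < 1 → volume (RA2 t) = ENNReal.ofReal (2 * wA2 t)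
/-- V3. By symmetry 4 times the part `v 0, v 2 ≥ 0`: tetrahedron `φ = (v 0, v 2, t v 1 - v 0)`,
`v 2 + (1+t) v 0 + v 1 = 1 * v 2 + (N/t) v 0 + (1/t)(t v 1 - v 0)`, `|det| = t`, volume
`t/(6 N)`. -/
def S_V3 : Prop := ∀ t : ℝ, 0 < t → t < 1 → volume (RA3 t) = ENNReal.ofReal (2 * wA3 t)
/-- V4. Twice the part `β := v 2 ≥ 0`. With `f₁ = (1+t) v 0 - (1-t) v 1`,
`f₂ = (1-t) v 0 + (1+t) v 1`, `u = f₁ - β`, `v = f₂ - β` the part is `β, u, v ≥ 0`,
`g := β + (1+t)(v 0 + v 1) ≤ 2`, `v 0 ≤ 1`, where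
`g = (2N/(1+t²)) β + ((1+t)t/(1+t²)) u + ((1+t)/(1+t²)) v`, determinant of `(β,u,v)`: `2(1+t²)`.
Without `v 0 ≤ 1` the volume is (TET, `h = 2`) `(1+t²)²/(3 N t (1+t)²)`.
The part with `v 0 ≥ 1` is the small tetrahedron `β ≥ 0`, `v ≥ 0`, `2 - g ≥ 0`, `v 0 ≥ 1` (there
`u ≥ 0` holds automatically) with the apex `(1/t, -(1-t)/(t(1+t)), 0)`: `1/t - v 0` is a positive
combination of `β, v, 2 - g`; its volume is
`(1-t)³(1+t) N/(1+t²)²` times the volume above. Difference `= wB t`. -/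
def S_V4 : Prop := ∀ t : ℝ, 0 < t → t < 1 → volume (RB t) = ENNReal.ofReal (2 * wB t)
/-- V5. Split by the plane `(1+t) v 0 = (1-t) v 1` (on the side `≥` the binding inequality is
`v 0 + t v 1 + v 2 ≤ 1`, on the other side `-t v 0 + v 1 + v 2 ≤ 1`) and the second part by
`v 0 = 0`:
(1) `(1+t) v 0 ≥ (1-t) v 1`: tetrahedron `a = v 1 - t v 0`, `b = (1+t) v 0 - (1-t) v 1`,
`c = v 2 - t v 0`; `v 0 + t v 1 + v 2 = ((1+t)/(1+t²)) a + (N/(1+t²)) b + c`, `|det| = 1+t²`,
volume `(1+t²)/(6(1+t)N)`;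
(2) `(1+t) v 0 ≤ (1-t) v 1`, `v 0 ≥ 0`: `a = v 0`, `b = (1-t) v 1 - (1+t) v 0`, `c = v 2 - t v 0`;
`-t v 0 + v 1 + v 2 = ((1+t)/(1-t)) a + (1/(1-t)) b + c`, `|det| = 1-t`, volume
`(1-t)/(6(1+t))`;
(3) `v 0 ≤ 0`: `a = -v 0`, `b = t v 1 + v 0`, `c = v 2 + v 0`;
`-t v 0 + v 1 + v 2 = (N/t) a + (1/t) b + c`, `|det| = t`, volume `t/(6N)`.
Sum `= wC1 t`. -/
def S_V5 : Prop := ∀ t : ℝ, 0 < t → t < 1 → volume (RC1 t) = ENNReal.ofReal (wC1 t)
/-- V6. The isometry `(v 0, v 1, v 2) ↦ (v 1, v 0, -v 2)` preserves `RC2 t` and exchanges the two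
sides of the plane `(1-t)(v 0 - v 1) + 2 v 2 = 0`; on the side `≥ 0` the binding inequality is
`v 0 + t v 1 + v 2 ≤ 1` (the other one follows). So the volume is twice that of the part
`≥ 0`, a cone over a quadrilateral with the rays `e = (1,0,0)`, `r = (1,t,t)`,
`X = (1-t,1+t,t(1-t))`, `Y = (1+t,1-t,-t(1-t))`, cut by `ℓ = v 0 + t v 1 + v 2 ≤ 1`. The plane
spanned by `e` and `X`, `(1+t) v 2 = t(1-t) v 1`, splits it into the cones over `e, r, X`
(volume `t(1+t²)/(6N(1+t))`; `ℓ(e) = 1`, `ℓ(r) = N`, `ℓ(X) = 1+t`, `|det(e,r,X)| = t(1+t²)`) and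
`e, X, Y` (volume `2t(1-t)/(6(1+t)²)`; `ℓ(Y) = 1+t`, `|det| = 2t(1-t)`). Total
`wC2 t`. (The facets of the cone are `v 2 ≤ t v 0`, `v 2 ≤ v 1`, `v 2 ≥ -t v 1` and the dividing
plane; `v 2 ≥ - v 0` is implied.) -/
def S_V6 : Prop := ∀ t : ℝ, 0 < t → t < 1 → volume (RC2 t) = ENNReal.ofReal (wC2 t)

/-! ## Vertices, edges and weights on the core -/

/-- VERT. The vertices of `Q w` are the 16 points `pts w i`, which are distinct. Proof: all have the
same norm, so each is the only maximiser over the 16 points (hence over the hull) of its own inner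
product functional; distinct: compare coordinates (`0 < w 1 < w 0`, `w 4 > 0`, `(w 2, w 3) ≠ 0`). -/
def S_VERT : Prop := ∀ w : E 5, core w → verts (Q w) = Set.range (pts w) ∧
  Function.Injective (pts w)

/-- EDG. The edges at the base vertex `w`. In the normalised coordinates `ti w p q β₁ β₂ η`
(`inner_ti_false/true`, `exists_ti`, `mem_polar`) the functional `f` has the values
`±p ± t q ± β₁ ± ± η` etc. The segment from `w` to `pts w i` is exposed by (values at all other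
vertices are `< 1`, at the two ends `= 1`; `t = tt w`):
`(-,-,+,0)`: `p = q = 0, β₁ = η = 1/2, β₂ = 0`;
`(+,-,+,0)`: `p = β₁ = 1/2, q = η = β₂ = 0`;
`(-,+,+,0)`: `q = 1/2, β₁ = 1 - t/2, p = η = β₂ = 0`;
`(+,+,-,0)`: `p = η = 1/2, q = β₁ = β₂ = 0`;
`(-,+,s,1)`: `p = 0, q = η = 1/4, β₁ = 1 - (1+t)/4, β₂ = sg s * (1 - 2/4)`;
`(+,-,s,1)`: `q = 0`, `p = η = 1/4`, `β₁ = 1 - 2/4`, `β₂ = sg s * (1 - (1+t)/4)`;
`(+,+,s,1)`: `p = q = 1/4, η = 0, β₁ = 1 - (1+t)/4, β₂ = sg s * (1 - (1+t)/4)`.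
For the other five indices `i ≠ o` the segment is not a face, because its midpoint is a convex
combination of other vertices (a face containing the midpoint would contain these vertices, which
are extreme points and not on the segment):
`w + pts w (a,b,-,0) = pts w (+,+,-,0) + pts w (a,b,+,0)`, and
`w + pts w (-,-,s,1) = θ (pts w (+,-,+,0) + pts w (+,-,s,1)) + (1-θ) (pts w (-,+,+,0) + pts w (-,+,s,1))`
with `θ = 1/(1+t)`. For `i = o` the two ends coincide. -/
def S_EDG : Prop := ∀ w : E 5, core w → ∀ i : I, IsEdge (Q w) w (pts w i) ↔ nb i = true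

/-- WA1. `i = (-,-,+,0)`. In normalised coordinates the dual face is
`{p = -t q, β₁ = 1 - η, (q, η, β₂) ∈ RA1 t}`; use `cw_of_image` with `x₀ = ti w 0 0 1 0 0` and
`F v = ti w (-t v₀) (v₀) (-v₁) (v₂) (v₁)` and `m = 1/(2 den w)`; Gram determinant of `F`:
`(1+t²)/x² · (1/ρ + 1/a²) / ρ` (`x = w 0`, `ρ = rho w`, `a = w 4`; the columns are orthogonal) and
`‖s‖²‖t‖² - ⟪s,t⟫² = 4 x² (1+t²)(ρ + a²)`. -/
def S_WA1 : Prop := ∀ w : E 5, core w →
  cw (Q w) w (pts w (false, false, true, false)) = wA1 (tt w) / den w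
/-- WA2. `i = (+,-,+,0)`: dual face `{η = -t q, β₁ = 1 - p, (p, q, β₂) ∈ RA2 t}`,
`x₀ = ti w 0 0 1 0 0`, `F v = ti w v₀ v₁ (-v₀) v₂ (-t v₁)`, `m = 1/(2 den w)`, Gram
`(1/x² + 1/ρ)(1/x² + t²/a²)/ρ`, and `‖s‖²‖t‖² - ⟪s,t⟫² = 4 (x²t² + a²)(x² + ρ)`. -/
def S_WA2 : Prop := ∀ w : E 5, core w →
  cw (Q w) w (pts w (true, false, true, false)) = wA2 (tt w) / den w
/-- WA3. `i = (-,+,+,0)`: dual face `{η = -p, β₁ = 1 - t q, (p, q, β₂) ∈ RA3 t}`,
`x₀ = ti w 0 0 1 0 0`, `F v = ti w v₀ v₁ (-t v₁) v₂ (-v₀)`, `m = 1/(2 den w)`. -/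
def S_WA3 : Prop := ∀ w : E 5, core w →
  cw (Q w) w (pts w (false, true, true, false)) = wA3 (tt w) / den w
/-- WB. `i = (+,+,-,0)`: dual face `{β₁ = 0, η = 1 - p - t q, (p, q, β₂) ∈ RB t}`,
`x₀ = ti w 0 0 0 0 1`, `F v = ti w v₀ v₁ 0 v₂ (-v₀ - t v₁)`, `m = 1/(2 den w)`. (The inequality
`t q ≤ 1` needed for the vertex `(-,+,..,0)` follows from `RB`: `q ≤ 1`.) -/
def S_WB : Prop := ∀ w : E 5, core w →
  cw (Q w) w (pts w (true, true, false, false)) = wB (tt w) / den w
/-- WC1. `i = (-,+,s,1)`: dual face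
`{β₁ = 1 - (p + t q + η), β₂ = sg s (1 - (-t p + q + η)), (p, q, η) ∈ RC1 t}`,
`x₀ = ti w 0 0 1 (sg s) 0`, `F v = ti w v₀ v₁ (-(v₀ + t v₁ + v₂)) (-sg s (-t v₀ + v₁ + v₂)) v₂`,
`m = 1/den w`. -/
def S_WC1 : Prop := ∀ w : E 5, core w → ∀ s : Bool,
  cw (Q w) w (pts w (false, true, s, true)) = wC1 (tt w) / den w
/-- WC2. `i = (+,+,s,1)`: dual face
`{β₁ = 1 - (p + t q + η), β₂ = sg s (1 - (t p + q - η)), (p, q, η) ∈ RC2 t}`,
`x₀ = ti w 0 0 1 (sg s) 0`, `F v = ti w v₀ v₁ (-(v₀ + t v₁ + v₂)) (-sg s (t v₀ + v₁ - v₂)) v₂`,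
`m = 1/den w`. -/
def S_WC2 : Prop := ∀ w : E 5, core w → ∀ s : Bool,
  cw (Q w) w (pts w (true, true, s, true)) = wC2 (tt w) / den w

/-- WALL. All weights. Proof: `cw` is symmetric and invariant under isometries `g` mapping `Q w` to
itself (`cw Q (g s) (g t) = cw Q s t`: extreme points, exposed segments, dual faces and `μHE` are
carried along); `g = L i` maps `w` to `pts w i` and `pts w (rel i j)` to `pts w j`, so
`cw (pts w i) (pts w j) = cw w (pts w (rel i j))`. For the indices of EDG which are not neighbours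
the weight is `0` by definition. For `(+,-,s,1)` use
`cw w (pts w l) = cw (pts w (invI l)) w = cw w (pts w (invI l))` and
`invI (+,-,s,1) = (-,+,!s,1)`. The other ones are WA1, ..., WC2. -/
def S_WALL : Prop := ∀ w : E 5, core w → ∀ i j : I,
  cw (Q w) (pts w i) (pts w j) = wt (tt w) (rel i j) / den w

/-! ## The second eigenvalue -/

/-- The Rayleigh quotients, on the index set `I`. -/
def ray (t : ℝ) : Set ℝ :=
  {ρ : ℝ | ∃ v : I → ℝ, v ≠ 0 ∧ ∑ i, v i = 0 ∧
    ρ = (∑ i, ∑ j, v i * (wt t (rel i j) / ∑ l, wt t l) * v j) / ∑ i, v i ^ 2}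

/-- LAM. The second eigenvalue is the supremum of `ray (tt w)`. From VERT and WALL: reindex the
sums over `verts (Q w)` by the bijection `i ↦ pts w i`; the factor `1/den w` cancels
(`den w > 0`); `∑_j wt t (rel i j) = ∑_l wt t l`, as `j ↦ rel i j` is a bijection of `I`. -/
def S_LAM : Prop := ∀ w : E 5, core w → lam1 (Q w) = sSup (ray (tt w))

/-- LOW. `D := ∑ l, wt t l = (9+20t+11t²+4t³-6t⁴+2t⁵)/(3(1+t)²N)`. The vector
`v (a,b,s,0) = sg s`, `v (a,b,s,1) = 0` has the Rayleigh quotient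
`(wA1+wA2+wA3-wB)/D = (3+2t+3t²)/(9+20t+11t²+4t³-6t⁴+2t⁵)`, and
`5(3+2t+3t²) - (9+20t+11t²+4t³-6t⁴+2t⁵) = 2(1-t)²(3+t+t²-t³) > 0`. Bounded above: all
entries are between `0` and `1`, so each quotient is at most `16`
(`|v_i v_j| ≤ (v_i² + v_j²)/2`). -/
def S_LOW : Prop := ∀ t : ℝ, 0 < t → t < 1 → 1 / 5 < sSup (ray t) ∧ BddAbove (ray t)

/-- UP. For `t → 1` all the ten nonzero entries `wt t i / D` tend to `1/10`. Let `A` be the matrix
`A i j = 1` if `nb (rel i j)` and `0` otherwise. For `∑ v = 0` we have `vᵀ A v ≤ 2 |v|²`: put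
`y_j(a,b) = v(a,b,+,j) + v(a,b,-,j)`, `z_j(a,b) = v(a,b,+,j) - v(a,b,-,j)`, `S_j = ∑ y_j`,
`Z_j = ∑ z_j`; then
`2|v|² - vᵀ A v = ∑_{ab} (y_0(ab) + y_1(-a,-b))² + ∑_j (2 ∑ z_j² - Z_j²/2) + S_0² - S S_0 - S²/2` with
`S = S_0 + S_1 = 0` and `4 ∑ z_j² ≥ Z_j²` (identity checked numerically, for all `v`; `A i j = 0` exactly
for `j = i`, for the `j` in the same block with the opposite `s` and different `(a,b)`, and for the
`j` in the other block with the opposite `(a,b)`).  Hence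
`vᵀ T v ≤ (1/5) |v|² + 16 δ |v|²` if all entries of `T - A/10` are at most `δ` in absolute value. -/
def S_UP : Prop := ∀ ε : ℝ, 0 < ε → ∃ t₀ : ℝ, 0 < t₀ ∧ t₀ < 1 ∧ ∀ t, t₀ < t → t < 1 →
  sSup (ray t) < 1 / 5 + ε

/-! ## Combinatorial types -/

/-- The type of the pair `(w 0, w 1)`: zero, on a coordinate axis, on a diagonal, generic. -/
noncomputable def zt (w : E 5) : ℕ :=
  open Classical in
  if w 0 = 0 ∧ w 1 = 0 then 0 else if w 0 = 0 ∨ w 1 = 0 then 1
  else if |w 0| = |w 1| then 2 else 3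

/-- The normalised point for the parameter `t` (`y` is nonzero if `u`, `a` is nonzero if `v`). -/
noncomputable def pat (u v : Bool) (t : ℝ) : E 5 :=
  !₂[1, t, if u then 1 else 0, 0, if v then 1 else 0]

/-- CONST. For `0 < t, t' < 1` the same index sets are faces.
(Numerically checked with exact arithmetic for 8 values of `t` and all four `(u, v)`.)

Proof. A functional is given by `f = (p,q,β₁,β₂,η)`, its value at the point `(a,b,s,0)` of
`pat true true t` is `a p + t b q + s β₁ + a b η`, at `(a,b,s,1)` it is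
`t a p + b q + s β₂ - a b η`. For `pat u v t` with `u = false` (`v = false`) one gets the same
values with `β₁ = β₂ = 0` (`η = 0`). So it is enough to find for every `f` (for `t`) an `f'`
(for `t'`) with the same set of maximisers, such that `β = 0 → β' = 0` and `η = 0 → η' = 0`. (The
face sets are `∅`, and the sets of maximisers.)  Write `α = (p,q,η)`, and
`h₀(α) = max_{a,b} (a p + t b q + a b η)`, `h₁(α) = max_{a,b} (t a p + b q - a b η)`,
`A₀(α), A₁(α) ⊆ Bool × Bool` the sets of maximisers. The maximum over `j = 0` is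
`h₀ + |β₁|`, with the maximisers `A₀ × {s : s β₁ = |β₁|}`, over `j = 1` it is `h₁ + |β₂|` with
`A₁ × {s : s β₂ = |β₂|}`. Hence the set of maximisers of `f` depends only on
`A₀(α), A₁(α)`, `sign(β₁) ∈ {±,0}`, `sign(β₂)` and the sign of `(h₀+|β₁|) - (h₁+|β₂|)`.
(1) Enough: for every `α` there is `α'` (for `t'`) with `A₀' = A₀`, `A₁' = A₁`,
`sign(h₀' - h₁') = sign(h₀ - h₁)` and `sign η' = sign η`. Indeed then choose `β'` with the same signs
of `β₁, β₂` and the same sign of the comparison (if `β₁ = β₂ = 0` it is the sign of `h₀ - h₁`;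
if `β₁ ≠ 0 = β₂` the comparison `h₀ - h₁ + |β₁|` has sign `+` arbitrarily if `|β₁'|` is large,
and sign `0` or `-` is possible iff `h₀ - h₁ < 0`; etc.).
(2) By the symmetries of the group (`f ↦ f ∘ L i`, which permutes the labels independently of `t`)
assume `0 ≤ q ≤ p`. If `p = 0` (so `q = 0`) take `α' = α` (the sets `A₀, A₁` depend only on the
sign of `η`, and `h₀ = h₁ = |η|`).  Let `p > 0`; then in `A₀` only
`(+,+)` (value `p + (tq+η)`) and `(+,-)` (value `p - (tq+η)`) can occur; in `A₁` the values are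
`±(q - tp) + η` at `(-,+)`, `(+,-)` and `±(q+tp) - η` at `(+,+)`, `(-,-)`; as `q + tp > 0`,
`(-,-)` never occurs; put `m = min(q, tp)`: `max(|q-tp|+η, q+tp-η)` is attained at the first one
iff `η ≥ m`, at the second one iff `η ≤ m`. `h₀ = p + |tq+η|`, `h₁ = max(q,tp) + |η - m|`.
Zone U, `η ≥ m`: `h₀ - h₁ = p + tq - max(q,tp) + m > 0`; `A₀` is `{(+,+)}` unless `q = η = 0`, when it is
`{(+,+),(+,-)}`. Data: the sign of `q - tp`, and whether `η = m`, and whether `q = η = 0`.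
7 cells with representatives for `t'`: `p = 1` and `q = t'/2`, `q = t'`, `q = (1+t')/2`
(sign of `q - t'p`), each with `η = min(q,t')` or `η = 1`; and `(1,0,0)`. (If `q = 0 < η` the data are
those of `q = t'/2`, `η = 1`.)
Zone M, `-tq < η < m`: `A₀ = {(+,+)}`, `A₁ = {(+,+)}`, `h₀ - h₁ = 2η + (1-t)(p-q) =: g`.
Possible (sign g, sign η): `(+,+), (+,0), (+,-), (0,-), (0,0), (-,-)` (`g ≤ 0` implies
`η ≤ 0`, and `g < 0` implies `η < 0`), with representatives (`p = 1`): `(q,η) = (1/2, t'/4)`,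
`(1/2, 0)`, `(1/2, -(1-t')t'/8)`, `(1/(1+t'), -t'(1-t')/(2(1+t')))`, `(1, 0)`, `(1, -t'/2)`.
Zone D, `η ≤ -tq` (and not `q = η = 0`): `A₁ = {(+,+)}`, `A₀ = {(+,-)}` if `η < -tq`,
`{(+,+),(+,-)}` if `η = -tq`; `h₀ - h₁ = (1-t)p - (1+t)q`; `η < 0`. 6 cells; representatives:
`p = 1`, `q = (1-t')/(2(1+t'))`, `(1-t')/(1+t')`, `1`, and `η = -t'q` or `η = -1`. -/
def S_CONST : Prop := ∀ (u v : Bool) (t t' : ℝ), 0 < t → t < 1 → 0 < t' → t' < 1 →
  FaceSet (pts (pat u v t)) ⊆ FaceSet (pts (pat u v t'))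

/-- CODE. The combinatorial type depends only on the type of `(w 0, w 1)` and on whether
`(w 2, w 3)` and `w 4` are zero. Proof: replacing `w` by `pts w i` does not change `Q w`, and by a
suitable `i` one gets `w 0 ≥ w 1 ≥ 0`. The invertible linear maps
`M = (x, x, [complex multiplication by c on (w 2, w 3)], a)`, `x, c, a ≠ 0`, satisfy
`M (pts w i) = pts (M w) i`, so `Q (M w) = M '' Q w` has the same type (exposed faces are carried
along; see `facesIso` in the library module Q142/OrbStrata). So `Q w` has the type of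
`Q (pat u v t)` with `t = w 1 / w 0 ∈ [0, 1]` (if `(w 0, w 1) ≠ 0`; `t = 0`, `t = 1`, `0 < t < 1`
for `zt w = 1, 2, 3`), or of `Q` of `!₂[0,0,u,0,v]`; for `0 < t < 1` use CONST and
`Pool.Agent.R29.OP.faceIso` (A1: the face lattice of the hull is the poset of the face sets). -/
def S_CODE : Prop := ∀ w w' : E 5, zt w = zt w' → ((w 2 = 0 ∧ w 3 = 0) ↔ (w' 2 = 0 ∧ w' 3 = 0)) →
  (w 4 = 0 ↔ w' 4 = 0) → SameType (Q w) (Q w')

/-- DIM. The face lattice determines the dimension of a polytope. Proof: let `p` be the points.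
(i) If `S ⊂ S'` are different nonempty face sets then the affine span of `p '' S` is strictly
smaller (the functional of `S` is constant on `p '' S` but not on `p '' S'`).
(ii) Every nonempty face set `S` whose span has dimension `e ≥ 1` contains a nonempty face set `S'`
of dimension `e - 1`: let `S' ≠ S` be a nonempty face set inside `S` of largest dimension `e'`
(exists: a face set of dimension 0, e.g. take any functional not constant on `S` ...), and suppose
`e' ≤ e - 2`. Let `c ≤ h` define `S'`. There is an affine `g`, zero on `p '' S'`, which on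
`p '' S` is not a multiple of `h - c`; we may assume that it is positive somewhere on `p '' S`.
With `M = max_{i ∈ S \ S'} g(p i)/(h - c(p i)) > 0` the function `M (h - c) - g` is `≥ 0` on
`p '' S`, zero on `S'` and somewhere else on `S`, and not everywhere zero on `S`; adding a large
multiple of the functional of `S` one sees that its zero set `S''` in `S` is a face set, of
dimension `> e'` as `h - c` vanishes on `S'` and not on `S''`. Contradiction.
So the largest length of a chain of nonempty faces is the dimension plus one, and this is preserved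
by isomorphisms (`faceIso` of the library passes from the face lattice to the face sets). -/
def S_DIM : Prop := ∀ (k : ℕ) (J J' : Type) [Finite J] [Finite J'] [Nonempty J] [Nonempty J']
    (p : J → E k) (p' : J' → E k),
  SameType (convexHull ℝ (Set.range p)) (convexHull ℝ (Set.range p')) →
    Module.finrank ℝ (vectorSpan ℝ (Set.range p)) = Module.finrank ℝ (vectorSpan ℝ (Set.range p'))

/-- The dimension of `Q w`. -/
noncomputable def nd (w : E 5) : ℕ :=
  open Classical in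
  (if w 0 = 0 ∧ w 1 = 0 then 0 else 2) + (if w 2 = 0 ∧ w 3 = 0 then 0 else 2) +
    (if w 4 = 0 then 0 else 1)

/-- ND. Computation of the dimension: the span of the differences contains
`2 (w 0, w 1, 0, 0, 0)` (from `(+,+,+,0)` and `(-,-,+,0)`) and its images, `2 (0, 0, w 2, w 3, 0)`
(from `(+,+,±,0)`) and its images, and then `(0,0,0,0,2 w 4)` (from `(+,-,+,0)`), and it is
contained in the sum of these coordinate subspaces. -/
def S_ND : Prop := ∀ w : E 5, Module.finrank ℝ (vectorSpan ℝ (Set.range (pts w))) = nd w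

/-- FULL. `core w → FullDim (Q w)`, from ND (or directly), with
`interior_convexHull_nonempty_iff_affineSpan_eq_top`. -/
def S_FULL : Prop := ∀ w : E 5, core w → FullDim (Q w)

/-- NI. The types for `t = 1/2`, `t = 0` and `t = 1` are different. All 16 points are distinct and
of the same norm, so the atoms of the poset of face sets are the singletons, and an isomorphism
(use `faceIso` of the library) preserves the numbers of elements of the face sets.
`t = 1/2` has a face set with exactly 5 elements: `(p,q,β₁,β₂,η) = (4/7, 2/7, 0, 5/7, 2/7)`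
(maximum 1 at `(+,+,±,0)`, `(+,+,+,1)`, `(+,-,+,1)`, `(-,+,+,1)`), and one with exactly 6 elements:
`(1, 0, 0, 1/2, 0)` (maximum 1 at `(+,±,±,0)` and `(+,±,+,1)`).
`t = 0`, never 5 maximisers: the values are `a p + s β₁ + a b η` (`j = 0`; the three signs `a`, `s`,
`ab` are independent) and `b q + s β₂ - a b η` (`j = 1`; `b`, `s`, `ab` independent), so the maxima are
`|p|+|β₁|+|η|` with `2^i` maximisers, `i` the number of zeros among `p, β₁, η`, and
`|q|+|β₂|+|η|` with `2^j` maximisers. `2^i ≠ 5`, `2^j ≠ 5`, and if the maxima agree and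
`2^i + 2^j = 5` then e.g. `i = 0`, `j = 2`, so `q = β₂ = 0`, `p, β₁, η ≠ 0` and
`|p|+|β₁|+|η| > |η|`, contradiction (the case `η = 0` gives two even numbers).
`t = 1`, never 6 maximisers: the values are `a p + b q + s β₁ + a b η` (`j = 0`), `a p + b q + s β₂ - a b η`
(`j = 1`). Let `h₀, h₁` be the maxima over `(a,b)` and `k₀, k₁` the numbers of maximisers `(a,b)`
for `β = 0`. If `p q η > 0`: `h₀ = |p|+|q|+|η|`, `k₀ = 1`, `h₁ = h₀ - 2 min(|p|,|q|,|η|)`,
`k₁ ≤ 3`; if `p q η < 0` the roles are exchanged; if `p q η = 0` and `z` of the three numbers vanish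
then `h₀ = h₁ = |p|+|q|+|η|`, `k₀ = k₁ = 1, 2, 4` for `z = 1, 2, 3`. So in the first case the number of
maximisers of `f` is `≤ 2`, or `k₁ ≤ 3` (if `h₁ + |β₂| > h₀ + |β₁|`, then `β₂ ≠ 0`), or at most
`2 + k₁ ≤ 5` (equality of the maxima, again `β₂ ≠ 0`); in the last case it is one of
`k, 2k` (different maxima), `4k` (`β₁ = β₂ = 0`), `2k` (`|β₁| = |β₂| ≠ 0`), never 6. (A finite computation
with real parameters: one can also argue with the 16 inequalities directly.) -/
def S_NI : Prop := ¬ SameType (Q (nrm (1 / 2))) (Q (nrm 0)) ∧ ¬ SameType (Q (nrm (1 / 2))) (Q (nrm 1))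

/-! ## Strata -/

/-- SUB. Charts of the intersection of the sphere with a linear subspace `M`. Proof: put
`π x = x - (⟪x,p⟫/r²) p` and `φ x = π x + ((‖x‖² - r²)/(2 r²)) p` on
`{x : ⟪x,p⟫ > 0}` near `p`; its inverse is `y ↦ π y + s p`,
`s = sqrt (1 + 2 ⟪y,p⟫/r² - ‖π y‖²/r²)`; for `x ∈ M` (`p ∈ M`) we have `φ x ∈ M`, and
`‖x‖ = r` iff `⟪φ x, p⟫ = 0`; so `φ '' (sphere ∩ M ∩ source) = (M ∩ p^⊥) ∩ target`. Restrict the
target to a small ball about `φ p = 0`; then the intersection with the subspace is convex, hence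
preconnected, and so is its preimage. -/
def S_SUB : Prop := ∀ (k : ℕ) (r : ℝ) (M : Submodule ℝ (E k)) (p : E k) (V : Set (E k)), 0 < r →
  p ∈ M → ‖p‖ = r → IsOpen V → p ∈ V →
  ∃ (φ : OpenPartialHomeomorph (E k) (E k)) (W : AffineSubspace ℝ (E k)),
    p ∈ φ.source ∧ φ.source ⊆ V ∧ ContDiffOn ℝ ∞ φ φ.source ∧ ContDiffOn ℝ ∞ φ.symm φ.target ∧
      φ '' ((sphere (0 : E k) r ∩ M) ∩ φ.source) = (W : Set (E k)) ∩ φ.target ∧
      IsPreconnected ((sphere (0 : E k) r ∩ M) ∩ φ.source)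

/-- MAN. All strata are submanifolds. From CODE, DIM + ND (isomorphic types have the same `nd`) and
SUB. Let `C = typeClass G r w₀`, `p` in a component `K` of `C`. Let `M` be the coordinate subspace
of all `x` with `x 0 = x 1 = 0` if `p 0 = p 1 = 0`, `x 2 = x 3 = 0` if `p 2 = p 3 = 0`, `x 4 = 0` if
`p 4 = 0`. Near `p` the points of `C` have the same `nd`, and their nonzero parts (`z`, `y`, `a`)
include those of `p`, so they are in `M`. If `zt p ∈ {0, 3}`, all points of `M ∩ sphere` near `p`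
have the data of `p` and are in `C` by CODE. If `zt p ∈ {1, 2}` let
`M' = {x ∈ M : p 1 x 0 = p 0 x 1}`; near `p` the points of `M' ∩ sphere` have the data of `p` and
are in `C`, and the points of `M ∩ sphere` not in `M'` have `zt = 3` and otherwise the data of `p`,
so by CODE they are all in `C` or all not in `C`. So `C ∩ V = sphere ∩ M ∩ V` or
`= sphere ∩ M' ∩ V` for an open `V ∋ p`; with the chart of SUB (source in `V`, preconnected) the same
holds for `K` instead of `C`. -/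
def S_MAN : Prop := ∀ r : ℝ, 0 < r → ∀ w ∈ sphere (0 : E 5) r, IsSubmanifold (stratum G r w)

/-- STR. The stratum of a point of the core. From CODE, DIM + ND, NI. The class `C` of `w₀`
contains all points of the sphere in the core (CODE), which form a preconnected set (image of the
product of `{0 < x 1 < x 0}`, the punctured plane and the half line under normalisation). All
`w ∈ C` have `nd w = 5`, and `zt w = 3` by NI and CODE. So `w 1`, `w 0 - w 1` and `w 4` have no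
zero on `C` and have constant sign on the preconnected component. -/
def S_STR : Prop := ∀ r : ℝ, 0 < r → ∀ w ∈ sphere (0 : E 5) r, core w →
  stratum G r w = {x | x ∈ sphere (0 : E 5) r ∧ core x}

end Pool.Agent.H126.Orb
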